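import Mathlib

set_option autoImplicit false

/-!
# Moments of the divisor function and of Dirichlet polynomials: counting
-/

namespace Pool.Agent.Q138.GS

open Finset

/-- reindexing of a sum over the divisors -/
theorem div_sum_le (N : ℕ) (F : ℕ → ℝ) (G : ℕ → ℕ → ℝ) (hG : ∀ d e, 0 ≤ G d e)
    (h : ∀ d e, 1 ≤ d → 1 ≤ e → d * e ≤ N → F (d * e) ≤ G d e) :
    ∑ n ∈ Icc 1 N, (n.divisors.card : ℝ) * F n ≤ ∑ d ∈ Icc 1 N, ∑ e ∈ Icc 1 (N / d), G d e := by
  have h1 : ∀ n ∈ Icc 1 N, (n.divisors.card : ℝ) * F n ≤ ∑ x ∈ n.divisorsAntidiagonal, G x.1 x.2 := by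
    intro n hn
    rw [mem_Icc] at hn
    have e : (n.divisors.card : ℝ) * F n = ∑ _x ∈ n.divisorsAntidiagonal, F n := by
      rw [sum_const, nsmul_eq_mul]
      congr 2
      rw [← Nat.map_div_right_divisors, Finset.card_map]
    rw [e]
    refine sum_le_sum fun x hx => ?_
    rw [Nat.mem_divisorsAntidiagonal] at hx
    have hx0 : x.1 * x.2 ≠ 0 := by rw [hx.1]; exact hx.2
    have := h x.1 x.2 (Nat.pos_of_ne_zero (left_ne_zero_of_mul hx0))
      (Nat.pos_of_ne_zero (right_ne_zero_of_mul hx0)) (by rw [hx.1]; exact hn.2)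
    rwa [hx.1] at this
  refine (sum_le_sum h1).trans ?_
  rw [sum_sigma', sum_sigma']
  refine sum_le_sum_of_injOn_aux N G hG
where
  sum_le_sum_of_injOn_aux (N : ℕ) (G : ℕ → ℕ → ℝ) (hG : ∀ d e, 0 ≤ G d e) :
    ∑ x ∈ (Icc 1 N).sigma fun n => n.divisorsAntidiagonal, G x.2.1 x.2.2 ≤
      ∑ x ∈ (Icc 1 N).sigma fun d => Icc 1 (N / d), G x.1 x.2 := by
    classical
    have e : ∑ x ∈ (Icc 1 N).sigma fun n => n.divisorsAntidiagonal, G x.2.1 x.2.2 =
        ∑ y ∈ ((Icc 1 N).sigma fun n => n.divisorsAntidiagonal).image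
          (fun x : (_ : ℕ) × (ℕ × ℕ) => (⟨x.2.1, x.2.2⟩ : (_ : ℕ) × ℕ)), G y.1 y.2 := by
      rw [sum_image]
      intro x hx y hy hxy
      simp only [coe_sigma, Set.mem_sigma_iff, mem_coe, Nat.mem_divisorsAntidiagonal] at hx hy
      obtain ⟨n, a, b⟩ := x
      obtain ⟨m, c, d⟩ := y
      simp only [Sigma.mk.injEq, heq_eq_eq] at hxy
      obtain ⟨rfl, rfl⟩ := hxy
      have : n = m := hx.2.1.symm.trans hy.2.1
      subst this
      rfl
    rw [e]
    refine sum_le_sum_of_subset_of_nonneg ?_ fun _ _ _ => hG _ _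
    intro y hy
    rw [mem_image] at hy
    obtain ⟨x, hx, rfl⟩ := hy
    rw [mem_sigma, mem_Icc, Nat.mem_divisorsAntidiagonal] at hx
    have hx0 : x.2.1 * x.2.2 ≠ 0 := by rw [hx.2.1]; exact hx.2.2
    have h1 : 1 ≤ x.2.1 := Nat.pos_of_ne_zero (left_ne_zero_of_mul hx0)
    have h2 : 1 ≤ x.2.2 := Nat.pos_of_ne_zero (right_ne_zero_of_mul hx0)
    have h3 : x.2.1 * x.2.2 ≤ N := by rw [hx.2.1]; exact hx.1.2
    simp only [mem_sigma, mem_Icc]
    refine ⟨⟨h1, ?_⟩, h2, ?_⟩
    · nlinarith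
    · rw [Nat.le_div_iff_mul_le (by omega)]
      rwa [mul_comm]

theorem tau_mul (a b : ℕ) : ((a * b).divisors.card : ℝ) ≤ a.divisors.card * b.divisors.card := by
  have : (a * b).divisors.card ≤ a.divisors.card * b.divisors.card := by
    rw [Nat.divisors_mul]
    exact Finset.card_mul_le
  exact_mod_cast this

theorem harm_le (N : ℕ) : ∑ n ∈ Icc 1 N, (1 : ℝ) / n ≤ 1 + Real.log N := by
  have h := harmonic_le_one_add_log N
  rw [harmonic_eq_sum_Icc] at h
  push_cast at h
  simpa [one_div] using h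

theorem tau_H (j N : ℕ) : ∑ n ∈ Icc 1 N, (n.divisors.card : ℝ) ^ j / n ≤ (1 + Real.log N) ^ (2 ^ j) := by
  induction j with
  | zero => simpa using harm_le N
  | succ j ih =>
    have hl : 0 ≤ 1 + Real.log N := by
      have := Real.log_natCast_nonneg N
      linarith
    have h0 : 0 ≤ ∑ n ∈ Icc 1 N, (n.divisors.card : ℝ) ^ j / n := sum_nonneg fun _ _ => by positivity
    calc ∑ n ∈ Icc 1 N, (n.divisors.card : ℝ) ^ (j + 1) / n
        = ∑ n ∈ Icc 1 N, (n.divisors.card : ℝ) * ((n.divisors.card : ℝ) ^ j / n) := by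
          refine sum_congr rfl fun n _ => ?_
          ring
      _ ≤ ∑ d ∈ Icc 1 N, ∑ e ∈ Icc 1 (N / d),
          ((d.divisors.card : ℝ) ^ j / d) * ((e.divisors.card : ℝ) ^ j / e) := by
          refine div_sum_le N _ _ (fun d e => by positivity) fun d e hd he _ => ?_
          have h1 := tau_mul d e
          have h2 : (((d * e).divisors.card : ℝ)) ^ j ≤ (d.divisors.card * e.divisors.card : ℝ) ^ j :=
            pow_le_pow_left₀ (by positivity) h1 j
          have hd0 : (0 : ℝ) < d := by exact_mod_cast hd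
          have he0 : (0 : ℝ) < e := by exact_mod_cast he
          rw [div_mul_div_comm, ← mul_pow, Nat.cast_mul]
          exact div_le_div_of_nonneg_right h2 (by positivity)
      _ ≤ ∑ d ∈ Icc 1 N, ∑ e ∈ Icc 1 N,
          ((d.divisors.card : ℝ) ^ j / d) * ((e.divisors.card : ℝ) ^ j / e) := by
          refine sum_le_sum fun d _ => ?_
          refine sum_le_sum_of_subset_of_nonneg (Icc_subset_Icc le_rfl (Nat.div_le_self _ _))
            fun _ _ _ => by positivity
      _ = (∑ n ∈ Icc 1 N, (n.divisors.card : ℝ) ^ j / n) ^ 2 := by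
          rw [sq, sum_mul_sum]
      _ ≤ ((1 + Real.log N) ^ (2 ^ j)) ^ 2 := pow_le_pow_left₀ h0 ih 2
      _ = _ := by
          rw [← pow_mul, pow_succ]

theorem tau_S (j : ℕ) : ∃ κ : ℕ, ∀ N : ℕ,
    ∑ n ∈ Icc 1 N, (n.divisors.card : ℝ) ^ j ≤ N * (1 + Real.log N) ^ κ := by
  induction j with
  | zero => exact ⟨0, fun N => by simp⟩
  | succ j ih =>
    obtain ⟨κ, hκ⟩ := ih
    refine ⟨κ + 2 ^ j, fun N => ?_⟩
    have hl : 0 ≤ 1 + Real.log N := by
      have := Real.log_natCast_nonneg N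
      linarith
    calc ∑ n ∈ Icc 1 N, (n.divisors.card : ℝ) ^ (j + 1)
        = ∑ n ∈ Icc 1 N, (n.divisors.card : ℝ) * ((n.divisors.card : ℝ) ^ j) := by
          refine sum_congr rfl fun n _ => ?_
          ring
      _ ≤ ∑ d ∈ Icc 1 N, ∑ e ∈ Icc 1 (N / d),
          ((d.divisors.card : ℝ) ^ j) * ((e.divisors.card : ℝ) ^ j) := by
          refine div_sum_le N _ _ (fun d e => by positivity) fun d e hd he _ => ?_
          have h1 := tau_mul d e
          rw [← mul_pow]
          exact pow_le_pow_left₀ (by positivity) h1 j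
      _ ≤ ∑ d ∈ Icc 1 N, ((d.divisors.card : ℝ) ^ j / d) * (N * (1 + Real.log N) ^ κ) := by
          refine sum_le_sum fun d hd => ?_
          rw [mem_Icc] at hd
          have hd0 : (0 : ℝ) < d := by exact_mod_cast hd.1
          rw [← mul_sum]
          have h1 := hκ (N / d)
          have h2 : ((N / d : ℕ) : ℝ) ≤ N / d := Nat.cast_div_le
          have h3 : Real.log ((N / d : ℕ) : ℝ) ≤ Real.log N := by
            rcases Nat.eq_zero_or_pos (N / d) with h | h
            · rw [h]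
              simpa using Real.log_natCast_nonneg N
            · exact Real.log_le_log (by exact_mod_cast h) (by exact_mod_cast Nat.div_le_self N d)
          have h4 : 0 ≤ 1 + Real.log ((N / d : ℕ) : ℝ) := by
            have := Real.log_natCast_nonneg (N / d)
            linarith
          have h5 : ((N / d : ℕ) : ℝ) * (1 + Real.log ((N / d : ℕ) : ℝ)) ^ κ ≤
              (N / d) * (1 + Real.log N) ^ κ := by
            gcongr
          calc _ ≤ (d.divisors.card : ℝ) ^ j * ((N / d) * (1 + Real.log N) ^ κ) :=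
                mul_le_mul_of_nonneg_left (h1.trans h5) (by positivity)
            _ = _ := by
                field_simp
      _ = (∑ d ∈ Icc 1 N, (d.divisors.card : ℝ) ^ j / d) * (N * (1 + Real.log N) ^ κ) := by
          rw [sum_mul]
      _ ≤ (1 + Real.log N) ^ (2 ^ j) * (N * (1 + Real.log N) ^ κ) :=
          mul_le_mul_of_nonneg_right (tau_H j N) (by positivity)
      _ = _ := by
          rw [pow_add]
          ring

end Pool.Agent.Q138.GS
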