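import Pool.Agent.Q138.GS.Core
import Pool.Agent.Y901.VK.Bc
import Pool.Agent.Y145.VK.WDesc

set_option autoImplicit false

/-!
# From the mean square to almost every dilation
-/

namespace Pool.Agent.Q138.GS

open Finset MeasureTheory Filter Topology
open scoped ENNReal
open Pool.Agent.Y957.VK
open Pool.Agent.H376R2.MR (er)
open Pool.Agent.Y957.AD (er_norm er_add)

/-- the sums are smaller than the number of terms by every power of the logarithm -/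
def Sav (a : ℕ → ℂ) : Prop :=
  ∀ K : ℕ, Tendsto (fun N : ℕ => (Real.log N) ^ K / N * ‖∑ n ∈ Icc 1 N, a n‖) atTop (𝓝 0)

theorem lgc_nonneg (K N : ℕ) : 0 ≤ (Real.log N) ^ K / N := by
  have := Real.log_natCast_nonneg N
  positivity

theorem Sav.congr {a b : ℕ → ℂ} (h : Sav a) (hab : ∀ n, 1 ≤ n → a n = b n) : Sav b := by
  intro K
  refine (h K).congr fun N => ?_
  have : ∑ n ∈ Icc 1 N, a n = ∑ n ∈ Icc 1 N, b n := sum_congr rfl fun n hn => hab n (mem_Icc.1 hn).1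
  rw [this]

theorem Sav.zero : Sav fun _ => 0 := by
  intro K
  simp

theorem Sav.add {a b : ℕ → ℂ} (ha : Sav a) (hb : Sav b) : Sav fun n => a n + b n := by
  intro K
  have h := (ha K).add (hb K)
  rw [add_zero] at h
  refine squeeze_zero (fun N => mul_nonneg (lgc_nonneg K N) (norm_nonneg _)) (fun N => ?_) h
  rw [sum_add_distrib, ← mul_add]
  exact mul_le_mul_of_nonneg_left (norm_add_le _ _) (lgc_nonneg K N)

theorem Sav.smul {a : ℕ → ℂ} (c : ℂ) (ha : Sav a) : Sav fun n => c * a n := by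
  intro K
  have h := (ha K).const_mul ‖c‖
  rw [mul_zero] at h
  refine h.congr fun N => ?_
  rw [← mul_sum, norm_mul]
  ring

theorem Sav.sum {ι : Type*} (s : Finset ι) (a : ι → ℕ → ℂ) (h : ∀ i ∈ s, Sav (a i)) :
    Sav fun n => ∑ i ∈ s, a i n := by
  classical
  induction s using Finset.induction_on with
  | empty => simpa using Sav.zero
  | insert i s hi ih =>
    have h1 := (h i (mem_insert_self _ _)).add (ih fun j hj => h j (mem_insert_of_mem hj))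
    refine h1.congr fun n _ => ?_
    rw [sum_insert hi]

theorem Sav.lg {a : ℕ → ℂ} (ha : Sav a) : Sav fun n => Lg n * a n := Pool.Agent.Y145.VK.wdesc a ha

theorem Sav.lgp {a : ℕ → ℂ} (ha : Sav a) (B : ℕ) : Sav fun n => Lg n ^ B * a n := by
  induction B with
  | zero => simpa using ha
  | succ B ih =>
    refine ih.lg.congr fun n _ => ?_
    ring

/-- the mean square over the dilations is small, uniformly in the weights -/
def UN (f : ℕ → ℂ) (P : ℕ → ℝ) (β : ℝ) : Prop :=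
  ∀ (b : ℝ) (K : ℕ), ∃ C : ℝ, 0 ≤ C ∧ ∀ N : ℕ, 2 ≤ N → ∀ d : ℕ → ℂ, (∀ n, ‖d n‖ ≤ 1) →
    ∫⁻ u in Set.Icc (0 : ℝ) 1, ‖∑ n ∈ Icc 1 N, d n * f ⌊Real.exp (b + u) * P n + β⌋₊‖ₑ ^ 2 ≤
      ENNReal.ofReal (C * (N : ℝ) ^ 2 / (Real.log N) ^ K)

theorem lg3 (n : ℕ) : 1 ≤ Real.log ((n : ℝ) + 3) := by
  rw [Real.le_log_iff_exp_le (by positivity)]
  have h1 := Real.exp_one_lt_d9
  have h2 : (0 : ℝ) ≤ n := Nat.cast_nonneg n
  linarith

theorem norm_Lg (n : ℕ) : ‖Lg n‖ = Real.log ((n : ℝ) + 3) := Pool.Agent.Y145.VK.norm_Lg n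

theorem Lg_ne (n : ℕ) : Lg n ≠ 0 := by
  rw [← norm_ne_zero_iff, norm_Lg]
  have := lg3 n
  linarith

theorem val_le_aux {x : ℝ} (hx : 0 ≤ x) (A' : ℕ) : 1 ≤ x + A' + 1 := by
  have : (0 : ℝ) ≤ A' := Nat.cast_nonneg A'
  linarith

/-- the values are of logarithmic size -/
theorem val_le (f : ℕ → ℂ) (hf : ∀ n : ℕ, ‖f n‖ ≤ Real.log (n + 3)) (P : ℕ → ℝ) (A A' : ℕ) (C : ℝ)
    (hP : ∀ n : ℕ, 1 ≤ n → |P n| ≤ C * (n : ℝ) ^ A') (b β : ℝ) : ∃ C' : ℝ, 1 ≤ C' ∧ ∀ u ∈ Set.Icc (0 : ℝ) 1,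
      ∀ n m : ℕ, 1 ≤ n → 1 ≤ m → m ≤ A * n → ‖f ⌊Real.exp (b + u) * P m + β⌋₊‖ ≤ C' * Real.log (n + 3) := by
  set D : ℝ := Real.exp (b + 1) * |C| * (A : ℝ) ^ A' + |β| with hD
  have hD0 : 0 ≤ D := by positivity
  have hlD : 0 ≤ Real.log (D + 3) := Real.log_nonneg (by linarith)
  refine ⟨Real.log (D + 3) + A' + 1, val_le_aux hlD A', fun u hu n m hn hm hmn => ?_⟩
  refine (hf _).trans ?_
  have hn1 : (1 : ℝ) ≤ n := by exact_mod_cast hn
  have hmr : (m : ℝ) ≤ A * n := by exact_mod_cast hmn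
  have hnA : (1 : ℝ) ≤ (n : ℝ) ^ A' := one_le_pow₀ hn1
  have h1 : Real.exp (b + u) * P m + β ≤ D * (n : ℝ) ^ A' := by
    have e1 : P m ≤ |C| * ((A : ℝ) * n) ^ A' := by
      calc P m ≤ |P m| := le_abs_self _
        _ ≤ C * (m : ℝ) ^ A' := hP m hm
        _ ≤ |C| * (m : ℝ) ^ A' := mul_le_mul_of_nonneg_right (le_abs_self _) (by positivity)
        _ ≤ |C| * ((A : ℝ) * n) ^ A' := by gcongr
    have e2 : Real.exp (b + u) ≤ Real.exp (b + 1) := Real.exp_le_exp.2 (by linarith [hu.2])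
    have e3 : Real.exp (b + u) * P m ≤ Real.exp (b + 1) * (|C| * ((A : ℝ) * n) ^ A') := by
      calc Real.exp (b + u) * P m ≤ Real.exp (b + u) * (|C| * ((A : ℝ) * n) ^ A') :=
            mul_le_mul_of_nonneg_left e1 (by positivity)
        _ ≤ _ := mul_le_mul_of_nonneg_right e2 (by positivity)
    have e4 : β ≤ |β| * (n : ℝ) ^ A' := (le_abs_self β).trans (by nlinarith [abs_nonneg β])
    calc Real.exp (b + u) * P m + β ≤ Real.exp (b + 1) * (|C| * ((A : ℝ) * n) ^ A') + |β| * (n : ℝ) ^ A' :=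
          add_le_add e3 e4
      _ = D * (n : ℝ) ^ A' := by
          rw [hD, mul_pow]
          ring
  have h2 : ((⌊Real.exp (b + u) * P m + β⌋₊ : ℕ) : ℝ) ≤ D * (n : ℝ) ^ A' := by
    rcases le_or_gt 0 (Real.exp (b + u) * P m + β) with h | h
    · exact (Nat.floor_le h).trans h1
    · rw [Nat.floor_of_nonpos h.le]
      simp only [Nat.cast_zero]
      positivity
  have h3 : ((⌊Real.exp (b + u) * P m + β⌋₊ : ℕ) : ℝ) + 3 ≤ (D + 3) * ((n : ℝ) + 3) ^ A' := by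
    have e1 : (n : ℝ) ^ A' ≤ ((n : ℝ) + 3) ^ A' := pow_le_pow_left₀ (by linarith) (by linarith) A'
    nlinarith
  have h4 : Real.log (((⌊Real.exp (b + u) * P m + β⌋₊ : ℕ) : ℝ) + 3) ≤
      Real.log (D + 3) + A' * Real.log ((n : ℝ) + 3) := by
    have := Real.log_le_log (by positivity) h3
    rwa [Real.log_mul (by linarith) (by positivity), Real.log_pow] at this
  refine h4.trans ?_
  have h5 := lg3 n
  nlinarith
theorem fl_meas (f : ℕ → ℂ) {X : Type*} [MeasurableSpace X] {g : X → ℝ} (hg : Measurable g) :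
    Measurable fun x => f ⌊g x⌋₊ :=
  (measurable_from_nat (f := f)).comp (Nat.measurable_floor.comp hg)

/-- reindexing -/
theorem reidx (N A : ℕ) (σ : ℕ → ℕ) (hσ1 : ∀ n, 1 ≤ n → 1 ≤ σ n ∧ σ n ≤ A * n) (d : ℕ → ℂ) (F : ℕ → ℂ) :
    ∑ n ∈ Icc 1 N, d n * F (σ n) =
      ∑ j ∈ Icc 1 (A * N), (∑ n ∈ (Icc 1 N).filter (fun n => σ n = j), d n) * F j := by
  have hmaps : ∀ n ∈ Icc 1 N, σ n ∈ Icc 1 (A * N) := by
    intro n hn
    rw [mem_Icc] at hn
    have := hσ1 n hn.1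
    rw [mem_Icc]
    exact ⟨this.1, this.2.trans (Nat.mul_le_mul_left A hn.2)⟩
  rw [← Finset.sum_fiberwise_of_maps_to hmaps]
  refine sum_congr rfl fun j _ => ?_
  rw [sum_mul]
  refine sum_congr rfl fun n hn => ?_
  rw [(mem_filter.1 hn).2]

/-- the mean square along a reindexed sequence -/
theorem UN.sub {f : ℕ → ℂ} {P : ℕ → ℝ} {β : ℝ} (h : UN f P β) (A : ℕ) (hA : 1 ≤ A) (b : ℝ) (K : ℕ) :
    ∃ C : ℝ, 0 ≤ C ∧ ∀ N : ℕ, 2 ≤ N → ∀ σ : ℕ → ℕ, (∀ n, 1 ≤ n → 1 ≤ σ n ∧ σ n ≤ A * n) →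
      (∀ j, ((Icc 1 N).filter (fun n => σ n = j)).card ≤ A) → ∀ d : ℕ → ℂ, (∀ n, ‖d n‖ ≤ 1) →
    ∫⁻ u in Set.Icc (0 : ℝ) 1, ‖∑ n ∈ Icc 1 N, d n * f ⌊Real.exp (b + u) * P (σ n) + β⌋₊‖ₑ ^ 2 ≤
      ENNReal.ofReal (C * (N : ℝ) ^ 2 / (Real.log N) ^ K) := by
  obtain ⟨C, hC0, hC⟩ := h b K
  refine ⟨A ^ 4 * C, by positivity, fun N hN σ hσ1 hσ2 d hd => ?_⟩
  have hA0 : (0 : ℝ) < A := by exact_mod_cast hA
  have hA1 : (1 : ℝ) ≤ A := by exact_mod_cast hA
  set H : ℕ → ℂ := fun j => (∑ n ∈ (Icc 1 N).filter (fun n => σ n = j), d n) / A with hH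
  have hH1 : ∀ j, ‖H j‖ ≤ 1 := by
    intro j
    rw [hH]
    simp only
    rw [norm_div, Complex.norm_natCast, div_le_one hA0]
    refine (norm_sum_le _ _).trans ?_
    calc ∑ n ∈ (Icc 1 N).filter (fun n => σ n = j), ‖d n‖ ≤ ∑ n ∈ (Icc 1 N).filter (fun n => σ n = j), (1:ℝ) :=
          sum_le_sum fun n _ => hd n
      _ = ((Icc 1 N).filter (fun n => σ n = j)).card := by simp
      _ ≤ A := by exact_mod_cast hσ2 j
  have h2 : 2 ≤ A * N := by nlinarith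
  have h1 := hC (A * N) h2 H hH1
  have e1 : ∀ u : ℝ, ‖∑ n ∈ Icc 1 N, d n * f ⌊Real.exp (b + u) * P (σ n) + β⌋₊‖ₑ ^ 2 =
      ENNReal.ofReal ((A : ℝ) ^ 2) *
        ‖∑ j ∈ Icc 1 (A * N), H j * f ⌊Real.exp (b + u) * P j + β⌋₊‖ₑ ^ 2 := by
    intro u
    rw [reidx N A σ hσ1 d (fun j => f ⌊Real.exp (b + u) * P j + β⌋₊)]
    have e2 : ∑ j ∈ Icc 1 (A * N), (∑ n ∈ (Icc 1 N).filter (fun n => σ n = j), d n) *
        f ⌊Real.exp (b + u) * P j + β⌋₊ =
        (A : ℂ) * ∑ j ∈ Icc 1 (A * N), H j * f ⌊Real.exp (b + u) * P j + β⌋₊ := by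
      rw [mul_sum]
      refine sum_congr rfl fun j _ => ?_
      have : (A : ℂ) ≠ 0 := by exact_mod_cast hA0.ne'
      rw [hH]
      field_simp
    rw [e2, enorm_mul, mul_pow]
    congr 1
    rw [← ofReal_norm, Complex.norm_natCast, ENNReal.ofReal_pow hA0.le]
  simp only [e1]
  rw [lintegral_const_mul' _ _ ENNReal.ofReal_ne_top]
  refine (mul_le_mul' le_rfl h1).trans ?_
  rw [← ENNReal.ofReal_mul (by positivity)]
  apply ENNReal.ofReal_le_ofReal
  have hN0 : (0 : ℝ) < N := by exact_mod_cast (by omega : 0 < N)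
  have hl : 0 < Real.log N := Real.log_pos (by exact_mod_cast hN)
  have hl2 : Real.log N ≤ Real.log ((A * N : ℕ) : ℝ) := by
    apply Real.log_le_log hN0
    push_cast
    nlinarith
  have hl3 : (Real.log N) ^ K ≤ (Real.log ((A * N : ℕ) : ℝ)) ^ K := pow_le_pow_left₀ hl.le hl2 K
  calc (A : ℝ) ^ 2 * (C * ((A * N : ℕ) : ℝ) ^ 2 / (Real.log ((A * N : ℕ) : ℝ)) ^ K)
      ≤ (A : ℝ) ^ 2 * (C * ((A * N : ℕ) : ℝ) ^ 2 / (Real.log N) ^ K) := by
        refine mul_le_mul_of_nonneg_left ?_ (by positivity)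
        exact div_le_div_of_nonneg_left (by positivity) (by positivity) hl3
    _ = _ := by
        push_cast
        ring

/-- almost every pair (parameter, logarithm of the dilation) -/
theorem ae1 {Ω : Type} [MeasurableSpace Ω] (m : Measure Ω) [IsFiniteMeasure m] (d : Ω → ℕ → ℂ)
    (hdm : ∀ n, Measurable fun ω => d ω n) (hd : ∀ ω n, ‖d ω n‖ ≤ 1) (σ : Ω → ℕ → ℕ)
    (hσm : ∀ n, Measurable fun ω => σ ω n) (A : ℕ) (hA : 1 ≤ A)
    (hσ1 : ∀ ω n, 1 ≤ n → 1 ≤ σ ω n ∧ σ ω n ≤ A * n)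
    (hσ2 : ∀ ω N j, ((Icc 1 N).filter (fun n => σ ω n = j)).card ≤ A)
    (f : ℕ → ℂ) (hf : ∀ n : ℕ, ‖f n‖ ≤ Real.log (n + 3)) (P : ℕ → ℝ) (A' : ℕ) (C0 : ℝ)
    (hP : ∀ n : ℕ, 1 ≤ n → |P n| ≤ C0 * (n : ℝ) ^ A') (β : ℝ) (h : UN f P β) (b : ℝ) :
    ∀ᵐ p ∂(m.prod ((volume : Measure ℝ).restrict (Set.Icc (0 : ℝ) 1))),
      Sav fun n => d p.1 n * f ⌊Real.exp (b + p.2) * P (σ p.1 n) + β⌋₊ := by
  obtain ⟨C', hC'1, hC'⟩ := val_le f hf P A A' C0 hP b β
  have hC'0 : 0 < C' := by linarith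
  set g : Ω × ℝ → ℕ → ℂ := fun p n => if p.2 ∈ Set.Icc (0 : ℝ) 1 ∧ 1 ≤ n then
    (d p.1 n / ((C' : ℂ) * Lg n)) * f ⌊Real.exp (b + p.2) * P (σ p.1 n) + β⌋₊ else 0 with hg
  have hgm : ∀ n, Measurable fun p => g p n := by
    intro n
    rw [hg]
    simp only
    by_cases hn : 1 ≤ n
    · simp only [hn, and_true]
      refine Measurable.ite (measurable_snd measurableSet_Icc) ?_ measurable_const
      refine (((hdm n).comp measurable_fst).div_const _).mul ?_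
      refine fl_meas f ?_
      have h1 : Measurable fun p : Ω × ℝ => P (σ p.1 n) :=
        (measurable_from_nat (f := P)).comp ((hσm n).comp measurable_fst)
      have h2 : Measurable fun p : Ω × ℝ => Real.exp (b + p.2) := by fun_prop
      exact (h2.mul h1).add_const β
    · simp only [hn, and_false, if_false]
      exact measurable_const
  have hdn : ∀ (ω : Ω) (n : ℕ), ‖d ω n / ((C' : ℂ) * Lg n)‖ ≤ 1 / (C' * Real.log (n + 3)) := by
    intro ω n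
    rw [norm_div, norm_mul, norm_Lg, Complex.norm_real, Real.norm_eq_abs, abs_of_pos hC'0]
    have := lg3 n
    exact div_le_div_of_nonneg_right (hd ω n) (by positivity)
  have hg1 : ∀ p n, ‖g p n‖ ≤ 1 := by
    intro p n
    rw [hg]
    simp only
    split_ifs with hp
    · rw [norm_mul]
      have h1 := hdn p.1 n
      have h2 := hC' p.2 hp.1 n (σ p.1 n) hp.2 (hσ1 p.1 n hp.2).1 (hσ1 p.1 n hp.2).2
      have h3 := lg3 n
      have h4 : 0 < C' * Real.log (n + 3) := by positivity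
      calc _ ≤ 1 / (C' * Real.log (n + 3)) * (C' * Real.log (n + 3)) :=
            mul_le_mul h1 h2 (norm_nonneg _) (by positivity)
        _ = 1 := by field_simp
    · simp
  have hneg : NegF (m.prod ((volume : Measure ℝ).restrict (Set.Icc (0 : ℝ) 1))) g := by
    intro A0 K
    obtain ⟨C, hC0, hC⟩ := h.sub A hA b K
    refine ⟨m.real Set.univ * C, by positivity, fun N τ hN _ => ?_⟩
    have hm1 : Measurable fun p : Ω × ℝ => ‖∑ n ∈ Icc 1 N, g p n * er τ (Real.log n)‖ₑ ^ 2 :=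
      (Finset.measurable_fun_sum _ fun n _ => (hgm n).mul_const _).enorm.pow_const 2
    rw [lintegral_prod _ hm1.aemeasurable]
    have h1 : ∀ ω : Ω, ∫⁻ u in Set.Icc (0 : ℝ) 1, ‖∑ n ∈ Icc 1 N, g (ω, u) n * er τ (Real.log n)‖ₑ ^ 2 ≤
        ENNReal.ofReal (C * (N : ℝ) ^ 2 / (Real.log N) ^ K) := by
      intro ω
      refine le_trans (le_of_eq ?_) (hC N hN (σ ω) (hσ1 ω) (hσ2 ω N)
        (fun n => (d ω n / ((C' : ℂ) * Lg n)) * er τ (Real.log n)) (fun n => ?_))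
      · refine setLIntegral_congr_fun measurableSet_Icc fun u hu => ?_
        congr 2
        refine sum_congr rfl fun n hn => ?_
        rw [hg]
        simp only
        rw [if_pos ⟨hu, (mem_Icc.1 hn).1⟩]
        ring
      · rw [norm_mul, er_norm, mul_one]
        refine (hdn ω n).trans ?_
        have h3 := lg3 n
        rw [div_le_one (by positivity)]
        nlinarith
    refine (lintegral_mono h1).trans ?_
    have hmu : m Set.univ = ENNReal.ofReal (m.real Set.univ) := by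
      rw [measureReal_def, ENNReal.ofReal_toReal (measure_ne_top _ _)]
    rw [lintegral_const, hmu, ← ENNReal.ofReal_mul' (by positivity)]
    apply ENNReal.ofReal_le_ofReal
    apply le_of_eq
    ring
  have hbc := Pool.Agent.Y901.VK.bc (Ω × ℝ) _ g hgm hg1 hneg
  have hmem : ∀ᵐ p ∂(m.prod ((volume : Measure ℝ).restrict (Set.Icc (0 : ℝ) 1))), p.2 ∈ Set.Icc (0 : ℝ) 1 := by
    have h1 : ∀ᵐ u ∂((volume : Measure ℝ).restrict (Set.Icc (0 : ℝ) 1)), u ∈ Set.Icc (0 : ℝ) 1 :=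
      ae_restrict_mem measurableSet_Icc
    exact Measure.quasiMeasurePreserving_snd.ae h1
  filter_upwards [hbc, hmem] with p hp hp2
  have h1 : Sav (g p) := hp
  refine ((h1.lg).smul (C' : ℂ)).congr fun n hn => ?_
  rw [hg]
  simp only
  rw [if_pos ⟨hp2, hn⟩]
  have h3 := Lg_ne n
  have h4 : (C' : ℂ) ≠ 0 := by exact_mod_cast hC'0.ne'
  field_simp

end Pool.Agent.Q138.GS
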