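import Pool.Agent.Q138.GS.AE

set_option autoImplicit false

/-!
# Almost every tuple of dilations
-/

namespace Pool.Agent.Q138.GS

open Finset MeasureTheory Filter Topology
open scoped ENNReal
open Pool.Agent.Y957.VK

/-- Lebesgue measure on the unit interval -/
noncomputable abbrev v01 : Measure ℝ := (volume : Measure ℝ).restrict (Set.Icc (0 : ℝ) 1)

theorem cube_ae (k : ℕ) : ∀ᵐ ω ∂(Measure.pi fun _ : Fin k => v01), ∀ i, ω i ∈ Set.Icc (0 : ℝ) 1 := by
  have h : (Measure.pi fun _ : Fin k => v01) =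
      (Measure.pi fun _ : Fin k => (volume : Measure ℝ)).restrict
        (Set.pi Set.univ fun _ => Set.Icc (0 : ℝ) 1) := (Measure.restrict_pi_pi _ _).symm
  rw [h]
  have hm : MeasurableSet (Set.pi Set.univ (fun _ : Fin k => Set.Icc (0 : ℝ) 1)) :=
    MeasurableSet.univ_pi fun _ => measurableSet_Icc
  filter_upwards [ae_restrict_mem hm] with ω hω i
  exact hω i (Set.mem_univ i)

theorem cube_meas (k : ℕ) : MeasurableSet {ω : Fin k → ℝ | ∀ i, ω i ∈ Set.Icc (0 : ℝ) 1} := by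
  rw [Set.ofPred_forall]
  exact MeasurableSet.iInter fun i => (measurable_pi_apply i) measurableSet_Icc

/-- almost every point of the cube; the coordinate `j` is the generic dilation -/
theorem ae_j (k : ℕ) (j : Fin (k + 1)) (G : (Fin (k + 1) → ℝ) → ℕ → ℂ)
    (hGm : ∀ n, Measurable fun ω => G ω n) (hGj : ∀ ω t n, G (Function.update ω j t) n = G ω n)
    (σ : (Fin (k + 1) → ℝ) → ℕ → ℕ) (hσm : ∀ n, Measurable fun ω => σ ω n)
    (hσj : ∀ ω t n, σ (Function.update ω j t) n = σ ω n) (C0 : ℝ) (B A : ℕ) (hA : 1 ≤ A)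
    (hG : ∀ ω, (∀ i, ω i ∈ Set.Icc (0 : ℝ) 1) → ∀ n : ℕ, 1 ≤ n → ‖G ω n‖ ≤ C0 * (Real.log (n + 3)) ^ B)
    (hσ1 : ∀ ω, (∀ i, ω i ∈ Set.Icc (0 : ℝ) 1) → ∀ n, 1 ≤ n → 1 ≤ σ ω n ∧ σ ω n ≤ A * n)
    (hσ2 : ∀ ω, (∀ i, ω i ∈ Set.Icc (0 : ℝ) 1) → ∀ N j, ((Icc 1 N).filter (fun n => σ ω n = j)).card ≤ A)
    (f : ℕ → ℂ) (hf : ∀ n : ℕ, ‖f n‖ ≤ Real.log (n + 3)) (P : ℕ → ℝ) (A' : ℕ) (C1 : ℝ)
    (hP : ∀ n : ℕ, 1 ≤ n → |P n| ≤ C1 * (n : ℝ) ^ A') (β : ℝ) (h : UN f P β) (b : ℝ) :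
    ∀ᵐ ω ∂(Measure.pi fun _ : Fin (k + 1) => v01),
      Sav fun n => G ω n * f ⌊Real.exp (b + ω j) * P (σ ω n) + β⌋₊ := by
  classical
  set e := MeasurableEquiv.piFinSuccAbove (fun _ : Fin (k + 1) => ℝ) j with he
  set I : (Fin k → ℝ) → (Fin (k + 1) → ℝ) := fun ν => e.symm (0, ν) with hI
  have hIm : Measurable I := e.symm.measurable.comp (measurable_const.prodMk measurable_id)
  have hI1 : ∀ ν, I ν j = 0 := fun ν => congrArg Prod.fst (e.apply_symm_apply (0, ν))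
  have hI2 : ∀ ν i, I ν (j.succAbove i) = ν i := fun ν i =>
    congrFun (congrArg Prod.snd (e.apply_symm_apply (0, ν))) i
  have hIcube : ∀ ν, (∀ i, ν i ∈ Set.Icc (0 : ℝ) 1) → ∀ i, I ν i ∈ Set.Icc (0 : ℝ) 1 := by
    intro ν hν i
    rcases eq_or_ne i j with rfl | hi
    · rw [hI1]
      simp
    · obtain ⟨i', rfl⟩ := Fin.exists_succAbove_eq hi
      rw [hI2]
      exact hν i'
  set C0' : ℝ := max C0 1 with hC0'
  have hC0'1 : 0 < C0' := lt_of_lt_of_le one_pos (le_max_right _ _)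
  set cube : Set (Fin k → ℝ) := {ν | ∀ i, ν i ∈ Set.Icc (0 : ℝ) 1} with hcube
  have hcm : MeasurableSet cube := cube_meas k
  set d : (Fin k → ℝ) → ℕ → ℂ := fun ν n =>
    if ν ∈ cube then (if 1 ≤ n then G (I ν) n / ((C0' : ℂ) * Lg n ^ B) else 0) else 0 with hd
  have hdm : ∀ n, Measurable fun ν => d ν n := by
    intro n
    rw [hd]
    simp only
    refine Measurable.ite hcm ?_ measurable_const
    by_cases hn : 1 ≤ n
    · simp only [hn, if_true]
      exact ((hGm n).comp hIm).div_const _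
    · simp only [hn, if_false]
      exact measurable_const
  have hd1 : ∀ ν n, ‖d ν n‖ ≤ 1 := by
    intro ν n
    rw [hd]
    simp only
    split_ifs with h1 h2
    · rw [norm_div, norm_mul, norm_pow, norm_Lg, Complex.norm_real, Real.norm_eq_abs, abs_of_pos hC0'1]
      have h3 := lg3 n
      rw [div_le_one (by positivity)]
      refine (hG _ (hIcube ν h1) n h2).trans ?_
      exact mul_le_mul_of_nonneg_right (le_max_left _ _) (by positivity)
    · simp
    · simp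
  set σ' : (Fin k → ℝ) → ℕ → ℕ := fun ν n => if ν ∈ cube then σ (I ν) n else n with hσ'
  have hσ'm : ∀ n, Measurable fun ν => σ' ν n := by
    intro n
    rw [hσ']
    exact Measurable.ite hcm ((hσm n).comp hIm) measurable_const
  have hmain := ae1 (Measure.pi fun _ : Fin k => v01) d hdm hd1 σ' hσ'm A hA (by
      intro ν n hn
      rw [hσ']
      simp only
      split_ifs with h1
      · exact hσ1 _ (hIcube ν h1) n hn
      · exact ⟨hn, Nat.le_mul_of_pos_left n (by omega)⟩) (by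
      intro ν N i
      rw [hσ']
      simp only
      split_ifs with h1
      · exact hσ2 _ (hIcube ν h1) N i
      · refine le_trans (card_le_card (t := {i}) ?_) (by simpa using hA)
        intro n hn
        rw [mem_filter] at hn
        simpa using hn.2) f hf P A' C1 hP β h b
  have mp1 := measurePreserving_piFinSuccAbove (fun _ : Fin (k + 1) => v01) j
  have mp2 : MeasurePreserving (Prod.swap : ℝ × (Fin k → ℝ) → (Fin k → ℝ) × ℝ)
      (v01.prod (Measure.pi fun _ : Fin k => v01)) ((Measure.pi fun _ : Fin k => v01).prod v01) :=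
    Measure.measurePreserving_swap
  have hq := (mp2.comp mp1).quasiMeasurePreserving.ae hmain
  filter_upwards [hq, cube_ae (k + 1)] with ω hω hcω
  have e1 : (((Prod.swap : ℝ × (Fin k → ℝ) → (Fin k → ℝ) × ℝ) ∘ e) ω).2 = ω j := rfl
  have e2 : (((Prod.swap : ℝ × (Fin k → ℝ) → (Fin k → ℝ) × ℝ) ∘ e) ω).1 = fun i => ω (j.succAbove i) := rfl
  rw [← he] at hω
  simp only [e1, e2] at hω
  set ν : Fin k → ℝ := fun i => ω (j.succAbove i) with hν
  have hνc : ν ∈ cube := fun i => hcω _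
  have hIν : I ν = Function.update ω j 0 := by
    funext i
    rcases eq_or_ne i j with rfl | hi
    · rw [hI1, Function.update_self]
    · rw [Function.update_of_ne hi]
      obtain ⟨i', rfl⟩ := Fin.exists_succAbove_eq hi
      rw [hI2]
  have hG2 : ∀ n, G (I ν) n = G ω n := fun n => by rw [hIν, hGj]
  have hσ2' : ∀ n, σ (I ν) n = σ ω n := fun n => by rw [hIν, hσj]
  refine ((hω.lgp B).smul (C0' : ℂ)).congr fun n hn => ?_
  rw [hd, hσ']
  simp only
  rw [if_pos hνc, if_pos hn, if_pos hνc, hG2, hσ2']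
  have h3 := Lg_ne n
  have h4 : (C0' : ℂ) ≠ 0 := by exact_mod_cast hC0'1.ne'
  field_simp

/-- from the logarithms to the dilations -/
theorem to_alpha (k : ℕ) (Q : (Fin k → ℝ) → Prop)
    (h : ∀ b : Fin k → ℤ, ∀ᵐ ω ∂(Measure.pi fun _ : Fin k => v01), Q fun i => Real.exp (b i + ω i)) :
    ∀ᵐ α ∂((volume : Measure (Fin k → ℝ)).restrict {α | ∀ i, 0 < α i}), Q α := by
  have hmeas : MeasurableSet {α : Fin k → ℝ | ∀ i, 0 < α i} := by
    have e : {α : Fin k → ℝ | ∀ i, 0 < α i} = Set.pi Set.univ (fun _ => Set.Ioi (0 : ℝ)) := by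
      ext α
      simp
    rw [e]
    exact MeasurableSet.univ_pi fun _ => measurableSet_Ioi
  rw [ae_restrict_iff' hmeas]
  have hcube : MeasurableSet (Set.pi Set.univ (fun _ : Fin k => Set.Icc (0 : ℝ) 1)) :=
    MeasurableSet.univ_pi fun _ => measurableSet_Icc
  have key : ∀ b : Fin k → ℤ, (volume : Measure (Fin k → ℝ))
      {ω | ω ∈ Set.pi Set.univ (fun _ : Fin k => Set.Icc (0 : ℝ) 1) ∧
        ¬ Q (fun i => Real.exp (b i + ω i))} = 0 := by
    intro b
    have h3 := h b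
    have e0 : (Measure.pi fun _ : Fin k => v01) =
      (Measure.pi fun _ : Fin k => (volume : Measure ℝ)).restrict
        (Set.pi Set.univ fun _ => Set.Icc (0 : ℝ) 1) := (Measure.restrict_pi_pi _ _).symm
    rw [e0, ← volume_pi, ae_restrict_iff' hcube, ae_iff] at h3
    refine measure_mono_null ?_ h3
    intro ω hω
    exact fun h4 => hω.2 (h4 hω.1)
  rw [ae_iff]
  refine measure_mono_null ?_ (measure_iUnion_null fun b : Fin k → ℤ =>
    addHaar_image_eq_zero_of_differentiableOn_of_addHaar_eq_zero (volume : Measure (Fin k → ℝ))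
      (f := fun ω i => Real.exp (b i + ω i)) ?_ (key b))
  · intro α hα
    simp only [Set.mem_ofPred_eq, Classical.not_imp] at hα
    obtain ⟨hα1, hα2⟩ := hα
    rw [Set.mem_iUnion]
    have e : (fun i => Real.exp (((⌊Real.log (α i)⌋ : ℤ) : ℝ) + Int.fract (Real.log (α i)))) = α := by
      funext i
      rw [Int.floor_add_fract, Real.exp_log (hα1 i)]
    refine ⟨fun i => ⌊Real.log (α i)⌋, fun i => Int.fract (Real.log (α i)), ⟨?_, ?_⟩, e⟩
    · intro i _
      exact ⟨Int.fract_nonneg _, (Int.fract_lt_one _).le⟩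
    · rw [e]
      exact hα2
  · apply Differentiable.differentiableOn
    rw [differentiable_pi]
    intro i
    exact ((differentiable_apply i).const_add _).exp

/-- **almost every tuple of dilations**; the coordinate `j` is the generic dilation -/
theorem ae_alpha (k : ℕ) (j : Fin (k + 1)) (G : (Fin (k + 1) → ℝ) → ℕ → ℂ)
    (hGm : ∀ n, Measurable fun α => G α n) (hGj : ∀ α t n, G (Function.update α j t) n = G α n)
    (σ : (Fin (k + 1) → ℝ) → ℕ → ℕ) (hσm : ∀ n, Measurable fun α => σ α n)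
    (hσj : ∀ α t n, σ (Function.update α j t) n = σ α n)
    (hb : ∀ x y : Fin (k + 1) → ℝ, (∀ i, 0 < x i) → ∃ (C0 : ℝ) (B A : ℕ), 1 ≤ A ∧
      ∀ α : Fin (k + 1) → ℝ, (∀ i, α i ∈ Set.Icc (x i) (y i)) →
        (∀ n : ℕ, 1 ≤ n → ‖G α n‖ ≤ C0 * (Real.log (n + 3)) ^ B) ∧
        (∀ n, 1 ≤ n → 1 ≤ σ α n ∧ σ α n ≤ A * n) ∧
        ∀ N i, ((Icc 1 N).filter (fun n => σ α n = i)).card ≤ A)
    (f : ℕ → ℂ) (hf : ∀ n : ℕ, ‖f n‖ ≤ Real.log (n + 3)) (P : ℕ → ℝ) (A' : ℕ) (C1 : ℝ)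
    (hP : ∀ n : ℕ, 1 ≤ n → |P n| ≤ C1 * (n : ℝ) ^ A') (β : ℝ) (h : UN f P β) :
    ∀ᵐ α ∂((volume : Measure (Fin (k + 1) → ℝ)).restrict {α | ∀ i, 0 < α i}),
      Sav fun n => G α n * f ⌊α j * P (σ α n) + β⌋₊ := by
  classical
  refine to_alpha (k + 1) _ fun b => ?_
  obtain ⟨C0, B, A, hA, hbb⟩ := hb (fun i => Real.exp (b i)) (fun i => Real.exp (b i + 1))
    (fun i => Real.exp_pos _)
  have hE : Measurable fun ω : Fin (k + 1) → ℝ => fun i => Real.exp (b i + ω i) := by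
    refine measurable_pi_lambda _ fun i => ?_
    exact ((measurable_pi_apply i).const_add _).exp
  have hmem : ∀ ω : Fin (k + 1) → ℝ, (∀ i, ω i ∈ Set.Icc (0 : ℝ) 1) →
      ∀ i, Real.exp (b i + ω i) ∈ Set.Icc (Real.exp (b i)) (Real.exp (b i + 1)) := by
    intro ω hω i
    exact ⟨Real.exp_le_exp.2 (by linarith [(hω i).1]), Real.exp_le_exp.2 (by linarith [(hω i).2])⟩
  have hupd : ∀ (ω : Fin (k + 1) → ℝ) (t : ℝ), (fun i => Real.exp (b i + Function.update ω j t i)) =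
      Function.update (fun i => Real.exp (b i + ω i)) j (Real.exp (b j + t)) := by
    intro ω t
    funext i
    rcases eq_or_ne i j with rfl | hi
    · simp
    · simp [Function.update_of_ne hi]
  exact ae_j k j (fun ω => G fun i => Real.exp (b i + ω i)) (fun n => (hGm n).comp hE)
    (fun ω t n => by rw [hupd, hGj])
    (fun ω => σ fun i => Real.exp (b i + ω i)) (fun n => (hσm n).comp hE)
    (fun ω t n => by rw [hupd, hσj])
    C0 B A hA (fun ω hω n hn => (hbb _ (hmem ω hω)).1 n hn) (fun ω hω n hn => (hbb _ (hmem ω hω)).2.1 n hn)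
    (fun ω hω N i => (hbb _ (hmem ω hω)).2.2 N i) f hf P A' C1 hP β h (b j)

/-- one dilation -/
theorem ae_one (g : ℕ → ℂ) (C0 : ℝ) (B : ℕ) (hg : ∀ n : ℕ, 1 ≤ n → ‖g n‖ ≤ C0 * (Real.log (n + 3)) ^ B)
    (f : ℕ → ℂ) (hf : ∀ n : ℕ, ‖f n‖ ≤ Real.log (n + 3)) (P : ℕ → ℝ) (A' : ℕ) (C1 : ℝ)
    (hP : ∀ n : ℕ, 1 ≤ n → |P n| ≤ C1 * (n : ℝ) ^ A') (β : ℝ) (h : UN f P β) :
    ∀ᵐ α : ℝ, 0 < α → Sav fun n => g n * f ⌊α * P n + β⌋₊ := by
  have h1 := ae_alpha 0 0 (fun _ => g) (fun n => measurable_const) (fun _ _ _ => rfl) (fun _ n => n)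
    (fun n => measurable_const) (fun _ _ _ => rfl) (fun x y _ => ⟨C0, B, 1, le_rfl, fun α _ =>
      ⟨fun n hn => hg n hn, fun n hn => ⟨hn, by omega⟩, fun N i => by
        refine le_trans (card_le_card (t := {i}) ?_) (by simp)
        intro n hn
        rw [mem_filter] at hn
        simpa using hn.2⟩⟩) f hf P A' C1 hP β h
  have hmeas : MeasurableSet {α : Fin (0 + 1) → ℝ | ∀ i, 0 < α i} := by
    have e : {α : Fin (0 + 1) → ℝ | ∀ i, 0 < α i} = Set.pi Set.univ (fun _ => Set.Ioi (0 : ℝ)) := by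
      ext α
      simp
    rw [e]
    exact MeasurableSet.univ_pi fun _ => measurableSet_Ioi
  rw [ae_restrict_iff' hmeas] at h1
  have mp := (volume_preserving_funUnique (Fin 1) ℝ).symm
  have h2 := mp.quasiMeasurePreserving.ae h1
  filter_upwards [h2] with α hα hα0
  exact hα fun i => hα0

end Pool.Agent.Q138.GS
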