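import Pool.Agent.Q138.GS.Win

set_option autoImplicit false

/-!
# The Fourier transform of the window: summation by parts
-/

namespace Pool.Agent.Q138.GS

open Finset MeasureTheory Filter FourierTransform
open scoped ENNReal
open Pool.Agent.H376R2.MR (er)
open Pool.Agent.Y957.AD (er_norm er_add)

/-- summation by parts -/
theorem abel (a φ : ℕ → ℂ) (M1 M2 : ℕ) (h : M1 ≤ M2) :
    ∑ m ∈ Icc M1 M2, a m * φ m = (∑ m ∈ Icc M1 M2, a m) * φ M2 -
      ∑ m ∈ Ico M1 M2, (∑ j ∈ Icc M1 m, a j) * (φ (m + 1) - φ m) := by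
  induction M2, h using Nat.le_induction with
  | base => simp
  | succ n hn ih =>
    rw [Finset.sum_Icc_succ_top (by omega), ih, Finset.sum_Icc_succ_top (by omega),
      Finset.sum_Ico_succ_top hn]
    ring

theorem abel_norm (a φ : ℕ → ℂ) (M1 M2 : ℕ) (h : M1 ≤ M2) (W U V : ℝ)
    (hW : ∀ m, M1 ≤ m → m ≤ M2 → ‖∑ j ∈ Icc M1 m, a j‖ ≤ W) (hU : ‖φ M2‖ ≤ U)
    (hV : ∑ m ∈ Ico M1 M2, ‖φ (m + 1) - φ m‖ ≤ V) :
    ‖∑ m ∈ Icc M1 M2, a m * φ m‖ ≤ W * (U + V) := by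
  have hW0 : 0 ≤ W := (norm_nonneg _).trans (hW M2 h le_rfl)
  rw [abel a φ M1 M2 h]
  refine (norm_sub_le _ _).trans ?_
  rw [mul_add]
  refine add_le_add ?_ ?_
  · rw [norm_mul]
    exact mul_le_mul (hW M2 h le_rfl) hU (norm_nonneg _) hW0
  · refine (norm_sum_le _ _).trans ?_
    calc ∑ m ∈ Ico M1 M2, ‖(∑ j ∈ Icc M1 m, a j) * (φ (m + 1) - φ m)‖
        ≤ ∑ m ∈ Ico M1 M2, W * ‖φ (m + 1) - φ m‖ := by
          refine sum_le_sum fun m hm => ?_
          rw [mem_Ico] at hm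
          rw [norm_mul]
          exact mul_le_mul_of_nonneg_right (hW m hm.1 hm.2.le) (norm_nonneg _)
      _ = W * ∑ m ∈ Ico M1 M2, ‖φ (m + 1) - φ m‖ := by rw [mul_sum]
      _ ≤ W * V := mul_le_mul_of_nonneg_left hV hW0

theorem er_sub_le (τ x y : ℝ) : ‖er τ x - er τ y‖ ≤ |τ| * |x - y| := by
  have h1 : er τ x - er τ y = er τ y * (er τ (x - y) - 1) := by
    have : er τ x = er τ y * er τ (x - y) := by
      rw [← er_add]
      congr 1
      ring
    rw [this]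
    ring
  rw [h1, norm_mul, er_norm, one_mul]
  unfold er
  have h2 := Real.norm_exp_I_mul_ofReal_sub_one_le (x := τ * (x - y))
  rw [mul_comm Complex.I] at h2
  rw [← abs_mul]
  exact h2

/-- the weights -/
noncomputable def ph1 (b β τ s : ℝ) (m : ℕ) : ℂ :=
  (((m : ℝ) + s - β)⁻¹ : ℝ) * (er τ (-b) * er τ (Real.log ((m : ℝ) + s - β) - Real.log m))

theorem ph1_eq (b β τ s : ℝ) (m : ℕ) :
    ((m : ℝ) + s - β)⁻¹ • er τ (Real.log ((m : ℝ) + s - β) - b) = er τ (Real.log m) * ph1 b β τ s m := by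
  have : er τ (Real.log ((m : ℝ) + s - β) - b) =
      er τ (Real.log m) * (er τ (-b) * er τ (Real.log ((m : ℝ) + s - β) - Real.log m)) := by
    rw [← er_add, ← er_add]
    congr 1
    ring
  rw [this]
  unfold ph1
  rw [Complex.real_smul]
  ring

section
variable {b β τ s : ℝ} {m : ℕ}

theorem base_pos (hs0 : 0 ≤ s) (hm : 2 * (|β| + 1) ≤ m) : (m : ℝ) / 2 ≤ (m : ℝ) + s - β ∧ 2 ≤ (m : ℝ) := by
  have h1 := abs_nonneg β
  have h2 := le_abs_self β
  constructor <;> linarith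

theorem ph1_norm (hs0 : 0 ≤ s) (hm : 2 * (|β| + 1) ≤ m) : ‖ph1 b β τ s m‖ ≤ 2 / m := by
  obtain ⟨h1, h2⟩ := base_pos hs0 hm
  have h3 : 0 < (m : ℝ) + s - β := by linarith
  unfold ph1
  rw [norm_mul, norm_mul, er_norm, er_norm, one_mul, mul_one, Complex.norm_real, Real.norm_eq_abs,
    abs_of_pos (by positivity)]
  rw [inv_le_comm₀ h3 (by positivity), inv_div]
  exact h1

theorem log_ratio (hs0 : 0 ≤ s) (hs1 : s ≤ 1) (hm : 2 * (|β| + 1) ≤ m) :
    |(Real.log (((m + 1 : ℕ) : ℝ) + s - β) - Real.log ((m + 1 : ℕ) : ℝ)) -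
      (Real.log ((m : ℝ) + s - β) - Real.log m)| ≤ 4 * (1 + |β|) / (m : ℝ) ^ 2 := by
  obtain ⟨h1, h2⟩ := base_pos hs0 hm
  have hx : 0 < (m : ℝ) := by linarith
  have h3 : 0 < (m : ℝ) + s - β := by linarith
  have h4 : 0 < (m : ℝ) + 1 + s - β := by linarith
  push_cast
  set e : ℝ := (s - β) / (((m : ℝ) + 1) * ((m : ℝ) + s - β)) with he
  have hβ : |s - β| ≤ 1 + |β| := by
    rw [abs_le]
    have := le_abs_self β
    have := neg_abs_le β
    constructor <;> linarith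
  have he1 : |e| ≤ 2 * (1 + |β|) / (m : ℝ) ^ 2 := by
    rw [he, abs_div, abs_of_pos (show 0 < ((m : ℝ) + 1) * ((m : ℝ) + s - β) by positivity)]
    have : (m : ℝ) ^ 2 / 2 ≤ ((m : ℝ) + 1) * ((m : ℝ) + s - β) := by nlinarith
    calc _ ≤ (1 + |β|) / ((m : ℝ) ^ 2 / 2) :=
          div_le_div₀ (by positivity) hβ (by positivity) this
      _ = _ := by
          field_simp
  have he2 : 2 * (1 + |β|) / (m : ℝ) ^ 2 ≤ 1 / 2 := by
    rw [div_le_iff₀ (by positivity)]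
    nlinarith
  have hr : (Real.log ((m : ℝ) + 1 + s - β) - Real.log ((m : ℝ) + 1)) -
      (Real.log ((m : ℝ) + s - β) - Real.log m) = Real.log (1 - e) := by
    have h5 : 1 - e = ((m : ℝ) + 1 + s - β) * m / (((m : ℝ) + 1) * ((m : ℝ) + s - β)) := by
      rw [he]
      field_simp
      ring
    rw [h5, Real.log_div (by positivity) (by positivity), Real.log_mul (by positivity) (by positivity),
      Real.log_mul (by positivity) (by positivity)]
    ring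
  rw [hr]
  have he3 : |e| ≤ 1 / 2 := he1.trans he2
  have he4 := abs_le.1 he3
  have h6 : 0 < 1 - e := by linarith [he4.2]
  have h7 := Real.log_le_sub_one_of_pos h6
  have h8 := Real.one_sub_inv_le_log_of_pos h6
  have h9 : -(2 * |e|) ≤ 1 - (1 - e)⁻¹ := by
    have h10 : 1 - (1 - e)⁻¹ = -(e / (1 - e)) := by
      field_simp
      ring
    rw [h10, neg_le_neg_iff, div_le_iff₀ h6]
    rcases le_or_gt 0 e with h | h
    · rw [abs_of_nonneg h] at he3 ⊢
      nlinarith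
    · rw [abs_of_neg h] at he3 ⊢
      nlinarith
  have h11 : |Real.log (1 - e)| ≤ 2 * |e| := by
    rw [abs_le]
    constructor
    · linarith
    · have := neg_abs_le e
      have := abs_nonneg e
      linarith
  calc _ ≤ 2 * |e| := h11
    _ ≤ 2 * (2 * (1 + |β|) / (m : ℝ) ^ 2) := by linarith
    _ = _ := by ring

theorem ph1_diff (hs0 : 0 ≤ s) (hs1 : s ≤ 1) (hm : 2 * (|β| + 1) ≤ m) :
    ‖ph1 b β τ s (m + 1) - ph1 b β τ s m‖ ≤ (8 * (1 + |β|) * |τ| / m + 4) * ((m : ℝ) ^ 2)⁻¹ := by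
  obtain ⟨h1, h2⟩ := base_pos hs0 hm
  have hx : 0 < (m : ℝ) := by linarith
  have h3 : 0 < (m : ℝ) + s - β := by linarith
  have h4 : 0 < (m : ℝ) + 1 + s - β := by linarith
  have hL := log_ratio hs0 hs1 hm
  set u' := Real.log (((m + 1 : ℕ) : ℝ) + s - β) - Real.log ((m + 1 : ℕ) : ℝ) with hu'
  set u := Real.log ((m : ℝ) + s - β) - Real.log m with hu
  have e1 : ph1 b β τ s (m + 1) - ph1 b β τ s m =
      (((((m + 1 : ℕ) : ℝ) + s - β)⁻¹ : ℝ) : ℂ) * (er τ (-b) * (er τ u' - er τ u)) +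
      ((((((m + 1 : ℕ) : ℝ) + s - β)⁻¹ - ((m : ℝ) + s - β)⁻¹ : ℝ)) : ℂ) * (er τ (-b) * er τ u) := by
    unfold ph1
    rw [← hu', ← hu]
    push_cast
    ring
  rw [e1]
  refine (norm_add_le _ _).trans ?_
  rw [norm_mul, norm_mul, norm_mul, norm_mul, er_norm, er_norm, one_mul, mul_one, mul_one,
    Complex.norm_real, Complex.norm_real, Real.norm_eq_abs, Real.norm_eq_abs]
  have e2 : |(((m + 1 : ℕ) : ℝ) + s - β)⁻¹| ≤ 2 / m := by
    push_cast
    rw [abs_of_pos (by positivity), inv_le_comm₀ h4 (by positivity), inv_div]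
    linarith
  have e3 : |(((m + 1 : ℕ) : ℝ) + s - β)⁻¹ - ((m : ℝ) + s - β)⁻¹| ≤ 4 / (m : ℝ) ^ 2 := by
    push_cast
    have e4 : (((m : ℝ) + 1) + s - β)⁻¹ - ((m : ℝ) + s - β)⁻¹ =
        -(1 / ((((m : ℝ) + 1) + s - β) * ((m : ℝ) + s - β))) := by
      field_simp
      ring
    rw [e4, abs_neg, abs_of_pos (by positivity), div_le_div_iff₀ (by positivity) (by positivity)]
    nlinarith
  have e5 : ‖er τ u' - er τ u‖ ≤ |τ| * (4 * (1 + |β|) / (m : ℝ) ^ 2) :=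
    (er_sub_le τ u' u).trans (mul_le_mul_of_nonneg_left hL (abs_nonneg _))
  have e6 := mul_le_mul e2 e5 (norm_nonneg _) (by positivity : (0:ℝ) ≤ 2 / m)
  refine (add_le_add e6 e3).trans (le_of_eq ?_)
  field_simp
  ring

end

/-- bound for the Fourier transform of the window -/
theorem four_small (f : ℕ → ℂ) {b β : ℝ} {M1 M2 : ℕ} (h12 : M1 ≤ M2) (hβ : 2 * (|β| + 1) ≤ (M1 : ℝ)) (ξ W : ℝ)
    (hW : ∀ m, M1 ≤ m → m ≤ M2 → ‖∑ j ∈ Icc M1 m, f j * er (-(2 * Real.pi * ξ)) (Real.log j)‖ ≤ W) :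
    ‖𝓕 (Bt f b β M1 M2) ξ‖ ≤ W * (2 / M1 + (8 * (1 + |β|) * |2 * Real.pi * ξ| / M1 + 4) * (2 / M1)) := by
  set τ : ℝ := -(2 * Real.pi * ξ) with hτ
  have hβ0 := abs_nonneg β
  have hM1 : 2 ≤ M1 := by
    have : (2 : ℝ) ≤ M1 := by linarith
    exact_mod_cast this
  have hM1r : (2 : ℝ) ≤ M1 := by exact_mod_cast hM1
  have hβ1 : β < M1 := by
    have := le_abs_self β
    linarith
  rw [four_Bt f (by omega) hβ1 ξ, ← hτ]
  have hkey : ∀ s ∈ Set.uIoc (0:ℝ) 1, ‖∑ m ∈ Icc M1 M2,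
      f m * (((m : ℝ) + s - β)⁻¹ • er τ (Real.log ((m : ℝ) + s - β) - b))‖ ≤
      W * (2 / M1 + (8 * (1 + |β|) * |2 * Real.pi * ξ| / M1 + 4) * (2 / M1)) := by
    intro s hs
    rw [Set.uIoc_of_le zero_le_one] at hs
    have hs0 : 0 ≤ s := hs.1.le
    have e1 : ∀ m ∈ Icc M1 M2, f m * (((m : ℝ) + s - β)⁻¹ • er τ (Real.log ((m : ℝ) + s - β) - b)) =
        (f m * er τ (Real.log m)) * ph1 b β τ s m := by
      intro m _
      rw [ph1_eq]
      ring
    rw [sum_congr rfl e1]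
    refine abel_norm _ _ M1 M2 h12 W _ _ hW ?_ ?_
    · have hM2 : (M1 : ℝ) ≤ M2 := by exact_mod_cast h12
      refine (ph1_norm hs0 (by linarith)).trans ?_
      exact div_le_div_of_nonneg_left (by norm_num) (by linarith) hM2
    · have e2 : ∀ m ∈ Ico M1 M2, ‖ph1 b β τ s (m + 1) - ph1 b β τ s m‖ ≤
          (8 * (1 + |β|) * |2 * Real.pi * ξ| / M1 + 4) * ((m : ℝ) ^ 2)⁻¹ := by
        intro m hm
        have hm1 : (M1 : ℝ) ≤ m := by exact_mod_cast (mem_Ico.1 hm).1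
        refine (ph1_diff hs0 hs.2 (by linarith)).trans ?_
        refine mul_le_mul_of_nonneg_right ?_ (by positivity)
        rw [hτ, abs_neg]
        have : 8 * (1 + |β|) * |2 * Real.pi * ξ| / m ≤ 8 * (1 + |β|) * |2 * Real.pi * ξ| / M1 :=
          div_le_div_of_nonneg_left (by positivity) (by linarith) hm1
        linarith
      refine (sum_le_sum e2).trans ?_
      rw [← mul_sum]
      refine mul_le_mul_of_nonneg_left ?_ (by positivity)
      have h5 : ∑ m ∈ Ico M1 M2, ((m : ℝ) ^ 2)⁻¹ ≤ ∑ m ∈ Ioc (M1 - 1) M2, ((m : ℝ) ^ 2)⁻¹ := by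
        refine sum_le_sum_of_subset_of_nonneg ?_ fun _ _ _ => by positivity
        intro m hm
        rw [mem_Ico] at hm
        rw [mem_Ioc]
        omega
      have h6 := sum_Ioc_inv_sq_le_sub (α := ℝ) (k := M1 - 1) (n := M2) (by omega) (by omega)
      have h7 : (0 : ℝ) ≤ (M2 : ℝ)⁻¹ := by positivity
      have h8 : ((M1 - 1 : ℕ) : ℝ) = M1 - 1 := by
        rw [Nat.cast_sub (by omega)]
        simp
      have h9 : ((M1 - 1 : ℕ) : ℝ)⁻¹ ≤ 2 / M1 := by
        rw [h8, ← one_div, div_le_div_iff₀ (by linarith) (by linarith)]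
        linarith
      linarith
  have := intervalIntegral.norm_integral_le_of_norm_le_const hkey
  simpa using this

end Pool.Agent.Q138.GS
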