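import Pool.Agent.Q138.GS.Std

set_option autoImplicit false

/-!
# From weighted sums to counting
-/

namespace Pool.Agent.Q138.GS

open Finset Filter Topology
open scoped Classical

/-- the number of elements of `S` up to `N` -/
noncomputable def ct (S : ℕ → Prop) (N : ℕ) : ℝ := ((Icc 1 N).filter S).card

theorem ct_nonneg (S : ℕ → Prop) (N : ℕ) : 0 ≤ ct S N := Nat.cast_nonneg _

/-- the cut -/
noncomputable def cu (J N : ℕ) : ℕ := ⌊(N : ℝ) / (Real.log N) ^ J⌋₊

theorem log_log_small (J : ℕ) : Tendsto (fun N : ℕ => Real.log (cu J N) / Real.log N) atTop (𝓝 1) := by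
  -- log of the cut
  have h0 : Tendsto (fun x : ℝ => Real.log x / x) atTop (𝓝 0) := by
    have := Real.isLittleO_log_id_atTop.tendsto_div_nhds_zero
    simpa using this
  have h1 : Tendsto (fun N : ℕ => Real.log (Real.log N) / Real.log N) atTop (𝓝 0) :=
    h0.comp (Real.tendsto_log_atTop.comp tendsto_natCast_atTop_atTop)
  have h2 : Tendsto (fun N : ℕ => Real.log 2 / Real.log N) atTop (𝓝 0) :=
    tendsto_const_nhds.div_atTop (Real.tendsto_log_atTop.comp tendsto_natCast_atTop_atTop)
  have hlow : Tendsto (fun N : ℕ => 1 - J * (Real.log (Real.log N) / Real.log N) - Real.log 2 / Real.log N)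
      atTop (𝓝 1) := by
    have := (tendsto_const_nhds (x := (1 : ℝ))).sub (h1.const_mul (J : ℝ)) |>.sub h2
    simpa using this
  refine tendsto_of_tendsto_of_tendsto_of_le_of_le' hlow tendsto_const_nhds ?_ ?_
  · filter_upwards [cut_size J, (cut_atTop J).eventually_ge_atTop 2] with N hN hc
    obtain ⟨hl, hJ1, hJ2, -, -⟩ := hN
    have hlp : 0 < Real.log N := by linarith
    have hNp : (0 : ℝ) < N := by
      by_contra h
      have : (N : ℝ) = 0 := le_antisymm (not_lt.1 h) (Nat.cast_nonneg _)
      rw [this, Real.log_zero] at hl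
      linarith
    have hX : (0 : ℝ) < N / (Real.log N) ^ J := by positivity
    have h3 : (N : ℝ) / (Real.log N) ^ J / 2 ≤ (cu J N : ℝ) := by
      have h4 := Nat.lt_floor_add_one ((N : ℝ) / (Real.log N) ^ J)
      have h5 : (2 : ℝ) ≤ (⌊(N : ℝ) / (Real.log N) ^ J⌋₊ : ℝ) := by exact_mod_cast hc
      unfold cu
      linarith
    have h6 := Real.log_le_log (by positivity) h3
    rw [Real.log_div hX.ne' two_ne_zero, Real.log_div hNp.ne' (by positivity), Real.log_pow] at h6
    rw [le_div_iff₀ hlp]
    have e : (1 - J * (Real.log (Real.log N) / Real.log N) - Real.log 2 / Real.log N) * Real.log N =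
        Real.log N - J * Real.log (Real.log N) - Real.log 2 := by
      field_simp
    rw [e]
    exact h6
  · filter_upwards [cut_size J] with N hN
    obtain ⟨hl, hJ1, -, -, -⟩ := hN
    have hlp : 0 < Real.log N := by linarith
    rw [div_le_one hlp]
    have h1 : (cu J N : ℝ) ≤ N := by
      have hN0 : (0 : ℝ) ≤ N := Nat.cast_nonneg _
      have h2 : (N : ℝ) / (Real.log N) ^ J ≤ N := div_le_self hN0 (one_le_pow₀ hl)
      exact (Nat.floor_le (by positivity)).trans h2
    refine Real.log_le_log ?_ h1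
    exact_mod_cast hJ1

theorem cnt_core (S T : ℕ → Prop) (L : ℕ → ℝ) (hL0 : ∀ n, 0 ≤ L n) (κ B : ℕ) (D : ℝ) (hD : 0 < D)
    (hL : Tendsto (fun n : ℕ => L n / (Real.log n) ^ κ) atTop (𝓝 D))
    (hS : ∀ᶠ N : ℕ in atTop, (N : ℝ) / (Real.log N) ^ B ≤ ct S N)
    (h : Tendsto (fun N : ℕ => (Real.log N) ^ B / N * |∑ n ∈ (Icc 1 N).filter T, L n - ct S N|) atTop (𝓝 0)) :
    Tendsto (fun N : ℕ => ct T N * (Real.log N) ^ κ / ct S N) atTop (𝓝 (1 / D)) := by
  set Tm : ℕ → ℝ := fun N => ∑ n ∈ (Icc 1 N).filter T, L n with hTm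
  have hbase : ∀ᶠ N : ℕ in atTop, 1 ≤ Real.log N ∧ (0 : ℝ) < N ∧ 0 < ct S N ∧
      (N : ℝ) / (Real.log N) ^ B ≤ ct S N := by
    filter_upwards [lg1, eventually_ge_atTop 1, hS] with N h1 h2 h3
    have hNp : (0 : ℝ) < N := by exact_mod_cast (by omega : 0 < N)
    exact ⟨h1, hNp, lt_of_lt_of_le (by positivity) h3, h3⟩
  have hU : Tendsto (fun N => Tm N / ct S N) atTop (𝓝 1) := by
    have h1 : Tendsto (fun N => Tm N / ct S N - 1) atTop (𝓝 0) := by
      refine squeeze_zero_norm' ?_ h
      filter_upwards [hbase] with N hN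
      obtain ⟨h1, h2, h3, h4⟩ := hN
      rw [Real.norm_eq_abs, div_sub_one h3.ne', abs_div, abs_of_pos h3, div_le_iff₀ h3]
      have h5 : 0 ≤ |Tm N - ct S N| := abs_nonneg _
      have h6 : 1 ≤ (Real.log N) ^ B / N * ct S N := by
        have h7 : (Real.log N) ^ B / N * ((N : ℝ) / (Real.log N) ^ B) = 1 := by
          field_simp
        calc (1 : ℝ) = (Real.log N) ^ B / N * ((N : ℝ) / (Real.log N) ^ B) := h7.symm
          _ ≤ _ := mul_le_mul_of_nonneg_left h4 (by positivity)
      calc |Tm N - ct S N| = |Tm N - ct S N| * 1 := (mul_one _).symm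
        _ ≤ |Tm N - ct S N| * ((Real.log N) ^ B / N * ct S N) := mul_le_mul_of_nonneg_left h6 h5
        _ = _ := by ring
    simpa using h1.add_const 1
  rw [tendsto_order]
  constructor
  · intro a ha
    -- lower bound
    obtain ⟨D2, hD2, hD2a⟩ : ∃ D2, D < D2 ∧ a < 1 / D2 := by
      have h1 : Tendsto (fun t : ℝ => 1 / t) (𝓝[>] D) (𝓝 (1 / D)) :=
        (tendsto_const_nhds.div tendsto_id hD.ne').mono_left nhdsWithin_le_nhds
      obtain ⟨t, ht1, ht2⟩ := ((h1.eventually (lt_mem_nhds ha)).and self_mem_nhdsWithin).exists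
      exact ⟨t, ht2, ht1⟩
    have hD2p : 0 < D2 := hD.trans hD2
    obtain ⟨n1, hn1⟩ := eventually_atTop.1 ((hL.eventually (gt_mem_nhds hD2)).and lg1)
    set C1 : ℝ := ∑ n ∈ range n1, L n with hC1
    have hC1n : 0 ≤ C1 := sum_nonneg fun n _ => hL0 n
    have hinv : Tendsto (fun N => C1 / ct S N) atTop (𝓝 0) := by
      refine tendsto_const_nhds.div_atTop ?_
      have h1 : Tendsto (fun N : ℕ => (N : ℝ) / (Real.log N) ^ B) atTop atTop := by
        refine tendsto_atTop.2 fun b => ?_
        filter_upwards [(cut_atTop B).eventually_ge_atTop ⌈b⌉₊, eventually_ge_atTop 1] with N hN hN1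
        have h2 : (0 : ℝ) ≤ N / (Real.log N) ^ B := by
          have := Real.log_natCast_nonneg N
          positivity
        calc b ≤ ⌈b⌉₊ := Nat.le_ceil b
          _ ≤ (⌊(N : ℝ) / (Real.log N) ^ B⌋₊ : ℝ) := by exact_mod_cast hN
          _ ≤ _ := Nat.floor_le h2
      exact tendsto_atTop_mono' _ hS h1
    have hlim : Tendsto (fun N => (Tm N / ct S N - C1 / ct S N) / D2) atTop (𝓝 (1 / D2)) := by
      have := (hU.sub hinv).div_const D2
      simpa using this
    filter_upwards [hlim.eventually (lt_mem_nhds hD2a), hbase] with N h1 h2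
    obtain ⟨hl, hNp, hs, -⟩ := h2
    refine h1.trans_le ?_
    rw [div_le_iff₀ hD2p, ← sub_div, div_mul_eq_mul_div, div_le_div_iff_of_pos_right hs]
    have h3 : Tm N ≤ C1 + ∑ n ∈ (Icc 1 N).filter T, D2 * (Real.log N) ^ κ := by
      have h4 : ∀ n ∈ (Icc 1 N).filter T, L n ≤ (if n < n1 then L n else 0) + D2 * (Real.log N) ^ κ := by
        intro n hn
        obtain ⟨hn2, -⟩ := mem_filter.1 hn
        obtain ⟨hn3, hn4⟩ := mem_Icc.1 hn2
        split_ifs with h5
        · have : 0 ≤ D2 * (Real.log N) ^ κ := by positivity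
          linarith
        · obtain ⟨h6, h7⟩ := hn1 n (not_lt.1 h5)
          have h8 : 0 < (Real.log n) ^ κ := by positivity
          rw [div_lt_iff₀ h8] at h6
          have h9 : Real.log n ≤ Real.log N :=
            Real.log_le_log (by exact_mod_cast hn3) (by exact_mod_cast hn4)
          have h10 : (Real.log n) ^ κ ≤ (Real.log N) ^ κ := pow_le_pow_left₀ (by linarith) h9 κ
          nlinarith
      calc Tm N ≤ ∑ n ∈ (Icc 1 N).filter T, ((if n < n1 then L n else 0) + D2 * (Real.log N) ^ κ) :=
            sum_le_sum h4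
        _ = ∑ n ∈ (Icc 1 N).filter T, (if n < n1 then L n else 0) +
            ∑ n ∈ (Icc 1 N).filter T, D2 * (Real.log N) ^ κ := sum_add_distrib
        _ ≤ _ := by
            refine add_le_add_left ?_ _
            rw [← sum_filter]
            refine sum_le_sum_of_subset_of_nonneg ?_ fun i _ _ => hL0 i
            intro n hn
            exact mem_range.2 (mem_filter.1 hn).2
    rw [sum_const, nsmul_eq_mul] at h3
    have e : (((Icc 1 N).filter T).card : ℝ) = ct T N := rfl
    rw [e] at h3
    linarith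
  · intro a ha
    obtain ⟨D1, hD1, hD1p, hD1a⟩ : ∃ D1, D1 < D ∧ 0 < D1 ∧ 1 / D1 < a := by
      have h1 : Tendsto (fun t : ℝ => 1 / t) (𝓝[<] D) (𝓝 (1 / D)) :=
        (tendsto_const_nhds.div tendsto_id hD.ne').mono_left nhdsWithin_le_nhds
      have h2 : ∀ᶠ t in 𝓝[<] D, 0 < t := (lt_mem_nhds hD).filter_mono nhdsWithin_le_nhds
      have h3 : ∀ᶠ t in 𝓝[<] D, t ∈ Set.Iio D := self_mem_nhdsWithin
      obtain ⟨t, ht1, ht2, ht3⟩ := ((h1.eventually (gt_mem_nhds ha)).and (h3.and h2)).exists
      exact ⟨t, ht2, ht3, ht1⟩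
    obtain ⟨n1, hn1⟩ := eventually_atTop.1 ((hL.eventually (lt_mem_nhds hD1)).and lg1)
    set J := B + κ + 1 with hJ
    have hM := (log_log_small J).pow κ
    have hlim1 : Tendsto (fun N => Tm N / ct S N / (D1 * (Real.log (cu J N) / Real.log N) ^ κ)) atTop
        (𝓝 (1 / D1)) := by
      have h1 := hM.const_mul D1
      rw [one_pow, mul_one] at h1
      exact hU.div h1 hD1p.ne'
    have hlim2 : Tendsto (fun N : ℕ => (Real.log N)⁻¹) atTop (𝓝 0) :=
      (Real.tendsto_log_atTop.comp tendsto_natCast_atTop_atTop).inv_tendsto_atTop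
    have hlim := hlim1.add hlim2
    rw [add_zero] at hlim
    filter_upwards [hlim.eventually (gt_mem_nhds hD1a), hbase, cut_size J,
      (cut_atTop J).eventually_ge_atTop (max n1 3)] with N h1 h2 hcs hcn
    refine lt_of_le_of_lt ?_ h1
    obtain ⟨hl, hNp, hs, hs2⟩ := h2
    have hcu : (max n1 3 : ℕ) ≤ cu J N := hcn
    have hcl : 1 ≤ Real.log (cu J N) := (hn1 (cu J N) ((le_max_left _ _).trans hcu)).2
    have hlN : 0 < Real.log N := by linarith
    have hlp : 0 < (Real.log N) ^ κ := by positivity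
    have hclp : 0 < (Real.log (cu J N)) ^ κ := by positivity
    -- the main inequality
    have h3 : D1 * (Real.log (cu J N)) ^ κ * (ct T N - cu J N) ≤ Tm N := by
      have h4 : ct T N - cu J N ≤ (((Icc 1 N).filter T).filter (fun n => cu J N < n)).card := by
        have h5 : ((Icc 1 N).filter T).card ≤ (((Icc 1 N).filter T).filter (fun n => cu J N < n)).card +
            (Icc 1 (cu J N)).card := by
          refine (card_le_card ?_).trans (card_union_le _ _)
          intro n hn
          rw [mem_union]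
          by_cases hc : cu J N < n
          · left
            exact mem_filter.2 ⟨hn, hc⟩
          · right
            have := (mem_Icc.1 (mem_filter.1 hn).1).1
            exact mem_Icc.2 ⟨this, not_lt.1 hc⟩
        rw [Nat.card_Icc, Nat.add_sub_cancel] at h5
        have h6 : (((Icc 1 N).filter T).card : ℝ) ≤
            ((((Icc 1 N).filter T).filter (fun n => cu J N < n)).card : ℝ) + (cu J N : ℝ) := by
          exact_mod_cast h5
        have e : ct T N = (((Icc 1 N).filter T).card : ℝ) := rfl
        rw [e]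
        linarith
      calc D1 * (Real.log (cu J N)) ^ κ * (ct T N - cu J N)
          ≤ D1 * (Real.log (cu J N)) ^ κ * (((Icc 1 N).filter T).filter (fun n => cu J N < n)).card :=
            mul_le_mul_of_nonneg_left h4 (by positivity)
        _ = ∑ n ∈ ((Icc 1 N).filter T).filter (fun n => cu J N < n), D1 * (Real.log (cu J N)) ^ κ := by
            rw [sum_const, nsmul_eq_mul]
            ring
        _ ≤ ∑ n ∈ ((Icc 1 N).filter T).filter (fun n => cu J N < n), L n := by
            refine sum_le_sum fun n hn => ?_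
            have hn2 := (mem_filter.1 hn).2
            obtain ⟨h6, h7⟩ := hn1 n (((le_max_left _ _).trans hcu).trans hn2.le)
            rw [lt_div_iff₀ (by positivity)] at h6
            have h8 : Real.log (cu J N) ≤ Real.log n := by
              refine Real.log_le_log ?_ (by exact_mod_cast hn2.le)
              have : 3 ≤ cu J N := (le_max_right _ _).trans hcu
              exact_mod_cast (by omega : 0 < cu J N)
            have h9 : (Real.log (cu J N)) ^ κ ≤ (Real.log n) ^ κ := pow_le_pow_left₀ (by linarith) h8 κ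
            nlinarith
        _ ≤ Tm N := sum_le_sum_of_subset_of_nonneg (filter_subset _ _) fun i _ _ => hL0 i
    have h5 : (cu J N : ℝ) * (Real.log N) ^ κ / ct S N ≤ (Real.log N)⁻¹ := by
      have h6 : (cu J N : ℝ) ≤ N / (Real.log N) ^ J := Nat.floor_le (by positivity)
      rw [div_le_iff₀ hs]
      calc (cu J N : ℝ) * (Real.log N) ^ κ ≤ N / (Real.log N) ^ J * (Real.log N) ^ κ :=
            mul_le_mul_of_nonneg_right h6 hlp.le
        _ = (Real.log N)⁻¹ * (N / (Real.log N) ^ B) := by
            rw [hJ]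
            field_simp
            ring
        _ ≤ _ := mul_le_mul_of_nonneg_left hs2 (by positivity)
    have h7 : (ct T N - cu J N) * (Real.log N) ^ κ / ct S N ≤
        Tm N / ct S N / (D1 * (Real.log (cu J N) / Real.log N) ^ κ) := by
      rw [div_div, div_le_div_iff₀ hs (by positivity)]
      rw [div_pow]
      have h8 : (ct T N - cu J N) * (Real.log N) ^ κ *
          (ct S N * (D1 * ((Real.log (cu J N)) ^ κ / (Real.log N) ^ κ))) =
          (D1 * (Real.log (cu J N)) ^ κ * (ct T N - cu J N)) * ct S N := by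
        field_simp
      rw [h8]
      exact mul_le_mul_of_nonneg_right h3 hs.le
    have h8 : ct T N * (Real.log N) ^ κ / ct S N = (ct T N - cu J N) * (Real.log N) ^ κ / ct S N +
        (cu J N : ℝ) * (Real.log N) ^ κ / ct S N := by ring
    rw [h8]
    exact add_le_add h7 h5

/-- the index of a smoothly varying function -/
theorem Smv.index {c : ℝ} {φ : ℕ → ℝ → ℝ} (h : Smv c φ) :
    Tendsto (fun x => φ 0 x / Real.log x) atTop (𝓝 c) := by
  have h1 := (h 0).2
  simp only [zero_add, pow_one, pow_zero, Nat.factorial_zero, Nat.cast_one, mul_one] at h1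
  have key : ∀ ε : ℝ, 0 < ε → ∃ X : ℝ, 1 ≤ X ∧ ∀ x, X ≤ x → |φ 0 x - c * Real.log x| ≤
      ε * Real.log x + (|φ 0 X - c * Real.log X| ) := by
    intro ε hε
    obtain ⟨X0, hX0⟩ := eventually_atTop.1 ((h 0).1.and (Metric.tendsto_nhds.1 h1 ε hε))
    set X := max X0 1 with hX
    have hX1 : 1 ≤ X := le_max_right _ _
    refine ⟨X, hX1, fun x hx => ?_⟩
    have hd : ∀ y, X ≤ y → HasDerivAt (fun z => φ 0 z - c * Real.log z) (φ 1 y - c * y⁻¹) y := by
      intro y hy
      have hy0 : y ≠ 0 := by
        have : 1 ≤ y := hX1.trans hy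
        positivity
      exact (hX0 y ((le_max_left _ _).trans hy)).1.sub ((Real.hasDerivAt_log hy0).const_mul c)
    have hb : ∀ y, X ≤ y → |φ 1 y - c * y⁻¹| ≤ ε * y⁻¹ := by
      intro y hy
      have hy0 : 0 < y := by linarith
      have h2 := (hX0 y ((le_max_left _ _).trans hy)).2
      rw [Real.dist_eq] at h2
      have e : φ 1 y - c * y⁻¹ = (y * φ 1 y - c) * y⁻¹ := by
        field_simp
      rw [e, abs_mul, abs_of_pos (inv_pos.2 hy0)]
      exact mul_le_mul_of_nonneg_right h2.le (inv_pos.2 hy0).le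
    have hmono : ∀ s : ℝ, (s = 1 ∨ s = -1) →
        s * (φ 0 x - c * Real.log x) - s * (φ 0 X - c * Real.log X) ≤ ε * (Real.log x - Real.log X) := by
      intro s hs
      have hm : MonotoneOn (fun z => ε * Real.log z - s * (φ 0 z - c * Real.log z)) (Set.Ici X) := by
        refine monotoneOn_of_deriv_nonneg (convex_Ici X) ?_ ?_ ?_
        · intro z hz
          have hz0 : z ≠ 0 := by
            have : X ≤ z := hz
            linarith
          exact (((Real.hasDerivAt_log hz0).const_mul ε).sub ((hd z hz).const_mul s)).continuousAt.continuousWithinAt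
        · intro z hz
          rw [interior_Ici] at hz
          have hz1 : X < z := hz
          have hz0 : z ≠ 0 := by linarith
          exact (((Real.hasDerivAt_log hz0).const_mul ε).sub
            ((hd z hz1.le).const_mul s)).differentiableAt.differentiableWithinAt
        · intro z hz
          rw [interior_Ici] at hz
          have hz1 : X < z := hz
          have hz0 : z ≠ 0 := by linarith
          rw [(((Real.hasDerivAt_log hz0).const_mul ε).fun_sub ((hd z hz1.le).const_mul s)).deriv]
          have h3 := hb z hz1.le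
          rw [abs_le] at h3
          rcases hs with rfl | rfl <;> linarith
      have := hm (Set.mem_Ici.2 le_rfl) (Set.mem_Ici.2 hx) hx
      simp only at this
      linarith
    have hlX : 0 ≤ Real.log X := Real.log_nonneg hX1
    have h3 := hmono 1 (Or.inl rfl)
    have h4 := hmono (-1) (Or.inr rfl)
    have h5 := le_abs_self (φ 0 X - c * Real.log X)
    have h6 := neg_abs_le (φ 0 X - c * Real.log X)
    have h7 : 0 ≤ ε * Real.log X := by positivity
    rw [abs_le]
    constructor <;> nlinarith
  rw [Metric.tendsto_nhds]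
  intro ε hε
  obtain ⟨X, hX1, hX⟩ := key (ε / 2) (by positivity)
  have h2 : ∀ᶠ x : ℝ in atTop, |φ 0 X - c * Real.log X| / Real.log x < ε / 2 :=
    (tendsto_const_nhds.div_atTop Real.tendsto_log_atTop).eventually (gt_mem_nhds (by positivity))
  filter_upwards [h2, eventually_ge_atTop X, eventually_gt_atTop 1] with x h3 h4 h5
  have hlx : 0 < Real.log x := Real.log_pos h5
  rw [Real.dist_eq]
  have e : φ 0 x / Real.log x - c = (φ 0 x - c * Real.log x) / Real.log x := by
    field_simp
  rw [e, abs_div, abs_of_pos hlx, div_lt_iff₀ hlx]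
  rw [div_lt_iff₀ hlx] at h3
  have := hX x h4
  linarith

/-- the size of the values -/
theorem Sm.log {c : ℝ} {P : ℕ → ℝ} (h : Sm c P) {α β : ℝ} (hα : 0 < α) :
    Tendsto (fun n : ℕ => Real.log (⌊α * P n + β⌋₊ : ℕ) / Real.log n) atTop (𝓝 c) := by
  obtain ⟨hc, φ, hφ, n0, hP⟩ := h
  have h1 : Tendsto (fun n : ℕ => φ 0 n / Real.log n) atTop (𝓝 c) := hφ.index.comp tendsto_natCast_atTop_atTop
  have hl : Tendsto (fun n : ℕ => Real.log (n : ℝ)) atTop atTop :=
    Real.tendsto_log_atTop.comp tendsto_natCast_atTop_atTop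
  have hlow : Tendsto (fun n : ℕ => φ 0 n / Real.log n + Real.log (α / 2) / Real.log n) atTop (𝓝 c) := by
    have := h1.add (tendsto_const_nhds (x := Real.log (α / 2)).div_atTop hl)
    simpa using this
  have hup : Tendsto (fun n : ℕ => φ 0 n / Real.log n + Real.log (2 * α) / Real.log n) atTop (𝓝 c) := by
    have := h1.add (tendsto_const_nhds (x := Real.log (2 * α)).div_atTop hl)
    simpa using this
  have hinf : Tendsto (fun n : ℕ => φ 0 n) atTop atTop := by
    have h2 : Tendsto (fun n : ℕ => φ 0 n / Real.log n * Real.log n) atTop atTop :=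
      h1.pos_mul_atTop hc hl
    refine h2.congr' ?_
    filter_upwards [hl.eventually_gt_atTop 0] with n hn
    rw [div_mul_cancel₀ _ hn.ne']
  have hexp : Tendsto (fun n : ℕ => Real.exp (φ 0 n)) atTop atTop := Real.tendsto_exp_atTop.comp hinf
  refine tendsto_of_tendsto_of_tendsto_of_le_of_le' hlow hup ?_ ?_
  · filter_upwards [hl.eventually_gt_atTop 0, eventually_ge_atTop n0,
      hexp.eventually_ge_atTop (2 * (|β| + 1) / α)] with n hn hn0 he
    rw [← add_div, div_le_div_iff_of_pos_right hn, hP n hn0]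
    rw [div_le_iff₀ hα] at he
    have h2 := Nat.sub_one_lt_floor (α * Real.exp (φ 0 n) + β)
    have h3 : α / 2 * Real.exp (φ 0 n) ≤ (⌊α * Real.exp (φ 0 n) + β⌋₊ : ℝ) := by
      have := neg_abs_le β
      nlinarith
    have h4 := Real.log_le_log (by positivity) h3
    rw [Real.log_mul (by positivity) (Real.exp_pos _).ne', Real.log_exp] at h4
    linarith
  · filter_upwards [hl.eventually_gt_atTop 0, eventually_ge_atTop n0,
      hexp.eventually_ge_atTop (2 * (|β| + 1) / α)] with n hn hn0 he
    rw [← add_div, div_le_div_iff_of_pos_right hn, hP n hn0]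
    rw [div_le_iff₀ hα] at he
    have h5 := le_abs_self β
    have h6 := neg_abs_le β
    have hpos : 0 ≤ α * Real.exp (φ 0 n) + β := by nlinarith [abs_nonneg β]
    have h2 := Nat.floor_le hpos
    have h2' := Nat.sub_one_lt_floor (α * Real.exp (φ 0 n) + β)
    have h3 : (⌊α * Real.exp (φ 0 n) + β⌋₊ : ℝ) ≤ 2 * α * Real.exp (φ 0 n) := by
      nlinarith [abs_nonneg β]
    have h3' : (0 : ℝ) < (⌊α * Real.exp (φ 0 n) + β⌋₊ : ℝ) := by
      nlinarith [abs_nonneg β]
    have h4 := Real.log_le_log h3' h3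
    rw [Real.log_mul (by positivity) (Real.exp_pos _).ne', Real.log_exp] at h4
    linarith

end Pool.Agent.Q138.GS
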