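import Pool.Agent.Q138.GS.Mom

set_option autoImplicit false

/-!
# The mean square of `∑ d n B (u + c log n)` from a bound for the Fourier transform of `B`
-/

namespace Pool.Agent.Q138.GS

open Finset MeasureTheory Filter FourierTransform
open scoped ENNReal
open Pool.Agent.Y957.VK
open Pool.Agent.Y957.AD (memLp_of_bdd)
open Pool.Agent.H376R2.MR (er)

/-- `x² ≤ lam² + lam^{2-2k} x^{2k}` -/
theorem sq_split {x lam : ℝ} (hx : 0 ≤ x) (hl : 0 < lam) {k : ℕ} (hk : 1 ≤ k) :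
    x ^ 2 ≤ lam ^ 2 + lam ^ 2 / lam ^ (2 * k) * x ^ (2 * k) := by
  rcases le_or_gt x lam with h | h
  · have h1 : x ^ 2 ≤ lam ^ 2 := pow_le_pow_left₀ hx h 2
    have h2 : 0 ≤ lam ^ 2 / lam ^ (2 * k) * x ^ (2 * k) := by positivity
    linarith
  · have h0 : 1 ≤ x / lam := by rw [le_div_iff₀ hl]; linarith
    have h1 : (x / lam) ^ 2 ≤ (x / lam) ^ (2 * k) := pow_le_pow_right₀ h0 (by omega)
    have h2 : lam ^ 2 * (x / lam) ^ 2 = x ^ 2 := by field_simp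
    have h3 : lam ^ 2 * (x / lam) ^ (2 * k) = lam ^ 2 / lam ^ (2 * k) * x ^ (2 * k) := by
      rw [div_pow]
      ring
    have h4 := mul_le_mul_of_nonneg_left h1 (by positivity : (0:ℝ) ≤ lam ^ 2)
    rw [h2, h3] at h4
    have : 0 < lam ^ 2 := by positivity
    linarith

/-- **the core estimate** -/
theorem core (d : ℕ → ℂ) (hd : ∀ n, ‖d n‖ ≤ 1) (B : ℝ → ℂ) (hBm : Measurable B) (hB : ∀ y, ‖B y‖ ≤ 1)
    {L V T δ M lam : ℝ} {k : ℕ} (hL : 0 ≤ L) (hBs : ∀ y, y ∉ Set.Icc 0 L → B y = 0)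
    (hV : ∀ s, 0 ≤ s → s ≤ 1 → ∫ y, ‖B (y + s) - B y‖ ≤ V * s) (hT : 1 ≤ T)
    (hδ : ∀ ξ : ℝ, |ξ| ≤ T → ‖𝓕 B ξ‖ ≤ δ) (hlam : 0 < lam) (hk : 1 ≤ k) (c : ℝ) (N : ℕ) (hM0 : 0 ≤ M)
    (hM : ∫⁻ ξ in Set.Icc (-T) T, ‖Dn d c N (2 * Real.pi * ξ)‖ₑ ^ (2 * k) ≤ ENNReal.ofReal M) :
    ∫⁻ u, ‖Gn d B c N u‖ₑ ^ 2 ≤
      ENNReal.ofReal (lam ^ 2 * L + lam ^ 2 / lam ^ (2 * k) * (δ ^ 2 * M) + (N : ℝ) ^ 2 * V ^ 2 / 8 / T) := by
  have hBi : Integrable B := B_int hBm hB hBs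
  have hFc : Continuous (𝓕 B) := VectorFourier.fourierIntegral_continuous Real.continuous_fourierChar
      (by exact continuous_inner) hBi
  have hFm : Measurable (fun ξ => ‖𝓕 B ξ‖ₑ ^ 2) := hFc.measurable.enorm.pow_const 2
  have hDm : Measurable (fun ξ : ℝ => ‖Dn d c N (2 * Real.pi * ξ)‖ₑ) := by
    have : Measurable (fun ξ : ℝ => Dn d c N (2 * Real.pi * ξ)) := by
      unfold Dn er
      fun_prop
    exact this.enorm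
  have hb4 : ∫⁻ ξ, ‖𝓕 B ξ‖ₑ ^ 2 ≤ ENNReal.ofReal L := by
    rw [Pool.Agent.TH794.QD.plancherel _ hBi (memLp_of_bdd hBi hB)]
    exact B_sq hB hBs
  have h1 : ∫⁻ u, ‖Gn d B c N u‖ₑ ^ 2 =
      ∫⁻ ξ, ‖Dn d c N (2 * Real.pi * ξ)‖ₑ ^ 2 * ‖𝓕 B ξ‖ₑ ^ 2 := by
    rw [← Pool.Agent.TH794.QD.plancherel _ (Gn_int d hBi c N)
      (memLp_of_bdd (Gn_int d hBi c N) (Gn_le d hd hB c N))]
    refine lintegral_congr fun ξ => ?_
    rw [four_Gn _ hBi, enorm_mul, mul_pow]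
  rw [h1]
  set a : ℝ := lam ^ 2 / lam ^ (2 * k) with ha
  have ha0 : 0 ≤ a := by positivity
  have hKK : 0 ≤ (N : ℝ) ^ 2 * V ^ 2 / 8 := by positivity
  have hptw : ∀ ξ : ℝ, ‖Dn d c N (2 * Real.pi * ξ)‖ₑ ^ 2 * ‖𝓕 B ξ‖ₑ ^ 2 ≤
      ENNReal.ofReal (lam ^ 2) * ‖𝓕 B ξ‖ₑ ^ 2 +
      ((Set.Icc (-T) T).indicator (fun ξ => ENNReal.ofReal (a * δ ^ 2) *
        ‖Dn d c N (2 * Real.pi * ξ)‖ₑ ^ (2 * k)) ξ +
      (Set.Iic T)ᶜ.indicator (fun x => ENNReal.ofReal ((N : ℝ) ^ 2 * V ^ 2 / 8 / 2 * (x ^ 2)⁻¹)) |ξ|) := by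
    intro ξ
    by_cases hξ : |ξ| ≤ T
    · have hξ' : ξ ∈ Set.Icc (-T) T := abs_le.1 hξ
      rw [Set.indicator_of_mem hξ']
      have hD0 : 0 ≤ ‖Dn d c N (2 * Real.pi * ξ)‖ := norm_nonneg _
      have hs := sq_split hD0 hlam hk
      have e1 : ‖Dn d c N (2 * Real.pi * ξ)‖ₑ ^ 2 ≤ ENNReal.ofReal (lam ^ 2) +
          ENNReal.ofReal a * ‖Dn d c N (2 * Real.pi * ξ)‖ₑ ^ (2 * k) := by
        rw [← ofReal_norm, ← ENNReal.ofReal_pow hD0, ← ENNReal.ofReal_pow hD0, ← ENNReal.ofReal_mul ha0,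
          ← ENNReal.ofReal_add (by positivity) (by positivity)]
        exact ENNReal.ofReal_le_ofReal hs
      have e2 : ‖𝓕 B ξ‖ₑ ^ 2 ≤ ENNReal.ofReal (δ ^ 2) := enorm_sq_le (hδ ξ hξ)
      calc _ ≤ (ENNReal.ofReal (lam ^ 2) +
          ENNReal.ofReal a * ‖Dn d c N (2 * Real.pi * ξ)‖ₑ ^ (2 * k)) * ‖𝓕 B ξ‖ₑ ^ 2 := mul_le_mul' e1 le_rfl
        _ = ENNReal.ofReal (lam ^ 2) * ‖𝓕 B ξ‖ₑ ^ 2 +
          ENNReal.ofReal a * ‖Dn d c N (2 * Real.pi * ξ)‖ₑ ^ (2 * k) * ‖𝓕 B ξ‖ₑ ^ 2 := by ring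
        _ ≤ ENNReal.ofReal (lam ^ 2) * ‖𝓕 B ξ‖ₑ ^ 2 +
          ENNReal.ofReal a * ‖Dn d c N (2 * Real.pi * ξ)‖ₑ ^ (2 * k) * ENNReal.ofReal (δ ^ 2) := by
            gcongr
        _ = ENNReal.ofReal (lam ^ 2) * ‖𝓕 B ξ‖ₑ ^ 2 +
          ENNReal.ofReal (a * δ ^ 2) * ‖Dn d c N (2 * Real.pi * ξ)‖ₑ ^ (2 * k) := by
            rw [ENNReal.ofReal_mul ha0]
            ring
        _ ≤ _ := by
            gcongr
            exact le_add_right le_rfl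
    · have hξ1 : T < |ξ| := not_le.1 hξ
      have hξ0 : 0 < |ξ| := by linarith
      have e3 : ‖𝓕 B ξ‖ₑ ^ 2 ≤ ENNReal.ofReal ((V / (4 * |ξ|)) ^ 2) :=
        enorm_sq_le (four_decay hBi hV (by linarith))
      have e4 : ‖Dn d c N (2 * Real.pi * ξ)‖ₑ ^ 2 ≤ ENNReal.ofReal ((N : ℝ) ^ 2) :=
        enorm_sq_le (Dn_le d hd c N _)
      refine le_add_left (le_add_left ?_)
      rw [Set.indicator_of_mem (by simpa using hξ)]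
      calc _ ≤ ENNReal.ofReal ((N : ℝ) ^ 2) * ENNReal.ofReal ((V / (4 * |ξ|)) ^ 2) := mul_le_mul' e4 e3
        _ = ENNReal.ofReal ((N : ℝ) ^ 2 * (V / (4 * |ξ|)) ^ 2) := by rw [ENNReal.ofReal_mul (by positivity)]
        _ = _ := by
            congr 1
            field_simp
            ring
  calc _ ≤ ∫⁻ ξ : ℝ, (ENNReal.ofReal (lam ^ 2) * ‖𝓕 B ξ‖ₑ ^ 2 +
      ((Set.Icc (-T) T).indicator (fun ξ => ENNReal.ofReal (a * δ ^ 2) *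
        ‖Dn d c N (2 * Real.pi * ξ)‖ₑ ^ (2 * k)) ξ +
      (Set.Iic T)ᶜ.indicator (fun x => ENNReal.ofReal ((N : ℝ) ^ 2 * V ^ 2 / 8 / 2 * (x ^ 2)⁻¹)) |ξ|)) :=
        lintegral_mono hptw
    _ = ENNReal.ofReal (lam ^ 2) * (∫⁻ ξ : ℝ, ‖𝓕 B ξ‖ₑ ^ 2) +
      (ENNReal.ofReal (a * δ ^ 2) * (∫⁻ ξ in Set.Icc (-T) T, ‖Dn d c N (2 * Real.pi * ξ)‖ₑ ^ (2 * k)) +
      ∫⁻ ξ : ℝ, (Set.Iic T)ᶜ.indicator
        (fun x => ENNReal.ofReal ((N : ℝ) ^ 2 * V ^ 2 / 8 / 2 * (x ^ 2)⁻¹)) |ξ|) := by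
        rw [lintegral_add_left (hFm.const_mul _), lintegral_const_mul _ hFm, lintegral_add_left,
          lintegral_indicator measurableSet_Icc, lintegral_const_mul _ (hDm.pow_const _)]
        exact ((hDm.pow_const _).const_mul _).indicator measurableSet_Icc
    _ ≤ ENNReal.ofReal (lam ^ 2) * ENNReal.ofReal L +
      (ENNReal.ofReal (a * δ ^ 2) * ENNReal.ofReal M + ENNReal.ofReal ((N : ℝ) ^ 2 * V ^ 2 / 8 / T)) := by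
        refine add_le_add (mul_le_mul' le_rfl hb4) (add_le_add (mul_le_mul' le_rfl hM) (tail_int hT hKK))
    _ = _ := by
        rw [← ENNReal.ofReal_mul (by positivity), ← ENNReal.ofReal_mul (by positivity),
          ← ENNReal.ofReal_add (by positivity) (by positivity),
          ← ENNReal.ofReal_add (by positivity) (by positivity)]
        congr 1
        ring

end Pool.Agent.Q138.GS
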