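import Pool.Agent.Q138.GS.TT
import Pool.Agent.Y957.VK.E1

set_option autoImplicit false

/-!
# The mean square of `∑ d n B (u + φ n)` from a bound for the Fourier transform of `B` and exponential sums
-/

namespace Pool.Agent.Q138.GS

open Finset MeasureTheory Filter FourierTransform
open scoped ENNReal ComplexConjugate
open Pool.Agent.Y957.VK
open Pool.Agent.Y957.AD (memLp_of_bdd er_norm er_add four_shift)
open Pool.Agent.H376R2.MR (er)

/-- `∑ d n B (u + φ n)` -/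
noncomputable def Gf (d : ℕ → ℂ) (B : ℝ → ℂ) (φ : ℕ → ℝ) (S : Finset ℕ) (u : ℝ) : ℂ :=
  ∑ n ∈ S, d n * B (u + φ n)

/-- `∑ d n e(ξ φ n)` -/
noncomputable def Df (d : ℕ → ℂ) (φ : ℕ → ℝ) (S : Finset ℕ) (ξ : ℝ) : ℂ :=
  ∑ n ∈ S, d n * er (2 * Real.pi * ξ) (φ n)

theorem Gf_int (d : ℕ → ℂ) {B : ℝ → ℂ} (hB : Integrable B) (φ : ℕ → ℝ) (S : Finset ℕ) :
    Integrable (Gf d B φ S) := by
  unfold Gf
  exact integrable_finsetSum _ fun n _ => (hB.comp_add_right _).const_mul _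

theorem Gf_le (d : ℕ → ℂ) {B : ℝ → ℂ} (hB : ∀ y, ‖B y‖ ≤ 1) (φ : ℕ → ℝ) (S : Finset ℕ) (u : ℝ) :
    ‖Gf d B φ S u‖ ≤ ∑ n ∈ S, ‖d n‖ := by
  unfold Gf
  refine (norm_sum_le _ _).trans (sum_le_sum fun n _ => ?_)
  rw [norm_mul]
  exact mul_le_of_le_one_right (norm_nonneg _) (hB _)

theorem Df_le (d : ℕ → ℂ) (φ : ℕ → ℝ) (S : Finset ℕ) (ξ : ℝ) : ‖Df d φ S ξ‖ ≤ ∑ n ∈ S, ‖d n‖ := by
  unfold Df
  refine (norm_sum_le _ _).trans (le_of_eq (sum_congr rfl fun n _ => ?_))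
  rw [norm_mul, er_norm, mul_one]

theorem four_Gf (d : ℕ → ℂ) {B : ℝ → ℂ} (hB : Integrable B) (φ : ℕ → ℝ) (S : Finset ℕ) (ξ : ℝ) :
    𝓕 (Gf d B φ S) ξ = Df d φ S ξ * 𝓕 B ξ := by
  unfold Gf Df
  rw [four_fsum _ _ fun n _ => (hB.comp_add_right _).const_mul _, Finset.sum_mul]
  refine Finset.sum_congr rfl fun n _ => ?_
  rw [four_smulc, four_shift]
  ring

theorem er_conj (τ x : ℝ) : conj (er τ x) = er (-τ) x := by
  unfold er
  rw [← Complex.exp_conj, map_mul, Complex.conj_ofReal, Complex.conj_I]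
  congr 1
  push_cast
  ring

theorem er_sub (a b x : ℝ) : er a x * conj (er b x) = er (a - b) x := by
  rw [er_conj]
  unfold er
  rw [← Complex.exp_add]
  congr 1
  push_cast
  ring

/-- the kernel of the exponential sums -/
noncomputable def Kf (φ : ℕ → ℝ) (S : Finset ℕ) (t : ℝ) : ℂ := ∑ n ∈ S, er (2 * Real.pi * t) (φ n)

theorem Kr_eq (φ : ℕ → ℝ) (S : Finset ℕ) (x y : ℝ) :
    Kr S (fun n ξ => er (2 * Real.pi * ξ) (φ n)) x y = Kf φ S (x - y) := by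
  unfold Kr Kf
  refine sum_congr rfl fun n _ => ?_
  rw [er_sub]
  congr 1
  ring

theorem kap_int {R : ℝ} (hR : 0 ≤ R) : ∫⁻ t : ℝ, (Set.Icc (-R) R).indicator
    (fun t => ENNReal.ofReal (1 / (1 + |t|))) t ≤ ENNReal.ofReal (2 * Real.log (1 + R)) := by
  rw [lintegral_indicator measurableSet_Icc]
  have hcont : Continuous fun t : ℝ => 1 / (1 + |t|) := by
    refine continuous_const.div (by fun_prop) fun t => ?_
    positivity
  rw [← ofReal_integral_eq_lintegral_ofReal (hcont.continuousOn.integrableOn_compact isCompact_Icc)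
    (Eventually.of_forall fun t => by positivity)]
  apply ENNReal.ofReal_le_ofReal
  rw [integral_Icc_eq_integral_Ioc, ← intervalIntegral.integral_of_le (by linarith)]
  have hi : ∀ a b : ℝ, IntervalIntegrable (fun t : ℝ => 1 / (1 + |t|)) volume a b := fun a b =>
    hcont.intervalIntegrable a b
  rw [← intervalIntegral.integral_add_adjacent_intervals (hi (-R) 0) (hi 0 R)]
  have h1 : ∫ t in (0:ℝ)..R, 1 / (1 + |t|) = Real.log (1 + R) := by
    have e1 : ∫ t in (0:ℝ)..R, 1 / (1 + |t|) = ∫ t in (0:ℝ)..R, (fun x : ℝ => x⁻¹) (t + 1) := by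
      refine intervalIntegral.integral_congr fun t ht => ?_
      rw [Set.uIcc_of_le hR] at ht
      simp only
      rw [abs_of_nonneg ht.1, one_div, add_comm]
    rw [e1, intervalIntegral.integral_comp_add_right (fun x : ℝ => x⁻¹), zero_add,
      integral_inv_of_pos one_pos (by linarith), div_one, add_comm]
  have h2 : ∫ t in (-R)..0, 1 / (1 + |t|) = Real.log (1 + R) := by
    have := intervalIntegral.integral_comp_neg (a := 0) (b := R) (fun t : ℝ => 1 / (1 + |t|))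
    simp only [abs_neg, neg_zero] at this
    rw [← this, h1]
  rw [h1, h2]
  linarith

/-- the low frequencies -/
theorem low (d : ℕ → ℂ) (S : Finset ℕ) (φ : ℕ → ℝ) (w : ℝ → ℝ≥0∞) (hw : Measurable w)
    {T R E F δ L : ℝ} (hR : 0 ≤ R) (hE : 0 ≤ E) (hF : 0 ≤ F) (hL : 0 ≤ L)
    (hwδ : ∀ ξ : ℝ, |ξ| ≤ T → w ξ ≤ ENNReal.ofReal (δ ^ 2)) (hwL : ∫⁻ ξ, w ξ ≤ ENNReal.ofReal L)
    (hK : ∀ t : ℝ, |t| ≤ 2 * T → ‖Kf φ S t‖ ≤ (if |t| ≤ R then E / (1 + |t|) else 0) + F) :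
    ∫⁻ ξ in Set.Icc (-T) T, ‖Df d φ S ξ‖ₑ ^ 2 * w ξ ≤
      ENNReal.ofReal ((∑ n ∈ S, ‖d n‖ ^ 2) * (E * δ ^ 2 * (2 * Real.log (1 + R)) + F * L)) := by
  set ν : Measure ℝ := ((volume : Measure ℝ).restrict (Set.Icc (-T) T)).withDensity w with hν
  have hνfin : IsFiniteMeasure ν := by
    rw [hν]
    refine isFiniteMeasure_withDensity ?_
    exact ne_top_of_le_ne_top ENNReal.ofReal_ne_top ((setLIntegral_le_lintegral _ _).trans hwL)
  have hψm : ∀ n, Measurable fun ξ : ℝ => er (2 * Real.pi * ξ) (φ n) := by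
    intro n
    unfold er
    fun_prop
  have hlR : 0 ≤ Real.log (1 + R) := Real.log_nonneg (by linarith)
  set M : ℝ := E * δ ^ 2 * (2 * Real.log (1 + R)) + F * L with hM
  have hM0 : 0 ≤ M := by positivity
  have hDm : Measurable fun ξ => ‖Df d φ S ξ‖ₑ ^ 2 := by
    unfold Df
    exact (Finset.measurable_fun_sum _ fun n _ => (hψm n).const_mul _).enorm.pow_const 2
  have hKfm : Measurable fun t => Kf φ S t := by
    unfold Kf
    exact Finset.measurable_fun_sum _ fun n _ => hψm n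
  have hkey : ∀ x ∈ Set.Icc (-T) T, ∫⁻ y, ‖Kf φ S (x - y)‖ₑ ∂ν ≤ ENNReal.ofReal M := by
    intro x hx
    have hKm : Measurable fun y => ‖Kf φ S (x - y)‖ₑ := (hKfm.comp (measurable_const.sub measurable_id)).enorm
    rw [hν, lintegral_withDensity_eq_lintegral_mul _ hw hKm]
    set κ : ℝ → ℝ≥0∞ := fun t => (Set.Icc (-R) R).indicator (fun t => ENNReal.ofReal (1 / (1 + |t|))) t with hκ
    have hκm : Measurable κ := by
      refine Measurable.indicator ?_ measurableSet_Icc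
      refine ENNReal.measurable_ofReal.comp ?_
      exact measurable_const.div (by fun_prop)
    have hpt : ∀ y ∈ Set.Icc (-T) T, (w * fun y => ‖Kf φ S (x - y)‖ₑ) y ≤
        ENNReal.ofReal (E * δ ^ 2) * κ (x - y) + ENNReal.ofReal F * w y := by
      intro y hy
      simp only [Pi.mul_apply]
      have hxy : |x - y| ≤ 2 * T := by
        rw [abs_le]
        constructor <;> linarith [hx.1, hx.2, hy.1, hy.2]
      have h1 := hK (x - y) hxy
      have h2 : ‖Kf φ S (x - y)‖ₑ ≤ ENNReal.ofReal E * κ (x - y) + ENNReal.ofReal F := by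
        rw [← ofReal_norm]
        refine (ENNReal.ofReal_le_ofReal h1).trans ?_
        rw [ENNReal.ofReal_add (by split_ifs <;> positivity) hF]
        refine add_le_add ?_ le_rfl
        rw [hκ]
        simp only
        by_cases h3 : |x - y| ≤ R
        · rw [if_pos h3, Set.indicator_of_mem (by rw [Set.mem_Icc]; exact abs_le.1 h3),
            ← ENNReal.ofReal_mul hE, mul_one_div]
        · rw [if_neg h3]
          simp
      calc w y * ‖Kf φ S (x - y)‖ₑ ≤ w y * (ENNReal.ofReal E * κ (x - y) + ENNReal.ofReal F) :=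
            mul_le_mul' le_rfl h2
        _ = w y * (ENNReal.ofReal E * κ (x - y)) + ENNReal.ofReal F * w y := by ring
        _ ≤ ENNReal.ofReal (δ ^ 2) * (ENNReal.ofReal E * κ (x - y)) + ENNReal.ofReal F * w y := by
            refine add_le_add (mul_le_mul' (hwδ y (abs_le.2 hy)) le_rfl) le_rfl
        _ = _ := by
            rw [ENNReal.ofReal_mul hE]
            ring
    calc ∫⁻ y in Set.Icc (-T) T, (w * fun y => ‖Kf φ S (x - y)‖ₑ) y
        ≤ ∫⁻ y in Set.Icc (-T) T, (ENNReal.ofReal (E * δ ^ 2) * κ (x - y) + ENNReal.ofReal F * w y) :=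
          setLIntegral_mono' measurableSet_Icc hpt
      _ ≤ ∫⁻ y, (ENNReal.ofReal (E * δ ^ 2) * κ (x - y) + ENNReal.ofReal F * w y) :=
          setLIntegral_le_lintegral _ _
      _ = ENNReal.ofReal (E * δ ^ 2) * (∫⁻ y, κ (x - y)) + ENNReal.ofReal F * ∫⁻ y, w y := by
          rw [lintegral_add_right _ (hw.const_mul _), lintegral_const_mul _ hw, lintegral_const_mul]
          exact hκm.comp (measurable_const.sub measurable_id)
      _ ≤ ENNReal.ofReal (E * δ ^ 2) * ENNReal.ofReal (2 * Real.log (1 + R)) +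
            ENNReal.ofReal F * ENNReal.ofReal L := by
          refine add_le_add (mul_le_mul' le_rfl ?_) (mul_le_mul' le_rfl hwL)
          rw [lintegral_sub_left_eq_self κ x]
          exact kap_int hR
      _ = ENNReal.ofReal M := by
          rw [← ENNReal.ofReal_mul (by positivity), ← ENNReal.ofReal_mul hF,
            ← ENNReal.ofReal_add (by positivity) (by positivity)]
  have hae : ∀ᵐ x ∂ν, x ∈ Set.Icc (-T) T := by
    rw [hν]
    exact (withDensity_absolutelyContinuous _ _).ae_le (ae_restrict_mem measurableSet_Icc)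
  have hT := ttstar ν S (fun n ξ => er (2 * Real.pi * ξ) (φ n)) hψm (fun n x => (er_norm _ _).le) d M hM0 (by
    filter_upwards [hae] with x hx
    simp only [Kr_eq]
    have hm : Measurable fun y => Kf φ S (x - y) := hKfm.comp (measurable_const.sub measurable_id)
    rw [integral_norm_eq_lintegral_enorm hm.aestronglyMeasurable]
    exact ENNReal.toReal_le_of_le_ofReal hM0 (hkey x hx))
  have e1 : ∫⁻ ξ in Set.Icc (-T) T, ‖Df d φ S ξ‖ₑ ^ 2 * w ξ = ∫⁻ ξ, ‖Df d φ S ξ‖ₑ ^ 2 ∂ν := by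
    rw [hν, lintegral_withDensity_eq_lintegral_mul _ hw hDm]
    refine lintegral_congr fun ξ => ?_
    simp only [Pi.mul_apply]
    ring
  have hDfm : Measurable fun ξ => Df d φ S ξ := by
    unfold Df
    exact Finset.measurable_fun_sum _ fun n _ => (hψm n).const_mul _
  have e2 : ∫⁻ ξ, ‖Df d φ S ξ‖ₑ ^ 2 ∂ν = ENNReal.ofReal (∫ ξ, ‖Df d φ S ξ‖ ^ 2 ∂ν) := by
    rw [ofReal_integral_eq_lintegral_ofReal]
    · refine lintegral_congr fun ξ => ?_
      rw [ENNReal.ofReal_pow (norm_nonneg _), ofReal_norm]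
    · exact bdd_intR ν (hDfm.norm.pow_const 2) (C := (∑ n ∈ S, ‖d n‖) ^ 2) fun x => by
        rw [Real.norm_eq_abs, abs_of_nonneg (by positivity)]
        exact pow_le_pow_left₀ (norm_nonneg _) (Df_le d φ S x) 2
    · exact Eventually.of_forall fun ξ => by positivity
  rw [e1, e2]
  exact ENNReal.ofReal_le_ofReal hT

/-- **the core estimate** -/
theorem core2 (d : ℕ → ℂ) (S : Finset ℕ) (φ : ℕ → ℝ) (B : ℝ → ℂ) (hBm : Measurable B) (hB : ∀ y, ‖B y‖ ≤ 1)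
    {L V T δ R E F : ℝ} (hL : 0 ≤ L) (hBs : ∀ y, y ∉ Set.Icc 0 L → B y = 0)
    (hV : ∀ s, 0 ≤ s → s ≤ 1 → ∫ y, ‖B (y + s) - B y‖ ≤ V * s) (hT : 1 ≤ T)
    (hδ : ∀ ξ : ℝ, |ξ| ≤ T → ‖𝓕 B ξ‖ ≤ δ) (hR : 0 ≤ R) (hE : 0 ≤ E) (hF : 0 ≤ F)
    (hK : ∀ t : ℝ, |t| ≤ 2 * T → ‖Kf φ S t‖ ≤ (if |t| ≤ R then E / (1 + |t|) else 0) + F) :
    ∫⁻ u, ‖Gf d B φ S u‖ₑ ^ 2 ≤
      ENNReal.ofReal ((∑ n ∈ S, ‖d n‖ ^ 2) * (E * δ ^ 2 * (2 * Real.log (1 + R)) + F * L) +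
        (∑ n ∈ S, ‖d n‖) ^ 2 * V ^ 2 / 8 / T) := by
  have hBi : Integrable B := B_int hBm hB hBs
  have hFc : Continuous (𝓕 B) := VectorFourier.fourierIntegral_continuous Real.continuous_fourierChar
      (by exact continuous_inner) hBi
  have hFm : Measurable (fun ξ => ‖𝓕 B ξ‖ₑ ^ 2) := hFc.measurable.enorm.pow_const 2
  have hb4 : ∫⁻ ξ, ‖𝓕 B ξ‖ₑ ^ 2 ≤ ENNReal.ofReal L := by
    rw [Pool.Agent.TH794.QD.plancherel _ hBi (memLp_of_bdd hBi hB)]
    exact B_sq hB hBs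
  have h1 : ∫⁻ u, ‖Gf d B φ S u‖ₑ ^ 2 = ∫⁻ ξ, ‖Df d φ S ξ‖ₑ ^ 2 * ‖𝓕 B ξ‖ₑ ^ 2 := by
    rw [← Pool.Agent.TH794.QD.plancherel _ (Gf_int d hBi φ S)
      (memLp_of_bdd (Gf_int d hBi φ S) (Gf_le d hB φ S))]
    refine lintegral_congr fun ξ => ?_
    rw [four_Gf _ hBi, enorm_mul, mul_pow]
  rw [h1]
  have hKK : 0 ≤ (∑ n ∈ S, ‖d n‖) ^ 2 * V ^ 2 / 8 := by positivity
  have hlow := low d S φ (fun ξ => ‖𝓕 B ξ‖ₑ ^ 2) hFm hR hE hF hL
    (fun ξ hξ => enorm_sq_le (hδ ξ hξ)) hb4 hK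
  have hptw : ∀ ξ : ℝ, ‖Df d φ S ξ‖ₑ ^ 2 * ‖𝓕 B ξ‖ₑ ^ 2 ≤
      (Set.Icc (-T) T).indicator (fun ξ => ‖Df d φ S ξ‖ₑ ^ 2 * ‖𝓕 B ξ‖ₑ ^ 2) ξ +
      (Set.Iic T)ᶜ.indicator
        (fun x => ENNReal.ofReal ((∑ n ∈ S, ‖d n‖) ^ 2 * V ^ 2 / 8 / 2 * (x ^ 2)⁻¹)) |ξ| := by
    intro ξ
    by_cases hξ : |ξ| ≤ T
    · have hξ' : ξ ∈ Set.Icc (-T) T := abs_le.1 hξ
      rw [Set.indicator_of_mem hξ']
      exact le_add_right le_rfl
    · have hξ1 : T < |ξ| := not_le.1 hξ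
      have hξ0 : 0 < |ξ| := by linarith
      have e3 : ‖𝓕 B ξ‖ₑ ^ 2 ≤ ENNReal.ofReal ((V / (4 * |ξ|)) ^ 2) :=
        enorm_sq_le (four_decay hBi hV (by linarith))
      have e4 : ‖Df d φ S ξ‖ₑ ^ 2 ≤ ENNReal.ofReal ((∑ n ∈ S, ‖d n‖) ^ 2) :=
        enorm_sq_le (Df_le d φ S ξ)
      refine le_add_left ?_
      rw [Set.indicator_of_mem (by simpa using hξ)]
      calc _ ≤ ENNReal.ofReal ((∑ n ∈ S, ‖d n‖) ^ 2) * ENNReal.ofReal ((V / (4 * |ξ|)) ^ 2) :=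
            mul_le_mul' e4 e3
        _ = ENNReal.ofReal ((∑ n ∈ S, ‖d n‖) ^ 2 * (V / (4 * |ξ|)) ^ 2) := by
            rw [ENNReal.ofReal_mul (by positivity)]
        _ = _ := by
            congr 1
            field_simp
            ring
  have hDm : Measurable fun ξ => ‖Df d φ S ξ‖ₑ ^ 2 := by
    unfold Df er
    fun_prop
  calc _ ≤ ∫⁻ ξ : ℝ, ((Set.Icc (-T) T).indicator (fun ξ => ‖Df d φ S ξ‖ₑ ^ 2 * ‖𝓕 B ξ‖ₑ ^ 2) ξ +
      (Set.Iic T)ᶜ.indicator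
        (fun x => ENNReal.ofReal ((∑ n ∈ S, ‖d n‖) ^ 2 * V ^ 2 / 8 / 2 * (x ^ 2)⁻¹)) |ξ|) :=
        lintegral_mono hptw
    _ = (∫⁻ ξ in Set.Icc (-T) T, ‖Df d φ S ξ‖ₑ ^ 2 * ‖𝓕 B ξ‖ₑ ^ 2) +
      ∫⁻ ξ : ℝ, (Set.Iic T)ᶜ.indicator
        (fun x => ENNReal.ofReal ((∑ n ∈ S, ‖d n‖) ^ 2 * V ^ 2 / 8 / 2 * (x ^ 2)⁻¹)) |ξ| := by
        have hmm : Measurable fun ξ => ‖Df d φ S ξ‖ₑ ^ 2 * ‖𝓕 B ξ‖ₑ ^ 2 := hDm.mul hFm
        rw [lintegral_add_left (hmm.indicator measurableSet_Icc), lintegral_indicator measurableSet_Icc]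
    _ ≤ _ := by
        have hlR : 0 ≤ Real.log (1 + R) := Real.log_nonneg (by linarith)
        rw [ENNReal.ofReal_add (by positivity) (by positivity)]
        exact add_le_add hlow (tail_int hT hKK)

end Pool.Agent.Q138.GS
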