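import Pool.Agent.Q138.GS.UniT

set_option autoImplicit false

/-!
# Families of weights and shifts
-/

namespace Pool.Agent.Q138.GS

open Finset Filter Topology MeasureTheory
open scoped ENNReal
open Pool.Agent.Y957.VK

/-- the terms of a family -/
noncomputable def fT {ι : Type*} (k : ℕ) (F : Fin (k + 1) → ℕ → ℂ) (c0 : Fin (k + 1) → ℂ)
    (P : Fin (k + 1) → ℕ → ℝ) (β : Fin (k + 1) → ℝ) (G : ι → ℕ → ℂ) (σ : ι → Fin (k + 1) → ℕ) (h : ι)
    (α : Fin (k + 1) → ℝ) (n : ℕ) : ℂ :=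
  G h n * (∏ i, F i ⌊α i * P i (n + σ h i) + β i⌋₊ - ∏ i, c0 i)

/-- **uniformity over a family** -/
theorem fam_sav {ι : Type*} (k : ℕ) (F f : Fin (k + 1) → ℕ → ℂ) (c0 : Fin (k + 1) → ℂ)
    (hFf : ∀ i n, F i n = c0 i + f i n) (hF : ∀ i (n : ℕ), ‖F i n‖ ≤ Real.log (n + 3))
    (P : Fin (k + 1) → ℕ → ℝ) (A' : Fin (k + 1) → ℕ)
    (C1 : Fin (k + 1) → ℝ) (hP : ∀ i, ∀ n : ℕ, 1 ≤ n → |P i n| ≤ C1 i * (n : ℝ) ^ (A' i))
    (β : Fin (k + 1) → ℝ) (hU : ∀ i, UN (f i) (P i) (β i))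
    (Hs : ℕ → Finset ι) (hmono : ∀ N M, N ≤ M → Hs N ⊆ Hs M) (C2 : ℝ) (B2 : ℕ)
    (hC2 : ∀ N : ℕ, 2 ≤ N → ((Hs N).card : ℝ) ≤ C2 * (Real.log N) ^ B2)
    (B : ℕ) (σ : ι → Fin (k + 1) → ℕ) (hσ : ∀ N, ∀ h ∈ Hs N, ∀ i, σ h i ≤ LL B N)
    (G : ι → ℕ → ℂ) (C0 : ℝ) (Bg : ℕ)
    (hg : ∀ N : ℕ, ∀ h ∈ Hs N, ∀ n : ℕ, 1 ≤ n → n ≤ N + 1 → ‖G h n‖ ≤ C0 * (Real.log (N + 3)) ^ Bg) :
    ∀ᵐ α ∂(pm (k + 1)), ∀ K : ℕ, ∀ᶠ N : ℕ in atTop, ∀ h ∈ Hs N,
      ‖∑ n ∈ Icc 1 N, fT k F c0 P β G σ h α n‖ ≤ N / (Real.log N) ^ K := by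
  classical
  refine to_alpha (k + 1) _ fun b => ?_
  -- constants
  obtain ⟨C3, hC31, hC3⟩ := LL_le B
  set Y : Fin (k + 1) → ℝ := fun i => Real.exp (b i + 1) with hY
  choose C' hC'1 hC' using fun i => val_le2 (F i) (hF i) (P i) 1 (A' i) (C1 i) (Y i) (hP i) (β i)
  set Lf : ℕ → ℝ := fun N => Real.log ((N : ℝ) + 3) with hLf
  have hL1 : ∀ N, 1 ≤ Lf N := fun N => lg3 N
  -- the bound for the values
  have hval : ∀ (ω : Fin (k + 1) → ℝ), (∀ i, ω i ∈ Set.Icc (0 : ℝ) 1) → ∀ N n h : ℕ, 1 ≤ n → n ≤ N + 1 →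
      h ≤ LL B N → ∀ i, ‖F i ⌊Real.exp (b i + ω i) * P i (n + h) + β i⌋₊‖ ≤ C' i * (C3 * Lf N) := by
    intro ω hω N n h hn hnN hh i
    have h1 := hC' i (Real.exp (b i + ω i)) (by
      rw [abs_of_pos (Real.exp_pos _)]
      exact Real.exp_le_exp.2 (by linarith [(hω i).2])) (n + h) (n + h) (by omega) (by omega) (by omega)
    refine h1.trans ?_
    have h2 := (hC3 N n h hnN hh).2
    exact mul_le_mul_of_nonneg_left h2 (by linarith [hC'1 i])
  have hgv : ∀ N : ℕ, ∀ h ∈ Hs N, ∀ n : ℕ, 1 ≤ n → n ≤ N + 1 → ‖G h n‖ ≤ |C0| * (C3 * Lf N) ^ Bg := by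
    intro N h hh n hn hnN
    have h3 := hL1 N
    calc ‖G h n‖ ≤ C0 * (Lf N) ^ Bg := hg N h hh n hn hnN
      _ ≤ |C0| * (Lf N) ^ Bg := mul_le_mul_of_nonneg_right (le_abs_self _) (by positivity)
      _ ≤ |C0| * (C3 * Lf N) ^ Bg := by
          refine mul_le_mul_of_nonneg_left (pow_le_pow_left₀ (by positivity) ?_ _) (abs_nonneg _)
          nlinarith
  have hprod : ∀ (ω : Fin (k + 1) → ℝ), (∀ i, ω i ∈ Set.Icc (0 : ℝ) 1) → ∀ N n : ℕ, ∀ h : Fin (k + 1) → ℕ,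
      1 ≤ n → n ≤ N + 1 → (∀ i, h i ≤ LL B N) → ∀ (p : Fin (k + 1) → Prop) [DecidablePred p],
      ‖∏ i with p i, F i ⌊Real.exp (b i + ω i) * P i (n + h i) + β i⌋₊‖ ≤
        (∏ i, C' i) * (C3 * Lf N) ^ (k + 1) := by
    intro ω hω N n h hn hnN hh p _
    have h3 := hL1 N
    rw [norm_prod]
    calc ∏ i with p i, ‖F i ⌊Real.exp (b i + ω i) * P i (n + h i) + β i⌋₊‖
        ≤ ∏ i with p i, (C' i * (C3 * Lf N)) :=
          Finset.prod_le_prod (fun _ _ => norm_nonneg _) fun i _ => hval ω hω N n (h i) hn hnN (hh i) i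
      _ ≤ ∏ i, (C' i * (C3 * Lf N)) := by
          exact prod_filter_le p _ fun i => by
            have := hC'1 i
            nlinarith [mul_le_mul hC31 h3 (by norm_num) (by linarith)]
      _ = _ := by
          rw [Finset.prod_mul_distrib]
          simp
  have hCp : 0 ≤ ∏ i, C' i := prod_nonneg fun i _ => by linarith [hC'1 i]
  set aa : ι → (Fin (k + 1) → ℝ) → ℕ → ℂ := fun h ω n =>
    fT k F c0 P β G σ h (fun i => Real.exp (b i + ω i)) n with haa
  have ham : ∀ h n, Measurable fun ω => aa h ω n := by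
    intro h n
    rw [haa]
    unfold fT
    refine Measurable.const_mul (Measurable.sub_const ?_ _) _
    refine Finset.measurable_fun_prod _ fun i _ => ?_
    refine fl_meas (F i) ?_
    exact ((((measurable_pi_apply i).const_add _).exp).mul_const _).add_const _
  -- the decomposition
  set Gj : Fin (k + 1) → ι → (Fin (k + 1) → ℝ) → ℕ → ℂ := fun j h ω n =>
    G h n * (∏ i with i < j, F i ⌊Real.exp (b i + ω i) * P i (n + σ h i) + β i⌋₊) *
      ∏ i with j < i, c0 i with hGj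
  have hdec : ∀ h ω n, aa h ω n = ∑ j, Gj j h ω n * f j ⌊Real.exp (b j + ω j) * P j (n + σ h j) + β j⌋₊ := by
    intro h ω n
    rw [haa]
    simp only [fT, hGj]
    have e1 : ∏ i, F i ⌊Real.exp (b i + ω i) * P i (n + σ h i) + β i⌋₊ =
        ∏ i, (c0 i + f i ⌊Real.exp (b i + ω i) * P i (n + σ h i) + β i⌋₊) :=
      Finset.prod_congr rfl fun i _ => hFf i _
    rw [e1, Finset.prod_add_ordered, add_sub_cancel_left, Finset.mul_sum]
    refine sum_congr rfl fun j _ => ?_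
    have e2 : ∏ i with i < j, F i ⌊Real.exp (b i + ω i) * P i (n + σ h i) + β i⌋₊ =
        ∏ i with i < j, (c0 i + f i ⌊Real.exp (b i + ω i) * P i (n + σ h i) + β i⌋₊) :=
      Finset.prod_congr rfl fun i _ => hFf i _
    rw [e2]
    ring
  have hGm : ∀ j h n, Measurable fun ω => Gj j h ω n := by
    intro j h n
    rw [hGj]
    refine Measurable.mul_const (Measurable.const_mul ?_ _) _
    refine Finset.measurable_fun_prod _ fun i _ => ?_
    refine fl_meas (F i) ?_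
    exact ((((measurable_pi_apply i).const_add _).exp).mul_const _).add_const _
  have hGupd : ∀ j h ω t n, Gj j h (Function.update ω j t) n = Gj j h ω n := by
    intro j h ω t n
    rw [hGj]
    simp only
    congr 2
    refine Finset.prod_congr rfl fun i hi => ?_
    rw [Function.update_of_ne (mem_filter.1 hi).2.ne]
  set Wc : ℝ := 1 + ∑ j : Fin (k + 1), ‖∏ i with j < i, c0 i‖ with hWc
  have hWc1 : ∀ j : Fin (k + 1), ‖∏ i with j < i, c0 i‖ ≤ Wc := by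
    intro j
    have : ‖∏ i with j < i, c0 i‖ ≤ ∑ j : Fin (k + 1), ‖∏ i with j < i, c0 i‖ :=
      single_le_sum (f := fun j : Fin (k + 1) => ‖∏ i with j < i, c0 i‖) (fun _ _ => norm_nonneg _) (mem_univ j)
    linarith
  have hWc0 : 0 < Wc := by
    have : 0 ≤ ∑ j : Fin (k + 1), ‖∏ i with j < i, c0 i‖ := sum_nonneg fun _ _ => norm_nonneg _
    linarith
  set C5 : ℝ := (|C0| + 1) * C3 ^ Bg * ((∏ i, C' i) + 1) * C3 ^ (k + 1) * Wc with hC5
  have hC5p : 0 < C5 := by positivity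
  have hGb : ∀ j, ∀ N : ℕ, ∀ h ∈ Hs N, ∀ ω, (∀ i, ω i ∈ Set.Icc (0 : ℝ) 1) → ∀ n ∈ Icc 1 N,
      ‖Gj j h ω n‖ ≤ C5 * (Lf N) ^ (Bg + (k + 1)) := by
    intro j N h hh ω hω n hn
    have hh2 := hσ N h hh
    obtain ⟨hn1, hn2⟩ := mem_Icc.1 hn
    have h3 := hL1 N
    rw [hGj]
    simp only
    rw [norm_mul, norm_mul]
    calc _ ≤ |C0| * (C3 * Lf N) ^ Bg * ((∏ i, C' i) * (C3 * Lf N) ^ (k + 1)) * Wc := by
          refine mul_le_mul (mul_le_mul (hgv N h hh n hn1 (by omega))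
            (hprod ω hω N n (σ h) hn1 (by omega) hh2 _) (norm_nonneg _) (by positivity)) (hWc1 j)
            (norm_nonneg _) (by positivity)
      _ ≤ (|C0| + 1) * (C3 * Lf N) ^ Bg * (((∏ i, C' i) + 1) * (C3 * Lf N) ^ (k + 1)) * Wc := by
          gcongr
          · linarith
          · linarith
      _ = _ := by
          rw [hC5, mul_pow, mul_pow, pow_add]
          ring
  have hmain := bcF (Measure.pi fun _ : Fin (k + 1) => v01) Hs hmono C2
    B2 hC2 aa ham (|C0| * C3 ^ Bg * ((∏ i, C' i) * C3 ^ (k + 1) + ‖∏ i, c0 i‖))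
    (Bg + (k + 1)) ?_ ?_
  · filter_upwards [hmain] with ω hω K
    exact hω K
  · filter_upwards [cube_ae (k + 1)] with ω hω N h hh
    have hh2 := hσ N h hh
    have h3 := hL1 N
    have h4 := hprod ω hω N (N + 1) (σ h) (by omega) le_rfl hh2 (fun _ => True)
    simp only [filter_true] at h4
    have h5 := hgv N h hh (N + 1) (by omega) le_rfl
    rw [haa]
    simp only [fT]
    rw [norm_mul]
    have h6 : (1 : ℝ) ≤ (Lf N) ^ (k + 1) := one_le_pow₀ h3
    calc _ ≤ (|C0| * (C3 * Lf N) ^ Bg) * ((∏ i, C' i) * (C3 * Lf N) ^ (k + 1) + ‖∏ i, c0 i‖) := by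
          refine mul_le_mul h5 ((norm_sub_le _ _).trans (add_le_add_left h4 _)) (norm_nonneg _) (by positivity)
      _ ≤ (|C0| * (C3 * Lf N) ^ Bg) * ((∏ i, C' i) * (C3 * Lf N) ^ (k + 1) + ‖∏ i, c0 i‖ * (Lf N) ^ (k + 1)) := by
          refine mul_le_mul_of_nonneg_left (add_le_add_right ?_ _) (by positivity)
          exact le_mul_of_one_le_right (norm_nonneg _) h6
      _ = |C0| * C3 ^ Bg * ((∏ i, C' i) * C3 ^ (k + 1) + ‖∏ i, c0 i‖) * (Real.log (N + 3)) ^ (Bg + (k + 1)) := by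
          rw [mul_pow, mul_pow, pow_add]
          ring
  · intro K
    set K' : ℕ := K + 2 * (Bg + (k + 1)) with hK'
    choose CU hCU0 hCU using fun i => hU i (b i) K'
    refine ⟨((k : ℝ) + 1) * ∑ j, (C5 ^ 2 * 9 ^ (Bg + (k + 1)) * (CU j * (2 * C3) ^ 2)), by
      have : 0 ≤ ∑ j, (C5 ^ 2 * 9 ^ (Bg + (k + 1)) * (CU j * (2 * C3) ^ 2)) := sum_nonneg fun j _ => by
        have := hCU0 j
        positivity
      positivity, fun N hN h hh => ?_⟩
    have hh2 := hσ N h hh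
    have hN2 : (2 : ℝ) ≤ N := by exact_mod_cast hN
    have hlN : 0 < Real.log N := Real.log_pos (by linarith)
    have hLN : Lf N ≤ 3 * Real.log N := by
      rw [hLf]
      simp only
      have h1 : (N : ℝ) + 3 ≤ (N : ℝ) ^ 3 := by nlinarith [mul_le_mul hN2 hN2 (by norm_num) (by linarith)]
      have h2 := Real.log_le_log (by linarith) h1
      rw [Real.log_pow] at h2
      exact_mod_cast h2
    have h3 := hL1 N
    have hterm : ∀ j : Fin (k + 1), ∫⁻ ω, ‖∑ n ∈ Icc 1 N, Gj j h ω n *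
        f j ⌊Real.exp (b j + ω j) * P j (n + σ h j) + β j⌋₊‖ₑ ^ 2 ∂(Measure.pi fun _ : Fin (k + 1) => v01) ≤
        ENNReal.ofReal (C5 ^ 2 * 9 ^ (Bg + (k + 1)) * (CU j * (2 * C3) ^ 2) * ((N : ℝ) ^ 2 / (Real.log N) ^ K)) := by
      intro j
      refine (var_j k j (Gj j h) (hGm j h) (hGupd j h) N (σ h j) (C5 * (Lf N) ^ (Bg + (k + 1))) (by positivity)
        (hGb j N h hh) (f j) (P j) (β j) (b j) (CU j * (2 * C3 * N) ^ 2 / (Real.log N) ^ K') ?_).trans ?_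
      · intro d hd
        refine (hCU j (N + σ h j) (by omega) d hd).trans ?_
        refine ENNReal.ofReal_le_ofReal ?_
        have h5 : ((N + σ h j : ℕ) : ℝ) ≤ 2 * C3 * N := by
          have h6 := (hC3 N N (σ h j) (by omega) (hh2 j)).1
          nlinarith
        have h7 : Real.log N ≤ Real.log ((N + σ h j : ℕ) : ℝ) :=
          Real.log_le_log (by linarith) (by push_cast; linarith [(Nat.cast_nonneg (σ h j) : (0 : ℝ) ≤ (σ h j : ℝ))])
        have h8 := hCU0 j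
        gcongr
      · refine ENNReal.ofReal_le_ofReal ?_
        have h8 := hCU0 j
        calc (C5 * (Lf N) ^ (Bg + (k + 1))) ^ 2 * (CU j * (2 * C3 * N) ^ 2 / (Real.log N) ^ K')
            ≤ (C5 * (3 * Real.log N) ^ (Bg + (k + 1))) ^ 2 * (CU j * (2 * C3 * N) ^ 2 / (Real.log N) ^ K') := by
              gcongr
          _ = _ := by
              have e10 : (Real.log N) ^ K' = (Real.log N) ^ K * ((Real.log N) ^ (Bg + (k + 1))) ^ 2 := by
                rw [hK', pow_add, ← pow_mul, mul_comm 2 (Bg + (k + 1))]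
              have e11 : (C5 * (3 * Real.log N) ^ (Bg + (k + 1))) ^ 2 =
                  C5 ^ 2 * 9 ^ (Bg + (k + 1)) * ((Real.log N) ^ (Bg + (k + 1))) ^ 2 := alg1 _ _ _
              rw [e10, e11]
              field_simp
    have hsum : ∀ ω, ‖∑ n ∈ Icc 1 N, aa h ω n‖ₑ ^ 2 ≤ ((k : ℝ≥0∞) + 1) * ∑ j, ‖∑ n ∈ Icc 1 N, Gj j h ω n *
        f j ⌊Real.exp (b j + ω j) * P j (n + σ h j) + β j⌋₊‖ₑ ^ 2 := by
      intro ω
      have e1 : ∑ n ∈ Icc 1 N, aa h ω n = ∑ j, ∑ n ∈ Icc 1 N, Gj j h ω n *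
          f j ⌊Real.exp (b j + ω j) * P j (n + σ h j) + β j⌋₊ := by
        rw [sum_comm]
        exact sum_congr rfl fun n _ => hdec h ω n
      rw [e1]
      refine (sq_sum_le' univ _).trans (le_of_eq ?_)
      rw [card_univ, Fintype.card_fin]
      push_cast
      rfl
    have hmj : ∀ j : Fin (k + 1), Measurable fun ω => ‖∑ n ∈ Icc 1 N, Gj j h ω n *
        f j ⌊Real.exp (b j + ω j) * P j (n + σ h j) + β j⌋₊‖ₑ ^ 2 := by
      intro j
      refine Measurable.pow_const (Measurable.enorm (Finset.measurable_fun_sum _ fun n _ => ?_)) 2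
      refine (hGm j h n).mul (fl_meas (f j) ?_)
      exact ((((measurable_pi_apply j).const_add _).exp).mul_const _).add_const _
    refine (lintegral_mono hsum).trans ?_
    rw [lintegral_const_mul _ (Finset.measurable_fun_sum _ fun j _ => hmj j), lintegral_finsetSum _ fun j _ => hmj j]
    refine (mul_le_mul_right (Finset.sum_le_sum fun j _ => hterm j) _).trans (le_of_eq ?_)
    rw [← ENNReal.ofReal_sum_of_nonneg (fun j _ => by
      have := hCU0 j
      positivity)]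
    have e2 : ((k : ℝ≥0∞) + 1) = ENNReal.ofReal ((k : ℝ) + 1) := by
      rw [ENNReal.ofReal_add (Nat.cast_nonneg k) zero_le_one, ENNReal.ofReal_natCast, ENNReal.ofReal_one]
    rw [e2, ← ENNReal.ofReal_mul (by positivity), ← Finset.sum_mul]
    congr 1
    ring

end Pool.Agent.Q138.GS
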