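import Pool.Agent.Q138.GS.ModG

set_option autoImplicit false

/-!
# Large moduli: absolute values, counting
-/

namespace Pool.Agent.Q138.GS

open Finset Filter Topology MeasureTheory
open scoped Classical
open Pool.Agent.Y957.VK

theorem Sm.gr {c : ℝ} {P : ℕ → ℝ} (h : Sm c P) : Gr P := by
  obtain ⟨hc, φ, hφ, n0, hP⟩ := h
  exact (hφ.reg hc).gr P n0 hP

/-- the values are at least three and nondecreasing from some point on -/
theorem v_mono {P : ℕ → ℝ} (hG : Gr P) (α β : ℝ) (hα : 0 < α) : ∃ n0 : ℕ, ∀ m n : ℕ, n0 ≤ m → m ≤ n →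
    3 ≤ ⌊α * P m + β⌋₊ ∧ ⌊α * P m + β⌋₊ ≤ ⌊α * P n + β⌋₊ := by
  obtain ⟨n1, hn1⟩ := hG.mono
  obtain ⟨ε, hε, hlow⟩ := hG.low
  have h1 : Tendsto (fun N : ℕ => (N : ℝ) ^ ε) atTop atTop := (tendsto_rpow_atTop hε).comp tendsto_natCast_atTop_atTop
  obtain ⟨n2, hn2⟩ := eventually_atTop.1 (hlow.and (h1.eventually_ge_atTop ((3 + |β|) / α)))
  refine ⟨max n1 n2, fun m n hm hmn => ⟨?_, ?_⟩⟩
  · obtain ⟨h3, h4⟩ := hn2 m ((le_max_right _ _).trans hm)
    have h5 : (3 + |β|) / α ≤ P m := h4.trans h3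
    rw [div_le_iff₀ hα] at h5
    refine Nat.le_floor ?_
    have := neg_abs_le β
    push_cast
    linarith
  · have h3 := (hn1 m n ((le_max_left _ _).trans hm) hmn).2
    refine Nat.floor_le_floor ?_
    have := mul_le_mul_of_nonneg_left h3 hα.le
    linarith

/-- the monotone weight -/
theorem weight_ex (k : ℕ) (c : Fin (k + 1) → ℝ) (P : Fin (k + 1) → ℕ → ℝ) (hP : ∀ i, Sm (c i) (P i))
    (α β : Fin (k + 1) → ℝ) (hα : ∀ i, 0 < α i) : ∃ (h : ℕ → ℝ) (n0 : ℕ), (∀ n, 0 ≤ h n) ∧ (∀ n, h n ≤ 1) ∧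
      (∀ n, h (n + 1) ≤ h n) ∧ ∀ n, n0 ≤ n → (∀ i, (⌊α i * P i n + β i⌋₊).Prime) →
        h n * ∏ i, tr ⌊α i * P i n + β i⌋₊ = 1 := by
  choose n0 hn0 using fun i => v_mono (hP i).gr (α i) (β i) (hα i)
  set nm : ℕ := ∑ i, n0 i with hnm
  have hnmi : ∀ i, n0 i ≤ nm := fun i => single_le_sum (f := n0) (fun i _ => Nat.zero_le _) (mem_univ i)
  have hlog : ∀ i n, 1 ≤ Real.log (⌊α i * P i (max n nm) + β i⌋₊ : ℕ) := by
    intro i n
    have h1 := (hn0 i (max n nm) (max n nm) ((hnmi i).trans (le_max_right _ _)) le_rfl).1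
    have h2 : (3 : ℝ) ≤ (⌊α i * P i (max n nm) + β i⌋₊ : ℕ) := by exact_mod_cast h1
    rw [Real.le_log_iff_exp_le (by linarith)]
    have h3 := Real.exp_one_lt_d9
    linarith
  refine ⟨fun n => ∏ i, (Real.log (⌊α i * P i (max n nm) + β i⌋₊ : ℕ))⁻¹, nm, fun n => ?_, fun n => ?_, fun n => ?_,
    fun n hn hpr => ?_⟩
  · refine prod_nonneg fun i _ => ?_
    have := hlog i n
    positivity
  · refine prod_le_one (fun i _ => ?_) fun i _ => ?_
    · have := hlog i n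
      positivity
    · exact inv_le_one_of_one_le₀ (hlog i n)
  · refine prod_le_prod (fun i _ => ?_) fun i _ => ?_
    · have := hlog i (n + 1)
      positivity
    · have h1 := hlog i n
      refine inv_anti₀ (by linarith) ?_
      have h2 := (hn0 i (max n nm) (max (n + 1) nm) ((hnmi i).trans (le_max_right _ _))
        (max_le_max (Nat.le_succ n) le_rfl)).2
      have h3 := (hn0 i (max n nm) (max n nm) ((hnmi i).trans (le_max_right _ _)) le_rfl).1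
      refine Real.log_le_log ?_ (by exact_mod_cast h2)
      exact_mod_cast (by omega : 0 < ⌊α i * P i (max n nm) + β i⌋₊)
  · simp only [max_eq_left hn]
    rw [← prod_mul_distrib]
    refine prod_eq_one fun i _ => ?_
    have h1 := hlog i n
    rw [max_eq_left hn] at h1
    unfold tr
    rw [if_pos (hpr i)]
    exact inv_mul_cancel₀ (by linarith)

/-- the size of the terms -/
theorem tq_size (k : ℕ) (F : Fin (k + 1) → ℕ → ℂ) (c0 : Fin (k + 1) → ℂ)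
    (hF : ∀ i (n : ℕ), ‖F i n‖ ≤ Real.log (n + 3))
    (P : Fin (k + 1) → ℕ → ℝ) (A' : Fin (k + 1) → ℕ)
    (C1 : Fin (k + 1) → ℝ) (hP : ∀ i, ∀ n : ℕ, 1 ≤ n → |P i n| ≤ C1 i * (n : ℝ) ^ (A' i))
    (β : Fin (k + 1) → ℝ) (g : ℕ → ℂ) (C0 : ℝ) (Bg : ℕ)
    (hg : ∀ n : ℕ, 1 ≤ n → ‖g n‖ ≤ C0 * (Real.log (n + 3)) ^ Bg) (α : Fin (k + 1) → ℝ) :
    ∃ D : ℝ, 0 ≤ D ∧ ∀ n : ℕ, 1 ≤ n → ‖tq k F c0 P β g α n‖ ≤ D * (Real.log (n + 3)) ^ (Bg + (k + 1)) := by
  choose C' hC'1 hC' using fun i => val_le2 (F i) (hF i) (P i) 1 (A' i) (C1 i) |α i| (hP i) (β i)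
  have hCp : 0 ≤ ∏ i, C' i := prod_nonneg fun i _ => by linarith [hC'1 i]
  refine ⟨|C0| * ((∏ i, C' i) + ‖∏ i, c0 i‖), by positivity, fun n hn => ?_⟩
  have h3 := lg3 n
  have h4 : ‖∏ i, F i ⌊α i * P i n + β i⌋₊‖ ≤ (∏ i, C' i) * (Real.log (n + 3)) ^ (k + 1) := by
    rw [norm_prod]
    calc ∏ i, ‖F i ⌊α i * P i n + β i⌋₊‖ ≤ ∏ i, (C' i * Real.log (n + 3)) :=
          Finset.prod_le_prod (fun _ _ => norm_nonneg _) fun i _ =>
            hC' i (α i) le_rfl n n hn hn (by omega)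
      _ = _ := by
          rw [Finset.prod_mul_distrib]
          simp
  have h5 := hg n hn
  have h6 : (1 : ℝ) ≤ (Real.log (n + 3)) ^ (k + 1) := one_le_pow₀ h3
  unfold tq
  rw [norm_mul]
  calc _ ≤ (|C0| * (Real.log (n + 3)) ^ Bg) * ((∏ i, C' i) * (Real.log (n + 3)) ^ (k + 1) + ‖∏ i, c0 i‖) := by
        refine mul_le_mul (h5.trans ?_) ((norm_sub_le _ _).trans (add_le_add_left h4 _)) (norm_nonneg _)
          (by positivity)
        exact mul_le_mul_of_nonneg_right (le_abs_self _) (by positivity)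
    _ ≤ (|C0| * (Real.log (n + 3)) ^ Bg) * ((∏ i, C' i) * (Real.log (n + 3)) ^ (k + 1) +
          ‖∏ i, c0 i‖ * (Real.log (n + 3)) ^ (k + 1)) := by
        refine mul_le_mul_of_nonneg_left (add_le_add_right ?_ _) (by positivity)
        exact le_mul_of_one_le_right (norm_nonneg _) h6
    _ = _ := by
        rw [pow_add]
        ring

/-- sums of absolute values over few residue classes -/
theorem uq_l1 (k : ℕ) (F f : Fin (k + 1) → ℕ → ℂ) (c0 : Fin (k + 1) → ℂ)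
    (hFf : ∀ i n, F i n = c0 i + f i n) (hF : ∀ i (n : ℕ), ‖F i n‖ ≤ Real.log (n + 3))
    (P : Fin (k + 1) → ℕ → ℝ) (A' : Fin (k + 1) → ℕ)
    (C1 : Fin (k + 1) → ℝ) (hP : ∀ i, ∀ n : ℕ, 1 ≤ n → |P i n| ≤ C1 i * (n : ℝ) ^ (A' i))
    (β : Fin (k + 1) → ℝ) (hU : ∀ i, UQ (f i) (P i) (β i)) (g : ℕ → ℂ) (C0 : ℝ) (Bg : ℕ)
    (hg : ∀ n : ℕ, 1 ≤ n → ‖g n‖ ≤ C0 * (Real.log (n + 3)) ^ Bg)
    (A : ℕ → Finset ℕ) (hA : ∀ q, A q ⊆ range q) (CA : ℝ) (hCA : 0 ≤ CA) (BA : ℕ)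
    (hAc : ∀ q, ((A q).card : ℝ) ≤ CA * (Real.log (q + 3)) ^ BA) :
    ∀ᵐ α ∂(pm (k + 1)), ∀ ε : ℝ, 0 < ε → ∀ K : ℕ, ∀ᶠ N : ℕ in atTop, ∀ M : ℕ, 1 ≤ M → M ≤ N →
      ∑ q ∈ Icc 1 ⌊(N : ℝ) ^ (1 - ε)⌋₊, ∑ a ∈ A q, (‖Sq (tq k F c0 P β g α) q a M‖ +
        ‖Sq (tq k F c0 P β g α) 1 0 M‖ / q + 1) ≤ N / (Real.log N) ^ K := by
  have h := uq_sav k F f c0 hFf hF P A' C1 hP β hU g C0 Bg hg (wA A) (wA_nonneg A) (2 * (CA + 1)) (BA + 1)
    (wA_sum A CA hCA BA hAc)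
  filter_upwards [h] with α hα ε hε K
  obtain ⟨D, hD0, hD⟩ := tq_size k F c0 hF P A' C1 hP β g C0 Bg hg α
  have h1 := T_bound (tq k F c0 P β g α) D hD0 (Bg + (k + 1)) hD A hA CA hCA BA hAc hα
    (lt_min hε one_pos) (min_le_right ε 1) K
  filter_upwards [h1, eventually_ge_atTop 1] with N hN hN1 M hM1 hMN
  refine le_trans ?_ (hN M hM1 hMN)
  refine sum_le_sum_of_subset_of_nonneg (Icc_subset_Icc le_rfl (Nat.floor_le_floor ?_))
    fun q _ _ => sum_nonneg fun a _ => by positivity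
  have : (1 : ℝ) ≤ N := by exact_mod_cast hN1
  exact Real.rpow_le_rpow_of_exponent_le this (by linarith [min_le_left ε 1])

/-- counts in progressions and the weighted sums -/
theorem ct_near (T : ℕ → Prop) (t : ℕ → ℝ) (ht0 : ∀ n, 0 ≤ t n) (h : ℕ → ℝ) (h0 : ∀ n, 0 ≤ h n) (n0 : ℕ)
    (h1 : ∀ n, n0 ≤ n → h n * t n = if T n then 1 else 0) : ∃ C : ℝ, 0 ≤ C ∧ ∀ q a N : ℕ,
      ‖((ct (fun n => n % q = a ∧ T n) N : ℝ) : ℂ) - Sq (fun n => (h n : ℂ) * (t n : ℂ)) q a N‖ ≤ C := by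
  refine ⟨∑ n ∈ range n0, (1 + h n * t n), sum_nonneg fun n _ => by
    have := mul_nonneg (h0 n) (ht0 n)
    linarith, fun q a N => ?_⟩
  have e : ((ct (fun n => n % q = a ∧ T n) N : ℝ) : ℂ) - Sq (fun n => (h n : ℂ) * (t n : ℂ)) q a N =
      ((∑ n ∈ (Icc 1 N).filter (fun n => n % q = a), ((if T n then (1 : ℝ) else 0) - h n * t n) : ℝ) : ℂ) := by
    unfold Sq
    rw [sum_sub_distrib]
    have e1 : ct (fun n => n % q = a ∧ T n) N = ∑ n ∈ (Icc 1 N).filter (fun n => n % q = a), if T n then (1 : ℝ) else 0 := by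
      unfold ct
      rw [card_filter, sum_filter, Nat.cast_sum]
      refine sum_congr rfl fun n _ => ?_
      by_cases hx : n % q = a
      · by_cases hy : T n
        · rw [if_pos ⟨hx, hy⟩, if_pos hx, if_pos hy, Nat.cast_one]
        · rw [if_neg (fun h => hy h.2), if_pos hx, if_neg hy, Nat.cast_zero]
      · rw [if_neg (fun h => hx h.1), if_neg hx, Nat.cast_zero]
    rw [e1]
    push_cast
    rfl
  rw [e, Complex.norm_real, Real.norm_eq_abs]
  refine (abs_sum_le_sum_abs _ _).trans ?_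
  have h2 : ∀ n ∈ (Icc 1 N).filter (fun n => n % q = a), |(if T n then (1 : ℝ) else 0) - h n * t n| ≤
      if n < n0 then 1 + h n * t n else 0 := by
    intro n _
    split_ifs with h3 h4 h4
    · have := mul_nonneg (h0 n) (ht0 n)
      rw [abs_le]
      constructor <;> linarith
    · have := h1 n (not_lt.1 h4)
      rw [if_pos h3] at this
      rw [this]
      simp
    · have := mul_nonneg (h0 n) (ht0 n)
      rw [abs_le]
      constructor <;> linarith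
    · have := h1 n (not_lt.1 h4)
      rw [if_neg h3] at this
      rw [this]
      simp
  refine (sum_le_sum h2).trans ?_
  rw [← sum_filter]
  refine sum_le_sum_of_subset_of_nonneg (fun n hn => ?_) fun n _ _ => by
    have := mul_nonneg (h0 n) (ht0 n)
    linarith
  exact mem_range.2 (mem_filter.1 hn).2

/-- telescoping -/
theorem tele (h : ℕ → ℝ) (N : ℕ) (hN : 1 ≤ N) : ∑ M ∈ Ico 1 N, (h M - h (M + 1)) + h N = h 1 := by
  induction N, hN using Nat.le_induction with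
  | base => simp
  | succ N hN ih =>
    rw [Finset.sum_Ico_succ_top hN]
    linarith

/-- **the count in progressions** -/
theorem eh_count (k : ℕ) (c : Fin (k + 1) → ℝ) (P : Fin (k + 1) → ℕ → ℝ) (hP : ∀ i, Sm (c i) (P i))
    (β : Fin (k + 1) → ℝ) (A : ℕ → Finset ℕ) (hA : ∀ q, A q ⊆ range q) (CA : ℝ) (hCA : 0 ≤ CA) (BA : ℕ)
    (hAc : ∀ q, ((A q).card : ℝ) ≤ CA * (Real.log (q + 3)) ^ BA) :
    ∀ᵐ α ∂(pm (k + 1)), ∀ ε : ℝ, 0 < ε → ∀ K : ℕ, ∀ᶠ N : ℕ in atTop,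
      ∑ q ∈ Icc 1 ⌊(N : ℝ) ^ (1 - ε)⌋₊, ∑ a ∈ A q,
        |ct (fun n => n % q = a ∧ ∀ i, (⌊α i * P i n + β i⌋₊).Prime) N -
          ct (fun n => ∀ i, (⌊α i * P i n + β i⌋₊).Prime) N / q| ≤ N / (Real.log N) ^ K := by
  choose A' C1 hC1 hbd using fun i => (hP i).bd
  have h := uq_l1 k (fun _ => th) (fun _ => thw) (fun _ => 1) (fun _ n => th_eq n) (fun _ n => th_le n)
    P A' C1 hbd β (fun i => (hP i).uq thw thw_le neg_thw (β i)) (fun _ => 1) 1 0 (fun n _ => by simp)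
    A hA CA hCA BA hAc
  filter_upwards [h, pm_pos (k + 1)] with α hα hpos ε hε K
  obtain ⟨hw, n0, hw0, hw1, hwm, hwe⟩ := weight_ex k c P hP α β hpos
  set u : ℕ → ℂ := tq k (fun _ => th) (fun _ => 1) P β (fun _ => 1) α with hu
  set t : ℕ → ℝ := fun n => ∏ i, tr ⌊α i * P i n + β i⌋₊ with ht
  have ht0 : ∀ n, 0 ≤ t n := fun n => prod_nonneg fun i _ => tr_nonneg _
  have htu : ∀ n, ((t n : ℝ) : ℂ) = u n + 1 := by
    intro n
    rw [hu, ht]
    simp only [tq, prod_const_one, one_mul]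
    rw [Complex.ofReal_prod]
    have : ∏ i, ((tr ⌊α i * P i n + β i⌋₊ : ℝ) : ℂ) = ∏ i, th ⌊α i * P i n + β i⌋₊ :=
      prod_congr rfl fun i _ => tr_eq _
    rw [this]
    ring
  set T : ℕ → Prop := fun n => ∀ i, (⌊α i * P i n + β i⌋₊).Prime with hT
  obtain ⟨C, hC0, hC⟩ := ct_near T t ht0 hw hw0 n0 (fun n hn => by
    split_ifs with h1
    · exact hwe n hn h1
    · rw [hT] at h1
      simp only [not_forall] at h1
      obtain ⟨i, hi⟩ := h1
      have : t n = 0 := by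
        rw [ht]
        exact prod_eq_zero (mem_univ i) (by
          unfold tr
          rw [if_neg hi])
      rw [this, mul_zero])
  have hlogt : Tendsto (fun N : ℕ => Real.log (N : ℝ)) atTop atTop :=
    Real.tendsto_log_atTop.comp tendsto_natCast_atTop_atTop
  filter_upwards [hα ε hε (K + 1), eventually_ge_atTop 1, hlogt.eventually_ge_atTop (1 + 2 * C + 1)] with
    N hN hN1 hlN
  have hN0 : (0 : ℝ) < N := by exact_mod_cast hN1
  have hl0 : 0 < Real.log N := by linarith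
  set Q : ℕ := ⌊(N : ℝ) ^ (1 - ε)⌋₊ with hQ
  -- the partial sums
  have hpart : ∀ q a M : ℕ, 1 ≤ q → a < q → ‖Sq (fun n => ((t n : ℝ) : ℂ)) q a M -
      Sq (fun n => ((t n : ℝ) : ℂ)) 1 0 M / q‖ ≤ ‖Sq u q a M‖ + ‖Sq u 1 0 M‖ / q + 1 := by
    intro q a M hq ha
    have hq0 : (0 : ℝ) < q := by exact_mod_cast hq
    have e1 : ∀ q a : ℕ, Sq (fun n => ((t n : ℝ) : ℂ)) q a M = Sq u q a M +
        (((Icc 1 M).filter (fun n => n % q = a)).card : ℂ) := by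
      intro q a
      unfold Sq
      simp only [htu]
      rw [sum_add_distrib, sum_const, nsmul_eq_mul, mul_one]
    have e2 : ((Icc 1 M).filter (fun n => n % 1 = 0)).card = M := by
      rw [filter_true_of_mem fun n _ => Nat.mod_one n, Nat.card_Icc, Nat.add_sub_cancel]
    have e3 : Sq (fun n => ((t n : ℝ) : ℂ)) q a M - Sq (fun n => ((t n : ℝ) : ℂ)) 1 0 M / q =
        Sq u q a M - Sq u 1 0 M / q +
          (((((Icc 1 M).filter (fun n => n % q = a)).card : ℝ) - (M : ℝ) / q : ℝ) : ℂ) := by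
      rw [e1 q a, e1 1 0, e2]
      push_cast
      ring
    rw [e3]
    refine (norm_add_le _ _).trans (add_le_add ((norm_sub_le _ _).trans (add_le_add le_rfl (le_of_eq ?_))) ?_)
    · rw [norm_div, Complex.norm_natCast]
    · rw [Complex.norm_real, Real.norm_eq_abs]
      exact card_near M q a hq ha
  -- one pair
  have hone : ∀ q ∈ Icc 1 Q, ∀ a ∈ A q,
      |ct (fun n => n % q = a ∧ T n) N - ct T N / q| ≤
        ∑ M ∈ Ico 1 N, (hw M - hw (M + 1)) * (‖Sq u q a M‖ + ‖Sq u 1 0 M‖ / q + 1) +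
          hw N * (‖Sq u q a N‖ + ‖Sq u 1 0 N‖ / q + 1) + 2 * C := by
    intro q hq a ha
    have hq1 := (mem_Icc.1 hq).1
    have haq : a < q := mem_range.1 (hA q ha)
    have hq0 : (0 : ℝ) < q := by exact_mod_cast hq1
    have hq1r : (1 : ℝ) ≤ q := by exact_mod_cast hq1
    have h1 := hC q a N
    have h2 := hC 1 0 N
    have e1 : ct (fun n => n % 1 = 0 ∧ T n) N = ct T N := by
      unfold ct
      congr 2
      ext n
      simp [Nat.mod_one]
    rw [e1] at h2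
    have h3 := diff_le (fun n => ((t n : ℝ) : ℂ)) hw (fun n _ => hwm n) hw0 q a N hN1
    have h4 : |ct (fun n => n % q = a ∧ T n) N - ct T N / q| =
        ‖((ct (fun n => n % q = a ∧ T n) N : ℝ) : ℂ) - ((ct T N : ℝ) : ℂ) / q‖ := by
      rw [← Real.norm_eq_abs, ← Complex.norm_real]
      push_cast
      rfl
    rw [h4]
    set S1 := Sq (fun n => (hw n : ℂ) * ((t n : ℝ) : ℂ)) q a N with hS1
    set S0 := Sq (fun n => (hw n : ℂ) * ((t n : ℝ) : ℂ)) 1 0 N with hS0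
    have e2 : ((ct (fun n => n % q = a ∧ T n) N : ℝ) : ℂ) - ((ct T N : ℝ) : ℂ) / q =
        (S1 - S0 / q) + (((ct (fun n => n % q = a ∧ T n) N : ℝ) : ℂ) - S1) - (((ct T N : ℝ) : ℂ) - S0) / q := by ring
    rw [e2]
    refine (norm_sub_le _ _).trans ?_
    refine (add_le_add (norm_add_le _ _) le_rfl).trans ?_
    have h5 : ‖(((ct T N : ℝ) : ℂ) - S0) / q‖ ≤ C := by
      rw [norm_div, Complex.norm_natCast, div_le_iff₀ hq0]
      nlinarith
    have h6 : ‖S1 - S0 / q‖ ≤ ∑ M ∈ Ico 1 N, (hw M - hw (M + 1)) * (‖Sq u q a M‖ + ‖Sq u 1 0 M‖ / q + 1) +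
        hw N * (‖Sq u q a N‖ + ‖Sq u 1 0 N‖ / q + 1) := by
      refine h3.trans (add_le_add (sum_le_sum fun M _ => ?_) ?_)
      · exact mul_le_mul_of_nonneg_left (hpart q a M hq1 haq) (by linarith [hwm M])
      · exact mul_le_mul_of_nonneg_left (hpart q a N hq1 haq) (hw0 N)
    linarith
  set Z : ℕ → ℝ := fun M => ∑ q ∈ Icc 1 Q, ∑ a ∈ A q, (‖Sq u q a M‖ + ‖Sq u 1 0 M‖ / q + 1) with hZ
  have hZle : ∀ M, 1 ≤ M → M ≤ N → Z M ≤ N / (Real.log N) ^ (K + 1) := fun M h1 h2 => hN M h1 h2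
  have hpairs : ∑ q ∈ Icc 1 Q, ∑ a ∈ A q, (1 : ℝ) ≤ N / (Real.log N) ^ (K + 1) := by
    refine le_trans ?_ (hZle N hN1 le_rfl)
    refine sum_le_sum fun q _ => sum_le_sum fun a _ => ?_
    have : 0 ≤ ‖Sq u q a N‖ + ‖Sq u 1 0 N‖ / q := by positivity
    linarith
  calc ∑ q ∈ Icc 1 Q, ∑ a ∈ A q, |ct (fun n => n % q = a ∧ T n) N - ct T N / q|
      ≤ ∑ q ∈ Icc 1 Q, ∑ a ∈ A q, (∑ M ∈ Ico 1 N, (hw M - hw (M + 1)) * (‖Sq u q a M‖ + ‖Sq u 1 0 M‖ / q + 1) +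
          hw N * (‖Sq u q a N‖ + ‖Sq u 1 0 N‖ / q + 1) + 2 * C) :=
        sum_le_sum fun q hq => sum_le_sum fun a ha => hone q hq a ha
    _ = ∑ M ∈ Ico 1 N, (hw M - hw (M + 1)) * Z M + hw N * Z N + 2 * C * ∑ q ∈ Icc 1 Q, ∑ a ∈ A q, (1 : ℝ) := by
        have e1 : ∀ q ∈ Icc 1 Q, ∑ a ∈ A q, (∑ M ∈ Ico 1 N, (hw M - hw (M + 1)) *
            (‖Sq u q a M‖ + ‖Sq u 1 0 M‖ / q + 1) +
            hw N * (‖Sq u q a N‖ + ‖Sq u 1 0 N‖ / q + 1) + 2 * C) =
            ∑ M ∈ Ico 1 N, (hw M - hw (M + 1)) * ∑ a ∈ A q, (‖Sq u q a M‖ + ‖Sq u 1 0 M‖ / q + 1) +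
            hw N * ∑ a ∈ A q, (‖Sq u q a N‖ + ‖Sq u 1 0 N‖ / q + 1) + 2 * C * ∑ a ∈ A q, (1 : ℝ) := by
          intro q _
          rw [sum_add_distrib, sum_add_distrib, sum_comm, ← mul_sum]
          congr 1
          · congr 1
            exact sum_congr rfl fun M _ => by rw [mul_sum]
          · rw [mul_sum]
            exact sum_congr rfl fun a _ => by ring
        rw [sum_congr rfl e1, sum_add_distrib, sum_add_distrib, sum_comm, ← mul_sum, ← mul_sum]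
        congr 1
        congr 1
        exact sum_congr rfl fun M _ => by rw [hZ, mul_sum]
    _ ≤ ∑ M ∈ Ico 1 N, (hw M - hw (M + 1)) * (N / (Real.log N) ^ (K + 1)) + hw N * (N / (Real.log N) ^ (K + 1)) +
          2 * C * (N / (Real.log N) ^ (K + 1)) := by
        refine add_le_add (add_le_add (sum_le_sum fun M hM => ?_) ?_) ?_
        · obtain ⟨h1, h2⟩ := mem_Ico.1 hM
          exact mul_le_mul_of_nonneg_left (hZle M h1 h2.le) (by linarith [hwm M])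
        · exact mul_le_mul_of_nonneg_left (hZle N hN1 le_rfl) (hw0 N)
        · exact mul_le_mul_of_nonneg_left hpairs (by positivity)
    _ = (hw 1 + 2 * C) * (N / (Real.log N) ^ (K + 1)) := by
        rw [← sum_mul, ← tele hw N hN1]
        ring
    _ ≤ (1 + 2 * C) * (N / (Real.log N) ^ (K + 1)) := by
        refine mul_le_mul_of_nonneg_right ?_ (by positivity)
        linarith [hw1 1]
    _ ≤ Real.log N * (N / (Real.log N) ^ (K + 1)) := by
        refine mul_le_mul_of_nonneg_right ?_ (by positivity)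
        linarith
    _ = N / (Real.log N) ^ K := by
        rw [pow_succ]
        field_simp

end Pool.Agent.Q138.GS
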