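import Pool.Agent.Q138.GS.FamA
import Pool.Agent.Q138.GS.ModH
import Pool.Agent.H343R2.EH.Psi

set_option autoImplicit false

/-!
# Primes in progressions with small moduli; summation by parts
-/

namespace Pool.Agent.Q138.GS

open Finset Filter Topology MeasureTheory
open scoped Classical
open Pool.Agent.Y957.VK

/-- the sum of `log p` over the primes `p ≤ N` in a class -/
noncomputable def thA (q a N : ℕ) : ℝ := ∑ n ∈ (Icc 1 N).filter (fun n => n % q = a), tr n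

theorem tr_le_vm (n : ℕ) : tr n ≤ ArithmeticFunction.vonMangoldt n := by
  unfold tr
  split_ifs with h
  · rw [ArithmeticFunction.vonMangoldt_apply_prime h]
  · exact ArithmeticFunction.vonMangoldt_nonneg

/-- the sum over all `n ≤ N` of the contribution of proper prime powers -/
theorem pp_sum (N : ℕ) (hN : 1 ≤ N) :
    ∑ n ∈ Icc 1 N, (ArithmeticFunction.vonMangoldt n - tr n) ≤ 2 * Real.sqrt N * Real.log N := by
  have h1 := Chebyshev.psi_sub_theta_le (x := (N : ℝ)) (by exact_mod_cast hN)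
  refine le_trans (le_of_eq ?_) h1
  rw [sum_sub_distrib]
  congr 1
  · unfold Chebyshev.psi
    rw [Nat.floor_natCast]
    rfl
  · unfold Chebyshev.theta
    rw [Nat.floor_natCast, sum_filter]
    rfl

theorem psi_th (q a N : ℕ) (ha : a < q) (hN : 1 ≤ N) :
    |H343E.psiAP N q a - thA q a N| ≤ 2 * Real.sqrt N * Real.log N := by
  unfold H343E.psiAP thA
  rw [Nat.floor_natCast]
  have e : (Icc 1 N).filter (fun n => n ≡ a [MOD q]) = (Icc 1 N).filter (fun n => n % q = a) := by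
    refine filter_congr fun n _ => ?_
    unfold Nat.ModEq
    rw [Nat.mod_eq_of_lt ha]
  rw [e, ← sum_sub_distrib, abs_of_nonneg (sum_nonneg fun n _ => sub_nonneg.2 (tr_le_vm n))]
  refine le_trans ?_ (pp_sum N hN)
  exact sum_le_sum_of_subset_of_nonneg (filter_subset _ _) fun n _ _ => sub_nonneg.2 (tr_le_vm n)

theorem psi1_near (K : ℕ) : ∃ C : ℝ, 0 ≤ C ∧ ∀ N : ℕ, 2 ≤ N →
    |H343E.psi1 N - N| ≤ 2 * Real.sqrt N * Real.log N + C * N / (Real.log N) ^ K := by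
  obtain ⟨C, hC0, hC⟩ := pnt_w 0 K
  refine ⟨C, hC0, fun N hN => ?_⟩
  have h1 := hC N hN
  have h2 := pp_sum N (by omega)
  have h3 : (0 : ℝ) ≤ ∑ n ∈ Icc 1 N, (ArithmeticFunction.vonMangoldt n - tr n) :=
    sum_nonneg fun n _ => sub_nonneg.2 (tr_le_vm n)
  have e1 : ∑ n ∈ Icc 1 N, ((if n.Prime then Real.log n else 0) - 1) / (lg3' n) ^ 0 =
      ∑ n ∈ Icc 1 N, tr n - N := by
    have : ∀ n ∈ Icc 1 N, ((if n.Prime then Real.log n else 0) - 1) / (lg3' n) ^ 0 = tr n - 1 := by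
      intro n _
      unfold tr
      rw [pow_zero, div_one]
    rw [sum_congr rfl this, sum_sub_distrib]
    simp
  rw [e1] at h1
  have e2 : H343E.psi1 N - N = ∑ n ∈ Icc 1 N, (ArithmeticFunction.vonMangoldt n - tr n) +
      (∑ n ∈ Icc 1 N, tr n - N) := by
    unfold H343E.psi1
    rw [Nat.floor_natCast, sum_sub_distrib]
    ring
  rw [e2]
  refine (abs_add_le _ _).trans (add_le_add ?_ h1)
  rw [abs_of_nonneg h3]
  exact h2

/-- square root against powers of the logarithm -/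
theorem sq_small (c : ℝ) (hc : 0 < c) (j : ℕ) : ∀ᶠ N : ℕ in atTop,
    c * Real.sqrt N * (Real.log N) ^ j ≤ N := by
  filter_upwards [log_pow_small (2 * j) (show (0 : ℝ) < (c ^ 2)⁻¹ by positivity)] with N h1
  have hN : (0 : ℝ) ≤ N := Nat.cast_nonneg N
  have hl := Real.log_natCast_nonneg N
  have h2 : c * (Real.log N) ^ j ≤ Real.sqrt N := by
    refine Real.le_sqrt_of_sq_le ?_
    rw [mul_pow, ← pow_mul, mul_comm j 2]
    rw [inv_mul_eq_div, le_div_iff₀ (by positivity)] at h1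
    linarith
  calc c * Real.sqrt N * (Real.log N) ^ j = Real.sqrt N * (c * (Real.log N) ^ j) := by ring
    _ ≤ Real.sqrt N * Real.sqrt N := mul_le_mul_of_nonneg_left h2 (Real.sqrt_nonneg _)
    _ = N := Real.mul_self_sqrt hN

/-- **Siegel-Walfisz** -/
theorem sw_th (B K : ℕ) : ∀ᶠ N : ℕ in atTop, ∀ q a : ℕ, 1 ≤ q → (q : ℝ) ≤ (Real.log N) ^ B → a < q →
    a.Coprime q → |thA q a N - (N : ℝ) / q.totient| ≤ N / (Real.log N) ^ K := by
  obtain ⟨B0, X0, hBV⟩ := H343E.unsmoothed (K + 1)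
  obtain ⟨C, hC0, hC⟩ := psi1_near (K + 1)
  have hlogt : Tendsto (fun N : ℕ => Real.log (N : ℝ)) atTop atTop :=
    Real.tendsto_log_atTop.comp tendsto_natCast_atTop_atTop
  filter_upwards [tendsto_natCast_atTop_atTop.eventually_ge_atTop X0, eventually_ge_atTop 2,
    log_pow_small (2 * B + B0) one_pos, hlogt.eventually_ge_atTop (max 1 (C + 5)),
    sq_small 2 two_pos (K + 2)] with N h1 hN2 h3 h4 h5 q a hq hqB ha hcop
  have hNr : (2 : ℝ) ≤ N := by exact_mod_cast hN2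
  have hN0 : (0 : ℝ) < N := by linarith
  set ℓ := Real.log N with hℓ
  have hℓ1 : 1 ≤ ℓ := (le_max_left _ _).trans h4
  have hℓC : C + 5 ≤ ℓ := (le_max_right _ _).trans h4
  have hℓ0 : 0 < ℓ := by linarith
  have hq1 : (1 : ℝ) ≤ q := by exact_mod_cast hq
  have h6 : (q : ℝ) ^ 2 ≤ 1 * N / ℓ ^ B0 := by
    rw [le_div_iff₀ (by positivity)]
    calc (q : ℝ) ^ 2 * ℓ ^ B0 ≤ (ℓ ^ B) ^ 2 * ℓ ^ B0 := by gcongr
      _ = ℓ ^ (2 * B + B0) := by ring
      _ ≤ 1 * N := h3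
  have h7 : (q : ℝ) ≤ N / ℓ ^ B0 := by
    have : (q : ℝ) ≤ (q : ℝ) ^ 2 := by nlinarith
    rw [one_mul] at h6
    linarith
  have hfam : H343E.Fam 1 (fun d => if d = q then {a} else ∅) := by
    refine ⟨?_, ?_⟩
    · intro d b hb
      by_cases hd : d = q
      · rw [if_pos hd, mem_singleton] at hb
        rw [hb, hd]
        exact ⟨ha, hcop⟩
      · rw [if_neg hd] at hb
        exact absurd hb (notMem_empty _)
    · intro d
      by_cases hd : d = q
      · simp only [if_pos hd, card_singleton, Nat.cast_one, le_refl]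
      · simp only [if_neg hd, card_empty, Nat.cast_zero, zero_le_one]
  have h8 := hBV N h1 1 le_rfl q h7 h6 _ hfam
  have h9 : |H343E.psiAP N q a - H343E.psi1 N / (q.totient : ℝ)| ≤ N / ℓ ^ (K + 1) := by
    refine le_trans ?_ (h8.trans (le_of_eq (by rw [one_mul])))
    refine le_trans ?_ (single_le_sum (f := fun d => ∑ b ∈ (if d = q then {a} else ∅ : Finset ℕ),
      |H343E.psiAP N d b - H343E.psi1 N / (d.totient : ℝ)|)
      (fun d _ => sum_nonneg (fun _ _ => abs_nonneg _)) (mem_Icc.2 ⟨hq, le_rfl⟩))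
    simp only [if_true, sum_singleton, le_refl]
  have hφ1 : (1 : ℝ) ≤ q.totient := by exact_mod_cast Nat.totient_pos.2 hq
  have h10 := psi_th q a N ha (by omega)
  have h11 : |H343E.psi1 N / (q.totient : ℝ) - (N : ℝ) / q.totient| ≤
      2 * Real.sqrt N * ℓ + C * N / ℓ ^ (K + 1) := by
    rw [← sub_div, abs_div, abs_of_pos (by linarith : (0 : ℝ) < q.totient)]
    exact (div_le_self (abs_nonneg _) hφ1).trans (hC N hN2)
  have h12 : 2 * Real.sqrt N * ℓ ≤ N / ℓ ^ (K + 1) := by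
    rw [le_div_iff₀ (by positivity)]
    calc 2 * Real.sqrt N * ℓ * ℓ ^ (K + 1) = 2 * Real.sqrt N * ℓ ^ (K + 2) := by ring
      _ ≤ N := h5
  have e : thA q a N - (N : ℝ) / q.totient = -(H343E.psiAP N q a - thA q a N) +
      (H343E.psiAP N q a - H343E.psi1 N / (q.totient : ℝ)) +
      (H343E.psi1 N / (q.totient : ℝ) - (N : ℝ) / q.totient) := by ring
  rw [e]
  refine (abs_add_le _ _).trans ((add_le_add (abs_add_le _ _) le_rfl).trans ?_)
  rw [abs_neg]
  have h13 : (C + 3) * (N / ℓ ^ (K + 1)) ≤ N / ℓ ^ K := by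
    have : (N : ℝ) / ℓ ^ K = ℓ * (N / ℓ ^ (K + 1)) := by
      rw [pow_succ]
      field_simp
    rw [this]
    exact mul_le_mul_of_nonneg_right (by linarith) (by positivity)
  have h14 : C * N / ℓ ^ (K + 1) = C * (N / ℓ ^ (K + 1)) := by ring
  rw [h14] at h11
  linarith

/-- summation by parts, real valued -/
theorem abelR (u h : ℕ → ℝ) (N : ℕ) (hN : 1 ≤ N) :
    ∑ n ∈ Icc 1 N, h n * u n = ∑ M ∈ Ico 1 N, (h M - h (M + 1)) * ∑ n ∈ Icc 1 M, u n +
      h N * ∑ n ∈ Icc 1 N, u n := by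
  induction N, hN using Nat.le_induction with
  | base => simp
  | succ N hN ih =>
    rw [Finset.sum_Icc_succ_top (by omega), ih, Finset.sum_Ico_succ_top hN,
      Finset.sum_Icc_succ_top (by omega : 1 ≤ N + 1)]
    ring

theorem abel_bd (u h : ℕ → ℝ) (h0 : ∀ n, 0 ≤ h n) (hm : ∀ n, 1 ≤ n → h (n + 1) ≤ h n) (h1 : h 1 ≤ 1) (N : ℕ)
    (hN : 1 ≤ N) (D : ℝ) (hD : ∀ M, 1 ≤ M → M ≤ N → |∑ n ∈ Icc 1 M, u n| ≤ D) :
    |∑ n ∈ Icc 1 N, h n * u n| ≤ D := by
  have hD0 : 0 ≤ D := (abs_nonneg _).trans (hD N hN le_rfl)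
  rw [abelR u h N hN]
  refine (abs_add_le _ _).trans ((add_le_add (abs_sum_le_sum_abs _ _) le_rfl).trans ?_)
  calc ∑ M ∈ Ico 1 N, |(h M - h (M + 1)) * ∑ n ∈ Icc 1 M, u n| + |h N * ∑ n ∈ Icc 1 N, u n|
      ≤ ∑ M ∈ Ico 1 N, (h M - h (M + 1)) * D + h N * D := by
        refine add_le_add (sum_le_sum fun M hM => ?_) ?_
        · obtain ⟨h2, h3⟩ := mem_Ico.1 hM
          rw [abs_mul, abs_of_nonneg (by linarith [hm M h2])]
          exact mul_le_mul_of_nonneg_left (hD M h2 h3.le) (by linarith [hm M h2])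
        · rw [abs_mul, abs_of_nonneg (h0 N)]
          exact mul_le_mul_of_nonneg_left (hD N hN le_rfl) (h0 N)
    _ = h 1 * D := by
        rw [← sum_mul, ← tele h N hN]
        ring
    _ ≤ D := mul_le_of_le_one_left hD0 h1

/-- from weighted sums to counts -/
theorem count_abel (T : ℕ → Prop) (t h : ℕ → ℝ) (h0 : ∀ n, 0 ≤ h n) (hm : ∀ n, 1 ≤ n → h (n + 1) ≤ h n)
    (h1 : h 1 ≤ 1) (c : ℝ) (N : ℕ) (hN : 1 ≤ N) (D E : ℝ)
    (hD : ∀ M, 1 ≤ M → M ≤ N → |∑ n ∈ Icc 1 M, t n - c * M| ≤ D)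
    (hE : ∑ n ∈ Icc 1 N, |h n * t n - if T n then (1 : ℝ) else 0| ≤ E) :
    |ct T N - c * ∑ n ∈ Icc 1 N, h n| ≤ D + E := by
  have h2 := abel_bd (fun n => t n - c) h h0 hm h1 N hN D fun M hM1 hM2 => by
    refine le_trans (le_of_eq ?_) (hD M hM1 hM2)
    rw [sum_sub_distrib, sum_const, Nat.card_Icc, Nat.add_sub_cancel, nsmul_eq_mul, mul_comm c]
  have e1 : ∑ n ∈ Icc 1 N, h n * (t n - c) = ∑ n ∈ Icc 1 N, h n * t n - c * ∑ n ∈ Icc 1 N, h n := by
    rw [mul_sum, ← sum_sub_distrib]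
    exact sum_congr rfl fun n _ => by ring
  rw [e1] at h2
  have e2 : ct T N = ∑ n ∈ Icc 1 N, if T n then (1 : ℝ) else 0 := by
    unfold ct
    rw [card_filter, Nat.cast_sum]
    refine sum_congr rfl fun n _ => ?_
    by_cases hx : T n
    · rw [if_pos hx, if_pos hx, Nat.cast_one]
    · rw [if_neg hx, if_neg hx, Nat.cast_zero]
  have h3 : |∑ n ∈ Icc 1 N, h n * t n - ct T N| ≤ E := by
    rw [e2, ← sum_sub_distrib]
    exact (abs_sum_le_sum_abs _ _).trans hE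
  have e3 : ct T N - c * ∑ n ∈ Icc 1 N, h n =
      (∑ n ∈ Icc 1 N, h n * t n - c * ∑ n ∈ Icc 1 N, h n) - (∑ n ∈ Icc 1 N, h n * t n - ct T N) := by ring
  rw [e3]
  exact (abs_sub _ _).trans (add_le_add h2 h3)

end Pool.Agent.Q138.GS
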