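import Pool.Agent.Q138.GS.UniD

set_option autoImplicit false

/-!
# Prime tuples along dilates: the asymptotic formula uniformly in the integer shifts
-/

namespace Pool.Agent.Q138.GS

open Finset Filter Topology MeasureTheory
open scoped Classical
open Pool.Agent.Y957.VK

theorem sm_id : Sm 1 fun n : ℕ => (n : ℝ) := by
  have h := sm_rpow one_pos
  have e : (fun n : ℕ => (n : ℝ) ^ (1 : ℝ)) = fun n : ℕ => (n : ℝ) := by
    funext n
    rw [Real.rpow_one]
  rwa [e] at h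

/-- the weighted sums, uniformly in natural shifts -/
theorem wn_asym (k : ℕ) (β : Fin (k + 1) → ℝ) : ∀ᵐ α ∂(pm (k + 1)), ∀ B : ℕ, ∃ C : ℝ, 0 ≤ C ∧
    ∀ᶠ N : ℕ in atTop, ∀ h ∈ Hs (k + 1) B N,
      |Wn k α β h N - N / (Real.log N) ^ (k + 2)| ≤ C * (N / (Real.log N) ^ (k + 3)) := by
  choose A' C1 hC1 hbd using fun _ : Fin (k + 1) => sm_id.bd
  have h := uni_sav k (fun _ => th) (fun _ => thw) (fun _ => 1) (fun _ n => th_eq n) (fun _ n => th_le n)
    (fun _ n => (n : ℝ)) A' C1 hbd β (fun i => sm_id.un thw thw_le neg_thw (β i))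
    (fun n => ((ww (k + 2) n : ℝ) : ℂ)) 1 0 (fun n _ => by
      rw [Complex.norm_real, Real.norm_eq_abs, abs_of_nonneg (ww_nonneg _ _), pow_zero, one_mul]
      exact ww_le _ (by omega) _)
  obtain ⟨Cw, hCw0, hCw⟩ := ww_sum (k + 2)
  filter_upwards [h] with α hα B
  refine ⟨1 + 1 + Cw, by positivity, ?_⟩
  filter_upwards [hα B (k + 3), hCw, LL_small B, eventually_ge_atTop 100,
    log_pow_small (2 * (k + 3)) (show (0 : ℝ) < 1 by norm_num)] with N hN hW hL hN100 hlp s hs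
  have h1 := hN s hs
  have hNr : (100 : ℝ) ≤ N := by exact_mod_cast hN100
  have hN0 : (0 : ℝ) < N := by linarith
  have hℓ : 0 < Real.log N := Real.log_pos (by linarith)
  have e1 : ∑ n ∈ Icc 1 N, aT k (fun _ => th) (fun _ => 1) (fun _ n => (n : ℝ)) β
      (fun n => ((ww (k + 2) n : ℝ) : ℂ)) s α n =
      ((Wn k α β s N - ∑ n ∈ Icc 1 N, ww (k + 2) (n + s.1) : ℝ) : ℂ) := by
    unfold Wn aT
    rw [← sum_sub_distrib, Complex.ofReal_sum]
    refine sum_congr rfl fun n _ => ?_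
    rw [prod_const_one]
    have e2 : ∏ i : Fin (k + 1), th ⌊α i * ((n + s.2 i : ℕ) : ℝ) + β i⌋₊ =
        ((∏ i : Fin (k + 1), tr ⌊α i * ((n + s.2 i : ℕ) : ℝ) + β i⌋₊ : ℝ) : ℂ) := by
      rw [Complex.ofReal_prod]
      exact prod_congr rfl fun i _ => (tr_eq _).symm
    rw [e2]
    push_cast
    ring
  rw [e1, Complex.norm_real, Real.norm_eq_abs] at h1
  have h2 := shift_sum (ww (k + 2)) (ww_nonneg _) (fun n => ww_le _ (by omega) n) N s.1
  have h3 : (s.1 : ℝ) ≤ N / (Real.log N) ^ (k + 3) := by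
    have h4 : ((s.1 : ℕ) : ℝ) ≤ LL B N := by exact_mod_cast (mem_Hs.1 hs).1
    have h5 : Real.sqrt N ≤ N / (Real.log N) ^ (k + 3) := by
      rw [le_div_iff₀ (by positivity)]
      have h6 : (Real.log N) ^ (k + 3) ≤ Real.sqrt N := by
        refine Real.le_sqrt_of_sq_le ?_
        rw [← pow_mul, mul_comm]
        linarith
      calc Real.sqrt N * (Real.log N) ^ (k + 3) ≤ Real.sqrt N * Real.sqrt N :=
            mul_le_mul_of_nonneg_left h6 (Real.sqrt_nonneg _)
        _ = N := Real.mul_self_sqrt hN0.le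
    have h7 := Real.sqrt_nonneg (N : ℝ)
    linarith
  have e3 : Wn k α β s N - N / (Real.log N) ^ (k + 2) =
      (Wn k α β s N - ∑ n ∈ Icc 1 N, ww (k + 2) (n + s.1)) +
      (∑ n ∈ Icc 1 N, ww (k + 2) (n + s.1) - ∑ n ∈ Icc 1 N, ww (k + 2) n) +
      (∑ n ∈ Icc 1 N, ww (k + 2) n - N / (Real.log N) ^ (k + 2)) := by ring
  rw [e3]
  refine (abs_add_le _ _).trans ?_
  have h8 := abs_add_le (Wn k α β s N - ∑ n ∈ Icc 1 N, ww (k + 2) (n + s.1))
    (∑ n ∈ Icc 1 N, ww (k + 2) (n + s.1) - ∑ n ∈ Icc 1 N, ww (k + 2) n)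
  have h9 : Cw * N / (Real.log N) ^ (k + 2 + 1) = Cw * (N / (Real.log N) ^ (k + 3)) := by
    rw [mul_div_assoc]
  rw [h9] at hW
  linarith

/-- the counts, uniformly in natural shifts -/
theorem tn_asym (k : ℕ) (β : Fin (k + 1) → ℝ) : ∀ᵐ α ∂(pm (k + 1)), ∀ B : ℕ, ∃ C : ℝ, 0 ≤ C ∧
    ∀ᶠ N : ℕ in atTop, ∀ h ∈ Hs (k + 1) B N,
      |Tn k α β h N - N / (Real.log N) ^ (k + 2)| ≤ C * (N / (Real.log N) ^ (k + 3)) := by
  filter_upwards [wn_asym k β, pm_pos (k + 1)] with α hα hpos B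
  obtain ⟨Cw, hCw0, hCw⟩ := hα B
  obtain ⟨C, hC0, hC⟩ := count_core k B α β hpos
  refine ⟨1 + Cw + C * (4 + 2 * Cw), by positivity, ?_⟩
  have hlogt : Tendsto (fun N : ℕ => Real.log (N : ℝ)) atTop atTop :=
    Real.tendsto_log_atTop.comp tendsto_natCast_atTop_atTop
  filter_upwards [hCw, hC, hlogt.eventually_ge_atTop (2 * C + 1), eventually_ge_atTop 100] with N h1 h2 h3 h4 s hs
  have h5 := h1 s hs
  have h6 := h2 s hs
  set ℓ := Real.log N with hℓ
  have hℓ1 : 1 ≤ ℓ := by linarith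
  have hℓp : 0 < ℓ := by linarith
  have hN0 : (0 : ℝ) < N := by
    have : 0 < N := by omega
    exact_mod_cast this
  set X := (N : ℝ) / ℓ ^ (k + 3) with hX
  have hXp : 0 < X := by positivity
  have eX : (N : ℝ) / ℓ ^ (k + 2) = ℓ * X := by
    rw [hX, pow_succ ℓ (k + 2)]
    field_simp
  rw [eX] at h5 ⊢
  set T := Tn k α β s N with hT
  have hT0 : 0 ≤ T := by
    rw [hT]
    unfold Tn ct
    exact Nat.cast_nonneg _
  set W := Wn k α β s N with hW
  have h7 : C / ℓ ≤ 1 / 2 := by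
    rw [div_le_div_iff₀ hℓp two_pos]
    linarith
  have h8 : T ≤ (4 + 2 * Cw) * (ℓ * X) := by
    have h9 := (abs_le.1 h6).1
    have h10 := (abs_le.1 h5).2
    have h11 : C / ℓ * T ≤ 1 / 2 * T := mul_le_mul_of_nonneg_right h7 hT0
    have h12 : X ≤ ℓ * X := by nlinarith
    have h13 : Cw * X ≤ Cw * (ℓ * X) := mul_le_mul_of_nonneg_left h12 hCw0
    nlinarith
  have h9 : C / ℓ * T ≤ C * (4 + 2 * Cw) * X := by
    calc C / ℓ * T ≤ C / ℓ * ((4 + 2 * Cw) * (ℓ * X)) := mul_le_mul_of_nonneg_left h8 (by positivity)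
      _ = _ := by field_simp
  have h10 : |T - ℓ * X| ≤ |W - T| + |W - ℓ * X| := by
    have : T - ℓ * X = -(W - T) + (W - ℓ * X) := by ring
    rw [this]
    refine (abs_add_le _ _).trans ?_
    rw [abs_neg]
  calc |T - ℓ * X| ≤ (X + C / ℓ * T) + Cw * X := h10.trans (add_le_add h6 h5)
    _ ≤ (X + C * (4 + 2 * Cw) * X) + Cw * X := by linarith
    _ = _ := by ring

/-- the number of `n ≤ N` for which `n + a₀` and all `⌊α i * (n + a i) + β i⌋` are primes -/
noncomputable def Ta (k : ℕ) (α β : Fin (k + 1) → ℝ) (a0 : ℤ) (a : Fin (k + 1) → ℤ) (N : ℕ) : ℝ :=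
  ct (fun n => ((n : ℤ) + a0).toNat.Prime ∧ ∀ i, (⌊α i * ((n : ℝ) + a i) + β i⌋₊).Prime) N

theorem ct_shift (S S' : ℕ → Prop) (N t : ℕ) (h : ∀ n, S (n + t) ↔ S' n) :
    |ct S N - ct S' N| ≤ t := by
  have h1 : ct S N ≤ ct S' N + t := by
    unfold ct
    have : ((Icc 1 N).filter S) ⊆ ((Icc 1 N).filter S').image (fun n => n + t) ∪ Icc 1 t := by
      intro n hn
      obtain ⟨h2, h3⟩ := mem_filter.1 hn
      rw [mem_Icc] at h2
      rcases Nat.lt_or_ge t n with h4 | h4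
      · refine mem_union_left _ (mem_image.2 ⟨n - t, mem_filter.2 ⟨mem_Icc.2 ⟨by omega, by omega⟩, ?_⟩, by omega⟩)
        rw [← h, Nat.sub_add_cancel h4.le]
        exact h3
      · exact mem_union_right _ (mem_Icc.2 ⟨h2.1, h4⟩)
    have h5 := (card_le_card this).trans (card_union_le _ _)
    have h6 := h5.trans (add_le_add_left card_image_le _)
    rw [Nat.card_Icc] at h6
    have h7 : ((Icc 1 N).filter S).card ≤ ((Icc 1 N).filter S').card + t := by omega
    exact_mod_cast h7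
  have h2 : ct S' N ≤ ct S N + t := by
    unfold ct
    have : ((Icc 1 N).filter S').image (fun n => n + t) ⊆ ((Icc 1 N).filter S) ∪ Icc (N + 1) (N + t) := by
      intro m hm
      obtain ⟨n, hn, rfl⟩ := mem_image.1 hm
      obtain ⟨h2, h3⟩ := mem_filter.1 hn
      rw [mem_Icc] at h2
      rcases Nat.lt_or_ge N (n + t) with h4 | h4
      · exact mem_union_right _ (mem_Icc.2 ⟨by omega, by omega⟩)
      · exact mem_union_left _ (mem_filter.2 ⟨mem_Icc.2 ⟨by omega, h4⟩, (h n).2 h3⟩)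
    have h5 := (card_le_card this).trans (card_union_le _ _)
    rw [card_image_of_injective _ (fun a b hab => by simpa using hab), Nat.card_Icc] at h5
    have h7 : ((Icc 1 N).filter S').card ≤ ((Icc 1 N).filter S).card + t := by omega
    exact_mod_cast h7
  rw [abs_le]
  constructor <;> linarith

/-- **the counts, uniformly in integer shifts** -/
theorem ta_asym (k : ℕ) (β : Fin (k + 1) → ℝ) : ∀ᵐ α ∂(pm (k + 1)), ∀ B : ℕ, ∃ C : ℝ, 0 ≤ C ∧
    ∀ᶠ N : ℕ in atTop, ∀ (a0 : ℤ) (a : Fin (k + 1) → ℤ), |(a0 : ℝ)| ≤ (Real.log N) ^ B →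
      (∀ i, |(a i : ℝ)| ≤ (Real.log N) ^ B) →
      |Ta k α β a0 a N - N / (Real.log N) ^ (k + 2)| ≤ C * (N / (Real.log N) ^ (k + 3)) := by
  filter_upwards [tn_asym k β] with α hα B
  obtain ⟨C, hC0, hC⟩ := hα (B + 1)
  refine ⟨1 + C, by positivity, ?_⟩
  have hlogt : Tendsto (fun N : ℕ => Real.log (N : ℝ)) atTop atTop :=
    Real.tendsto_log_atTop.comp tendsto_natCast_atTop_atTop
  filter_upwards [hC, hlogt.eventually_ge_atTop 3, eventually_ge_atTop 100, LL_small B,
    log_pow_small (2 * (k + 3)) (show (0 : ℝ) < 1 by norm_num)] with N h1 hl3 hN100 hL hlp a0 a ha0 ha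
  have hNr : (100 : ℝ) ≤ N := by exact_mod_cast hN100
  have hN0 : (0 : ℝ) < N := by linarith
  have hsqN : Real.sqrt N ≤ N := by
    rw [Real.sqrt_le_left (by linarith)]
    nlinarith
  set t := LL B N with ht
  have htB : (t : ℝ) ≤ (Real.log N) ^ B := Nat.floor_le (by positivity)
  have hint : ∀ z : ℤ, |(z : ℝ)| ≤ (Real.log N) ^ B → -(t : ℤ) ≤ z ∧ z ≤ t := by
    intro z hz
    have h2 : z.natAbs ≤ t := by
      rw [ht]
      unfold LL
      refine Nat.le_floor ?_
      rw [Nat.cast_natAbs, Int.cast_abs]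
      exact hz
    omega
  have hbig : 2 * t ≤ LL (B + 1) N := by
    unfold LL
    refine Nat.le_floor ?_
    push_cast
    have h2 : (1 : ℝ) ≤ (Real.log N) ^ B := one_le_pow₀ (by linarith)
    rw [pow_succ]
    nlinarith
  set s : ℕ × (Fin (k + 1) → ℕ) := ((a0 + t).toNat, fun i => (a i + t).toNat) with hs
  have hsm : s ∈ Hs (k + 1) (B + 1) N := by
    rw [mem_Hs]
    refine ⟨?_, fun i => ?_⟩
    · have := hint a0 ha0
      refine le_trans ?_ hbig
      rw [hs]
      simp only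
      omega
    · have := hint (a i) (ha i)
      refine le_trans ?_ hbig
      rw [hs]
      simp only
      omega
  have h2 := h1 s hsm
  have h3 : |Ta k α β a0 a N - Tn k α β s N| ≤ t := by
    unfold Ta Tn
    refine ct_shift _ _ N t fun n => ?_
    have e0 : (((n + t : ℕ) : ℤ) + a0).toNat = n + s.1 := by
      have := hint a0 ha0
      rw [hs]
      simp only
      push_cast
      omega
    have ei : ∀ i, α i * (((n + t : ℕ) : ℝ) + a i) + β i = α i * ((n + s.2 i : ℕ) : ℝ) + β i := by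
      intro i
      have h5 := hint (a i) (ha i)
      have h6 : (((a i + t).toNat : ℕ) : ℤ) = a i + t := Int.toNat_of_nonneg (by omega)
      have h7 : (((a i + t).toNat : ℕ) : ℝ) = (a i : ℝ) + t := by
        rw [← Int.cast_natCast (R := ℝ), h6]
        push_cast
        ring
      rw [hs]
      simp only
      rw [Nat.cast_add n (a i + t).toNat, h7]
      push_cast
      ring
    rw [e0]
    simp only [ei]
  have h4 : (t : ℝ) ≤ N / (Real.log N) ^ (k + 3) := by
    have h5 : Real.sqrt N ≤ N / (Real.log N) ^ (k + 3) := by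
      rw [le_div_iff₀ (by positivity)]
      have h6 : (Real.log N) ^ (k + 3) ≤ Real.sqrt N := by
        refine Real.le_sqrt_of_sq_le ?_
        rw [← pow_mul, mul_comm]
        linarith
      calc Real.sqrt N * (Real.log N) ^ (k + 3) ≤ Real.sqrt N * Real.sqrt N :=
            mul_le_mul_of_nonneg_left h6 (Real.sqrt_nonneg _)
        _ = N := Real.mul_self_sqrt hN0.le
    have h7 := Real.sqrt_nonneg (N : ℝ)
    linarith
  have e : Ta k α β a0 a N - N / (Real.log N) ^ (k + 2) =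
      (Ta k α β a0 a N - Tn k α β s N) + (Tn k α β s N - N / (Real.log N) ^ (k + 2)) := by ring
  rw [e]
  refine (abs_add_le _ _).trans ?_
  linarith

end Pool.Agent.Q138.GS
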