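import Pool.Agent.Q138.GS.FamB
import Pool.Agent.Q138.GS.UniE

set_option autoImplicit false

/-!
# Prime tuples in progressions with small moduli, uniformly in the shifts
-/

namespace Pool.Agent.Q138.GS

open Finset Filter Topology MeasureTheory
open scoped Classical
open Pool.Agent.Y957.VK

/-- the logarithm, at least one -/
noncomputable def Lm (x : ℝ) : ℝ := Real.log (max x 3)

theorem Lm_ge (x : ℝ) : 1 ≤ Lm x := by
  unfold Lm
  rw [Real.le_log_iff_exp_le (by positivity)]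
  have h3 := Real.exp_one_lt_d9
  have : (3 : ℝ) ≤ max x 3 := le_max_right _ _
  linarith

theorem Lm_mono {x y : ℝ} (h : x ≤ y) : Lm x ≤ Lm y := by
  unfold Lm
  exact Real.log_le_log (by positivity) (max_le_max h le_rfl)

theorem Lm_eq {x : ℝ} (h : 3 ≤ x) : Lm x = Real.log x := by
  unfold Lm
  rw [max_eq_left h]

theorem abs_log_le {y : ℝ} (hy : |y - 1| ≤ 1 / 2) : |Real.log y| ≤ 2 * |y - 1| := by
  rw [abs_le] at hy
  have hy0 : 0 < y := by linarith
  have h1 := Real.log_le_sub_one_of_pos hy0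
  have h2 := Real.log_le_sub_one_of_pos (inv_pos.2 hy0)
  rw [Real.log_inv] at h2
  have h3 : y⁻¹ - 1 ≤ 2 * |y - 1| := by
    have e : y⁻¹ - 1 = (1 - y) / y := by field_simp
    rw [e, div_le_iff₀ hy0]
    have h4 := neg_abs_le (y - 1)
    have h5 := abs_nonneg (y - 1)
    nlinarith
  rw [abs_le]
  constructor
  · linarith
  · have := le_abs_self (y - 1)
    have h5 := abs_nonneg (y - 1)
    linarith

/-- the logarithms of the values -/
theorem val_log3 (α β : ℝ) (hα : 0 < α) : ∃ C : ℝ, 0 ≤ C ∧ ∃ n0 : ℕ, 1 ≤ n0 ∧ ∀ n : ℕ, n0 ≤ n → ∀ s : ℝ, 0 ≤ s →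
    C * (s + 1) ≤ n → 3 ≤ α * n ∧ |Real.log (⌊α * (n + s) + β⌋₊ : ℕ) - Real.log (α * n)| ≤ C * (s + 1) / n := by
  refine ⟨2 * (α + |β| + 1) / α, by positivity, ⌈3 / α⌉₊ + 1, by omega, fun n hn s hs hsn => ?_⟩
  have hnp : (1 : ℝ) ≤ n := by exact_mod_cast (by omega : 1 ≤ n)
  have hn0 : (0 : ℝ) < n := by linarith
  have h1 : 3 / α ≤ n := (Nat.le_ceil _).trans (by exact_mod_cast (by omega : ⌈3 / α⌉₊ ≤ n))
  have hn3 : 3 ≤ α * n := by
    rw [div_le_iff₀ hα] at h1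
    linarith
  refine ⟨hn3, ?_⟩
  have hb := abs_nonneg β
  have hb1 := le_abs_self β
  have hb2 := neg_abs_le β
  have hαn : 0 < α * n := by positivity
  have hkey : (α + |β| + 1) * (s + 1) ≤ α * n / 2 := by
    have h2 := mul_le_mul_of_nonneg_left hsn hα.le
    have e : α * (2 * (α + |β| + 1) / α * (s + 1)) = 2 * ((α + |β| + 1) * (s + 1)) := by field_simp
    rw [e] at h2
    linarith
  have h2 : α * s + |β| + 1 ≤ (α + |β| + 1) * (s + 1) := by nlinarith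
  have h3 : 0 ≤ α * (n + s) + β := by nlinarith
  have h4 := Nat.floor_le h3
  have h5 := Nat.sub_one_lt_floor (α * (n + s) + β)
  set m := ⌊α * ((n : ℝ) + s) + β⌋₊ with hm
  have h6 : |(m : ℝ) / (α * n) - 1| ≤ (α * s + |β| + 1) / (α * n) := by
    rw [div_sub_one hαn.ne', abs_div, abs_of_pos hαn]
    refine div_le_div_of_nonneg_right ?_ hαn.le
    rw [abs_le]
    constructor <;> nlinarith
  have h7 : (α * s + |β| + 1) / (α * n) ≤ 1 / 2 := by
    rw [div_le_iff₀ hαn]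
    linarith
  have h8 := abs_log_le (h6.trans h7)
  have hm0 : (0 : ℝ) < m := by nlinarith
  rw [Real.log_div hm0.ne' hαn.ne'] at h8
  refine h8.trans ((mul_le_mul_of_nonneg_left h6 two_pos.le).trans ?_)
  calc 2 * ((α * s + |β| + 1) / (α * n)) ≤ 2 * ((α + |β| + 1) * (s + 1) / (α * n)) := by gcongr
    _ = _ := by field_simp

/-- indices: modulus, class, shift of `n`, shifts of the factors -/
abbrev Ix (k : ℕ) := ℕ × ℕ × ℕ × (Fin (k + 1) → ℕ)

/-- the family of indices -/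
noncomputable def Xs (k B N : ℕ) : Finset (Ix k) :=
  range (LL B N + 1) ×ˢ (range (LL B N + 1) ×ˢ (range (LL B N + 1) ×ˢ
    Fintype.piFinset fun _ => range (LL B N + 1)))

theorem mem_Xs {k B N : ℕ} {x : Ix k} : x ∈ Xs k B N ↔
    x.1 ≤ LL B N ∧ x.2.1 ≤ LL B N ∧ x.2.2.1 ≤ LL B N ∧ ∀ i, x.2.2.2 i ≤ LL B N := by
  unfold Xs
  simp only [mem_product, Fintype.mem_piFinset, mem_range, Nat.lt_succ_iff]

theorem Xs_mono (k B : ℕ) (N M : ℕ) (h : N ≤ M) : Xs k B N ⊆ Xs k B M := by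
  intro x hx
  rw [mem_Xs] at hx ⊢
  have := LL_mono B h
  exact ⟨by omega, by omega, by omega, fun i => (hx.2.2.2 i).trans this⟩

theorem Xs_card (k B : ℕ) : ∃ C2 : ℝ, ∀ N : ℕ, 2 ≤ N →
    ((Xs k B N).card : ℝ) ≤ C2 * (Real.log N) ^ (B * (k + 4)) := by
  refine ⟨(1 + 1 / (Real.log 2) ^ B) ^ (k + 4), fun N hN => ?_⟩
  have hl2 : 0 < Real.log 2 := Real.log_pos (by norm_num)
  have hl : Real.log 2 ≤ Real.log N := Real.log_le_log (by norm_num) (by exact_mod_cast hN)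
  have h1 : ((Xs k B N).card : ℝ) = ((LL B N : ℝ) + 1) ^ (k + 4) := by
    unfold Xs
    rw [card_product, card_product, card_product, Fintype.card_piFinset]
    simp only [card_range, prod_const, card_univ, Fintype.card_fin]
    push_cast
    ring
  have h2 : (LL B N : ℝ) ≤ (Real.log N) ^ B := Nat.floor_le (by positivity)
  have h3 : (1 : ℝ) ≤ 1 / (Real.log 2) ^ B * (Real.log N) ^ B := by
    rw [one_div_mul_eq_div, one_le_div (by positivity)]
    exact pow_le_pow_left₀ hl2.le hl B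
  rw [h1, pow_mul, ← mul_pow]
  refine pow_le_pow_left₀ (by positivity) ?_ _
  nlinarith

/-- the weight of an index -/
noncomputable def Gx (k : ℕ) (x : Ix k) (n : ℕ) : ℂ :=
  if (n + x.2.2.1) % x.1 = x.2.1 then th (n + x.2.2.1) else 0

/-- the weighted sums with small moduli and shifts -/
theorem sw_fam (k : ℕ) (β : Fin (k + 1) → ℝ) : ∀ᵐ α ∂(pm (k + 1)), ∀ B K : ℕ, ∀ᶠ N : ℕ in atTop,
    ∀ x ∈ Xs k B N, ‖∑ n ∈ Icc 1 N, Gx k x n *
      (∏ i, th ⌊α i * ((n + x.2.2.2 i : ℕ) : ℝ) + β i⌋₊ - 1)‖ ≤ N / (Real.log N) ^ K := by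
  rw [ae_all_iff]
  intro B
  choose A' C1 hC1 hbd using fun _ : Fin (k + 1) => sm_id.bd
  obtain ⟨C2, hC2⟩ := Xs_card k B
  obtain ⟨C3, hC31, hC3⟩ := LL_le B
  have h := fam_sav k (fun _ => th) (fun _ => thw) (fun _ => 1) (fun _ n => th_eq n) (fun _ n => th_le n)
    (fun _ n => (n : ℝ)) A' C1 hbd β (fun i => sm_id.un thw thw_le neg_thw (β i)) (Xs k B) (Xs_mono k B) C2
    (B * (k + 4)) hC2 B (fun x => x.2.2.2) (fun N x hx => (mem_Xs.1 hx).2.2.2) (Gx k) C3 1 (fun N x hx n hn hnN => ?_)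
  · filter_upwards [h] with α hα K
    filter_upwards [hα K] with N hN x hx
    have h1 := hN x hx
    unfold fT at h1
    simp only [prod_const_one] at h1
    exact h1
  · unfold Gx
    have h3 := lg3 N
    split_ifs
    · refine (th_le _).trans ?_
      rw [pow_one]
      exact (hC3 N n x.2.2.1 hnN (mem_Xs.1 hx).2.2.1).2
    · rw [norm_zero]
      positivity

/-- the count of an index -/
noncomputable def Tx (k : ℕ) (α β : Fin (k + 1) → ℝ) (x : Ix k) (n : ℕ) : Prop :=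
  (n + x.2.2.1).Prime ∧ (n + x.2.2.1) % x.1 = x.2.1 ∧ ∀ i, (⌊α i * ((n + x.2.2.2 i : ℕ) : ℝ) + β i⌋₊).Prime

/-- the terms of an index -/
noncomputable def tx (k : ℕ) (α β : Fin (k + 1) → ℝ) (x : Ix k) (n : ℕ) : ℝ :=
  (if (n + x.2.2.1) % x.1 = x.2.1 then tr (n + x.2.2.1) else 0) *
    ∏ i, tr ⌊α i * ((n + x.2.2.2 i : ℕ) : ℝ) + β i⌋₊

/-- the density -/
noncomputable def hd (k : ℕ) (α : Fin (k + 1) → ℝ) (n : ℕ) : ℝ := 1 / (Lm n * ∏ i, Lm (α i * n))

theorem hd_pos (k : ℕ) (α : Fin (k + 1) → ℝ) (n : ℕ) : 0 < hd k α n := by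
  unfold hd
  have h1 : 0 < Lm n := by linarith [Lm_ge n]
  have h2 : 0 < ∏ i, Lm (α i * n) := prod_pos fun i _ => by linarith [Lm_ge (α i * n)]
  positivity

theorem hd_le_one (k : ℕ) (α : Fin (k + 1) → ℝ) (n : ℕ) : hd k α n ≤ 1 := by
  unfold hd
  have h1 := Lm_ge n
  have h2 : 1 ≤ ∏ i, Lm (α i * n) := by
    calc (1 : ℝ) = ∏ i : Fin (k + 1), (1 : ℝ) := by simp
      _ ≤ _ := prod_le_prod (fun _ _ => zero_le_one) fun i _ => Lm_ge _
  rw [div_le_one (by positivity)]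
  nlinarith

theorem hd_anti (k : ℕ) (α : Fin (k + 1) → ℝ) (hα : ∀ i, 0 < α i) (n : ℕ) : hd k α (n + 1) ≤ hd k α n := by
  unfold hd
  have h0 : (n : ℝ) ≤ ((n + 1 : ℕ) : ℝ) := by
    push_cast
    linarith
  have h1 := Lm_ge n
  have h2 : 0 < ∏ i, Lm (α i * n) := prod_pos fun i _ => by linarith [Lm_ge (α i * n)]
  refine one_div_le_one_div_of_le (by positivity) ?_
  refine mul_le_mul (Lm_mono h0) (prod_le_prod (fun i _ => by linarith [Lm_ge (α i * n)]) fun i _ =>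
    Lm_mono (mul_le_mul_of_nonneg_left h0 (hα i).le)) h2.le (by linarith [Lm_ge ((n + 1 : ℕ) : ℝ)])

end Pool.Agent.Q138.GS
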