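import Pool.Agent.Q138.GS.FamC

set_option autoImplicit false

/-!
# Prime tuples in progressions with small moduli: the asymptotic formula
-/

namespace Pool.Agent.Q138.GS

open Finset Filter Topology MeasureTheory
open scoped Classical
open Pool.Agent.Y957.VK

theorem tx_nonneg (k : ℕ) (α β : Fin (k + 1) → ℝ) (x : Ix k) (n : ℕ) : 0 ≤ tx k α β x n := by
  unfold tx
  refine mul_nonneg ?_ (prod_nonneg fun i _ => tr_nonneg _)
  split_ifs
  · exact tr_nonneg _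
  · exact le_rfl

/-- the size of the terms -/
theorem tx_le (k : ℕ) (α β : Fin (k + 1) → ℝ) (hα : ∀ i, 0 < α i) (B : ℕ) : ∀ᶠ N : ℕ in atTop,
    ∀ x ∈ Xs k B N, ∀ n : ℕ, 1 ≤ n → n ≤ N → tx k α β x n ≤ (2 * Real.log N) ^ (k + 2) := by
  set Y : ℝ := ∑ i, (2 * α i + |β i|) + 5 with hY
  have hYi : ∀ i, 2 * α i + |β i| + 3 ≤ Y := by
    intro i
    have : 2 * α i + |β i| ≤ ∑ i, (2 * α i + |β i|) := single_le_sum (f := fun i => 2 * α i + |β i|)
      (fun i _ => by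
        have := hα i
        positivity) (mem_univ i)
    linarith
  have hlogt : Tendsto (fun N : ℕ => Real.log (N : ℝ)) atTop atTop :=
    Real.tendsto_log_atTop.comp tendsto_natCast_atTop_atTop
  filter_upwards [LL_small B, tendsto_natCast_atTop_atTop.eventually_ge_atTop Y, hlogt.eventually_ge_atTop 1,
    eventually_ge_atTop 5] with N hLL hNY hl1 hN5 x hx n hn1 hn2
  obtain ⟨hx1, hx2, hx3, hx4⟩ := mem_Xs.1 hx
  set ℓ := Real.log N with hℓ
  have hN5r : (5 : ℝ) ≤ N := by exact_mod_cast hN5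
  have hsq : Real.sqrt N ≤ N := by
    rw [Real.sqrt_le_left (by linarith)]
    nlinarith
  have hnN : (n : ℝ) ≤ N := by exact_mod_cast hn2
  have hLN : ∀ s : ℕ, s ≤ LL B N → ((n + s : ℕ) : ℝ) ≤ 2 * N := by
    intro s hs
    have : (s : ℝ) ≤ LL B N := by exact_mod_cast hs
    push_cast
    linarith
  have h2ℓ : ∀ y : ℝ, 0 ≤ y → y ≤ N ^ 2 - 3 → Real.log (y + 3) ≤ 2 * ℓ := by
    intro y hy0 hy
    have h1 := Real.log_le_log (by linarith) (by linarith : y + 3 ≤ (N : ℝ) ^ 2)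
    rw [Real.log_pow] at h1
    exact_mod_cast h1
  have h0 : (if (n + x.2.2.1) % x.1 = x.2.1 then tr (n + x.2.2.1) else 0) ≤ 2 * ℓ := by
    split_ifs
    · refine (tr_le _).trans (h2ℓ _ (Nat.cast_nonneg _) ?_)
      have := hLN _ hx3
      nlinarith
    · positivity
  have hv : ∀ i, tr ⌊α i * ((n + x.2.2.2 i : ℕ) : ℝ) + β i⌋₊ ≤ 2 * ℓ := by
    intro i
    refine (tr_le _).trans (h2ℓ _ (Nat.cast_nonneg _) ?_)
    have h3 := hYi i
    have h4 := hα i
    have h5 := abs_nonneg (β i)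
    have h6 := hLN _ (hx4 i)
    have h7 := mul_le_mul_of_nonneg_left h6 h4.le
    have h8 := le_abs_self (β i)
    have h9 : ((⌊α i * ((n + x.2.2.2 i : ℕ) : ℝ) + β i⌋₊ : ℕ) : ℝ) ≤ α i * (2 * N) + |β i| := by
      rcases le_or_gt 0 (α i * ((n + x.2.2.2 i : ℕ) : ℝ) + β i) with h | h
      · exact (Nat.floor_le h).trans (by linarith)
      · rw [Nat.floor_of_nonpos h.le, Nat.cast_zero]
        positivity
    nlinarith
  unfold tx
  calc _ ≤ (2 * ℓ) * ∏ _i : Fin (k + 1), (2 * ℓ) := by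
        refine mul_le_mul h0 (prod_le_prod (fun i _ => tr_nonneg _) fun i _ => hv i)
          (prod_nonneg fun i _ => tr_nonneg _) (by positivity)
    _ = _ := by
        rw [prod_const, card_univ, Fintype.card_fin, pow_succ (2 * ℓ) (k + 1)]
        ring

theorem Xs_up (k B : ℕ) : ∀ᶠ N : ℕ in atTop, ∀ M : ℕ, Real.sqrt N ≤ M → Xs k B N ⊆ Xs k (B + 1) M := by
  have hlogt : Tendsto (fun N : ℕ => Real.log (N : ℝ)) atTop atTop :=
    Real.tendsto_log_atTop.comp tendsto_natCast_atTop_atTop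
  filter_upwards [hlogt.eventually_ge_atTop (2 * 2 ^ B), eventually_ge_atTop 1] with N hl hN1 M hM x hx
  have hN0 : (0 : ℝ) < N := by exact_mod_cast hN1
  have h2B : (1 : ℝ) ≤ 2 ^ B := one_le_pow₀ (by norm_num)
  have hlM : Real.log N / 2 ≤ Real.log M := by
    have h1 := Real.log_le_log (Real.sqrt_pos.2 hN0) hM
    rwa [Real.log_sqrt hN0.le] at h1
  have hle : LL B N ≤ LL (B + 1) M := by
    unfold LL
    refine Nat.floor_le_floor ?_
    have h3 : (Real.log N) ^ B ≤ (2 * Real.log M) ^ B := pow_le_pow_left₀ (by linarith) (by linarith) _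
    calc (Real.log N) ^ B ≤ (2 * Real.log M) ^ B := h3
      _ = 2 ^ B * (Real.log M) ^ B := mul_pow _ _ _
      _ ≤ Real.log M * (Real.log M) ^ B := mul_le_mul_of_nonneg_right (by linarith)
          (pow_nonneg (by linarith) _)
      _ = _ := by
          rw [pow_succ]
          ring
  rw [mem_Xs] at hx ⊢
  exact ⟨hx.1.trans hle, hx.2.1.trans hle, hx.2.2.1.trans hle, fun i => (hx.2.2.2 i).trans hle⟩

/-- the sum over a shifted progression -/
theorem Gx_sum (k : ℕ) (x : Ix k) (M : ℕ) :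
    ∑ n ∈ Icc 1 M, (if (n + x.2.2.1) % x.1 = x.2.1 then tr (n + x.2.2.1) else 0) =
      thA x.1 x.2.1 (M + x.2.2.1) - thA x.1 x.2.1 x.2.2.1 := by
  unfold thA
  rw [sum_filter, sum_filter]
  induction M with
  | zero => simp
  | succ M ih =>
    rw [Finset.sum_Icc_succ_top (by omega), ih, show M + 1 + x.2.2.1 = (M + x.2.2.1) + 1 by omega,
      Finset.sum_Icc_succ_top (by omega)]
    ring

/-- the partial sums -/
theorem tx_partial (k : ℕ) (β : Fin (k + 1) → ℝ) : ∀ᵐ α ∂(pm (k + 1)), ∀ B K : ℕ, ∀ᶠ N : ℕ in atTop,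
    ∀ x ∈ Xs k B N, 1 ≤ x.1 → x.2.1 < x.1 → x.2.1.Coprime x.1 → ∀ M : ℕ, 1 ≤ M → M ≤ N →
      |∑ n ∈ Icc 1 M, tx k α β x n - 1 / (x.1.totient : ℝ) * M| ≤ N / (Real.log N) ^ K := by
  filter_upwards [sw_fam k β, pm_pos (k + 1)] with α hα hpos B K
  obtain ⟨N1, hN1⟩ := eventually_atTop.1 (hα (B + 1) (K + 1))
  obtain ⟨N2, hN2⟩ := eventually_atTop.1 (sw_th (B + 1) (K + 1))
  have hlogt : Tendsto (fun N : ℕ => Real.log (N : ℝ)) atTop atTop :=
    Real.tendsto_log_atTop.comp tendsto_natCast_atTop_atTop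
  have hsqt : Tendsto (fun N : ℕ => Real.sqrt (N : ℝ)) atTop atTop :=
    Real.tendsto_sqrt_atTop.comp tendsto_natCast_atTop_atTop
  filter_upwards [tx_le k α β hpos B, Xs_up k B, hlogt.eventually_ge_atTop (max 1 (4 * 2 ^ (K + 1) + 1)),
    hsqt.eventually_ge_atTop ((N1 : ℝ) + N2 + 5), LL_small B,
    sq_small (2 ^ (k + 2) + 1) (by positivity) (k + 2 + K), sq_small 2 two_pos (K + 3)] with
    N h1 h2 hl hsN hLL h5 h6 x hx hq ha hcop M hM1 hMN
  obtain ⟨hx1, hx2, hx3, hx4⟩ := mem_Xs.1 hx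
  set ℓ := Real.log N with hℓ
  have hℓ1 : 1 ≤ ℓ := (le_max_left _ _).trans hl
  have hℓK : 4 * 2 ^ (K + 1) + 1 ≤ ℓ := (le_max_right _ _).trans hl
  have hℓ0 : 0 < ℓ := by linarith
  have hN1n : (0 : ℝ) ≤ N1 := Nat.cast_nonneg N1
  have hN2n : (0 : ℝ) ≤ N2 := Nat.cast_nonneg N2
  have hsq5 : 5 ≤ Real.sqrt N := by linarith
  have hN0 : (0 : ℝ) < N := by
    by_contra hcon
    rw [Real.sqrt_eq_zero_of_nonpos (not_lt.1 hcon)] at hsq5
    linarith
  have hsqN : Real.sqrt N * Real.sqrt N = N := Real.mul_self_sqrt hN0.le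
  have hMr : (1 : ℝ) ≤ M := by exact_mod_cast hM1
  have hMNr : (M : ℝ) ≤ N := by exact_mod_cast hMN
  have hφ1 : (1 : ℝ) ≤ x.1.totient := by exact_mod_cast Nat.totient_pos.2 hq
  have hφ0 : (0 : ℝ) < x.1.totient := by linarith
  have hφi : 1 / (x.1.totient : ℝ) ≤ 1 := by
    rw [div_le_one hφ0]
    exact hφ1
  rcases lt_or_ge (M : ℝ) (Real.sqrt N) with hsm | hla
  · -- small M
    have h7 : |∑ n ∈ Icc 1 M, tx k α β x n| ≤ M * (2 * ℓ) ^ (k + 2) := by
      rw [abs_of_nonneg (sum_nonneg fun n _ => tx_nonneg k α β x n)]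
      calc ∑ n ∈ Icc 1 M, tx k α β x n ≤ ∑ n ∈ Icc 1 M, (2 * ℓ) ^ (k + 2) :=
            sum_le_sum fun n hn => h1 x hx n (mem_Icc.1 hn).1 ((mem_Icc.1 hn).2.trans hMN)
        _ = _ := by
            rw [sum_const, Nat.card_Icc, Nat.add_sub_cancel, nsmul_eq_mul]
    have h8 : |1 / (x.1.totient : ℝ) * M| ≤ M := by
      rw [abs_of_nonneg (by positivity)]
      exact mul_le_of_le_one_left (by linarith) hφi
    refine (abs_sub _ _).trans ((add_le_add h7 h8).trans ?_)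
    rw [le_div_iff₀ (by positivity)]
    have h9 : (1 : ℝ) ≤ ℓ ^ (k + 2) := one_le_pow₀ hℓ1
    calc (M * (2 * ℓ) ^ (k + 2) + M) * ℓ ^ K = M * (2 ^ (k + 2) * ℓ ^ (k + 2) + 1) * ℓ ^ K := by
          rw [mul_pow]
          ring
      _ ≤ Real.sqrt N * (2 ^ (k + 2) * ℓ ^ (k + 2) + ℓ ^ (k + 2)) * ℓ ^ K := by gcongr
      _ = (2 ^ (k + 2) + 1) * Real.sqrt N * ℓ ^ (k + 2 + K) := by
          rw [pow_add ℓ (k + 2) K]
          ring
      _ ≤ N := h5
  · -- large M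
    have hM1' : N1 ≤ M := by
      have : (N1 : ℝ) ≤ M := by linarith
      exact_mod_cast this
    have hM2' : N2 ≤ M + x.2.2.1 := by
      have : (N2 : ℝ) ≤ M := by linarith
      have : N2 ≤ M := by exact_mod_cast this
      omega
    have hxM := h2 M hla hx
    have hlM : ℓ / 2 ≤ Real.log M := by
      have h9 := Real.log_le_log (Real.sqrt_pos.2 hN0) hla
      rwa [Real.log_sqrt hN0.le] at h9
    have hlM0 : 0 < Real.log M := by linarith
    have h7 := hN1 M hM1' x hxM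
    obtain ⟨hy1, hy2, hy3, hy4⟩ := mem_Xs.1 hxM
    have ha0M : (x.2.2.1 : ℝ) ≤ Real.sqrt N / 2 := by
      have : (x.2.2.1 : ℝ) ≤ LL B N := by exact_mod_cast hx3
      linarith
    have hlMa : Real.log M ≤ Real.log ((M + x.2.2.1 : ℕ) : ℝ) := by
      refine Real.log_le_log (by linarith) ?_
      push_cast
      linarith [(Nat.cast_nonneg x.2.2.1 : (0 : ℝ) ≤ (x.2.2.1 : ℝ))]
    have h8 := hN2 (M + x.2.2.1) hM2' x.1 x.2.1 hq (by
      have h9 : ((x.1 : ℕ) : ℝ) ≤ LL (B + 1) M := by exact_mod_cast hy1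
      have h10 : (LL (B + 1) M : ℝ) ≤ (Real.log M) ^ (B + 1) := Nat.floor_le (by positivity)
      have h11 : (Real.log M) ^ (B + 1) ≤ (Real.log ((M + x.2.2.1 : ℕ) : ℝ)) ^ (B + 1) :=
        pow_le_pow_left₀ hlM0.le hlMa _
      linarith) ha hcop
    -- the real part of the weighted sum
    have e1 : ∑ n ∈ Icc 1 M, Gx k x n * (∏ i, th ⌊α i * ((n + x.2.2.2 i : ℕ) : ℝ) + β i⌋₊ - 1) =
        ((∑ n ∈ Icc 1 M, tx k α β x n - (thA x.1 x.2.1 (M + x.2.2.1) - thA x.1 x.2.1 x.2.2.1) : ℝ) : ℂ) := by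
      rw [← Gx_sum, ← sum_sub_distrib, Complex.ofReal_sum]
      refine sum_congr rfl fun n _ => ?_
      unfold Gx tx
      have e2 : ∏ i, th ⌊α i * ((n + x.2.2.2 i : ℕ) : ℝ) + β i⌋₊ =
          ((∏ i, tr ⌊α i * ((n + x.2.2.2 i : ℕ) : ℝ) + β i⌋₊ : ℝ) : ℂ) := by
        rw [Complex.ofReal_prod]
        exact prod_congr rfl fun i _ => (tr_eq _).symm
      rw [e2]
      split_ifs
      · rw [← tr_eq]
        push_cast
        ring
      · push_cast
        ring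
    rw [e1, Complex.norm_real, Real.norm_eq_abs] at h7
    set S := ∑ n ∈ Icc 1 M, tx k α β x n with hS
    -- the trivial part
    have h9 : |thA x.1 x.2.1 x.2.2.1| ≤ Real.sqrt N * ℓ := by
      unfold thA
      rw [abs_of_nonneg (sum_nonneg fun n _ => tr_nonneg _)]
      have h10 : ∀ n ∈ (Icc 1 x.2.2.1).filter (fun n => n % x.1 = x.2.1), tr n ≤ ℓ := by
        intro n hn
        obtain ⟨h11, h12⟩ := mem_Icc.1 (mem_filter.1 hn).1
        have h13 : (n : ℝ) ≤ x.2.2.1 := by exact_mod_cast h12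
        refine (tr_le n).trans ?_
        unfold lg3'
        refine Real.log_le_log (by positivity) ?_
        nlinarith
      refine (sum_le_sum h10).trans ?_
      rw [sum_const, nsmul_eq_mul]
      have h11 : (((Icc 1 x.2.2.1).filter (fun n => n % x.1 = x.2.1)).card : ℝ) ≤ x.2.2.1 := by
        have := card_filter_le (Icc 1 x.2.2.1) (fun n => n % x.1 = x.2.1)
        rw [Nat.card_Icc, Nat.add_sub_cancel] at this
        exact_mod_cast this
      refine mul_le_mul_of_nonneg_right ?_ hℓ0.le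
      linarith
    have h10 : |((M + x.2.2.1 : ℕ) : ℝ) / x.1.totient - 1 / (x.1.totient : ℝ) * M| ≤ Real.sqrt N := by
      have e3 : ((M + x.2.2.1 : ℕ) : ℝ) / x.1.totient - 1 / (x.1.totient : ℝ) * M =
          1 / (x.1.totient : ℝ) * x.2.2.1 := by
        push_cast
        ring
      rw [e3, abs_of_nonneg (by positivity)]
      refine (mul_le_of_le_one_left (Nat.cast_nonneg _) hφi).trans ?_
      linarith
    have hK1 : ∀ y : ℝ, y ≤ 2 * N → 0 ≤ y → ∀ z : ℝ, ℓ / 2 ≤ z → y / z ^ (K + 1) ≤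
        2 * 2 ^ (K + 1) * (N / ℓ ^ (K + 1)) := by
      intro y hy hy0 z hz
      calc y / z ^ (K + 1) ≤ (2 * N) / (ℓ / 2) ^ (K + 1) := by gcongr
        _ = _ := by
            rw [div_pow]
            field_simp
    have h11 := hK1 M (by linarith) (by linarith) _ hlM
    have h12 := hK1 ((M + x.2.2.1 : ℕ) : ℝ) (by
      push_cast
      nlinarith) (Nat.cast_nonneg _) _ (hlM.trans hlMa)
    have h13 : Real.sqrt N * ℓ + Real.sqrt N ≤ N / ℓ ^ (K + 1) := by
      rw [le_div_iff₀ (by positivity)]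
      calc (Real.sqrt N * ℓ + Real.sqrt N) * ℓ ^ (K + 1) ≤ (Real.sqrt N * ℓ + Real.sqrt N * ℓ) * ℓ ^ (K + 1) := by
            have : Real.sqrt N ≤ Real.sqrt N * ℓ := le_mul_of_one_le_right (Real.sqrt_nonneg _) hℓ1
            gcongr
        _ = 2 * Real.sqrt N * ℓ ^ (K + 2) := by ring
        _ ≤ 2 * Real.sqrt N * ℓ ^ (K + 3) := by
            refine mul_le_mul_of_nonneg_left (pow_le_pow_right₀ hℓ1 (by omega)) (by positivity)
        _ ≤ N := h6
    have e4 : S - 1 / (x.1.totient : ℝ) * M =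
        (S - (thA x.1 x.2.1 (M + x.2.2.1) - thA x.1 x.2.1 x.2.2.1)) +
        (thA x.1 x.2.1 (M + x.2.2.1) - ((M + x.2.2.1 : ℕ) : ℝ) / x.1.totient) - thA x.1 x.2.1 x.2.2.1 +
        (((M + x.2.2.1 : ℕ) : ℝ) / x.1.totient - 1 / (x.1.totient : ℝ) * M) := by ring
    rw [e4]
    have h14 := abs_add_le ((S - (thA x.1 x.2.1 (M + x.2.2.1) - thA x.1 x.2.1 x.2.2.1)) +
        (thA x.1 x.2.1 (M + x.2.2.1) - ((M + x.2.2.1 : ℕ) : ℝ) / x.1.totient) - thA x.1 x.2.1 x.2.2.1)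
        (((M + x.2.2.1 : ℕ) : ℝ) / x.1.totient - 1 / (x.1.totient : ℝ) * M)
    have h15 := abs_sub ((S - (thA x.1 x.2.1 (M + x.2.2.1) - thA x.1 x.2.1 x.2.2.1)) +
        (thA x.1 x.2.1 (M + x.2.2.1) - ((M + x.2.2.1 : ℕ) : ℝ) / x.1.totient)) (thA x.1 x.2.1 x.2.2.1)
    have h16 := abs_add_le (S - (thA x.1 x.2.1 (M + x.2.2.1) - thA x.1 x.2.1 x.2.2.1))
        (thA x.1 x.2.1 (M + x.2.2.1) - ((M + x.2.2.1 : ℕ) : ℝ) / x.1.totient)
    have h17 : (4 * 2 ^ (K + 1) + 1) * (N / ℓ ^ (K + 1)) ≤ N / ℓ ^ K := by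
      have : (N : ℝ) / ℓ ^ K = ℓ * (N / ℓ ^ (K + 1)) := by
        rw [pow_succ]
        field_simp
      rw [this]
      exact mul_le_mul_of_nonneg_right hℓK (by positivity)
    linarith

end Pool.Agent.Q138.GS
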