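import Pool.Agent.Q138.GS.FamD

set_option autoImplicit false

/-!
# Prime tuples in progressions with small moduli: the count
-/

namespace Pool.Agent.Q138.GS

open Finset Filter Topology MeasureTheory
open scoped Classical
open Pool.Agent.Y957.VK

theorem tx_zero (k : ℕ) (α β : Fin (k + 1) → ℝ) (x : Ix k) (n : ℕ) (h : ¬ Tx k α β x n) : tx k α β x n = 0 := by
  unfold tx
  by_cases h1 : (n + x.2.2.1) % x.1 = x.2.1
  · rw [if_pos h1]
    by_cases h2 : (n + x.2.2.1).Prime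
    · have h3 : ¬ ∀ i, (⌊α i * ((n + x.2.2.2 i : ℕ) : ℝ) + β i⌋₊).Prime := fun h4 => h ⟨h2, h1, h4⟩
      rw [not_forall] at h3
      obtain ⟨i, hi⟩ := h3
      have h5 : ∏ i, tr ⌊α i * ((n + x.2.2.2 i : ℕ) : ℝ) + β i⌋₊ = 0 := prod_eq_zero (mem_univ i) (by
        unfold tr
        rw [if_neg hi])
      rw [h5, mul_zero]
    · unfold tr
      rw [if_neg h2, zero_mul]
  · rw [if_neg h1, zero_mul]

/-- the weights are close to the counts -/
theorem tx_near (k : ℕ) (α β : Fin (k + 1) → ℝ) (hα : ∀ i, 0 < α i) (B K : ℕ) : ∀ᶠ N : ℕ in atTop,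
    ∀ x ∈ Xs k B N, ∑ n ∈ Icc 1 N, |hd k α n * tx k α β x n - if Tx k α β x n then (1 : ℝ) else 0| ≤
      N / (Real.log N) ^ K := by
  choose Cv hCv0 nv hnv1 hv using fun i => val_log3 (α i) (β i) (hα i)
  obtain ⟨C0, hC00, n0, hn01, h0⟩ := val_log3 1 0 one_pos
  set Cm : ℝ := C0 + ∑ i, Cv i + 1 with hCm
  have hCmi : ∀ i, Cv i ≤ Cm := by
    intro i
    have : Cv i ≤ ∑ i, Cv i := single_le_sum (f := Cv) (fun i _ => hCv0 i) (mem_univ i)
    linarith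
  have hCs : 0 ≤ ∑ i, Cv i := sum_nonneg fun i _ => hCv0 i
  have hCm0 : C0 ≤ Cm := by linarith
  have hCm1 : 1 ≤ Cm := by linarith
  set nm : ℕ := n0 + ∑ i, nv i with hnm
  have hnmi : ∀ i, nv i ≤ nm := fun i =>
    (single_le_sum (f := nv) (fun i _ => Nat.zero_le _) (mem_univ i)).trans (by omega)
  have hsqt : Tendsto (fun N : ℕ => Real.sqrt (N : ℝ)) atTop atTop :=
    Real.tendsto_sqrt_atTop.comp tendsto_natCast_atTop_atTop
  have hlogt : Tendsto (fun N : ℕ => Real.log (N : ℝ)) atTop atTop :=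
    Real.tendsto_log_atTop.comp tendsto_natCast_atTop_atTop
  filter_upwards [tx_le k α β hα B, hsqt.eventually_ge_atTop ((nm : ℝ) + 5), hlogt.eventually_ge_atTop 1,
    sq_small (2 * Cm) (by positivity) B, sq_small (2 * (2 ^ (k + 2) + 1)) (by positivity) (k + 2 + K),
    sq_small (2 * (3 ^ (k + 2) * (2 * Cm))) (by positivity) (B + K)] with N h1 h2 hl1 h4 h5 h6 x hx
  obtain ⟨hx1, hx2, hx3, hx4⟩ := mem_Xs.1 hx
  set ℓ := Real.log N with hℓ
  have hℓ0 : 0 < ℓ := by linarith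
  have hnm0 : (0 : ℝ) ≤ nm := Nat.cast_nonneg nm
  have hsq5 : 5 ≤ Real.sqrt N := by linarith
  have hs0 : 0 < Real.sqrt N := by linarith
  have hN0 : (0 : ℝ) < N := by
    by_contra hcon
    rw [Real.sqrt_eq_zero_of_nonpos (not_lt.1 hcon)] at hsq5
    linarith
  have hsqN : Real.sqrt N * Real.sqrt N = N := Real.mul_self_sqrt hN0.le
  have hL : (LL B N : ℝ) ≤ ℓ ^ B := Nat.floor_le (by positivity)
  have hℓB : (1 : ℝ) ≤ ℓ ^ B := one_le_pow₀ hl1
  have hlB : 2 * Cm * ℓ ^ B ≤ Real.sqrt N := by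
    have e : 2 * Cm * Real.sqrt N * ℓ ^ B = Real.sqrt N * (2 * Cm * ℓ ^ B) := by ring
    rw [e] at h4
    nlinarith
  set δ : ℝ := 2 * Cm * ℓ ^ B / Real.sqrt N with hδ
  have hδ0 : 0 ≤ δ := by positivity
  have hδ1 : δ ≤ 1 := by
    rw [hδ, div_le_one hs0]
    exact hlB
  -- the ratios
  have hrat : ∀ (a b C : ℝ) (hC : C ≤ Cm) (n s : ℕ), Real.sqrt N < n → s ≤ LL B N → 0 ≤ C →
      (3 ≤ a * n ∧ |Real.log (⌊a * ((n : ℝ) + s) + b⌋₊ : ℕ) - Real.log (a * n)| ≤ C * ((s : ℝ) + 1) / n) →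
      |Real.log (⌊a * ((n + s : ℕ) : ℝ) + b⌋₊ : ℕ) / Lm (a * n) - 1| ≤ δ := by
    intro a b C hC n s hsn hs hC0 ⟨h7, h8⟩
    have hLp : 0 < Lm (a * n) := by linarith [Lm_ge (a * n)]
    rw [div_sub_one hLp.ne', abs_div, abs_of_pos hLp, div_le_iff₀ hLp]
    have e : ((n + s : ℕ) : ℝ) = (n : ℝ) + s := by push_cast; ring
    rw [e, Lm_eq h7]
    have hsr : (s : ℝ) ≤ ℓ ^ B := by
      have : (s : ℝ) ≤ LL B N := by exact_mod_cast hs
      linarith
    have hn0 : 0 < (n : ℝ) := by linarith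
    refine h8.trans ?_
    have h9 : C * ((s : ℝ) + 1) / n ≤ δ := by
      rw [hδ, div_le_div_iff₀ hn0 hs0]
      have hs1 : (0 : ℝ) ≤ (s : ℝ) + 1 := by positivity
      calc C * ((s : ℝ) + 1) * Real.sqrt N ≤ Cm * (ℓ ^ B + ℓ ^ B) * n := by gcongr
        _ = 2 * Cm * ℓ ^ B * n := by ring
    have h10 : 1 ≤ Real.log (a * n) := by
      rw [← Lm_eq h7]
      exact Lm_ge _
    nlinarith
  have hnear : ∀ n ∈ Icc 1 N, Real.sqrt N < n →
      |hd k α n * tx k α β x n - if Tx k α β x n then (1 : ℝ) else 0| ≤ 3 ^ (k + 2) * δ := by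
    intro n hn hsn
    by_cases hT : Tx k α β x n
    · rw [if_pos hT]
      have hCn : ∀ (C : ℝ) (s : ℕ), C ≤ Cm → 0 ≤ C → s ≤ LL B N → C * ((s : ℝ) + 1) ≤ n := by
        intro C s hC hC0 hs
        have hsr : (s : ℝ) ≤ ℓ ^ B := by
          have : (s : ℝ) ≤ LL B N := by exact_mod_cast hs
          linarith
        calc C * ((s : ℝ) + 1) ≤ Cm * (ℓ ^ B + ℓ ^ B) := by gcongr
          _ = 2 * Cm * ℓ ^ B := by ring
          _ ≤ n := by linarith
      have hnmn : nm ≤ n := by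
        have : (nm : ℝ) ≤ n := by linarith
        exact_mod_cast this
      have hq0 : |Real.log ((n + x.2.2.1 : ℕ) : ℝ) / Lm n - 1| ≤ δ := by
        have h7 := hrat 1 0 C0 hCm0 n x.2.2.1 hsn hx3 hC00
          (h0 n (by omega) x.2.2.1 (Nat.cast_nonneg _) (hCn C0 x.2.2.1 hCm0 hC00 hx3))
        have e : ⌊(1 : ℝ) * ((n + x.2.2.1 : ℕ) : ℝ) + 0⌋₊ = n + x.2.2.1 := by
          rw [one_mul, add_zero, Nat.floor_natCast]
        rw [e, one_mul] at h7
        exact h7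
      have hqi : ∀ i, |Real.log (⌊α i * ((n + x.2.2.2 i : ℕ) : ℝ) + β i⌋₊ : ℕ) / Lm (α i * n) - 1| ≤ δ :=
        fun i => hrat (α i) (β i) (Cv i) (hCmi i) n (x.2.2.2 i) hsn (hx4 i) (hCv0 i)
          (hv i n ((hnmi i).trans hnmn) (x.2.2.2 i) (Nat.cast_nonneg _)
            (hCn (Cv i) (x.2.2.2 i) (hCmi i) (hCv0 i) (hx4 i)))
      have hpn := prod_near univ (fun i => Real.log (⌊α i * ((n + x.2.2.2 i : ℕ) : ℝ) + β i⌋₊ : ℕ) / Lm (α i * n))
        δ hδ0 hδ1 fun i _ => hqi i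
      rw [card_univ, Fintype.card_fin] at hpn
      have e1 : hd k α n * tx k α β x n = (Real.log ((n + x.2.2.1 : ℕ) : ℝ) / Lm n) *
          ∏ i, (Real.log (⌊α i * ((n + x.2.2.2 i : ℕ) : ℝ) + β i⌋₊ : ℕ) / Lm (α i * n)) := by
        unfold hd tx
        rw [if_pos hT.2.1]
        have e2 : tr (n + x.2.2.1) = Real.log ((n + x.2.2.1 : ℕ) : ℝ) := by
          unfold tr
          rw [if_pos hT.1]
        have e3 : ∏ i, tr ⌊α i * ((n + x.2.2.2 i : ℕ) : ℝ) + β i⌋₊ =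
            ∏ i, Real.log (⌊α i * ((n + x.2.2.2 i : ℕ) : ℝ) + β i⌋₊ : ℕ) := prod_congr rfl fun i _ => by
          unfold tr
          rw [if_pos (hT.2.2 i)]
        rw [e2, e3, prod_div_distrib, div_mul_div_comm, one_div_mul_eq_div]
      rw [e1]
      set q0 := Real.log ((n + x.2.2.1 : ℕ) : ℝ) / Lm n with hq0d
      set Pi := ∏ i, (Real.log (⌊α i * ((n + x.2.2.2 i : ℕ) : ℝ) + β i⌋₊ : ℕ) / Lm (α i * n)) with hPi
      have e : q0 * Pi - 1 = q0 * (Pi - 1) + (q0 - 1) := by ring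
      rw [e]
      refine (abs_add_le _ _).trans ?_
      rw [abs_mul]
      have h3 : |q0| ≤ 2 := by
        have := abs_sub_abs_le_abs_sub q0 1
        rw [abs_one] at this
        linarith
      have h4 : |q0| * |Pi - 1| ≤ 2 * (3 ^ (k + 1) * δ) := mul_le_mul h3 hpn (abs_nonneg _) (by norm_num)
      have h5 : (1 : ℝ) ≤ 3 ^ (k + 1) := one_le_pow₀ (by norm_num)
      rw [pow_succ 3 (k + 1)]
      nlinarith
    · rw [tx_zero k α β x n hT, if_neg hT, mul_zero, sub_zero, abs_zero]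
      positivity
  have hgen : ∀ n ∈ Icc 1 N, |hd k α n * tx k α β x n - if Tx k α β x n then (1 : ℝ) else 0| ≤
      (2 * ℓ) ^ (k + 2) + 1 := by
    intro n hn
    have h7 := h1 x hx n (mem_Icc.1 hn).1 (mem_Icc.1 hn).2
    have h8 := tx_nonneg k α β x n
    have h9 := hd_pos k α n
    have h10 := hd_le_one k α n
    have h11 : hd k α n * tx k α β x n ≤ (2 * ℓ) ^ (k + 2) := by nlinarith
    have h12 : 0 ≤ hd k α n * tx k α β x n := by positivity
    rw [abs_le]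
    split_ifs
    · constructor
      · have : (0 : ℝ) ≤ (2 * ℓ) ^ (k + 2) := by positivity
        linarith
      · linarith
    · constructor
      · have : (0 : ℝ) ≤ (2 * ℓ) ^ (k + 2) := by positivity
        linarith
      · linarith
  have hall : ∀ n ∈ Icc 1 N, |hd k α n * tx k α β x n - if Tx k α β x n then (1 : ℝ) else 0| ≤
      (if (n : ℝ) ≤ Real.sqrt N then (2 * ℓ) ^ (k + 2) + 1 else 0) + 3 ^ (k + 2) * δ := by
    intro n hn
    by_cases hs : (n : ℝ) ≤ Real.sqrt N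
    · rw [if_pos hs]
      have : (0 : ℝ) ≤ 3 ^ (k + 2) * δ := by positivity
      linarith [hgen n hn]
    · rw [if_neg hs, zero_add]
      exact hnear n hn (not_le.1 hs)
  refine (sum_le_sum hall).trans ?_
  rw [sum_add_distrib, sum_const, Nat.card_Icc, Nat.add_sub_cancel, nsmul_eq_mul]
  have h7 : ∑ n ∈ Icc 1 N, (if (n : ℝ) ≤ Real.sqrt N then (2 * ℓ) ^ (k + 2) + 1 else 0) ≤
      Real.sqrt N * ((2 * ℓ) ^ (k + 2) + 1) := by
    rw [← sum_filter, sum_const, nsmul_eq_mul]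
    refine mul_le_mul_of_nonneg_right ?_ (by positivity)
    have h6 : ((Icc 1 N).filter (fun n : ℕ => (n : ℝ) ≤ Real.sqrt N)).card ≤ ⌊Real.sqrt N⌋₊ := by
      have h7 : (Icc 1 N).filter (fun n : ℕ => (n : ℝ) ≤ Real.sqrt N) ⊆ Icc 1 ⌊Real.sqrt N⌋₊ := by
        intro n hn
        obtain ⟨h8, h9⟩ := mem_filter.1 hn
        exact mem_Icc.2 ⟨(mem_Icc.1 h8).1, Nat.le_floor h9⟩
      simpa using card_le_card h7
    calc (((Icc 1 N).filter (fun n : ℕ => (n : ℝ) ≤ Real.sqrt N)).card : ℝ) ≤ ⌊Real.sqrt N⌋₊ := by exact_mod_cast h6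
      _ ≤ _ := Nat.floor_le (Real.sqrt_nonneg _)
  have h8 : Real.sqrt N * ((2 * ℓ) ^ (k + 2) + 1) ≤ N / ℓ ^ K / 2 := by
    rw [div_div, le_div_iff₀ (by positivity)]
    have h9 : (1 : ℝ) ≤ ℓ ^ (k + 2) := one_le_pow₀ hl1
    calc Real.sqrt N * ((2 * ℓ) ^ (k + 2) + 1) * (ℓ ^ K * 2)
        ≤ Real.sqrt N * (2 ^ (k + 2) * ℓ ^ (k + 2) + ℓ ^ (k + 2)) * (ℓ ^ K * 2) := by
          rw [mul_pow]
          gcongr
      _ = 2 * (2 ^ (k + 2) + 1) * Real.sqrt N * ℓ ^ (k + 2 + K) := by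
          rw [pow_add ℓ (k + 2) K]
          ring
      _ ≤ N := h5
  have h9 : (N : ℝ) * (3 ^ (k + 2) * δ) ≤ N / ℓ ^ K / 2 := by
    rw [div_div, le_div_iff₀ (by positivity)]
    have e : (N : ℝ) * (3 ^ (k + 2) * δ) * (ℓ ^ K * 2) = 2 * (3 ^ (k + 2) * (2 * Cm)) * Real.sqrt N * ℓ ^ (B + K) := by
      have e1 : (N : ℝ) * δ = 2 * Cm * ℓ ^ B * Real.sqrt N := by
        rw [hδ, ← mul_div_assoc, div_eq_iff hs0.ne']
        calc (N : ℝ) * (2 * Cm * ℓ ^ B) = (Real.sqrt N * Real.sqrt N) * (2 * Cm * ℓ ^ B) := by rw [hsqN]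
          _ = _ := by ring
      calc (N : ℝ) * (3 ^ (k + 2) * δ) * (ℓ ^ K * 2) = 3 ^ (k + 2) * (N * δ) * (ℓ ^ K * 2) := by ring
        _ = _ := by
            rw [e1, pow_add]
            ring
    rw [e]
    exact h6
  linarith

/-- **prime tuples in progressions with small moduli, uniformly in the shifts** -/
theorem tx_count (k : ℕ) (β : Fin (k + 1) → ℝ) : ∀ᵐ α ∂(pm (k + 1)), ∀ B K : ℕ, ∀ᶠ N : ℕ in atTop,
    ∀ x ∈ Xs k B N, 1 ≤ x.1 → x.2.1 < x.1 → x.2.1.Coprime x.1 →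
      |ct (Tx k α β x) N - 1 / (x.1.totient : ℝ) * ∑ n ∈ Icc 1 N, hd k α n| ≤ N / (Real.log N) ^ K := by
  filter_upwards [tx_partial k β, pm_pos (k + 1)] with α hα hpos B K
  have hlogt : Tendsto (fun N : ℕ => Real.log (N : ℝ)) atTop atTop :=
    Real.tendsto_log_atTop.comp tendsto_natCast_atTop_atTop
  filter_upwards [hα B (K + 1), tx_near k α β hpos B (K + 1), eventually_ge_atTop 1, hlogt.eventually_ge_atTop 2] with
    N h1 h2 hN1 hl x hx hq ha hcop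
  have hN0 : (0 : ℝ) < N := by exact_mod_cast hN1
  have h3 := count_abel (Tx k α β x) (tx k α β x) (hd k α) (fun n => (hd_pos k α n).le)
    (fun n _ => hd_anti k α hpos n) (hd_le_one k α 1) (1 / (x.1.totient : ℝ)) N hN1 _ _
    (h1 x hx hq ha hcop) (h2 x hx)
  refine h3.trans ?_
  have hl0 : 0 < Real.log N := by linarith
  have e : (N : ℝ) / (Real.log N) ^ K = Real.log N * (N / (Real.log N) ^ (K + 1)) := by
    rw [pow_succ]
    field_simp
  rw [e]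
  have : 0 < (N : ℝ) / (Real.log N) ^ (K + 1) := by positivity
  nlinarith

end Pool.Agent.Q138.GS
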