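import Pool.Agent.Q138.GS.Tup

set_option autoImplicit false

/-!
# Almost every tuple of real polynomials
-/

namespace Pool.Agent.Q138.GS

open Finset Filter Topology MeasureTheory
open scoped Classical
open Pool.Agent.Y957.VK

/-- the value at `n` of the real polynomial with leading coefficient `a` and lower coefficients `e` -/
noncomputable def qv {d : ℕ} (a : ℝ) (e : Fin d → ℝ) (n : ℕ) : ℝ :=
  a * (n : ℝ) ^ d + ∑ j, e j * (n : ℝ) ^ (j : ℕ)

/-- the polynomial -/
noncomputable def qp {d : ℕ} (a : ℝ) (e : Fin d → ℝ) : Polynomial ℝ :=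
  Polynomial.C a * Polynomial.X ^ d + ∑ j, Polynomial.C (e j) * Polynomial.X ^ (j : ℕ)

theorem qp_eval {d : ℕ} (a : ℝ) (e : Fin d → ℝ) (n : ℕ) : (qp a e).eval (n : ℝ) = qv a e n := by
  unfold qp qv
  rw [Polynomial.eval_add, Polynomial.eval_finsetSum]
  simp

theorem qp_deg_aux {d : ℕ} (e : Fin d → ℝ) :
    (∑ j, Polynomial.C (e j) * Polynomial.X ^ (j : ℕ) : Polynomial ℝ).degree < d := by
  refine (Polynomial.degree_sum_le _ _).trans_lt ?_
  rw [Finset.sup_lt_iff (by exact_mod_cast WithBot.bot_lt_coe d)]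
  intro j _
  refine (Polynomial.degree_C_mul_X_pow_le _ _).trans_lt ?_
  exact_mod_cast j.2

theorem qp_deg {d : ℕ} {a : ℝ} (ha : a ≠ 0) (e : Fin d → ℝ) :
    (qp a e).natDegree = d ∧ (qp a e).leadingCoeff = a := by
  have h1 : (Polynomial.C a * Polynomial.X ^ d : Polynomial ℝ).degree = d := Polynomial.degree_C_mul_X_pow d ha
  have h2 := qp_deg_aux e
  constructor
  · rw [qp, Polynomial.natDegree_eq_of_degree_eq_some]
    rw [Polynomial.degree_add_eq_left_of_degree_lt (by rw [h1]; exact h2), h1]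
  · rw [qp, Polynomial.leadingCoeff_add_of_degree_lt' (by rw [h1]; exact h2)]
    simp

theorem qv_sm {d : ℕ} (hd : 1 ≤ d) {a : ℝ} (ha : 0 < a) (e : Fin d → ℝ) : Sm (d : ℝ) fun n => qv a e n := by
  obtain ⟨h1, h2⟩ := qp_deg ha.ne' e
  have h3 := sm_pol (P := qp a e) (by rw [h1]; exact hd) (by rw [h2]; exact ha)
  rw [h1] at h3
  simp only [qp_eval] at h3
  exact h3

theorem qv_mul {d : ℕ} (a : ℝ) (e : Fin d → ℝ) (n : ℕ) : a * qv 1 e n = qv a (fun j => a * e j) n := by
  unfold qv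
  rw [mul_add, one_mul, mul_sum]
  congr 1
  exact sum_congr rfl fun j _ => by ring

variable {k : ℕ} (d : Fin k → ℕ)

/-- scaling of the lower coefficients -/
noncomputable def scE (α : Fin k → ℝ) (hα : ∀ i, α i ≠ 0) :
    (∀ i, Fin (d i) → ℝ) ≃L[ℝ] (∀ i, Fin (d i) → ℝ) :=
  (LinearEquiv.piCongrRight fun i => LinearEquiv.smulOfNeZero ℝ (Fin (d i) → ℝ) (α i) (hα i)).toContinuousLinearEquiv

theorem scE_apply (α : Fin k → ℝ) (hα : ∀ i, α i ≠ 0) (e : ∀ i, Fin (d i) → ℝ) :
    scE d α hα e = fun i j => α i * e i j := by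
  funext i j
  simp [scE]

/-- **from fixed shapes and almost all dilations to almost all polynomials** -/
theorem ae_poly (R : Set ((Fin k → ℝ) × (∀ i, Fin (d i) → ℝ))) (hR : MeasurableSet R)
    (h : ∀ e : ∀ i, Fin (d i) → ℝ, ∀ᵐ α ∂(pm k), (α, fun i j => α i * e i j) ∈ R) :
    ∀ᵐ x : (Fin k → ℝ) × (∀ i, Fin (d i) → ℝ), (∀ i, 0 < x.1 i) → x ∈ R := by
  set A : Set ((Fin k → ℝ) × (∀ i, Fin (d i) → ℝ)) := {x | ∀ i, 0 < x.1 i} with hA
  have hAm : MeasurableSet A := by
    have : A = Prod.fst ⁻¹' {α : Fin k → ℝ | ∀ i, 0 < α i} := rfl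
    rw [this]
    exact measurable_fst (pos_meas k)
  set T : (Fin k → ℝ) × (∀ i, Fin (d i) → ℝ) → (Fin k → ℝ) × (∀ i, Fin (d i) → ℝ) :=
    fun x => (x.1, fun i j => x.1 i * x.2 i j) with hT
  have hTm : Measurable T := by
    refine Measurable.prodMk measurable_fst ?_
    refine measurable_pi_lambda _ fun i => measurable_pi_lambda _ fun j => ?_
    refine Measurable.mul ?_ ?_
    · exact (measurable_pi_apply i).comp measurable_fst
    · exact (measurable_pi_apply j).comp ((measurable_pi_apply i).comp measurable_snd)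
  set Bad := A ∩ Rᶜ with hBad
  have hBm : MeasurableSet Bad := hAm.inter hR.compl
  set Bad' := T ⁻¹' Bad with hBad'
  have hBm' : MeasurableSet Bad' := hTm hBm
  -- the set Bad' is null
  have h0 : ((volume : Measure (Fin k → ℝ)).prod (volume : Measure (∀ i, Fin (d i) → ℝ))) Bad' = 0 := by
    rw [← Measure.prod_swap, Measure.map_apply measurable_swap hBm']
    rw [Measure.measure_prod_null (measurable_swap hBm')]
    refine Eventually.of_forall fun e => ?_
    have h1 := h e
    unfold pm at h1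
    rw [ae_restrict_iff' (pos_meas k), ae_iff] at h1
    refine measure_mono_null ?_ h1
    intro α hα
    simp only [Set.mem_preimage, hBad', hBad, Prod.swap_prod_mk, hT, Set.mem_inter_iff, hA, Set.mem_compl_iff] at hα
    simp only [Set.mem_ofPred_eq, Classical.not_imp]
    exact hα
  have h1 := (Measure.measure_prod_null hBm').1 h0
  have h2 : ((volume : Measure (Fin k → ℝ)).prod (volume : Measure (∀ i, Fin (d i) → ℝ))) Bad = 0 := by
    rw [Measure.measure_prod_null hBm]
    filter_upwards [h1] with α hα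
    by_cases hpos : ∀ i, 0 < α i
    · have hne : ∀ i, α i ≠ 0 := fun i => (hpos i).ne'
      set L := scE d α hne with hL
      have e1 : Prod.mk α ⁻¹' Bad' = L ⁻¹' (Prod.mk α ⁻¹' Bad) := by
        ext e
        simp only [Set.mem_preimage, hBad', hT]
        rw [hL, scE_apply]
      have e2 : Prod.mk α ⁻¹' Bad = L.symm ⁻¹' (L ⁻¹' (Prod.mk α ⁻¹' Bad)) := by
        ext e
        simp only [Set.mem_preimage, ContinuousLinearEquiv.apply_symm_apply]
      simp only [Pi.zero_apply] at hα ⊢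
      rw [e1] at hα
      rw [e2, Measure.addHaar_preimage_continuousLinearEquiv, hα, mul_zero]
    · have e1 : Prod.mk α ⁻¹' Bad = ∅ := by
        ext e
        simp only [Set.mem_preimage, Set.mem_empty_iff_false, iff_false, hBad, Set.mem_inter_iff, hA]
        exact fun h3 => hpos h3.1
      simp [e1]
  rw [ae_iff]
  refine measure_mono_null ?_ h2
  intro x hx
  simp only [Set.mem_ofPred_eq, Classical.not_imp] at hx
  exact hx

/-- measurability -/
theorem sav_meas {Ω : Type*} [MeasurableSpace Ω] (a : Ω → ℕ → ℂ) (ha : ∀ n, Measurable fun ω => a ω n) :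
    MeasurableSet {ω | Sav (a ω)} := by
  have e : {ω | Sav (a ω)} = ⋂ K : ℕ, {ω | Tendsto (fun N : ℕ => (Real.log N) ^ K / N * ‖∑ n ∈ Icc 1 N, a ω n‖)
      atTop (𝓝 0)} := by
    ext ω
    simp [Sav]
  rw [e]
  refine MeasurableSet.iInter fun K => ?_
  refine measurableSet_tendsto (𝓝 0) fun N => ?_
  exact (Finset.measurable_fun_sum _ fun n _ => ha n).norm.const_mul _

/-- **almost every tuple of real polynomials: weighted form** -/
theorem poly_sav (k : ℕ) (d : Fin (k + 1) → ℕ) (hd : ∀ i, 1 ≤ d i) (F f : Fin (k + 1) → ℕ → ℂ)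
    (c0 : Fin (k + 1) → ℂ) (hFf : ∀ i n, F i n = c0 i + f i n) (hF : ∀ i (n : ℕ), ‖F i n‖ ≤ Real.log (n + 3))
    (hf : ∀ i (n : ℕ), ‖f i n‖ ≤ Real.log (n + 3)) (hN : ∀ i, Neg (f i)) (g : ℕ → ℂ) (C0 : ℝ) (B : ℕ)
    (hg : ∀ n : ℕ, 1 ≤ n → ‖g n‖ ≤ C0 * (Real.log (n + 3)) ^ B) :
    ∀ᵐ x : (Fin (k + 1) → ℝ) × (∀ i, Fin (d i) → ℝ), (∀ i, 0 < x.1 i) →
      Sav fun n => g n * (∏ i, F i ⌊qv (x.1 i) (x.2 i) n⌋₊ - ∏ i, c0 i) := by
  refine ae_poly d {x | Sav fun n => g n * (∏ i, F i ⌊qv (x.1 i) (x.2 i) n⌋₊ - ∏ i, c0 i)} ?_ fun e => ?_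
  · refine sav_meas _ fun n => ?_
    refine Measurable.const_mul (Measurable.sub_const ?_ _) _
    refine Finset.measurable_fun_prod _ fun i _ => ?_
    refine fl_meas (F i) ?_
    unfold qv
    refine Measurable.add ?_ ?_
    · exact ((measurable_pi_apply i).comp measurable_fst).mul_const _
    · refine Finset.measurable_fun_sum _ fun j _ => ?_
      exact ((measurable_pi_apply j).comp ((measurable_pi_apply i).comp measurable_snd)).mul_const _
  · have hS : ∀ i, Sm (d i : ℝ) fun n => qv 1 (e i) n := fun i => qv_sm (hd i) one_pos (e i)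
    choose A' C1 hC1 hbd using fun i => (hS i).bd
    have h := prod_sav k F f c0 hFf hF hf (fun i n => qv 1 (e i) n) A' C1 hbd (fun _ => 0)
      (fun i => (hS i).un (f i) (hf i) (hN i) 0) g C0 B hg
    unfold pm
    filter_upwards [h] with α hα
    refine hα.congr fun n _ => ?_
    simp only [add_zero, qv_mul]

end Pool.Agent.Q138.GS
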