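import Pool.Agent.Q138.GS.Abel

set_option autoImplicit false

/-!
# The range of the window
-/

namespace Pool.Agent.Q138.GS

open Finset MeasureTheory Filter FourierTransform
open scoped ENNReal
open Pool.Agent.Y957.VK
open Pool.Agent.H376R2.MR (er)
open Pool.Agent.Y957.AD (er_norm er_add)

theorem pw (C : ℝ) (j : ℕ) {ε : ℝ} (hε : 0 < ε) : ∀ᶠ N : ℕ in atTop, C * (Real.log N) ^ j ≤ (N : ℝ) ^ ε := by
  have h1 := isLittleO_log_rpow_rpow_atTop (s := ε) (j : ℝ) hε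
  have h2 := (h1.const_mul_left C).bound (c := 1) one_pos
  have h3 := tendsto_natCast_atTop_atTop (R := ℝ) |>.eventually h2
  filter_upwards [h3, eventually_ge_atTop 1] with N hN h1N
  rw [Real.rpow_natCast, one_mul, Real.norm_eq_abs, Real.norm_eq_abs] at hN
  have h4 : 0 ≤ (N : ℝ) ^ ε := by positivity
  rw [abs_of_nonneg h4] at hN
  exact (le_abs_self _).trans hN

theorem lg1 : ∀ᶠ N : ℕ in atTop, 1 ≤ Real.log N :=
  (Real.tendsto_log_atTop.comp (tendsto_natCast_atTop_atTop (R := ℝ))).eventually_ge_atTop 1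

/-- lower end of the window -/
noncomputable def lo (b β c : ℝ) (K N : ℕ) : ℕ := ⌊Real.exp b * ((N : ℝ) / (Real.log N) ^ K) ^ c + β⌋₊

/-- upper end of the window -/
noncomputable def hi (b β c : ℝ) (N : ℕ) : ℕ := ⌊Real.exp (b + 1) * (N : ℝ) ^ c + β⌋₊

theorem geo (b β c : ℝ) (hc : 0 < c) (K q : ℕ) (hq : c ≤ q) : ∀ᶠ N : ℕ in atTop,
    1 ≤ Real.log N ∧ 2 * (|β| + 1) ≤ (lo b β c K N : ℝ) ∧ Real.exp b ≤ lo b β c K N - β ∧
    ((N : ℝ) ^ (c / 4)) ^ 2 + 1 ≤ lo b β c K N ∧ (hi b β c N : ℝ) ≤ Real.exp (b + 2) * (N : ℝ) ^ c ∧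
    (hi b β c N : ℝ) + 1 - β ≤ Real.exp (b + 2) * (N : ℝ) ^ c ∧
    (hi b β c N : ℝ) ≤ 2 * Real.exp 2 * (Real.log N) ^ (q * K) * lo b β c K N ∧ lo b β c K N ≤ hi b β c N := by
  set A : ℝ := 4 * Real.exp (-b) + 2 * (|β| + 1) + Real.exp b + 1 with hA
  have hb := Real.exp_pos b
  have hb' := Real.exp_pos (-b)
  have hβ := abs_nonneg β
  have hβ1 := neg_abs_le β
  have hβ2 := le_abs_self β
  have hc4 : 0 < c / 4 := by positivity
  filter_upwards [lg1, pw 1 (q * K) hc4, pw A 0 hc4, eventually_ge_atTop 1] with N hl h1 h2 hN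
  set ℓ := Real.log N with hℓ
  set Y : ℝ := (N : ℝ) ^ (c / 4) with hY
  rw [pow_zero, mul_one] at h2
  rw [one_mul] at h1
  have hN0 : (0 : ℝ) < N := by exact_mod_cast hN
  have hN1 : (1 : ℝ) ≤ N := by exact_mod_cast hN
  have hY4 : (N : ℝ) ^ c = Y ^ 4 := by
    rw [hY, ← Real.rpow_natCast, ← Real.rpow_mul hN0.le]
    congr 1
    push_cast
    ring
  have hY1 : 1 ≤ Y := by linarith
  have hY0 : 0 < Y := by linarith
  have hlK : 1 ≤ ℓ ^ K := one_le_pow₀ hl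
  have hlKq : 1 ≤ ℓ ^ (q * K) := one_le_pow₀ hl
  have hM0 : 0 < (N : ℝ) / ℓ ^ K := by positivity
  -- lower bound for `M0^c`
  have h3 : (N : ℝ) ^ c ≤ ℓ ^ (q * K) * ((N : ℝ) / ℓ ^ K) ^ c := by
    rw [Real.div_rpow hN0.le (by positivity)]
    have h4 : (ℓ ^ K) ^ c ≤ ℓ ^ (q * K) := by
      calc (ℓ ^ K) ^ c ≤ (ℓ ^ K) ^ (q : ℝ) := Real.rpow_le_rpow_of_exponent_le hlK hq
        _ = ℓ ^ (q * K) := by
          rw [Real.rpow_natCast, ← pow_mul, mul_comm]
    have h5 : 0 < (ℓ ^ K) ^ c := by positivity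
    rw [mul_div_assoc', le_div_iff₀ h5, mul_comm]
    exact mul_le_mul_of_nonneg_right h4 (by positivity)
  set Z : ℝ := ((N : ℝ) / ℓ ^ K) ^ c with hZ
  have hZ0 : 0 < Z := by positivity
  have hZ3 : Y ^ 3 ≤ Z := by
    have h4 : Y ^ 4 ≤ Y * Z := by
      rw [← hY4]
      exact h3.trans (mul_le_mul_of_nonneg_right h1 hZ0.le)
    have h5 : Y * Y ^ 3 ≤ Y * Z := by
      calc Y * Y ^ 3 = Y ^ 4 := by ring
        _ ≤ _ := h4
    exact le_of_mul_le_mul_left h5 hY0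
  have hexb : Real.exp b * Real.exp (-b) = 1 := by rw [← Real.exp_add]; simp
  have hx0 : 2 * Y ^ 2 ≤ Real.exp b * Z / 2 := by
    have h6 : 4 * Real.exp (-b) ≤ Y := by linarith
    have h7 : 4 ≤ Real.exp b * Y := by
      have := mul_le_mul_of_nonneg_left h6 hb.le
      have e : Real.exp b * (4 * Real.exp (-b)) = 4 * (Real.exp b * Real.exp (-b)) := by ring
      rw [e, hexb] at this
      linarith
    have h8 : Real.exp b * Y ^ 3 ≤ Real.exp b * Z := mul_le_mul_of_nonneg_left hZ3 hb.le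
    have h9 : 4 * Y ^ 2 ≤ Real.exp b * Y * Y ^ 2 := mul_le_mul_of_nonneg_right h7 (by positivity)
    have e : Real.exp b * Y * Y ^ 2 = Real.exp b * Y ^ 3 := by ring
    rw [e] at h9
    linarith
  have hY2 : Y ≤ Y ^ 2 := by nlinarith
  have hlo1 : Real.exp b * Z + β - 1 ≤ lo b β c K N := by
    unfold lo
    rw [← hℓ, ← hZ]
    have := Nat.lt_floor_add_one (Real.exp b * Z + β)
    linarith
  have hlo2 : Real.exp b * Z / 2 ≤ lo b β c K N := by linarith
  have hlo3 : Y ^ 2 + 1 ≤ lo b β c K N := by linarith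
  have hNc : 1 ≤ (N : ℝ) ^ c := Real.one_le_rpow hN1 hc.le
  have hpos : 0 ≤ Real.exp (b + 1) * (N : ℝ) ^ c + β := by
    have : |β| ≤ Real.exp b * Z / 2 := by linarith
    have h10 : Z ≤ (N : ℝ) ^ c := Real.rpow_le_rpow hM0.le (div_le_self hN0.le hlK) hc.le
    have h11 : Real.exp b ≤ Real.exp (b + 1) := Real.exp_le_exp.2 (by linarith)
    have h12 : Real.exp b * Z ≤ Real.exp (b + 1) * (N : ℝ) ^ c :=
      mul_le_mul h11 h10 hZ0.le (by positivity)
    linarith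
  have hhi1 : (hi b β c N : ℝ) ≤ Real.exp (b + 1) * (N : ℝ) ^ c + β := by
    unfold hi
    exact Nat.floor_le hpos
  have he2 : Real.exp (b + 2) = Real.exp (b + 1) * Real.exp 1 := by
    rw [← Real.exp_add]
    congr 1
    ring
  have he1 := Real.add_one_le_exp (1 : ℝ)
  have heb1 : Real.exp b ≤ Real.exp (b + 1) := Real.exp_le_exp.2 (by linarith)
  have hbig : |β| + 1 ≤ Real.exp (b + 1) * (N : ℝ) ^ c := by
    have h10 : Z ≤ (N : ℝ) ^ c := Real.rpow_le_rpow hM0.le (div_le_self hN0.le hlK) hc.le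
    have h12 : Real.exp b * Z ≤ Real.exp (b + 1) * (N : ℝ) ^ c :=
      mul_le_mul heb1 h10 hZ0.le (by positivity)
    have : |β| + 1 ≤ Real.exp b * Z / 2 := by linarith
    linarith
  have hd : 2 * (Real.exp (b + 1) * (N : ℝ) ^ c) ≤ Real.exp (b + 2) * (N : ℝ) ^ c := by
    rw [he2]
    have : 0 < Real.exp (b + 1) * (N : ℝ) ^ c := by positivity
    nlinarith
  refine ⟨hl, by linarith, by linarith, hlo3, by linarith, by linarith, ?_, ?_⟩
  · have h13 : (hi b β c N : ℝ) ≤ Real.exp (b + 2) * (N : ℝ) ^ c := by linarith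
    have h14 : Real.exp (b + 2) = Real.exp 2 * Real.exp b := by
      rw [← Real.exp_add]
      congr 1
      ring
    calc (hi b β c N : ℝ) ≤ Real.exp (b + 2) * (N : ℝ) ^ c := h13
      _ ≤ Real.exp (b + 2) * (ℓ ^ (q * K) * Z) := mul_le_mul_of_nonneg_left h3 (by positivity)
      _ = 2 * Real.exp 2 * ℓ ^ (q * K) * (Real.exp b * Z / 2) := by
          rw [h14]
          ring
      _ ≤ _ := mul_le_mul_of_nonneg_left hlo2 (by positivity)
  · unfold lo hi
    apply Nat.floor_le_floor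
    have h10 : Z ≤ (N : ℝ) ^ c := Real.rpow_le_rpow hM0.le (div_le_self hN0.le hlK) hc.le
    have h12 : Real.exp b * Z ≤ Real.exp (b + 1) * (N : ℝ) ^ c :=
      mul_le_mul heb1 h10 hZ0.le (by positivity)
    linarith

end Pool.Agent.Q138.GS
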