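import Pool.Agent.H469R2.NK.ExpSum

set_option autoImplicit false

/-!
# van der Corput's method for functions whose derivatives behave like those of the logarithm
(after `Pool/Agent/H442R2/EHI/VdC.lean`)
-/

namespace Pool.Agent.Q138.GS

open Finset
open Pool.Agent.H469R2.NK (e norm_e e_add conj_e vdcH kusmin_landau_anti
  norm_sum_neg Av Av_le Cq Cq_pos iterate harm_le)

/-- the derivatives of `φ 0` behave near infinity like those of a multiple of the logarithm -/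
def Reg (φ : ℕ → ℝ → ℝ) : Prop := ∀ r : ℕ, ∃ x0 c C : ℝ, 0 < x0 ∧ 0 < c ∧ ∀ x, x0 ≤ x →
  HasDerivAt (φ r) (φ (r + 1) x) x ∧ c / x ^ (r + 1) ≤ (-1) ^ r * φ (r + 1) x ∧
    (-1) ^ r * φ (r + 1) x ≤ C / x ^ (r + 1)

/-- the same for the first `R` derivatives, with explicit constants -/
def RegU (φ : ℕ → ℝ → ℝ) (R : ℕ) (x0 c C : ℝ) : Prop := ∀ r, r ≤ R → ∀ x, x0 ≤ x →
  HasDerivAt (φ r) (φ (r + 1) x) x ∧ c / x ^ (r + 1) ≤ (-1) ^ r * φ (r + 1) x ∧
    (-1) ^ r * φ (r + 1) x ≤ C / x ^ (r + 1)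

theorem Reg.unif {φ : ℕ → ℝ → ℝ} (h : Reg φ) (R : ℕ) : ∃ x0 c C : ℝ, 0 < x0 ∧ 0 < c ∧ 0 < C ∧
    RegU φ R x0 c C := by
  induction R with
  | zero =>
    obtain ⟨x0, c, C, h0, hc, hx⟩ := h 0
    refine ⟨x0, c, C, h0, hc, ?_, ?_⟩
    · have := hx x0 le_rfl
      have h1 := this.2.1.trans this.2.2
      rw [div_le_div_iff_of_pos_right (by positivity)] at h1
      linarith
    · intro r hr x hxx
      obtain rfl : r = 0 := by omega
      exact hx x hxx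
  | succ R ih =>
    obtain ⟨x0, c, C, h0, hc, hC, hU⟩ := ih
    obtain ⟨x1, c1, C1, h1, hc1, hx1⟩ := h (R + 1)
    refine ⟨max x0 x1, min c c1, max C C1, lt_of_lt_of_le h0 (le_max_left _ _), lt_min hc hc1,
      lt_of_lt_of_le hC (le_max_left _ _), ?_⟩
    intro r hr x hx
    have hxp : 0 < x := lt_of_lt_of_le h0 ((le_max_left _ _).trans hx)
    rcases Nat.lt_or_ge R r with h2 | h2
    · obtain rfl : r = R + 1 := by omega
      obtain ⟨a1, a2, a3⟩ := hx1 x ((le_max_right _ _).trans hx)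
      refine ⟨a1, le_trans ?_ a2, a3.trans ?_⟩
      · exact div_le_div_of_nonneg_right (min_le_right _ _) (by positivity)
      · exact div_le_div_of_nonneg_right (le_max_right _ _) (by positivity)
    · obtain ⟨a1, a2, a3⟩ := hU r h2 x ((le_max_left _ _).trans hx)
      refine ⟨a1, le_trans ?_ a2, a3.trans ?_⟩
      · exact div_le_div_of_nonneg_right (min_le_left _ _) (by positivity)
      · exact div_le_div_of_nonneg_right (le_max_left _ _) (by positivity)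

/-- iterated differences -/
noncomputable def DD (φ : ℕ → ℝ → ℝ) : List ℕ → ℕ → ℝ → ℝ
  | [], r, x => φ r x
  | l :: ls, r, x => DD φ ls r (x + l) - DD φ ls r x

section
variable {φ : ℕ → ℝ → ℝ} {R : ℕ} {x0 c C : ℝ}

lemma hasDerivAt_DD (hU : RegU φ R x0 c C) (ls : List ℕ) {r : ℕ} (hr : r ≤ R) {x : ℝ} (hx : x0 ≤ x) :
    HasDerivAt (DD φ ls r) (DD φ ls (r + 1) x) x := by
  induction ls generalizing x with
  | nil => exact (hU r hr x hx).1
  | cons l ls ih =>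
    have hl : (0 : ℝ) ≤ l := Nat.cast_nonneg l
    have h1 : HasDerivAt (fun y => DD φ ls r (y + l)) (DD φ ls (r + 1) (x + l)) x := by
      have := (ih (x := x + l) (by linarith))
      exact this.comp_add_const x (l : ℝ)
    exact h1.sub (ih hx)

/-- size of the iterated differences -/
lemma DD_bounds (hU : RegU φ R x0 c C) (hc : 0 < c) (hC : 0 < C) (ls : List ℕ) (r : ℕ) (hr : ls.length + r ≤ R)
    {N x : ℝ} (hN : 0 < N) (hN0 : x0 ≤ N) (hx : N ≤ x) (hx2 : x + (ls.sum : ℕ) ≤ 3 * N) :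
    c / (3 * N) ^ (ls.length + r + 1) * (ls.prod : ℕ) ≤ (-1) ^ (ls.length + r) * DD φ ls (r + 1) x ∧
      (-1) ^ (ls.length + r) * DD φ ls (r + 1) x ≤ C / N ^ (ls.length + r + 1) * (ls.prod : ℕ) := by
  induction ls generalizing r x with
  | nil =>
    simp only [List.length_nil, zero_add, List.prod_nil, Nat.cast_one, mul_one, DD] at *
    have hx0 : 0 < x := hN.trans_le hx
    have hx3 : x ≤ 3 * N := by simpa using hx2
    obtain ⟨-, h1, h2⟩ := hU r hr x (hN0.trans hx)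
    refine ⟨le_trans ?_ h1, h2.trans ?_⟩ <;> gcongr
  | cons l ls ih =>
    simp only [List.length_cons, List.prod_cons, List.sum_cons] at *
    rw [Nat.cast_add] at hx2
    rw [Nat.cast_mul]
    rcases Nat.eq_zero_or_pos l with rfl | hl
    · simp [DD]
    have hl' : (0 : ℝ) < l := by exact_mod_cast hl
    obtain ⟨ξ, hξ, hξ2⟩ := exists_hasDerivAt_eq_slope (DD φ ls (r + 1)) (DD φ ls (r + 1 + 1)) (a := x)
      (b := x + l) (by linarith)
      (fun y hy => (hasDerivAt_DD hU ls (by omega) (by linarith [hy.1])).continuousAt.continuousWithinAt)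
      (fun y hy => hasDerivAt_DD hU ls (by omega) (by linarith [hy.1]))
    have h1 : DD φ (l :: ls) (r + 1) x = l * DD φ ls (r + 1 + 1) ξ := by
      simp only [DD]
      rw [hξ2, add_sub_cancel_left]; field_simp
    have h2 := ih (r := r + 1) (by omega) (x := ξ) (by linarith [hξ.1]) (by linarith [hξ.2])
    rw [show ls.length + (r + 1) = ls.length + 1 + r by ring] at h2
    rw [h1]
    have e1 : (-1 : ℝ) ^ (ls.length + 1 + r) * (l * DD φ ls (r + 1 + 1) ξ) =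
      l * ((-1 : ℝ) ^ (ls.length + 1 + r) * DD φ ls (r + 1 + 1) ξ) := by ring
    rw [e1]
    constructor
    · calc _ = (l : ℝ) * (c / (3 * N) ^ (ls.length + 1 + r + 1) * (ls.prod : ℕ)) := by
            ring
        _ ≤ _ := by
            have := h2.1
            gcongr
    · calc _ ≤ (l : ℝ) * (C / N ^ (ls.length + 1 + r + 1) * (ls.prod : ℕ)) := by
            have := h2.2
            gcongr
        _ = _ := by ring

lemma EL_bounds (hU : RegU φ R x0 c C) (hc : 0 < c) (hC : 0 < C) (l : ℕ) (ls : List ℕ) (hR : ls.length ≤ R)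
    {N x : ℝ} (hN : 0 < N) (hN0 : x0 ≤ N) (hx : N ≤ x) (hx2 : x + ((l :: ls).sum : ℕ) ≤ 3 * N) :
    c / (3 * N) ^ (ls.length + 1) * ((l :: ls).prod : ℕ) ≤ (-1) ^ (ls.length) * DD φ (l :: ls) 0 x ∧
      (-1) ^ (ls.length) * DD φ (l :: ls) 0 x ≤ C / N ^ (ls.length + 1) * ((l :: ls).prod : ℕ) := by
  simp only [List.prod_cons, List.sum_cons] at *
  rw [Nat.cast_add] at hx2
  rw [Nat.cast_mul]
  rcases Nat.eq_zero_or_pos l with rfl | hl
  · simp [DD]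
  have hl' : (0 : ℝ) < l := by exact_mod_cast hl
  obtain ⟨ξ, hξ, hξ2⟩ := exists_hasDerivAt_eq_slope (DD φ ls 0) (DD φ ls 1) (a := x) (b := x + l)
    (by linarith)
    (fun y hy => (hasDerivAt_DD hU ls (by omega) (by linarith [hy.1])).continuousAt.continuousWithinAt)
    (fun y hy => hasDerivAt_DD hU ls (by omega) (by linarith [hy.1]))
  have h1 : DD φ (l :: ls) 0 x = l * DD φ ls 1 ξ := by
    simp only [DD]
    rw [hξ2, add_sub_cancel_left]; field_simp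
  have h2 := DD_bounds hU hc hC ls 0 (by omega) (N := N) (x := ξ) hN hN0 (by linarith [hξ.1])
    (by linarith [hξ.2])
  simp only [add_zero, zero_add] at h2
  rw [h1]
  have e1 : (-1 : ℝ) ^ (ls.length) * (l * DD φ ls 1 ξ) =
    l * ((-1 : ℝ) ^ (ls.length) * DD φ ls 1 ξ) := by ring
  rw [e1]
  constructor
  · calc _ = (l : ℝ) * (c / (3 * N) ^ (ls.length + 1) * (ls.prod : ℕ)) := by
          ring
      _ ≤ _ := by
          have := h2.1
          gcongr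
  · calc _ ≤ (l : ℝ) * (C / N ^ (ls.length + 1) * (ls.prod : ℕ)) := by
          have := h2.2
          gcongr
      _ = _ := by ring

/-- the differenced sum -/
noncomputable def SL (φ : ℕ → ℝ → ℝ) (Z : ℝ) (u : ℝ) (L : ℕ) (ls : List ℕ) : ℂ :=
  ∑ n ∈ range (L - ls.sum), e (Z * DD φ ls 0 (u + n))

lemma SL_sq (φ : ℕ → ℝ → ℝ) (Z : ℝ) (u : ℝ) (L H : ℕ) (ls : List ℕ) :
    (H : ℝ) * ‖SL φ Z u L ls‖ ^ 2 ≤ (L + H) * (L + 2 * ∑ l ∈ Ico 1 H, ‖SL φ Z u L (l :: ls)‖) := by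
  have h := vdcH (fun n => e (Z * DD φ ls 0 (u + (n : ℝ)))) (fun n => (norm_e _).le) (L - ls.sum) H
  have h1 : ∀ l, ∑ n ∈ range (L - ls.sum - l), e (Z * DD φ ls 0 (u + ((n + l : ℕ) : ℝ))) *
      (starRingEnd ℂ) (e (Z * DD φ ls 0 (u + (n : ℝ)))) = SL φ Z u L (l :: ls) := by
    intro l
    unfold SL
    rw [List.sum_cons, show L - (l + ls.sum) = L - ls.sum - l by omega]
    refine sum_congr rfl fun n _ => ?_
    rw [conj_e, ← e_add]
    congr 1
    simp only [DD]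
    push_cast
    rw [show u + n + l = u + (n + l) by ring]
    ring
  simp only [h1] at h
  refine h.trans ?_
  have h2 : ((L - ls.sum : ℕ) : ℝ) ≤ L := by exact_mod_cast Nat.sub_le _ _
  gcongr

/-- last step: Kusmin–Landau -/
lemma SL_le (hU : RegU φ R x0 c C) (hc : 0 < c) (hC : 0 < C) (Z : ℝ) (hZ : 0 < Z) (N : ℕ) (u : ℝ) (L : ℕ)
    (hN : 1 ≤ N) (hN0 : x0 ≤ N) (hu : (N : ℝ) ≤ u)
    (huL : u + L ≤ 3 * N) (ls : List ℕ) (hR : ls.length + 1 ≤ R) (hls : 0 < ls.prod)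
    (hup : 2 * (Z * (C / (N : ℝ) ^ (ls.length + 1) * (ls.prod : ℕ))) ≤ 1) :
    ‖SL φ Z u L ls‖ ≤ 2 * (3 * N) ^ (ls.length + 1) / (Z * c * (ls.prod : ℕ)) := by
  have hN' : (0 : ℝ) < N := by exact_mod_cast hN
  have hP : (0 : ℝ) < (ls.prod : ℕ) := by exact_mod_cast hls
  rcases Nat.lt_or_ge L (ls.sum + 1) with hL | hL
  · unfold SL
    rw [show L - ls.sum = 0 by omega]
    simp only [range_zero, sum_empty, norm_zero]
    positivity
  set θ : ℝ := Z * (c / (3 * (N : ℝ)) ^ (ls.length + 1) * (ls.prod : ℕ)) with hθ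
  have hθ0 : 0 < θ := by positivity
  set σ : ℝ := (-1) ^ (ls.length) with hσ
  have hσ1 : σ = 1 ∨ σ = -1 := neg_one_pow_eq_or ℝ _
  have hx1 : ∀ n < L - ls.sum, θ ≤ σ * (Z * DD φ (1 :: ls) 0 (u + (n : ℝ))) ∧
      σ * (Z * DD φ (1 :: ls) 0 (u + (n : ℝ))) ≤ 1 / 2 := by
    intro n hn
    have hxN : (N : ℝ) ≤ u + (n : ℝ) := by
      have : (0 : ℝ) ≤ n := Nat.cast_nonneg n
      linarith
    have h := EL_bounds hU hc hC 1 ls (by omega) (N := N) (x := u + (n : ℝ)) hN' hN0 hxN (by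
      rw [List.sum_cons]
      have h3 : n + (1 + ls.sum) ≤ L := by omega
      have h4 : ((n + (1 + ls.sum) : ℕ) : ℝ) ≤ L := by exact_mod_cast h3
      push_cast at h4 ⊢
      linarith)
    simp only [List.prod_cons, one_mul] at h
    have e1 : σ * (Z * DD φ (1 :: ls) 0 (u + (n : ℝ))) =
      Z * ((-1) ^ (ls.length) * DD φ (1 :: ls) 0 (u + (n : ℝ))) := by rw [hσ]; ring
    rw [e1]
    constructor
    · exact mul_le_mul_of_nonneg_left h.1 hZ.le
    · have h2 := mul_le_mul_of_nonneg_left h.2 hZ.le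
      linarith
  have hθ2 : θ ≤ 1 / 2 := (hx1 0 (by omega)).1.trans (hx1 0 (by omega)).2
  have hdiff : ∀ n : ℕ, σ * (Z * DD φ ls 0 (u + ((n + 1 : ℕ) : ℝ))) - σ * (Z * DD φ ls 0 (u + (n : ℝ))) =
      σ * (Z * DD φ (1 :: ls) 0 (u + (n : ℝ))) := by
    intro n
    simp only [DD]
    push_cast
    rw [show u + n + 1 = u + (n + 1) by ring]
    ring
  have hdiff2 : ∀ n, n + 1 < L - ls.sum → σ * (Z * DD φ (1 :: ls) 0 (u + ((n + 1 : ℕ) : ℝ))) ≤
      σ * (Z * DD φ (1 :: ls) 0 (u + (n : ℝ))) := by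
    intro n hn
    have hxN : (N : ℝ) ≤ u + (n : ℝ) := by
      have : (0 : ℝ) ≤ n := Nat.cast_nonneg n
      linarith
    have h := EL_bounds hU hc hC 1 (1 :: ls) (by rw [List.length_cons]; omega) (N := N) (x := u + (n : ℝ)) hN' hN0 hxN (by
      rw [List.sum_cons, List.sum_cons]
      have h3 : n + (1 + (1 + ls.sum)) ≤ L := by omega
      have h4 : ((n + (1 + (1 + ls.sum)) : ℕ) : ℝ) ≤ L := by exact_mod_cast h3
      push_cast at h4 ⊢
      linarith)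
    simp only [List.length_cons, List.prod_cons, one_mul] at h
    have h0 := h.1
    have h1 : (0 : ℝ) ≤ (-1) ^ (ls.length + 1) * DD φ (1 :: 1 :: ls) 0 (u + (n : ℝ)) :=
      le_trans (by positivity) h0
    have h2 : DD φ (1 :: 1 :: ls) 0 (u + (n : ℝ)) =
        DD φ (1 :: ls) 0 (u + ((n + 1 : ℕ) : ℝ)) - DD φ (1 :: ls) 0 (u + (n : ℝ)) := by
      conv_lhs => rw [DD]
      push_cast
      rw [show u + n + 1 = u + (n + 1) by ring]
    rw [h2, pow_succ] at h1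
    have h3 := mul_nonneg hZ.le h1
    have e3 : Z * ((-1) ^ (ls.length) * -1 * (DD φ (1 :: ls) 0 (u + ((n + 1 : ℕ) : ℝ)) -
        DD φ (1 :: ls) 0 (u + (n : ℝ)))) =
      σ * (Z * DD φ (1 :: ls) 0 (u + (n : ℝ))) - σ * (Z * DD φ (1 :: ls) 0 (u + ((n + 1 : ℕ) : ℝ))) := by
      rw [hσ]; ring
    rw [e3] at h3
    linarith
  have hKL := kusmin_landau_anti (fun n => σ * (Z * DD φ ls 0 (u + (n : ℝ)))) (L - ls.sum) hθ0
    (fun n hn => by rw [hdiff]; exact (hx1 n hn).1)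
    (fun n hn => by rw [hdiff]; linarith [(hx1 n hn).2])
    (fun n hn => by
      have e1 := hdiff n
      have e2 := hdiff (n + 1)
      rw [show n + 1 + 1 = n + 2 by ring] at e2
      have e3 := hdiff2 n hn
      linarith)
  have hnorm : ‖SL φ Z u L ls‖ = ‖∑ n ∈ range (L - ls.sum), e (σ * (Z * DD φ ls 0 (u + (n : ℝ))))‖ := by
    unfold SL
    rcases hσ1 with h | h
    · rw [h]; simp
    · rw [h, ← norm_sum_neg]
      congr 1
      refine sum_congr rfl fun n _ => ?_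
      congr 1; ring
  rw [hnorm]
  refine hKL.trans (le_of_eq ?_)
  rw [hθ]
  field_simp

lemma exp_boundL (hU : RegU φ R x0 c C) (hc : 0 < c) (hC : 0 < C) (q : ℕ) (hq : q + 1 ≤ R) (Z : ℝ)
    (hZ : 0 < Z) (N : ℕ) (u : ℝ) (L H : ℕ) (hN : 1 ≤ N) (hN0 : x0 ≤ N)
    (hu : (N : ℝ) ≤ u) (hL : L ≤ N) (huL : u + L ≤ 3 * N) (hH : 1 ≤ H) (hHN : H ≤ N)
    (hup : 2 * (Z * (C / (N : ℝ) ^ (q + 1) * (H : ℝ) ^ q)) ≤ 1) :
    (‖SL φ Z u L []‖ / N) ^ (2 ^ q) ≤ Cq q * (1 / H +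
      (2 * (3 * N) ^ (q + 1) / (Z * c) / N) * ((∑ l ∈ Ico 1 H, (1 : ℝ) / l) / H) ^ q) := by
  have hN' : (1 : ℝ) ≤ N := by exact_mod_cast hN
  have hH' : (1 : ℝ) ≤ H := by exact_mod_cast hH
  have hL' : (L : ℝ) ≤ N := by exact_mod_cast hL
  have hHN' : (H : ℝ) ≤ N := by exact_mod_cast hHN
  have hstep : ∀ ls : List ℕ, (‖SL φ Z u L ls‖ / N) ^ 2 ≤
      2 / H + 4 * ((∑ l ∈ Ico 1 H, ‖SL φ Z u L (l :: ls)‖ / N) / H) := by
    intro ls
    have h := SL_sq φ Z u L H ls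
    set Sg := ∑ l ∈ Ico 1 H, ‖SL φ Z u L (l :: ls)‖ with hSg
    have hSg0 : 0 ≤ Sg := sum_nonneg fun _ _ => norm_nonneg _
    have h2 : (H : ℝ) * ‖SL φ Z u L ls‖ ^ 2 ≤ (2 * N) * (N + 2 * Sg) := by
      refine h.trans ?_
      have : (L : ℝ) + H ≤ 2 * N := by linarith
      gcongr
    rw [← sum_div, ← hSg]
    have e1 : 2 / (H : ℝ) + 4 * (Sg / N / H) = ((2 * N) * (N + 2 * Sg)) / (H * N ^ 2) := by
      field_simp
      ring
    rw [e1, div_pow, div_le_div_iff₀ (by positivity) (by positivity)]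
    calc ‖SL φ Z u L ls‖ ^ 2 * (H * N ^ 2) = ((H : ℝ) * ‖SL φ Z u L ls‖ ^ 2) * N ^ 2 := by ring
      _ ≤ _ := by gcongr
  have hit := iterate hH (fun ls => ‖SL φ Z u L ls‖ / N) (fun ls => by positivity) hstep q []
  refine hit.trans ?_
  have hCq := Cq_pos q
  gcongr
  have := Av_le (H := H) (T := fun ls => ‖SL φ Z u L ls‖ / N)
    (κ := 2 * (3 * N) ^ (q + 1) / (Z * c) / N) q (by
      intro ls hlen hent
      have hpos : 0 < ls.prod := List.prod_pos fun l hl => (hent l hl).1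
      have hle : ls.prod ≤ H ^ q := by
        have := List.prod_le_pow_card ls H (fun l hl => (hent l hl).2.le)
        rwa [hlen] at this
      have hle' : ((ls.prod : ℕ) : ℝ) ≤ (H : ℝ) ^ q := by exact_mod_cast hle
      have h1 := SL_le hU hc hC Z hZ N u L hN hN0 hu huL ls (by omega) hpos (by
        rw [hlen]
        refine le_trans ?_ hup
        gcongr)
      rw [hlen] at h1
      have hP : (0 : ℝ) < (ls.prod : ℕ) := by exact_mod_cast hpos
      calc ‖SL φ Z u L ls‖ / N ≤ (2 * (3 * N) ^ (q + 1) / (Z * c * (ls.prod : ℕ))) / N := by gcongr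
        _ = _ := by field_simp) q [] (by simp) (by simp)
  simpa using this


end

/-- positive frequencies -/
theorem exp_sum_boundL {φ : ℕ → ℝ → ℝ} (hφ : Reg φ) (Q : ℕ) (hQ : 1 ≤ Q) :
    ∃ η : ℝ, 0 < η ∧ η ≤ 1 ∧ ∃ C : ℝ, 0 < C ∧ ∀ (N L : ℕ) (u Z : ℝ), 1 ≤ N → (N : ℝ) ≤ u →
      L ≤ N → u + L ≤ 3 * N → (N : ℝ) ^ (1 / 2 : ℝ) ≤ Z → Z ≤ (N : ℝ) ^ Q →
      ‖∑ n ∈ range L, e (Z * φ 0 (u + n))‖ ≤ C * (N : ℝ) ^ (1 - η) := by
  obtain ⟨x0, c, C0, hx0, hc, hC0, hU⟩ := hφ.unif (Q + 1)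
  set η : ℝ := 1 / (4 * Q * 2 ^ Q) with hη
  have hQ' : (1 : ℝ) ≤ Q := by exact_mod_cast hQ
  have h2Q : (1 : ℝ) ≤ 2 ^ Q := one_le_pow₀ (by norm_num)
  have hη0 : 0 < η := by rw [hη]; positivity
  have hη1 : η ≤ 1 / 4 := by
    rw [hη, div_le_div_iff₀ (by positivity) (by norm_num)]
    nlinarith
  set N0 : ℝ := max (max 16 x0) (max ((2 * C0) ^ 2) ((2 * C0) ^ 4)) with hN0
  set K : ℝ := Cq Q * (2 + (2 * 3 ^ (Q + 1) / c) * 2 ^ Q * (1 + 4 * Q) ^ Q) with hK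
  have hCq := Cq_pos Q
  have hK0 : 0 < K := by rw [hK]; positivity
  set C : ℝ := max (max (6 / c) N0) (K ^ ((1 : ℝ) / 2 ^ Q)) with hC
  refine ⟨η, hη0, by linarith, C, by rw [hC]; positivity, ?_⟩
  intro N L u Z hN ha hL haL hZ1 hZ2
  have hN' : (1 : ℝ) ≤ N := by exact_mod_cast hN
  have hNpos : (0 : ℝ) < N := by linarith
  have hC6 : 6 / c ≤ C := (le_max_left _ _).trans (le_max_left _ _)
  have hCN0 : N0 ≤ C := (le_max_right _ _).trans (le_max_left _ _)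
  have hCK : K ^ ((1 : ℝ) / 2 ^ Q) ≤ C := le_max_right _ _
  have hZ : 0 < Z := lt_of_lt_of_le (by positivity) hZ1
  have hSS : ∑ n ∈ range L, e (Z * φ 0 (u + n)) = SL φ Z u L [] := by
    unfold SL
    simp only [List.sum_nil, Nat.sub_zero]
    rfl
  rw [hSS]
  have htriv : ‖SL φ Z u L []‖ ≤ N := by
    unfold SL
    refine (norm_sum_le _ _).trans ?_
    simp only [norm_e, sum_const, card_range, nsmul_eq_mul, mul_one, List.sum_nil, Nat.sub_zero]
    exact_mod_cast hL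
  rcases lt_or_ge (N : ℝ) N0 with hsmall | hbig
  · refine htriv.trans ?_
    calc (N : ℝ) ≤ N0 * 1 := by linarith
      _ ≤ C * (N : ℝ) ^ (1 - η) := by
        gcongr
        exact Real.one_le_rpow hN' (by linarith)
  have h16 : (16 : ℝ) ≤ N := ((le_max_left _ _).trans (le_max_left _ _)).trans hbig
  have hNx : x0 ≤ (N : ℝ) := ((le_max_right _ _).trans (le_max_left _ _)).trans hbig
  have hfac : (2 * C0) ^ 2 ≤ (N : ℝ) := ((le_max_left _ _).trans (le_max_right _ _)).trans hbig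
  have hfac4 : (2 * C0) ^ 4 ≤ (N : ℝ) := ((le_max_right _ _).trans (le_max_right _ _)).trans hbig
  rcases le_or_gt Z ((N : ℝ) ^ (3 / 4 : ℝ)) with hcase | hcase
  · -- direct Kusmin–Landau
    have h1 := SL_le hU hc hC0 Z hZ N u L hN hNx ha haL [] (by simp) (by simp) (by
      simp only [List.length_nil, zero_add, Nat.cast_one, List.prod_nil, mul_one, pow_one]
      have e1 : 2 * C0 ≤ (N : ℝ) ^ (1 / 4 : ℝ) := by
        have h5 : ((2 * C0) ^ 4) ^ (1 / 4 : ℝ) ≤ (N : ℝ) ^ (1 / 4 : ℝ) := by gcongr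
        rwa [← Real.rpow_natCast, ← Real.rpow_mul (by positivity),
          show (((4 : ℕ) : ℝ) * (1 / 4 : ℝ)) = 1 by norm_num, Real.rpow_one] at h5
      have e2 : (N : ℝ) ^ (3 / 4 : ℝ) * (N : ℝ) ^ (1 / 4 : ℝ) = (N : ℝ) := by
        rw [← Real.rpow_add hNpos]; norm_num
      have e3 : 2 * (Z * (C0 / (N : ℝ))) = (Z * (2 * C0)) / N := by ring
      rw [e3, div_le_one (by positivity)]
      calc Z * (2 * C0) ≤ (N : ℝ) ^ (3 / 4 : ℝ) * (N : ℝ) ^ (1 / 4 : ℝ) := by gcongr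
        _ = N := e2)
    simp only [List.length_nil, zero_add, Nat.cast_one, List.prod_nil, mul_one, pow_one] at h1
    refine h1.trans ?_
    rw [div_le_iff₀ (by positivity)]
    have e3 : (N : ℝ) ^ (1 / 2 : ℝ) * (N : ℝ) ^ (1 / 2 : ℝ) = (N : ℝ) := by
      rw [← Real.rpow_add hNpos]; norm_num
    have e4 : (N : ℝ) ^ (1 / 2 : ℝ) ≤ (N : ℝ) ^ (1 - η) :=
      Real.rpow_le_rpow_of_exponent_le hN' (by linarith)
    have e5 : 6 ≤ C * c := by rwa [div_le_iff₀ hc] at hC6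
    calc 2 * (3 * (N : ℝ)) = 6 * ((N : ℝ) ^ (1 / 2 : ℝ) * (N : ℝ) ^ (1 / 2 : ℝ)) := by rw [e3]; ring
      _ ≤ (C * c) * ((N : ℝ) ^ (1 - η) * Z) := by
        gcongr
      _ = _ := by ring
  · -- Weyl - van der Corput
    set h : ℝ := ((N : ℝ) ^ (Q + 1 / 2 : ℝ) / Z) ^ ((1 : ℝ) / Q) with hh
    have hhQ : h ^ Q = (N : ℝ) ^ (Q + 1 / 2 : ℝ) / Z := by
      rw [hh, ← Real.rpow_natCast, ← Real.rpow_mul (by positivity), one_div_mul_cancel (by positivity), Real.rpow_one]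
    have hh0 : 0 ≤ h := by rw [hh]; positivity
    have hlow : (N : ℝ) ^ (1 / 2 : ℝ) ≤ h ^ Q := by
      rw [hhQ, le_div_iff₀ hZ]
      calc (N : ℝ) ^ (1 / 2 : ℝ) * Z ≤ (N : ℝ) ^ (1 / 2 : ℝ) * (N : ℝ) ^ Q := by gcongr
        _ = _ := by
          rw [← Real.rpow_natCast, ← Real.rpow_add hNpos]
          congr 1; ring
    have hupp : h ^ Q ≤ (N : ℝ) ^ Q := by
      rw [hhQ, div_le_iff₀ hZ]
      calc (N : ℝ) ^ (Q + 1 / 2 : ℝ) ≤ (N : ℝ) ^ (Q + 3 / 4 : ℝ) := by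
            apply Real.rpow_le_rpow_of_exponent_le hN'; linarith
        _ = (N : ℝ) ^ Q * (N : ℝ) ^ (3 / 4 : ℝ) := by
            rw [Real.rpow_add hNpos, Real.rpow_natCast]
        _ ≤ _ := by gcongr
    have hhN : h ≤ N := le_of_pow_le_pow_left₀ (by omega) (by positivity) hupp
    have hN12 : (1 : ℝ) ≤ (N : ℝ) ^ (1 / 2 : ℝ) := Real.one_le_rpow hN' (by norm_num)
    have hh1 : 1 ≤ h := by
      by_contra hlt
      rw [not_le] at hlt
      have : h ^ Q ≤ 1 := pow_le_one₀ hh0 hlt.le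
      have h4 : (4 : ℝ) ≤ (N : ℝ) ^ (1 / 2 : ℝ) := by
        calc (4 : ℝ) = (16 : ℝ) ^ (1 / 2 : ℝ) := by
              rw [show (16 : ℝ) = 4 ^ (2 : ℝ) by norm_num, ← Real.rpow_mul (by norm_num)]; norm_num
          _ ≤ _ := by gcongr
      linarith
    set H : ℕ := ⌊h⌋₊ with hH
    have hH1 : 1 ≤ H := Nat.one_le_floor_iff _ |>.mpr hh1
    have hHle : (H : ℝ) ≤ h := Nat.floor_le hh0
    have hHN : H ≤ N := by exact_mod_cast hHle.trans hhN
    have hHge : h / 2 ≤ H := by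
      have h1 : h < H + 1 := Nat.lt_floor_add_one h
      have h2 : (1 : ℝ) ≤ H := by exact_mod_cast hH1
      linarith
    have hH1' : (1 : ℝ) ≤ H := by exact_mod_cast hH1
    have hsq : 2 * C0 ≤ (N : ℝ) ^ (1 / 2 : ℝ) := by
      rw [← Real.sqrt_eq_rpow]
      exact Real.le_sqrt_of_sq_le hfac
    have hZh : Z * h ^ Q = (N : ℝ) ^ (Q + 1 / 2 : ℝ) := by rw [hhQ]; field_simp
    have hcond : 2 * (Z * (C0 / (N : ℝ) ^ (Q + 1) * (H : ℝ) ^ Q)) ≤ 1 := by
      have e1 : (N : ℝ) ^ (Q + 1) = (N : ℝ) ^ (Q + 1 / 2 : ℝ) * (N : ℝ) ^ (1 / 2 : ℝ) := by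
        rw [← Real.rpow_add hNpos, ← Real.rpow_natCast]; congr 1; push_cast; ring
      have e2 : 2 * (Z * (C0 / (N : ℝ) ^ (Q + 1) * (H : ℝ) ^ Q)) =
          (2 * C0) * (Z * (H : ℝ) ^ Q) / (N : ℝ) ^ (Q + 1) := by
        ring
      rw [e2, div_le_one (by positivity), e1, ← hZh]
      calc (2 * C0) * (Z * (H : ℝ) ^ Q) ≤ (N : ℝ) ^ (1 / 2 : ℝ) * (Z * h ^ Q) := by gcongr
        _ = _ := by ring
    have hb := exp_boundL hU hc hC0 Q le_rfl Z hZ N u L H hN hNx ha hL haL hH1 hHN hcond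
    -- first term
    have hhlow : (N : ℝ) ^ ((1 : ℝ) / (2 * Q)) ≤ h := by
      have : ((N : ℝ) ^ ((1 : ℝ) / (2 * Q))) ^ Q ≤ h ^ Q := by
        rw [← Real.rpow_natCast, ← Real.rpow_mul (by positivity)]
        refine le_trans (le_of_eq ?_) hlow
        congr 1; field_simp
      exact le_of_pow_le_pow_left₀ (by omega) hh0 this
    have hQpos : (0 : ℝ) < Q := by linarith
    have hterm1 : 1 / (H : ℝ) ≤ 2 * (N : ℝ) ^ (-(1 : ℝ) / (4 * Q)) := by
      have h1 : (0 : ℝ) < (N : ℝ) ^ ((1 : ℝ) / (4 * Q)) := by positivity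
      have h2 : (N : ℝ) ^ ((1 : ℝ) / (4 * Q)) ≤ (N : ℝ) ^ ((1 : ℝ) / (2 * Q)) := by
        apply Real.rpow_le_rpow_of_exponent_le hN'
        gcongr; norm_num
      rw [neg_div, Real.rpow_neg (by positivity), ← div_eq_mul_inv, div_le_div_iff₀ (by positivity) h1]
      linarith
    have hlog : 1 + Real.log H ≤ (1 + 4 * Q) * (N : ℝ) ^ ((1 : ℝ) / (4 * Q)) := by
      have h1 : Real.log H ≤ Real.log N := Real.log_le_log (by positivity) (by exact_mod_cast hHN)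
      have h2 := Real.log_le_rpow_div (x := N) (ε := (1 : ℝ) / (4 * Q)) (by positivity) (by positivity)
      have h3 : (N : ℝ) ^ ((1 : ℝ) / (4 * Q)) / ((1 : ℝ) / (4 * Q)) = 4 * Q * (N : ℝ) ^ ((1 : ℝ) / (4 * Q)) := by
        field_simp
      have h4 : (1 : ℝ) ≤ (N : ℝ) ^ ((1 : ℝ) / (4 * Q)) := Real.one_le_rpow hN' (by positivity)
      rw [h3] at h2
      nlinarith
    have hterm2 : (2 * (3 * N) ^ (Q + 1) / (Z * c) / N) * ((∑ l ∈ Ico 1 H, (1 : ℝ) / l) / H) ^ Q ≤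
        (2 * 3 ^ (Q + 1) / c) * 2 ^ Q * (1 + 4 * Q) ^ Q * (N : ℝ) ^ (-(1 : ℝ) / (4 * Q)) := by
      have hs0 : 0 ≤ ∑ l ∈ Ico 1 H, (1 : ℝ) / l := sum_nonneg fun _ _ => by positivity
      have h1 : ((∑ l ∈ Ico 1 H, (1 : ℝ) / l) / H) ^ Q ≤
          (((1 + 4 * Q) * (N : ℝ) ^ ((1 : ℝ) / (4 * Q))) / (h / 2)) ^ Q := by
        gcongr
        exact (harm_le H).trans hlog
      have h2 : (((1 + 4 * Q) * (N : ℝ) ^ ((1 : ℝ) / (4 * Q))) / (h / 2)) ^ Q =
          (1 + 4 * Q) ^ Q * (N : ℝ) ^ ((1 : ℝ) / 4) * 2 ^ Q / h ^ Q := by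
        rw [div_pow, mul_pow, div_pow, div_div_eq_mul_div]
        congr 3
        rw [← Real.rpow_natCast, ← Real.rpow_mul (by positivity)]
        congr 1; field_simp
      have h3 : (N : ℝ) ^ ((1 : ℝ) / 4) * (N : ℝ) ^ Q * (N : ℝ) ^ ((1 : ℝ) / (4 * Q)) ≤ Z * h ^ Q := by
        rw [hZh, ← Real.rpow_natCast, ← Real.rpow_add hNpos, ← Real.rpow_add hNpos]
        apply Real.rpow_le_rpow_of_exponent_le hN'
        have : (1 : ℝ) / (4 * Q) ≤ 1 / 4 := by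
          rw [div_le_div_iff₀ (by positivity) (by norm_num)]; linarith
        linarith
      have hNQ : (0 : ℝ) < (N : ℝ) ^ ((1 : ℝ) / (4 * Q)) := by positivity
      calc _ ≤ (2 * (3 * N) ^ (Q + 1) / (Z * c) / N) *
            ((1 + 4 * Q) ^ Q * (N : ℝ) ^ ((1 : ℝ) / 4) * 2 ^ Q / h ^ Q) := by rw [← h2]; gcongr
        _ = (2 * 3 ^ (Q + 1) / c) * 2 ^ Q * (1 + 4 * Q) ^ Q *
            (((N : ℝ) ^ ((1 : ℝ) / 4) * (N : ℝ) ^ Q) / (Z * h ^ Q)) := by
            rw [mul_pow, pow_succ (N : ℝ) Q]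
            exact Pool.Agent.H469R2.NK.alg_aux _ _ _ _ _ _ _ _ _ hZ.ne' hNpos.ne' (by positivity) (by positivity)
        _ ≤ _ := by
            gcongr
            rw [neg_div, Real.rpow_neg (by positivity), ← one_div, div_le_div_iff₀ (by positivity) hNQ]
            linarith
    have hfin : (‖SL φ Z u L []‖ / N) ^ (2 ^ Q) ≤ K * (N : ℝ) ^ (-(1 : ℝ) / (4 * Q)) := by
      refine hb.trans ?_
      calc _ ≤ Cq Q * (2 * (N : ℝ) ^ (-(1 : ℝ) / (4 * Q)) +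
            (2 * 3 ^ (Q + 1) / c) * 2 ^ Q * (1 + 4 * Q) ^ Q * (N : ℝ) ^ (-(1 : ℝ) / (4 * Q))) := by
            gcongr
        _ = _ := by rw [hK]; ring
    have hroot : ‖SL φ Z u L []‖ / N ≤ K ^ ((1 : ℝ) / 2 ^ Q) * (N : ℝ) ^ (-η) := by
      have h1 : (‖SL φ Z u L []‖ / N) = ((‖SL φ Z u L []‖ / N) ^ (2 ^ Q)) ^ ((1 : ℝ) / 2 ^ Q) := by
        rw [← Real.rpow_natCast, ← Real.rpow_mul (by positivity)]
        push_cast
        rw [mul_one_div_cancel (by positivity), Real.rpow_one]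
      rw [h1]
      calc _ ≤ (K * (N : ℝ) ^ (-(1 : ℝ) / (4 * Q))) ^ ((1 : ℝ) / 2 ^ Q) := by gcongr
        _ = K ^ ((1 : ℝ) / 2 ^ Q) * (N : ℝ) ^ (-(1 : ℝ) / (4 * Q) * (1 / 2 ^ Q)) := by
            rw [Real.mul_rpow hK0.le (by positivity), ← Real.rpow_mul (by positivity)]
        _ ≤ _ := by
            gcongr
            have : -(1 : ℝ) / (4 * Q) * (1 / 2 ^ Q) = -(1 / (4 * Q * 2 ^ Q)) := by
              field_simp
            rw [this, hη]
    rw [div_le_iff₀ hNpos] at hroot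
    calc ‖SL φ Z u L []‖ ≤ K ^ ((1 : ℝ) / 2 ^ Q) * (N : ℝ) ^ (-η) * N := hroot
      _ ≤ C * (N : ℝ) ^ (-η) * N := by gcongr
      _ = _ := by
        rw [mul_assoc, sub_eq_neg_add, Real.rpow_add hNpos, Real.rpow_one]


end Pool.Agent.Q138.GS
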