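import Pool.Agent.Q138.GS.Geo
import Pool.Agent.Q138.GS.VG

set_option autoImplicit false

/-!
# Growth of regular sequences and the range of the window
-/

namespace Pool.Agent.Q138.GS

open Finset MeasureTheory Filter

/-- regular growth -/
structure Gr (P : ℕ → ℝ) : Prop where
  mono : ∃ n0 : ℕ, ∀ m n : ℕ, n0 ≤ m → m ≤ n → 0 < P m ∧ P m ≤ P n
  slow : ∀ K : ℕ, ∃ (q : ℕ) (D : ℝ), 0 < D ∧
    ∀ᶠ N : ℕ in atTop, P N ≤ D * (Real.log N) ^ q * P ⌊(N : ℝ) / (Real.log N) ^ K⌋₊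
  low : ∃ ε : ℝ, 0 < ε ∧ ∀ᶠ N : ℕ in atTop, (N : ℝ) ^ ε ≤ P N
  up : ∃ A : ℕ, ∀ᶠ N : ℕ in atTop, P N ≤ (N : ℝ) ^ A

/-- the cut tends to infinity -/
theorem cut_atTop (K : ℕ) : Tendsto (fun N : ℕ => ⌊(N : ℝ) / (Real.log N) ^ K⌋₊) atTop atTop := by
  refine tendsto_nat_floor_atTop.comp ?_
  refine tendsto_atTop_mono' atTop (f₁ := fun N : ℕ => (N : ℝ) ^ (1 / 2 : ℝ)) ?_ ?_
  · filter_upwards [pw 1 K (show (0:ℝ) < 1 / 2 by norm_num), lg1, eventually_ge_atTop 1] with N h1 h2 h3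
    have hN : (0 : ℝ) < N := by exact_mod_cast h3
    have hl : 0 < (Real.log N) ^ K := by positivity
    rw [one_mul] at h1
    rw [le_div_iff₀ hl]
    calc (N : ℝ) ^ (1 / 2 : ℝ) * (Real.log N) ^ K ≤ (N : ℝ) ^ (1 / 2 : ℝ) * (N : ℝ) ^ (1 / 2 : ℝ) := by gcongr
      _ = N := by
          rw [← Real.rpow_add hN]
          norm_num
  · exact (tendsto_rpow_atTop (by norm_num)).comp tendsto_natCast_atTop_atTop

/-- size of the cut -/
theorem cut_size (K : ℕ) : ∀ᶠ N : ℕ in atTop, 1 ≤ Real.log N ∧ 1 ≤ ⌊(N : ℝ) / (Real.log N) ^ K⌋₊ ∧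
    (N : ℝ) ≤ 2 * (Real.log N) ^ K * ⌊(N : ℝ) / (Real.log N) ^ K⌋₊ ∧
    (⌊(N : ℝ) / (Real.log N) ^ K⌋₊ : ℝ) ≤ (N : ℝ) / (Real.log N) ^ K ∧ ⌊(N : ℝ) / (Real.log N) ^ K⌋₊ ≤ N := by
  filter_upwards [lg1, (cut_atTop K).eventually_ge_atTop 1, eventually_ge_atTop 1] with N hl h1 hN
  have hN0 : (0 : ℝ) < N := by exact_mod_cast hN
  have hlK : 1 ≤ (Real.log N) ^ K := one_le_pow₀ hl
  set x : ℝ := (N : ℝ) / (Real.log N) ^ K with hx
  have hx0 : 0 < x := by positivity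
  have h2 : (⌊x⌋₊ : ℝ) ≤ x := Nat.floor_le hx0.le
  have h3 : x < ⌊x⌋₊ + 1 := Nat.lt_floor_add_one x
  have h4 : (1 : ℝ) ≤ ⌊x⌋₊ := by exact_mod_cast h1
  refine ⟨hl, h1, ?_, h2, ?_⟩
  · have h5 : (N : ℝ) = (Real.log N) ^ K * x := by
      rw [hx]
      field_simp
    nlinarith
  · have : x ≤ N := div_le_self hN0.le hlK
    exact_mod_cast h2.trans this

/-- lower end of the window -/
noncomputable def lo2 (P : ℕ → ℝ) (b β : ℝ) (K N : ℕ) : ℕ :=
  ⌊Real.exp b * P ⌊(N : ℝ) / (Real.log N) ^ K⌋₊ + β⌋₊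

/-- upper end of the window -/
noncomputable def hi2 (P : ℕ → ℝ) (b β : ℝ) (N : ℕ) : ℕ := ⌊Real.exp (b + 1) * P N + β⌋₊

theorem geo2 {P : ℕ → ℝ} (hP : Gr P) (b β : ℝ) (K : ℕ) : ∃ (ε : ℝ) (A q : ℕ) (D : ℝ), 0 < ε ∧ 0 < D ∧
    ∀ᶠ N : ℕ in atTop, 1 ≤ Real.log N ∧ 2 * (|β| + 1) ≤ (lo2 P b β K N : ℝ) ∧
      Real.exp b ≤ lo2 P b β K N - β ∧ (N : ℝ) ^ ε + 1 ≤ lo2 P b β K N ∧
      (hi2 P b β N : ℝ) ≤ Real.exp (b + 2) * P N ∧ (hi2 P b β N : ℝ) + 1 - β ≤ Real.exp (b + 2) * P N ∧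
      P N ≤ (N : ℝ) ^ A ∧ (hi2 P b β N : ℝ) ≤ D * (Real.log N) ^ q * lo2 P b β K N ∧
      lo2 P b β K N ≤ hi2 P b β N := by
  obtain ⟨n0, hmono⟩ := hP.mono
  obtain ⟨q, D, hD, hslow⟩ := hP.slow K
  obtain ⟨ε, hε, hlow⟩ := hP.low
  obtain ⟨A, hup⟩ := hP.up
  set W : ℝ := 4 * Real.exp (-b) + 2 * (|β| + 1) + Real.exp b + 1 with hW
  have hb := Real.exp_pos b
  have hb' := Real.exp_pos (-b)
  have hβ := abs_nonneg β
  have hβ1 := neg_abs_le β
  have hβ2 := le_abs_self β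
  have hε4 : 0 < ε / 4 := by positivity
  refine ⟨ε / 4, A, q, 2 * Real.exp 2 * D, hε4, by positivity, ?_⟩
  filter_upwards [cut_size K, pw D q hε4, pw W 0 hε4, eventually_ge_atTop 1, hslow, hlow, hup,
    (cut_atTop K).eventually_ge_atTop n0] with N hcut h1 h2 hN hs hlo hu hn0
  obtain ⟨hl, hJ1, hJ2, hJ3, hJ4⟩ := hcut
  set ℓ := Real.log N with hℓ
  set J := ⌊(N : ℝ) / ℓ ^ K⌋₊ with hJ
  set Y : ℝ := (N : ℝ) ^ (ε / 4) with hY
  rw [pow_zero, mul_one] at h2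
  have hN0 : (0 : ℝ) < N := by exact_mod_cast hN
  have hN1 : (1 : ℝ) ≤ N := by exact_mod_cast hN
  have hY4 : (N : ℝ) ^ ε = Y ^ 4 := by
    rw [hY, ← Real.rpow_natCast, ← Real.rpow_mul hN0.le]
    congr 1
    push_cast
    ring
  have hW1 : 1 ≤ W := by linarith
  have hY1 : 1 ≤ Y := by linarith
  have hY0 : 0 < Y := by linarith
  obtain ⟨hZ0, hZN⟩ := hmono J N hn0 hJ4
  set Z : ℝ := P J with hZ
  have hlq : 1 ≤ ℓ ^ q := one_le_pow₀ hl
  have hZ3 : Y ^ 3 ≤ Z := by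
    have h4 : Y ^ 4 ≤ Y * Z := by
      rw [← hY4]
      refine hlo.trans (hs.trans ?_)
      exact mul_le_mul_of_nonneg_right h1 hZ0.le
    have h5 : Y * Y ^ 3 ≤ Y * Z := by
      calc Y * Y ^ 3 = Y ^ 4 := by ring
        _ ≤ _ := h4
    exact le_of_mul_le_mul_left h5 hY0
  have hexb : Real.exp b * Real.exp (-b) = 1 := by rw [← Real.exp_add]; simp
  have hx0 : 2 * Y ^ 2 ≤ Real.exp b * Z / 2 := by
    have h6 : 4 * Real.exp (-b) ≤ Y := by linarith
    have h7 : 4 ≤ Real.exp b * Y := by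
      have := mul_le_mul_of_nonneg_left h6 hb.le
      have e : Real.exp b * (4 * Real.exp (-b)) = 4 * (Real.exp b * Real.exp (-b)) := by ring
      rw [e, hexb] at this
      linarith
    have h8 : Real.exp b * Y ^ 3 ≤ Real.exp b * Z := mul_le_mul_of_nonneg_left hZ3 hb.le
    have h9 : 4 * Y ^ 2 ≤ Real.exp b * Y * Y ^ 2 := mul_le_mul_of_nonneg_right h7 (by positivity)
    have e : Real.exp b * Y * Y ^ 2 = Real.exp b * Y ^ 3 := by ring
    rw [e] at h9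
    linarith
  have hY2 : Y ≤ Y ^ 2 := by nlinarith
  have hlo1 : Real.exp b * Z + β - 1 ≤ lo2 P b β K N := by
    unfold lo2
    rw [← hℓ, ← hJ, ← hZ]
    have := Nat.lt_floor_add_one (Real.exp b * Z + β)
    linarith
  have hlo2 : Real.exp b * Z / 2 ≤ lo2 P b β K N := by linarith
  have hlo3 : Y ^ 2 + 1 ≤ lo2 P b β K N := by linarith
  have heb1 : Real.exp b ≤ Real.exp (b + 1) := Real.exp_le_exp.2 (by linarith)
  have h12 : Real.exp b * Z ≤ Real.exp (b + 1) * P N := mul_le_mul heb1 hZN hZ0.le (by positivity)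
  have hpos : 0 ≤ Real.exp (b + 1) * P N + β := by
    have : |β| ≤ Real.exp b * Z / 2 := by linarith
    linarith
  have hhi1 : (hi2 P b β N : ℝ) ≤ Real.exp (b + 1) * P N + β := by
    unfold hi2
    exact Nat.floor_le hpos
  have he2 : Real.exp (b + 2) = Real.exp (b + 1) * Real.exp 1 := by
    rw [← Real.exp_add]
    congr 1
    ring
  have he1 := Real.add_one_le_exp (1 : ℝ)
  have hbig : |β| + 1 ≤ Real.exp (b + 1) * P N := by
    have : |β| + 1 ≤ Real.exp b * Z / 2 := by linarith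
    linarith
  have hPN : 0 < P N := lt_of_lt_of_le hZ0 hZN
  have hd : 2 * (Real.exp (b + 1) * P N) ≤ Real.exp (b + 2) * P N := by
    rw [he2]
    have : 0 < Real.exp (b + 1) * P N := by positivity
    nlinarith
  refine ⟨hl, by linarith, by linarith, by linarith, by linarith, by linarith, hu, ?_, ?_⟩
  · have h13 : (hi2 P b β N : ℝ) ≤ Real.exp (b + 2) * P N := by linarith
    have h14 : Real.exp (b + 2) = Real.exp 2 * Real.exp b := by
      rw [← Real.exp_add]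
      congr 1
      ring
    calc (hi2 P b β N : ℝ) ≤ Real.exp (b + 2) * P N := h13
      _ ≤ Real.exp (b + 2) * (D * ℓ ^ q * Z) := mul_le_mul_of_nonneg_left hs (by positivity)
      _ = 2 * Real.exp 2 * D * ℓ ^ q * (Real.exp b * Z / 2) := by
          rw [h14]
          ring
      _ ≤ _ := mul_le_mul_of_nonneg_left hlo2 (by positivity)
  · unfold lo2 hi2
    apply Nat.floor_le_floor
    linarith

/-! ### growth of regular functions -/

theorem Reg.gr {φ : ℕ → ℝ → ℝ} (hφ : Reg φ) (P : ℕ → ℝ) (n0 : ℕ) (hP : ∀ n : ℕ, n0 ≤ n → P n = Real.exp (φ 0 n)) :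
    Gr P := by
  obtain ⟨x0, c, C, hx0, hc, hC, hU⟩ := hφ.unif 0
  have hd : ∀ x, x0 ≤ x → HasDerivAt (φ 0) (φ 1 x) x ∧ c / x ≤ φ 1 x ∧ φ 1 x ≤ C / x := by
    intro x hx
    have := hU 0 le_rfl x hx
    simpa using this
  have hcont : ContinuousOn (φ 0) (Set.Ici x0) := fun x hx => (hd x hx).1.continuousAt.continuousWithinAt
  have hlogc : ContinuousOn Real.log (Set.Ici x0) := fun x hx =>
    (Real.continuousAt_log (lt_of_lt_of_le hx0 hx).ne').continuousWithinAt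
  have hint : ∀ x ∈ interior (Set.Ici x0), x0 ≤ x := fun x hx => interior_subset hx
  have hm1 : MonotoneOn (fun x => φ 0 x - c * Real.log x) (Set.Ici x0) := by
    refine monotoneOn_of_deriv_nonneg (convex_Ici x0) (hcont.sub (hlogc.const_smul c)) ?_ ?_
    · intro x hx
      have h1 := hint x hx
      exact ((hd x h1).1.sub ((Real.hasDerivAt_log (lt_of_lt_of_le hx0 h1).ne').const_mul c)).differentiableAt.differentiableWithinAt
    · intro x hx
      have h1 := hint x hx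
      rw [((hd x h1).1.fun_sub ((Real.hasDerivAt_log (lt_of_lt_of_le hx0 h1).ne').const_mul c)).deriv]
      have := (hd x h1).2.1
      rw [div_eq_mul_inv] at this
      linarith
  have hm2 : MonotoneOn (fun x => C * Real.log x - φ 0 x) (Set.Ici x0) := by
    refine monotoneOn_of_deriv_nonneg (convex_Ici x0) ((hlogc.const_smul C).sub hcont) ?_ ?_
    · intro x hx
      have h1 := hint x hx
      exact (((Real.hasDerivAt_log (lt_of_lt_of_le hx0 h1).ne').const_mul C).sub (hd x h1).1).differentiableAt.differentiableWithinAt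
    · intro x hx
      have h1 := hint x hx
      rw [(((Real.hasDerivAt_log (lt_of_lt_of_le hx0 h1).ne').const_mul C).fun_sub (hd x h1).1).deriv]
      have := (hd x h1).2.2
      rw [div_eq_mul_inv] at this
      linarith
  have hlow : ∀ x y, x0 ≤ x → x ≤ y → c * (Real.log y - Real.log x) ≤ φ 0 y - φ 0 x := by
    intro x y hx hxy
    have := hm1 (Set.mem_Ici.2 hx) (Set.mem_Ici.2 (hx.trans hxy)) hxy
    simp only at this
    linarith
  have hupp : ∀ x y, x0 ≤ x → x ≤ y → φ 0 y - φ 0 x ≤ C * (Real.log y - Real.log x) := by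
    intro x y hx hxy
    have := hm2 (Set.mem_Ici.2 hx) (Set.mem_Ici.2 (hx.trans hxy)) hxy
    simp only at this
    linarith
  set n1 : ℕ := max n0 (⌈x0⌉₊ + 1) with hn1
  have hn10 : n0 ≤ n1 := le_max_left _ _
  have hn1x : x0 ≤ (n1 : ℝ) := by
    have h1 : (⌈x0⌉₊ : ℝ) ≤ n1 := by exact_mod_cast (Nat.le_succ _).trans (le_max_right n0 (⌈x0⌉₊ + 1))
    exact (Nat.le_ceil x0).trans h1
  have hn11 : 1 ≤ n1 := (Nat.le_add_left 1 _).trans (le_max_right n0 (⌈x0⌉₊ + 1))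
  have hge : ∀ n : ℕ, n1 ≤ n → x0 ≤ (n : ℝ) := fun n hn => hn1x.trans (by exact_mod_cast hn)
  refine ⟨⟨n1, fun m n hm hmn => ?_⟩, fun K => ?_, ?_, ?_⟩
  · have hm0 : (0 : ℝ) < m := lt_of_lt_of_le hx0 (hge m hm)
    rw [hP m (hn10.trans hm), hP n (hn10.trans (hm.trans hmn))]
    refine ⟨Real.exp_pos _, Real.exp_le_exp.2 ?_⟩
    have h1 := hlow m n (hge m hm) (by exact_mod_cast hmn)
    have h2 : Real.log m ≤ Real.log n := Real.log_le_log hm0 (by exact_mod_cast hmn)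
    nlinarith
  · refine ⟨⌈C⌉₊ * K, 2 ^ ⌈C⌉₊, by positivity, ?_⟩
    filter_upwards [cut_size K, (cut_atTop K).eventually_ge_atTop n1, eventually_ge_atTop n1] with N hcut hJ hN
    obtain ⟨hl, hJ1, hJ2, hJ3, hJ4⟩ := hcut
    set ℓ := Real.log N with hℓ
    set J := ⌊(N : ℝ) / ℓ ^ K⌋₊ with hJdef
    have hJ0 : (0 : ℝ) < J := lt_of_lt_of_le hx0 (hge J hJ)
    have hN0 : (0 : ℝ) < N := lt_of_lt_of_le hx0 (hge N hN)
    rw [hP N (hn10.trans hN), hP J (hn10.trans hJ)]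
    have h1 := hupp J N (hge J hJ) (by exact_mod_cast hJ4)
    have hlK : 1 ≤ ℓ ^ K := one_le_pow₀ hl
    have h2 : (N : ℝ) / J ≤ 2 * ℓ ^ K := by
      rw [div_le_iff₀ hJ0]
      exact hJ2
    have h3 : Real.log N - Real.log J ≤ Real.log (2 * ℓ ^ K) := by
      rw [← Real.log_div hN0.ne' hJ0.ne']
      exact Real.log_le_log (by positivity) h2
    have h4 : 0 ≤ Real.log (2 * ℓ ^ K) := Real.log_nonneg (by linarith)
    have h5 : φ 0 N ≤ ⌈C⌉₊ * Real.log (2 * ℓ ^ K) + φ 0 J := by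
      have h6 : C * (Real.log N - Real.log J) ≤ C * Real.log (2 * ℓ ^ K) := mul_le_mul_of_nonneg_left h3 hC.le
      have h7 : C * Real.log (2 * ℓ ^ K) ≤ ⌈C⌉₊ * Real.log (2 * ℓ ^ K) :=
        mul_le_mul_of_nonneg_right (Nat.le_ceil C) h4
      linarith
    calc Real.exp (φ 0 N) ≤ Real.exp (⌈C⌉₊ * Real.log (2 * ℓ ^ K) + φ 0 J) := Real.exp_le_exp.2 h5
      _ = 2 ^ ⌈C⌉₊ * ℓ ^ (⌈C⌉₊ * K) * Real.exp (φ 0 J) := by
          rw [Real.exp_add, ← Real.log_pow, Real.exp_log (by positivity), mul_pow, ← pow_mul, mul_comm K]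
  · refine ⟨c / 2, by positivity, ?_⟩
    filter_upwards [pw (Real.exp (c * Real.log n1 - φ 0 n1)) 0 (show 0 < c / 2 by positivity),
      eventually_ge_atTop n1] with N h1 hN
    have hN0 : (0 : ℝ) < N := lt_of_lt_of_le hx0 (hge N hN)
    rw [pow_zero, mul_one] at h1
    rw [hP N (hn10.trans hN)]
    have h2 := hlow n1 N hn1x (by exact_mod_cast hN)
    have h3 : c * Real.log N ≤ (c * Real.log n1 - φ 0 n1) + φ 0 N := by linarith
    have h4 := Real.exp_le_exp.2 h3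
    rw [Real.exp_add] at h4
    have h5 : Real.exp (c * Real.log N) = (N : ℝ) ^ (c / 2) * (N : ℝ) ^ (c / 2) := by
      rw [← Real.rpow_add hN0, Real.rpow_def_of_pos hN0]
      congr 1
      ring
    rw [h5] at h4
    have h6 : (N : ℝ) ^ (c / 2) * (N : ℝ) ^ (c / 2) ≤ (N : ℝ) ^ (c / 2) * Real.exp (φ 0 N) :=
      h4.trans (mul_le_mul_of_nonneg_right h1 (Real.exp_pos _).le)
    exact le_of_mul_le_mul_left h6 (by positivity)
  · refine ⟨⌈C⌉₊ + 1, ?_⟩
    filter_upwards [pw (Real.exp (φ 0 n1 - C * Real.log n1)) 0 one_pos, eventually_ge_atTop n1] with N h1 hN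
    have hN0 : (0 : ℝ) < N := lt_of_lt_of_le hx0 (hge N hN)
    have hN1 : (1 : ℝ) ≤ N := by exact_mod_cast hn11.trans hN
    rw [pow_zero, mul_one, Real.rpow_one] at h1
    rw [hP N (hn10.trans hN)]
    have h2 := hupp n1 N hn1x (by exact_mod_cast hN)
    have h3 : φ 0 N ≤ (φ 0 n1 - C * Real.log n1) + C * Real.log N := by linarith
    have h4 : C * Real.log N ≤ ⌈C⌉₊ * Real.log N :=
      mul_le_mul_of_nonneg_right (Nat.le_ceil C) (Real.log_nonneg hN1)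
    calc Real.exp (φ 0 N) ≤ Real.exp ((φ 0 n1 - C * Real.log n1) + ⌈C⌉₊ * Real.log N) :=
          Real.exp_le_exp.2 (by linarith)
      _ = Real.exp (φ 0 n1 - C * Real.log n1) * (N : ℝ) ^ ⌈C⌉₊ := by
          rw [Real.exp_add, ← Real.log_pow, Real.exp_log (by positivity)]
      _ ≤ N * (N : ℝ) ^ ⌈C⌉₊ := mul_le_mul_of_nonneg_right h1 (by positivity)
      _ = _ := by ring

end Pool.Agent.Q138.GS
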