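import Pool.Agent.Q138.GS.Geo2
import Pool.Agent.Q138.GS.Core2

set_option autoImplicit false

/-!
# The exponential sums over the range of summation
-/

namespace Pool.Agent.Q138.GS

open Finset MeasureTheory Filter
open Pool.Agent.H376R2.MR (er)
open Pool.Agent.H469R2.NK (e norm_e)
open Pool.Agent.Y957.AD (er_norm)

theorem blocks (f : ℕ → ℂ) (J N : ℕ) (b : ℝ) (hb0 : 0 ≤ b)
    (hb : ∀ a L, J ≤ a → L ≤ J → a + L ≤ N → ‖∑ n ∈ Ioc a (a + L), f n‖ ≤ b) :
    ∀ q a L, J ≤ a → L ≤ q * J → a + L ≤ N → ‖∑ n ∈ Ioc a (a + L), f n‖ ≤ q * b := by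
  intro q
  induction q with
  | zero =>
    intro a L _ hL _
    obtain rfl : L = 0 := by omega
    simp
  | succ q ih =>
    intro a L ha hL hN
    rcases le_or_gt L J with h | h
    · refine (hb a L ha h hN).trans ?_
      push_cast
      have : (0 : ℝ) ≤ q := Nat.cast_nonneg q
      nlinarith
    · have e1 : Ioc a (a + L) = Ioc a (a + J) ∪ Ioc (a + J) ((a + J) + (L - J)) := by
        ext n
        simp only [mem_union, mem_Ioc]
        omega
      have hdis : Disjoint (Ioc a (a + J)) (Ioc (a + J) ((a + J) + (L - J))) := by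
        rw [Finset.disjoint_left]
        intro n h1 h2
        rw [mem_Ioc] at h1 h2
        omega
      rw [e1, sum_union hdis]
      refine (norm_add_le _ _).trans ?_
      have h1 := hb a J ha le_rfl (by omega)
      have h2 : L - J ≤ q * J := by
        have : (q + 1) * J = q * J + J := by ring
        omega
      have h3 := ih (a + J) (L - J) (by omega) h2 (by omega)
      push_cast
      linarith

theorem Kf_abs (ψ : ℕ → ℝ) (S : Finset ℕ) (t : ℝ) : ‖Kf ψ S t‖ = ‖Kf ψ S |t|‖ := by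
  rcases le_or_gt 0 t with h | h
  · rw [abs_of_nonneg h]
  · rw [abs_of_neg h]
    have : Kf ψ S (-t) = (starRingEnd ℂ) (Kf ψ S t) := by
      unfold Kf
      rw [map_sum]
      refine sum_congr rfl fun n _ => ?_
      rw [er_conj]
      congr 1
      ring
    rw [this, RCLike.norm_conj]

theorem Kf_card (ψ : ℕ → ℝ) (S : Finset ℕ) (t : ℝ) : ‖Kf ψ S t‖ ≤ S.card := by
  unfold Kf
  refine (norm_sum_le _ _).trans ?_
  calc ∑ n ∈ S, ‖er (2 * Real.pi * t) (ψ n)‖ = ∑ n ∈ S, (1 : ℝ) :=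
        sum_congr rfl fun n _ => er_norm _ _
    _ = _ := by simp
    _ ≤ _ := le_rfl

theorem block_eq (φ : ℕ → ℝ → ℝ) (ψ : ℕ → ℝ) (n0 : ℕ) (hψ : ∀ n : ℕ, n0 ≤ n → ψ n = φ 0 n) (a L : ℕ) (ha : n0 ≤ a)
    (t : ℝ) : ∑ n ∈ Ioc a (a + L), er (2 * Real.pi * t) (ψ n) =
      ∑ i ∈ range L, e (t * φ 0 (((a + 1 : ℕ) : ℝ) + i)) := by
  have e1 : Ioc a (a + L) = Ico (a + 1) (a + 1 + L) := by
    ext n
    simp only [mem_Ioc, mem_Ico]
    omega
  rw [e1, Finset.sum_Ico_eq_sum_range, Nat.add_sub_cancel_left]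
  refine sum_congr rfl fun i _ => ?_
  rw [hψ _ (by omega)]
  unfold er e
  congr 3
  push_cast
  ring

theorem kern {φ : ℕ → ℝ → ℝ} (hφ : Reg φ) (ψ : ℕ → ℝ) (n0 : ℕ) (hψ : ∀ n : ℕ, n0 ≤ n → ψ n = φ 0 n) (K Q' : ℕ) :
    ∃ η : ℝ, 0 < η ∧ ∃ C0 : ℝ, 0 ≤ C0 ∧ ∀ᶠ N : ℕ in atTop, ∀ t : ℝ, |t| ≤ (N : ℝ) ^ Q' →
      ‖Kf ψ (Ioc ⌊(N : ℝ) / (Real.log N) ^ K⌋₊ N) t‖ ≤
        (if |t| ≤ (N : ℝ) ^ (1 / 2 : ℝ) then C0 * (Real.log N) ^ K * N / (1 + |t|) else 0) +
          C0 * (Real.log N) ^ K * (N : ℝ) ^ (1 - η) := by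
  obtain ⟨x0, c, C, hx0, hc, hC, hU⟩ := hφ.unif 1
  obtain ⟨η, hη0, hη1, C1, hC1, hexp⟩ := exp_sum_boundL hφ (2 * Q' + 1) (by omega)
  refine ⟨η, hη0, 2 * C1 + 24 / c + 2, by positivity, ?_⟩
  filter_upwards [cut_size K, (cut_atTop K).eventually_ge_atTop n0, (cut_atTop K).eventually_ge_atTop ⌈x0⌉₊,
    pw 2 K (show (0:ℝ) < 1 / 2 by norm_num), pw (4 * C) K (show (0:ℝ) < 1 / 2 by norm_num),
    eventually_ge_atTop 1] with N hcut hJn hJx h1 h2 hN t ht
  obtain ⟨hl, hJ1, hJ2, hJ3, hJ4⟩ := hcut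
  set ℓ := Real.log N with hℓ
  set J := ⌊(N : ℝ) / ℓ ^ K⌋₊ with hJ
  have hN0 : (0 : ℝ) < N := by exact_mod_cast hN
  have hN1 : (1 : ℝ) ≤ N := by exact_mod_cast hN
  have hlK : 1 ≤ ℓ ^ K := one_le_pow₀ hl
  have hJ0 : (0 : ℝ) < J := by exact_mod_cast hJ1
  have hJx0 : x0 ≤ J := (Nat.le_ceil x0).trans (by exact_mod_cast hJx)
  have hsq : (N : ℝ) ^ (1 / 2 : ℝ) * (N : ℝ) ^ (1 / 2 : ℝ) = N := by
    rw [← Real.rpow_add hN0]
    norm_num
  set s : ℝ := (N : ℝ) ^ (1 / 2 : ℝ) with hs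
  have hs1 : 1 ≤ s := Real.one_le_rpow hN1 (by norm_num)
  have hJs : s ≤ J := by
    have h3 : s * s ≤ s * J := by
      calc s * s = N := hsq
        _ ≤ 2 * ℓ ^ K * J := hJ2
        _ ≤ s * J := mul_le_mul_of_nonneg_right h1 hJ0.le
    exact le_of_mul_le_mul_left h3 (by linarith)
  have hJC : 2 * C * s ≤ J := by
    have h3 : (4 * C * s) * s ≤ s * (2 * J) := by
      calc (4 * C * s) * s = 4 * C * N := by rw [mul_assoc, hsq]
        _ ≤ 4 * C * (2 * ℓ ^ K * J) := mul_le_mul_of_nonneg_left hJ2 (by positivity)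
        _ = (4 * C * ℓ ^ K) * (2 * J) := by ring
        _ ≤ s * (2 * J) := mul_le_mul_of_nonneg_right h2 (by positivity)
    have h4 : s * (4 * C * s) ≤ s * (2 * J) := by linarith
    have h5 := le_of_mul_le_mul_left h4 (by linarith)
    linarith
  -- the number of blocks
  set q : ℕ := N / J with hq
  have hqJ : N - J ≤ q * J := by
    have h3 : N < (q + 1) * J := by
      have := Nat.div_add_mod N J
      have h4 := Nat.mod_lt N (show 0 < J by omega)
      rw [← hq] at this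
      nlinarith
    have h5 : (q + 1) * J = q * J + J := by ring
    omega
  have hqr : (q : ℝ) ≤ 2 * ℓ ^ K := by
    have h3 : (q : ℝ) ≤ (N : ℝ) / J := Nat.cast_div_le
    refine h3.trans ?_
    rw [div_le_iff₀ hJ0]
    exact hJ2
  have hsum : ∀ b : ℝ, 0 ≤ b → (∀ a L, J ≤ a → L ≤ J → a + L ≤ N →
      ‖∑ n ∈ Ioc a (a + L), er (2 * Real.pi * |t|) (ψ n)‖ ≤ b) → ‖Kf ψ (Ioc J N) t‖ ≤ 2 * ℓ ^ K * b := by
    intro b hb0 hb
    have h3 := blocks (fun n => er (2 * Real.pi * |t|) (ψ n)) J N b hb0 hb q J (N - J) le_rfl hqJ (by omega)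
    rw [show J + (N - J) = N by omega] at h3
    rw [Kf_abs]
    exact h3.trans (mul_le_mul_of_nonneg_right hqr hb0)
  have hpos2 : 0 ≤ (2 * C1 + 24 / c + 2) * ℓ ^ K * (N : ℝ) ^ (1 - η) := by positivity
  by_cases hts : |t| ≤ s
  · rw [if_pos hts]
    refine le_trans ?_ (le_add_of_nonneg_right hpos2)
    have ht0 := abs_nonneg t
    rcases lt_or_ge |t| 1 with h3 | h3
    · refine (Kf_card _ _ _).trans ?_
      rw [Nat.card_Ioc, le_div_iff₀ (by positivity)]
      have h4 : ((N - J : ℕ) : ℝ) ≤ N := by exact_mod_cast Nat.sub_le N J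
      have h5 : ((N - J : ℕ) : ℝ) * (1 + |t|) ≤ N * 2 :=
        mul_le_mul h4 (by linarith) (by linarith) hN0.le
      have h6 : (N : ℝ) * 2 ≤ (2 * C1 + 24 / c + 2) * ℓ ^ K * N := by
        have : (2 : ℝ) ≤ (2 * C1 + 24 / c + 2) * ℓ ^ K := by
          have h7 : (0 : ℝ) ≤ 2 * C1 + 24 / c := by positivity
          nlinarith
        nlinarith
      linarith
    · have htp : 0 < |t| := by linarith
      have hb : ∀ a L, J ≤ a → L ≤ J → a + L ≤ N →
          ‖∑ n ∈ Ioc a (a + L), er (2 * Real.pi * |t|) (ψ n)‖ ≤ 12 * N / (c * (1 + |t|)) := by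
        intro a L ha hL haN
        rw [block_eq φ ψ n0 hψ a L (hJn.trans ha)]
        have haJ : (J : ℝ) ≤ a := by exact_mod_cast ha
        have hLJ : (L : ℝ) ≤ J := by exact_mod_cast hL
        have ha0 : (0 : ℝ) < a := by linarith
        have haN' : (a : ℝ) ≤ N := by exact_mod_cast (by omega : a ≤ N)
        have ha1 : (1 : ℝ) ≤ a := by
          have : (1 : ℝ) ≤ J := by exact_mod_cast hJ1
          linarith
        have h5 := SL_le hU hc hC |t| htp a ((a + 1 : ℕ) : ℝ) L (by exact_mod_cast ha1)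
          (hJx0.trans haJ) (by push_cast; linarith) (by push_cast; linarith) [] (by simp) (by simp) (by
            simp only [List.length_nil, zero_add, pow_one, List.prod_nil, Nat.cast_one, mul_one]
            have e1 : 2 * (|t| * (C / (a : ℝ))) = (2 * C * |t|) / a := by ring
            rw [e1, div_le_one ha0]
            calc 2 * C * |t| ≤ 2 * C * s := mul_le_mul_of_nonneg_left hts (by positivity)
              _ ≤ a := hJC.trans haJ)
        have e2 : SL φ |t| ((a + 1 : ℕ) : ℝ) L [] = ∑ i ∈ range L, e (|t| * φ 0 (((a + 1 : ℕ) : ℝ) + i)) := by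
          unfold SL
          simp only [List.sum_nil, Nat.sub_zero]
          rfl
        rw [← e2]
        refine h5.trans ?_
        simp only [List.length_nil, zero_add, pow_one, List.prod_nil, Nat.cast_one, mul_one]
        rw [div_le_div_iff₀ (by positivity) (by positivity)]
        have h6 : c * (1 + |t|) ≤ c * (2 * |t|) := mul_le_mul_of_nonneg_left (by linarith) hc.le
        calc 2 * (3 * (a : ℝ)) * (c * (1 + |t|)) ≤ 2 * (3 * (N : ℝ)) * (c * (2 * |t|)) := by gcongr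
          _ = 12 * N * (|t| * c) := by ring
      refine (hsum _ (by positivity) hb).trans ?_
      have e3 : 2 * ℓ ^ K * (12 * N / (c * (1 + |t|))) = (24 / c) * ℓ ^ K * N / (1 + |t|) := by
        field_simp
        ring
      rw [e3]
      refine div_le_div_of_nonneg_right ?_ (by positivity)
      have : 0 ≤ (2 * C1 + 2) * (ℓ ^ K * N) := by positivity
      nlinarith
  · rw [if_neg hts, zero_add]
    rw [not_le] at hts
    have hb : ∀ a L, J ≤ a → L ≤ J → a + L ≤ N →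
        ‖∑ n ∈ Ioc a (a + L), er (2 * Real.pi * |t|) (ψ n)‖ ≤ C1 * (N : ℝ) ^ (1 - η) := by
      intro a L ha hL haN
      rw [block_eq φ ψ n0 hψ a L (hJn.trans ha)]
      have haJ : (J : ℝ) ≤ a := by exact_mod_cast ha
      have hLJ : (L : ℝ) ≤ J := by exact_mod_cast hL
      have ha0 : (0 : ℝ) < a := by linarith
      have haN' : (a : ℝ) ≤ N := by exact_mod_cast (by omega : a ≤ N)
      have ha1 : (1 : ℝ) ≤ a := by
        have : (1 : ℝ) ≤ J := by exact_mod_cast hJ1
        linarith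
      have h5 := hexp a L ((a + 1 : ℕ) : ℝ) |t| (by exact_mod_cast ha1) (by push_cast; linarith)
        (by omega) (by push_cast; linarith)
        (by
          refine le_trans ?_ hts.le
          exact Real.rpow_le_rpow ha0.le haN' (by norm_num))
        (by
          refine ht.trans ?_
          calc (N : ℝ) ^ Q' = (s * s) ^ Q' := by rw [hsq]
            _ ≤ ((a : ℝ) * a) ^ Q' := by
                have : s ≤ a := hJs.trans haJ
                gcongr
            _ = (a : ℝ) ^ (2 * Q') := by rw [← sq, ← pow_mul]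
            _ ≤ (a : ℝ) ^ (2 * Q' + 1) := pow_le_pow_right₀ ha1 (by omega))
      refine h5.trans ?_
      exact mul_le_mul_of_nonneg_left (Real.rpow_le_rpow ha0.le haN' (by linarith)) hC1.le
    refine (hsum _ (by positivity) hb).trans ?_
    have : 0 ≤ (24 / c + 2) * (ℓ ^ K * (N : ℝ) ^ (1 - η)) := by positivity
    nlinarith

end Pool.Agent.Q138.GS
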