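import Pool.Agent.Q138.GS.Fub

set_option autoImplicit false

/-!
# The Liouville function at the values of almost all real systems
-/

namespace Pool.Agent.Q138.GS

open Finset Filter Topology MeasureTheory
open scoped Classical
open Pool.Agent.Y957.VK
open Pool.Agent.H376R2.MR (er)

theorem neg_smul {f : ℕ → ℂ} (hf : Neg f) (c : ℂ) : Neg fun n => c * f n := by
  intro A K
  obtain ⟨C, hC⟩ := hf A K
  refine ⟨‖c‖ * C, fun N τ hN hτ => ?_⟩
  have e : ∑ n ∈ Icc 1 N, (c * f n) * er τ (Real.log n) = c * ∑ n ∈ Icc 1 N, f n * er τ (Real.log n) := by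
    rw [mul_sum]
    exact sum_congr rfl fun n _ => by ring
  rw [e, norm_mul]
  calc ‖c‖ * _ ≤ ‖c‖ * (C * N / (Real.log N) ^ K) := mul_le_mul_of_nonneg_left (hC N τ hN hτ) (norm_nonneg _)
    _ = _ := by ring

theorem neg_zero' : Neg fun _ => (0 : ℂ) := by
  have := neg_smul neg_liou 0
  simpa using this

/-- the dilates of a general system: products of functions `c0 i + f i` -/
theorem gen_sav (k : ℕ) (c : Fin (k + 1) → ℝ) (P : Fin (k + 1) → ℕ → ℝ) (hP : ∀ i, Sm (c i) (P i))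
    (β : Fin (k + 1) → ℝ) (F f : Fin (k + 1) → ℕ → ℂ) (c0 : Fin (k + 1) → ℂ)
    (hFf : ∀ i n, F i n = c0 i + f i n) (hF : ∀ i (n : ℕ), ‖F i n‖ ≤ Real.log (n + 3))
    (hf : ∀ i (n : ℕ), ‖f i n‖ ≤ Real.log (n + 3)) (hN : ∀ i, Neg (f i)) (g : ℕ → ℂ) (C0 : ℝ) (B : ℕ)
    (hg : ∀ n : ℕ, 1 ≤ n → ‖g n‖ ≤ C0 * (Real.log (n + 3)) ^ B) :
    ∀ᵐ α ∂(pm (k + 1)), Sav fun n => g n * (∏ i, F i ⌊α i * P i n + β i⌋₊ - ∏ i, c0 i) := by
  choose A' C1 hC1 hbd using fun i => (hP i).bd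
  exact prod_sav k F f c0 hFf hF hf P A' C1 hbd β (fun i => (hP i).un (f i) (hf i) (hN i) (β i)) g C0 B hg

/-- factors for the indices in `I` -/
noncomputable def FI (k : ℕ) (I : Finset (Fin (k + 1))) (i : Fin (k + 1)) (n : ℕ) : ℂ :=
  if i ∈ I then liou n else 1

noncomputable def fI (k : ℕ) (I : Finset (Fin (k + 1))) (i : Fin (k + 1)) (n : ℕ) : ℂ :=
  if i ∈ I then liou n else 0

noncomputable def cI (k : ℕ) (I : Finset (Fin (k + 1))) (i : Fin (k + 1)) : ℂ := if i ∈ I then 0 else 1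

theorem FI_eq (k : ℕ) (I : Finset (Fin (k + 1))) (i : Fin (k + 1)) (n : ℕ) : FI k I i n = cI k I i + fI k I i n := by
  unfold FI cI fI
  split_ifs <;> simp

theorem FI_le (k : ℕ) (I : Finset (Fin (k + 1))) (i : Fin (k + 1)) (n : ℕ) : ‖FI k I i n‖ ≤ Real.log (n + 3) := by
  unfold FI
  split_ifs
  · exact liou_le n
  · rw [norm_one]
    exact lg3 n

theorem fI_le (k : ℕ) (I : Finset (Fin (k + 1))) (i : Fin (k + 1)) (n : ℕ) : ‖fI k I i n‖ ≤ Real.log (n + 3) := by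
  unfold fI
  split_ifs
  · exact liou_le n
  · rw [norm_zero]
    linarith [lg3 n]

theorem fI_neg (k : ℕ) (I : Finset (Fin (k + 1))) (i : Fin (k + 1)) : Neg (fI k I i) := by
  unfold fI
  by_cases h : i ∈ I
  · simpa [h] using neg_liou
  · simpa [h] using neg_zero'

theorem cI_prod (k : ℕ) {I : Finset (Fin (k + 1))} (hI : I.Nonempty) : ∏ i, cI k I i = 0 := by
  obtain ⟨i, hi⟩ := hI
  refine prod_eq_zero (mem_univ i) ?_
  unfold cI
  rw [if_pos hi]

theorem FI_prod (k : ℕ) (I : Finset (Fin (k + 1))) (m : Fin (k + 1) → ℕ) :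
    ∏ i, FI k I i (m i) = ∏ i ∈ I, liou (m i) := by
  unfold FI
  rw [Finset.prod_ite_mem]
  simp

/-- the pattern factor `(1 + η λ) / 2` -/
noncomputable def FP (η : ℝ) (n : ℕ) : ℂ := 1 / 2 + (η / 2 : ℝ) * liou n

theorem FP_le {η : ℝ} (h : η = 1 ∨ η = -1) (n : ℕ) : ‖FP η n‖ ≤ Real.log (n + 3) := by
  have h1 : ‖FP η n‖ ≤ 1 := by
    unfold FP
    refine (norm_add_le _ _).trans ?_
    rw [norm_mul, liou_norm, Complex.norm_real, Real.norm_eq_abs]
    rcases h with rfl | rfl <;> norm_num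
  exact h1.trans (lg3 n)

theorem fP_le {η : ℝ} (h : η = 1 ∨ η = -1) (n : ℕ) : ‖((η / 2 : ℝ) : ℂ) * liou n‖ ≤ Real.log (n + 3) := by
  rw [norm_mul, liou_norm, Complex.norm_real, Real.norm_eq_abs]
  have h3 := lg3 n
  rcases h with rfl | rfl <;> · norm_num; linarith

/-- the Liouville function, real valued -/
noncomputable def lamR (n : ℕ) : ℝ := (-1 : ℝ) ^ ArithmeticFunction.cardFactors n

theorem lamR_eq (n : ℕ) : ((lamR n : ℝ) : ℂ) = liou n := by
  unfold lamR liou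
  push_cast
  rfl

theorem lamR_pm (n : ℕ) : lamR n = 1 ∨ lamR n = -1 := neg_one_pow_eq_or ℝ _

theorem FP_eq {η : ℝ} (h : η = 1 ∨ η = -1) (n : ℕ) : FP η n = if lamR n = η then 1 else 0 := by
  unfold FP
  rw [← lamR_eq]
  rcases h with rfl | rfl <;> rcases lamR_pm n with h1 | h1 <;> rw [h1] <;> norm_num

end Pool.Agent.Q138.GS
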