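import Pool.Agent.Q138.GS.Kd

set_option autoImplicit false

/-!
# Exponential sums over arithmetic progressions, uniformly in the modulus
-/

namespace Pool.Agent.Q138.GS

open Finset
open Pool.Agent.H469R2.NK (e norm_e e_add conj_e vdcH kusmin_landau_anti
  norm_sum_neg Av Av_le Cq Cq_pos iterate harm_le)

/-- positive frequencies, constants which depend on the bounds for the derivatives only -/
theorem exp_sum_boundU (Q : ℕ) (hQ : 1 ≤ Q) {x0 c C0 : ℝ} (hc : 0 < c) (hC0 : 0 < C0) :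
    ∃ η : ℝ, 0 < η ∧ η ≤ 1 ∧ ∃ C : ℝ, 0 < C ∧ ∀ φ : ℕ → ℝ → ℝ, RegU φ (Q + 1) x0 c C0 →
      ∀ (N L : ℕ) (u Z : ℝ), 1 ≤ N → (N : ℝ) ≤ u →
      L ≤ N → u + L ≤ 3 * N → (N : ℝ) ^ (1 / 2 : ℝ) ≤ Z → Z ≤ (N : ℝ) ^ Q →
      ‖∑ n ∈ range L, e (Z * φ 0 (u + n))‖ ≤ C * (N : ℝ) ^ (1 - η) := by
  set η : ℝ := 1 / (4 * Q * 2 ^ Q) with hη
  have hQ' : (1 : ℝ) ≤ Q := by exact_mod_cast hQ
  have h2Q : (1 : ℝ) ≤ 2 ^ Q := one_le_pow₀ (by norm_num)
  have hη0 : 0 < η := by rw [hη]; positivity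
  have hη1 : η ≤ 1 / 4 := by
    rw [hη, div_le_div_iff₀ (by positivity) (by norm_num)]
    nlinarith
  set N0 : ℝ := max (max 16 x0) (max ((2 * C0) ^ 2) ((2 * C0) ^ 4)) with hN0
  set K : ℝ := Cq Q * (2 + (2 * 3 ^ (Q + 1) / c) * 2 ^ Q * (1 + 4 * Q) ^ Q) with hK
  have hCq := Cq_pos Q
  have hK0 : 0 < K := by rw [hK]; positivity
  set C : ℝ := max (max (6 / c) N0) (K ^ ((1 : ℝ) / 2 ^ Q)) with hC
  refine ⟨η, hη0, by linarith, C, by rw [hC]; positivity, ?_⟩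
  intro φ hU N L u Z hN ha hL haL hZ1 hZ2
  have hN' : (1 : ℝ) ≤ N := by exact_mod_cast hN
  have hNpos : (0 : ℝ) < N := by linarith
  have hC6 : 6 / c ≤ C := (le_max_left _ _).trans (le_max_left _ _)
  have hCN0 : N0 ≤ C := (le_max_right _ _).trans (le_max_left _ _)
  have hCK : K ^ ((1 : ℝ) / 2 ^ Q) ≤ C := le_max_right _ _
  have hZ : 0 < Z := lt_of_lt_of_le (by positivity) hZ1
  have hSS : ∑ n ∈ range L, e (Z * φ 0 (u + n)) = SL φ Z u L [] := by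
    unfold SL
    simp only [List.sum_nil, Nat.sub_zero]
    rfl
  rw [hSS]
  have htriv : ‖SL φ Z u L []‖ ≤ N := by
    unfold SL
    refine (norm_sum_le _ _).trans ?_
    simp only [norm_e, sum_const, card_range, nsmul_eq_mul, mul_one, List.sum_nil, Nat.sub_zero]
    exact_mod_cast hL
  rcases lt_or_ge (N : ℝ) N0 with hsmall | hbig
  · refine htriv.trans ?_
    calc (N : ℝ) ≤ N0 * 1 := by linarith
      _ ≤ C * (N : ℝ) ^ (1 - η) := by
        gcongr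
        exact Real.one_le_rpow hN' (by linarith)
  have h16 : (16 : ℝ) ≤ N := ((le_max_left _ _).trans (le_max_left _ _)).trans hbig
  have hNx : x0 ≤ (N : ℝ) := ((le_max_right _ _).trans (le_max_left _ _)).trans hbig
  have hfac : (2 * C0) ^ 2 ≤ (N : ℝ) := ((le_max_left _ _).trans (le_max_right _ _)).trans hbig
  have hfac4 : (2 * C0) ^ 4 ≤ (N : ℝ) := ((le_max_right _ _).trans (le_max_right _ _)).trans hbig
  rcases le_or_gt Z ((N : ℝ) ^ (3 / 4 : ℝ)) with hcase | hcase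
  · -- direct Kusmin–Landau
    have h1 := SL_le hU hc hC0 Z hZ N u L hN hNx ha haL [] (by simp) (by simp) (by
      simp only [List.length_nil, zero_add, Nat.cast_one, List.prod_nil, mul_one, pow_one]
      have e1 : 2 * C0 ≤ (N : ℝ) ^ (1 / 4 : ℝ) := by
        have h5 : ((2 * C0) ^ 4) ^ (1 / 4 : ℝ) ≤ (N : ℝ) ^ (1 / 4 : ℝ) := by gcongr
        rwa [← Real.rpow_natCast, ← Real.rpow_mul (by positivity),
          show (((4 : ℕ) : ℝ) * (1 / 4 : ℝ)) = 1 by norm_num, Real.rpow_one] at h5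
      have e2 : (N : ℝ) ^ (3 / 4 : ℝ) * (N : ℝ) ^ (1 / 4 : ℝ) = (N : ℝ) := by
        rw [← Real.rpow_add hNpos]; norm_num
      have e3 : 2 * (Z * (C0 / (N : ℝ))) = (Z * (2 * C0)) / N := by ring
      rw [e3, div_le_one (by positivity)]
      calc Z * (2 * C0) ≤ (N : ℝ) ^ (3 / 4 : ℝ) * (N : ℝ) ^ (1 / 4 : ℝ) := by gcongr
        _ = N := e2)
    simp only [List.length_nil, zero_add, Nat.cast_one, List.prod_nil, mul_one, pow_one] at h1
    refine h1.trans ?_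
    rw [div_le_iff₀ (by positivity)]
    have e3 : (N : ℝ) ^ (1 / 2 : ℝ) * (N : ℝ) ^ (1 / 2 : ℝ) = (N : ℝ) := by
      rw [← Real.rpow_add hNpos]; norm_num
    have e4 : (N : ℝ) ^ (1 / 2 : ℝ) ≤ (N : ℝ) ^ (1 - η) :=
      Real.rpow_le_rpow_of_exponent_le hN' (by linarith)
    have e5 : 6 ≤ C * c := by rwa [div_le_iff₀ hc] at hC6
    calc 2 * (3 * (N : ℝ)) = 6 * ((N : ℝ) ^ (1 / 2 : ℝ) * (N : ℝ) ^ (1 / 2 : ℝ)) := by rw [e3]; ring
      _ ≤ (C * c) * ((N : ℝ) ^ (1 - η) * Z) := by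
        gcongr
      _ = _ := by ring
  · -- Weyl - van der Corput
    set h : ℝ := ((N : ℝ) ^ (Q + 1 / 2 : ℝ) / Z) ^ ((1 : ℝ) / Q) with hh
    have hhQ : h ^ Q = (N : ℝ) ^ (Q + 1 / 2 : ℝ) / Z := by
      rw [hh, ← Real.rpow_natCast, ← Real.rpow_mul (by positivity), one_div_mul_cancel (by positivity), Real.rpow_one]
    have hh0 : 0 ≤ h := by rw [hh]; positivity
    have hlow : (N : ℝ) ^ (1 / 2 : ℝ) ≤ h ^ Q := by
      rw [hhQ, le_div_iff₀ hZ]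
      calc (N : ℝ) ^ (1 / 2 : ℝ) * Z ≤ (N : ℝ) ^ (1 / 2 : ℝ) * (N : ℝ) ^ Q := by gcongr
        _ = _ := by
          rw [← Real.rpow_natCast, ← Real.rpow_add hNpos]
          congr 1; ring
    have hupp : h ^ Q ≤ (N : ℝ) ^ Q := by
      rw [hhQ, div_le_iff₀ hZ]
      calc (N : ℝ) ^ (Q + 1 / 2 : ℝ) ≤ (N : ℝ) ^ (Q + 3 / 4 : ℝ) := by
            apply Real.rpow_le_rpow_of_exponent_le hN'; linarith
        _ = (N : ℝ) ^ Q * (N : ℝ) ^ (3 / 4 : ℝ) := by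
            rw [Real.rpow_add hNpos, Real.rpow_natCast]
        _ ≤ _ := by gcongr
    have hhN : h ≤ N := le_of_pow_le_pow_left₀ (by omega) (by positivity) hupp
    have hN12 : (1 : ℝ) ≤ (N : ℝ) ^ (1 / 2 : ℝ) := Real.one_le_rpow hN' (by norm_num)
    have hh1 : 1 ≤ h := by
      by_contra hlt
      rw [not_le] at hlt
      have : h ^ Q ≤ 1 := pow_le_one₀ hh0 hlt.le
      have h4 : (4 : ℝ) ≤ (N : ℝ) ^ (1 / 2 : ℝ) := by
        calc (4 : ℝ) = (16 : ℝ) ^ (1 / 2 : ℝ) := by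
              rw [show (16 : ℝ) = 4 ^ (2 : ℝ) by norm_num, ← Real.rpow_mul (by norm_num)]; norm_num
          _ ≤ _ := by gcongr
      linarith
    set H : ℕ := ⌊h⌋₊ with hH
    have hH1 : 1 ≤ H := Nat.one_le_floor_iff _ |>.mpr hh1
    have hHle : (H : ℝ) ≤ h := Nat.floor_le hh0
    have hHN : H ≤ N := by exact_mod_cast hHle.trans hhN
    have hHge : h / 2 ≤ H := by
      have h1 : h < H + 1 := Nat.lt_floor_add_one h
      have h2 : (1 : ℝ) ≤ H := by exact_mod_cast hH1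
      linarith
    have hH1' : (1 : ℝ) ≤ H := by exact_mod_cast hH1
    have hsq : 2 * C0 ≤ (N : ℝ) ^ (1 / 2 : ℝ) := by
      rw [← Real.sqrt_eq_rpow]
      exact Real.le_sqrt_of_sq_le hfac
    have hZh : Z * h ^ Q = (N : ℝ) ^ (Q + 1 / 2 : ℝ) := by rw [hhQ]; field_simp
    have hcond : 2 * (Z * (C0 / (N : ℝ) ^ (Q + 1) * (H : ℝ) ^ Q)) ≤ 1 := by
      have e1 : (N : ℝ) ^ (Q + 1) = (N : ℝ) ^ (Q + 1 / 2 : ℝ) * (N : ℝ) ^ (1 / 2 : ℝ) := by
        rw [← Real.rpow_add hNpos, ← Real.rpow_natCast]; congr 1; push_cast; ring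
      have e2 : 2 * (Z * (C0 / (N : ℝ) ^ (Q + 1) * (H : ℝ) ^ Q)) =
          (2 * C0) * (Z * (H : ℝ) ^ Q) / (N : ℝ) ^ (Q + 1) := by
        ring
      rw [e2, div_le_one (by positivity), e1, ← hZh]
      calc (2 * C0) * (Z * (H : ℝ) ^ Q) ≤ (N : ℝ) ^ (1 / 2 : ℝ) * (Z * h ^ Q) := by gcongr
        _ = _ := by ring
    have hb := exp_boundL hU hc hC0 Q le_rfl Z hZ N u L H hN hNx ha hL haL hH1 hHN hcond
    -- first term
    have hhlow : (N : ℝ) ^ ((1 : ℝ) / (2 * Q)) ≤ h := by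
      have : ((N : ℝ) ^ ((1 : ℝ) / (2 * Q))) ^ Q ≤ h ^ Q := by
        rw [← Real.rpow_natCast, ← Real.rpow_mul (by positivity)]
        refine le_trans (le_of_eq ?_) hlow
        congr 1; field_simp
      exact le_of_pow_le_pow_left₀ (by omega) hh0 this
    have hQpos : (0 : ℝ) < Q := by linarith
    have hterm1 : 1 / (H : ℝ) ≤ 2 * (N : ℝ) ^ (-(1 : ℝ) / (4 * Q)) := by
      have h1 : (0 : ℝ) < (N : ℝ) ^ ((1 : ℝ) / (4 * Q)) := by positivity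
      have h2 : (N : ℝ) ^ ((1 : ℝ) / (4 * Q)) ≤ (N : ℝ) ^ ((1 : ℝ) / (2 * Q)) := by
        apply Real.rpow_le_rpow_of_exponent_le hN'
        gcongr; norm_num
      rw [neg_div, Real.rpow_neg (by positivity), ← div_eq_mul_inv, div_le_div_iff₀ (by positivity) h1]
      linarith
    have hlog : 1 + Real.log H ≤ (1 + 4 * Q) * (N : ℝ) ^ ((1 : ℝ) / (4 * Q)) := by
      have h1 : Real.log H ≤ Real.log N := Real.log_le_log (by positivity) (by exact_mod_cast hHN)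
      have h2 := Real.log_le_rpow_div (x := N) (ε := (1 : ℝ) / (4 * Q)) (by positivity) (by positivity)
      have h3 : (N : ℝ) ^ ((1 : ℝ) / (4 * Q)) / ((1 : ℝ) / (4 * Q)) = 4 * Q * (N : ℝ) ^ ((1 : ℝ) / (4 * Q)) := by
        field_simp
      have h4 : (1 : ℝ) ≤ (N : ℝ) ^ ((1 : ℝ) / (4 * Q)) := Real.one_le_rpow hN' (by positivity)
      rw [h3] at h2
      nlinarith
    have hterm2 : (2 * (3 * N) ^ (Q + 1) / (Z * c) / N) * ((∑ l ∈ Ico 1 H, (1 : ℝ) / l) / H) ^ Q ≤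
        (2 * 3 ^ (Q + 1) / c) * 2 ^ Q * (1 + 4 * Q) ^ Q * (N : ℝ) ^ (-(1 : ℝ) / (4 * Q)) := by
      have hs0 : 0 ≤ ∑ l ∈ Ico 1 H, (1 : ℝ) / l := sum_nonneg fun _ _ => by positivity
      have h1 : ((∑ l ∈ Ico 1 H, (1 : ℝ) / l) / H) ^ Q ≤
          (((1 + 4 * Q) * (N : ℝ) ^ ((1 : ℝ) / (4 * Q))) / (h / 2)) ^ Q := by
        gcongr
        exact (Pool.Agent.H469R2.NK.harm_le H).trans hlog
      have h2 : (((1 + 4 * Q) * (N : ℝ) ^ ((1 : ℝ) / (4 * Q))) / (h / 2)) ^ Q =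
          (1 + 4 * Q) ^ Q * (N : ℝ) ^ ((1 : ℝ) / 4) * 2 ^ Q / h ^ Q := by
        rw [div_pow, mul_pow, div_pow, div_div_eq_mul_div]
        congr 3
        rw [← Real.rpow_natCast, ← Real.rpow_mul (by positivity)]
        congr 1; field_simp
      have h3 : (N : ℝ) ^ ((1 : ℝ) / 4) * (N : ℝ) ^ Q * (N : ℝ) ^ ((1 : ℝ) / (4 * Q)) ≤ Z * h ^ Q := by
        rw [hZh, ← Real.rpow_natCast, ← Real.rpow_add hNpos, ← Real.rpow_add hNpos]
        apply Real.rpow_le_rpow_of_exponent_le hN'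
        have : (1 : ℝ) / (4 * Q) ≤ 1 / 4 := by
          rw [div_le_div_iff₀ (by positivity) (by norm_num)]; linarith
        linarith
      have hNQ : (0 : ℝ) < (N : ℝ) ^ ((1 : ℝ) / (4 * Q)) := by positivity
      calc _ ≤ (2 * (3 * N) ^ (Q + 1) / (Z * c) / N) *
            ((1 + 4 * Q) ^ Q * (N : ℝ) ^ ((1 : ℝ) / 4) * 2 ^ Q / h ^ Q) := by rw [← h2]; gcongr
        _ = (2 * 3 ^ (Q + 1) / c) * 2 ^ Q * (1 + 4 * Q) ^ Q *
            (((N : ℝ) ^ ((1 : ℝ) / 4) * (N : ℝ) ^ Q) / (Z * h ^ Q)) := by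
            rw [mul_pow, pow_succ (N : ℝ) Q]
            exact Pool.Agent.H469R2.NK.alg_aux _ _ _ _ _ _ _ _ _ hZ.ne' hNpos.ne' (by positivity) (by positivity)
        _ ≤ _ := by
            gcongr
            rw [neg_div, Real.rpow_neg (by positivity), ← one_div, div_le_div_iff₀ (by positivity) hNQ]
            linarith
    have hfin : (‖SL φ Z u L []‖ / N) ^ (2 ^ Q) ≤ K * (N : ℝ) ^ (-(1 : ℝ) / (4 * Q)) := by
      refine hb.trans ?_
      calc _ ≤ Cq Q * (2 * (N : ℝ) ^ (-(1 : ℝ) / (4 * Q)) +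
            (2 * 3 ^ (Q + 1) / c) * 2 ^ Q * (1 + 4 * Q) ^ Q * (N : ℝ) ^ (-(1 : ℝ) / (4 * Q))) := by
            gcongr
        _ = _ := by rw [hK]; ring
    have hroot : ‖SL φ Z u L []‖ / N ≤ K ^ ((1 : ℝ) / 2 ^ Q) * (N : ℝ) ^ (-η) := by
      have h1 : (‖SL φ Z u L []‖ / N) = ((‖SL φ Z u L []‖ / N) ^ (2 ^ Q)) ^ ((1 : ℝ) / 2 ^ Q) := by
        rw [← Real.rpow_natCast, ← Real.rpow_mul (by positivity)]
        push_cast
        rw [mul_one_div_cancel (by positivity), Real.rpow_one]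
      rw [h1]
      calc _ ≤ (K * (N : ℝ) ^ (-(1 : ℝ) / (4 * Q))) ^ ((1 : ℝ) / 2 ^ Q) := by gcongr
        _ = K ^ ((1 : ℝ) / 2 ^ Q) * (N : ℝ) ^ (-(1 : ℝ) / (4 * Q) * (1 / 2 ^ Q)) := by
            rw [Real.mul_rpow hK0.le (by positivity), ← Real.rpow_mul (by positivity)]
        _ ≤ _ := by
            gcongr
            have : -(1 : ℝ) / (4 * Q) * (1 / 2 ^ Q) = -(1 / (4 * Q * 2 ^ Q)) := by
              field_simp
            rw [this, hη]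
    rw [div_le_iff₀ hNpos] at hroot
    calc ‖SL φ Z u L []‖ ≤ K ^ ((1 : ℝ) / 2 ^ Q) * (N : ℝ) ^ (-η) * N := hroot
      _ ≤ C * (N : ℝ) ^ (-η) * N := by gcongr
      _ = _ := by
        rw [mul_assoc, sub_eq_neg_add, Real.rpow_add hNpos, Real.rpow_one]


/-- the function along a progression -/
noncomputable def phq (φ : ℕ → ℝ → ℝ) (q a : ℕ) (r : ℕ) (x : ℝ) : ℝ := (q : ℝ) ^ r * φ r (q * x + a)

theorem phq_reg {φ : ℕ → ℝ → ℝ} {R : ℕ} {x0 c C : ℝ} (hc : 0 < c) (hC : 0 < C) (h : RegU φ R x0 c C) (q a : ℕ)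
    (hq : 1 ≤ q) (ha : a ≤ q) : RegU (phq φ q a) R (max x0 1) (c / 2 ^ (R + 1)) C := by
  intro r hr x hx
  have hx0 : x0 ≤ x := (le_max_left _ _).trans hx
  have hx1 : 1 ≤ x := (le_max_right _ _).trans hx
  have hqr : (1 : ℝ) ≤ q := by exact_mod_cast hq
  have har : (a : ℝ) ≤ q := by exact_mod_cast ha
  have ha0 : (0 : ℝ) ≤ a := Nat.cast_nonneg a
  have hy1 : q * x ≤ q * x + a := by linarith
  have hy2 : q * x + a ≤ 2 * (q * x) := by nlinarith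
  have hy0 : x0 ≤ q * x + a := by nlinarith
  have hqx : 0 < (q : ℝ) * x := by positivity
  have hyp : 0 < (q : ℝ) * x + a := by linarith
  obtain ⟨h1, h2, h3⟩ := h r hr (q * x + a) hy0
  refine ⟨?_, ?_, ?_⟩
  · unfold phq
    have h4 : HasDerivAt (fun y : ℝ => (q : ℝ) * y + a) q x := by
      simpa using ((hasDerivAt_id x).const_mul (q : ℝ)).add_const (a : ℝ)
    have h5 := (h1.comp x h4).const_mul ((q : ℝ) ^ r)
    have e1 : (q : ℝ) ^ r * (φ (r + 1) (q * x + a) * q) = (q : ℝ) ^ (r + 1) * φ (r + 1) (q * x + a) := by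
      rw [pow_succ]
      ring
    rw [← e1]
    exact h5
  · unfold phq
    have e1 : (-1 : ℝ) ^ r * ((q : ℝ) ^ (r + 1) * φ (r + 1) (q * x + a)) =
        (q : ℝ) ^ (r + 1) * ((-1 : ℝ) ^ r * φ (r + 1) (q * x + a)) := by ring
    rw [e1]
    refine le_trans ?_ (mul_le_mul_of_nonneg_left h2 (by positivity))
    have h4 : (q * x + a) ^ (r + 1) ≤ (2 * (q * x)) ^ (r + 1) := pow_le_pow_left₀ hyp.le hy2 _
    have h5 : (2 : ℝ) ^ (r + 1) ≤ 2 ^ (R + 1) := pow_le_pow_right₀ (by norm_num) (by omega)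
    calc c / 2 ^ (R + 1) / x ^ (r + 1) ≤ c / 2 ^ (r + 1) / x ^ (r + 1) := by gcongr
      _ = (q : ℝ) ^ (r + 1) * (c / (2 * (q * x)) ^ (r + 1)) := by
          rw [mul_pow, mul_pow]
          field_simp
      _ ≤ _ := by gcongr
  · unfold phq
    have e1 : (-1 : ℝ) ^ r * ((q : ℝ) ^ (r + 1) * φ (r + 1) (q * x + a)) =
        (q : ℝ) ^ (r + 1) * ((-1 : ℝ) ^ r * φ (r + 1) (q * x + a)) := by ring
    rw [e1]
    refine (mul_le_mul_of_nonneg_left h3 (by positivity)).trans ?_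
    have h4 : (q * x) ^ (r + 1) ≤ (q * x + a) ^ (r + 1) := pow_le_pow_left₀ hqx.le hy1 _
    calc (q : ℝ) ^ (r + 1) * (C / (q * x + a) ^ (r + 1)) ≤ (q : ℝ) ^ (r + 1) * (C / (q * x) ^ (r + 1)) := by gcongr
      _ = _ := by
          rw [mul_pow]
          field_simp

end Pool.Agent.Q138.GS
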