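import Pool.Agent.Q138.GS.ModA

set_option autoImplicit false

/-!
# The exponential sums over the range of summation, in a progression
-/

namespace Pool.Agent.Q138.GS

open Finset MeasureTheory Filter
open Pool.Agent.H376R2.MR (er)
open Pool.Agent.H469R2.NK (e norm_e)
open Pool.Agent.Y957.AD (er_norm)

/-- the progression inside an interval -/
theorem prog_image (J N q a : ℕ) (hq : 1 ≤ q) (ha : a < q) (haJ : a ≤ J) :
    (Ioc J N).filter (fun n => n % q = a) = (Ioc ((J - a) / q) ((N - a) / q)).image (fun j => q * j + a) := by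
  ext n
  simp only [mem_filter, mem_Ioc, mem_image]
  constructor
  · rintro ⟨⟨h1, h2⟩, h3⟩
    have h4 := Nat.div_add_mod n q
    rw [h3] at h4
    refine ⟨n / q, ⟨?_, ?_⟩, h4⟩
    · rw [Nat.div_lt_iff_lt_mul (by omega)]
      rw [mul_comm]
      omega
    · rw [Nat.le_div_iff_mul_le (by omega)]
      rw [mul_comm]
      omega
  · rintro ⟨j, ⟨h1, h2⟩, rfl⟩
    rw [Nat.div_lt_iff_lt_mul (by omega)] at h1
    rw [Nat.le_div_iff_mul_le (by omega)] at h2
    rw [mul_comm j q] at h1 h2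
    refine ⟨⟨by omega, ?_⟩, ?_⟩
    · by_contra hcon
      have h5 : N < q * j + a := by omega
      rcases Nat.lt_or_ge N a with h6 | h6
      · have h7 : N - a = 0 := by omega
        rw [h7] at h2
        omega
      · omega
    · rw [Nat.mul_add_mod, Nat.mod_eq_of_lt ha]

theorem prog_sum (f : ℕ → ℂ) (J N q a : ℕ) (hq : 1 ≤ q) (ha : a < q) (haJ : a ≤ J) :
    ∑ n ∈ (Ioc J N).filter (fun n => n % q = a), f n = ∑ j ∈ Ioc ((J - a) / q) ((N - a) / q), f (q * j + a) := by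
  rw [prog_image J N q a hq ha haJ, sum_image]
  intro x _ y _ hxy
  have h1 : q * x + a = q * y + a := hxy
  exact Nat.eq_of_mul_eq_mul_left (by omega) (by omega : q * x = q * y)

theorem kernq {φ : ℕ → ℝ → ℝ} (hφ : Reg φ) (K Q' : ℕ) {ε : ℝ} (hε : 0 < ε) :
    ∃ η : ℝ, 0 < η ∧ ∃ C0 : ℝ, 0 ≤ C0 ∧ ∀ᶠ N : ℕ in atTop, ∀ q a : ℕ, 1 ≤ q → (q : ℝ) ≤ (N : ℝ) ^ (1 - ε) →
      a < q → ∀ t : ℝ, |t| ≤ (N : ℝ) ^ Q' →
      ‖Kf (fun n => φ 0 n) ((Ioc ⌊(N : ℝ) / (Real.log N) ^ K⌋₊ N).filter (fun n => n % q = a)) t‖ ≤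
        (if |t| ≤ (N : ℝ) ^ (ε / 4) then C0 * (Real.log N) ^ K * (N / q) / (1 + |t|) else 0) +
          C0 * (Real.log N) ^ K * (N / q) * (N : ℝ) ^ (-η) := by
  set Q : ℕ := ⌈2 * (Q' : ℝ) / ε⌉₊ + 1 with hQ
  have hQ1 : 1 ≤ Q := by omega
  have hQr : (Q' : ℝ) ≤ ε / 2 * Q := by
    have h1 : 2 * (Q' : ℝ) / ε ≤ (⌈2 * (Q' : ℝ) / ε⌉₊ : ℝ) := Nat.le_ceil _
    have h2 : (Q : ℝ) = (⌈2 * (Q' : ℝ) / ε⌉₊ : ℝ) + 1 := by
      rw [hQ]
      push_cast
      ring
    rw [div_le_iff₀ hε] at h1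
    rw [h2]
    nlinarith
  obtain ⟨x0, c0, C, hx0, hc0, hC, hU0⟩ := hφ.unif (Q + 1)
  set c : ℝ := c0 / 2 ^ (Q + 1 + 1) with hcdef
  have hc : 0 < c := by positivity
  set x1 : ℝ := max x0 1 with hx1
  have hx1p : 0 < x1 := lt_of_lt_of_le one_pos (le_max_right _ _)
  obtain ⟨η1, hη0, hη1, C1, hC1, hexp⟩ := exp_sum_boundU Q hQ1 (x0 := x1) hc hC
  set η : ℝ := min (ε / 4) (ε / 2 * η1) with hη
  have hηp : 0 < η := lt_min (by positivity) (by positivity)
  refine ⟨η, hηp, 4 * C1 + 48 / c + 2, by positivity, ?_⟩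
  filter_upwards [cut_size K, pw (8 * x1 + 8) K (show (0 : ℝ) < ε by positivity),
    pw 4 K (show (0 : ℝ) < ε / 2 by positivity), pw (8 * C) K (show (0 : ℝ) < 3 * ε / 4 by positivity),
    pw (2 * C) 0 (show (0 : ℝ) < ε / 4 by positivity), pw 4 K (show (0 : ℝ) < ε by positivity),
    eventually_ge_atTop 2] with N hcut p1 p2 p3 p4 p5 hN2 q a hq hqN ha t ht
  obtain ⟨hl, hJ1, hJ2, hJ3, hJ4⟩ := hcut
  set ℓ := Real.log N with hℓ
  set J := ⌊(N : ℝ) / ℓ ^ K⌋₊ with hJ
  have hN0 : (0 : ℝ) < N := by exact_mod_cast (by omega : 0 < N)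
  have hN1 : (1 : ℝ) ≤ N := by exact_mod_cast (by omega : 1 ≤ N)
  have hlK : 1 ≤ ℓ ^ K := one_le_pow₀ hl
  have hlKp : 0 < ℓ ^ K := by positivity
  have hq0 : (0 : ℝ) < q := by exact_mod_cast hq
  set X : ℝ := (N : ℝ) / q with hX
  have hXp : 0 < X := by positivity
  -- X is large
  have hXN : (N : ℝ) ^ ε ≤ X := by
    rw [hX, le_div_iff₀ hq0]
    calc (N : ℝ) ^ ε * q ≤ (N : ℝ) ^ ε * (N : ℝ) ^ (1 - ε) := mul_le_mul_of_nonneg_left hqN (by positivity)
      _ = N := by
          rw [← Real.rpow_add hN0]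
          norm_num
  have har : (a : ℝ) ≤ q := by exact_mod_cast ha.le
  -- the cut
  have hJX : X / (2 * ℓ ^ K) ≤ (J : ℝ) / q := by
    rw [hX, div_div, div_le_div_iff₀ (by positivity) hq0]
    nlinarith
  have hX8 : 8 * x1 + 8 ≤ X / ℓ ^ K := by
    rw [le_div_iff₀ hlKp]
    exact p1.trans hXN
  have haJ : a ≤ J := by
    have h1 : (1 : ℝ) ≤ (J : ℝ) / q := by
      have h2 : X / (2 * ℓ ^ K) = X / ℓ ^ K / 2 := by
        rw [div_div]
        ring
      rw [h2] at hJX
      linarith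
    rw [le_div_iff₀ hq0, one_mul] at h1
    have h2 : (a : ℝ) ≤ J := har.trans h1
    exact_mod_cast h2
  set A := (J - a) / q with hA
  set A' := (N - a) / q with hA'
  have hAr : X / (4 * ℓ ^ K) ≤ A := by
    have h1 : ((J - a : ℕ) : ℝ) < q * ((A : ℝ) + 1) := by
      have := Nat.lt_mul_div_succ (J - a) (show 0 < q by omega)
      rw [← hA] at this
      exact_mod_cast this
    rw [Nat.cast_sub haJ] at h1
    have h2 : (J : ℝ) / q ≤ A + 2 := by
      rw [div_le_iff₀ hq0]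
      nlinarith
    have h3 : X / (2 * ℓ ^ K) = X / ℓ ^ K / 2 := by
      rw [div_div]
      ring
    have h4 : X / (4 * ℓ ^ K) = X / ℓ ^ K / 4 := by
      rw [div_div]
      ring
    rw [h3] at hJX
    rw [h4]
    linarith
  have hAx1 : x1 + 1 ≤ A := by
    have h4 : X / (4 * ℓ ^ K) = X / ℓ ^ K / 4 := by
      rw [div_div]
      ring
    rw [h4] at hAr
    linarith
  have hA1 : 1 ≤ A := by
    have : (1 : ℝ) ≤ A := by linarith
    exact_mod_cast this
  have hAp : (0 : ℝ) < A := by linarith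
  have hA'X : (A' : ℝ) ≤ X := by
    have h1 : (A' : ℝ) ≤ ((N - a : ℕ) : ℝ) / q := Nat.cast_div_le
    refine h1.trans ?_
    rw [hX]
    refine div_le_div_of_nonneg_right ?_ hq0.le
    exact_mod_cast Nat.sub_le N a
  have hAN : (N : ℝ) ^ (ε / 2) ≤ A := by
    refine le_trans ?_ hAr
    rw [le_div_iff₀ (by positivity)]
    calc (N : ℝ) ^ (ε / 2) * (4 * ℓ ^ K) ≤ (N : ℝ) ^ (ε / 2) * (N : ℝ) ^ (ε / 2) :=
          mul_le_mul_of_nonneg_left p2 (by positivity)
      _ = (N : ℝ) ^ ε := by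
          rw [← Real.rpow_add hN0]
          congr 1
          ring
      _ ≤ X := hXN
  have hAC : 2 * C * (N : ℝ) ^ (ε / 4) ≤ A := by
    refine le_trans ?_ hAr
    rw [le_div_iff₀ (by positivity)]
    calc 2 * C * (N : ℝ) ^ (ε / 4) * (4 * ℓ ^ K) = (8 * C * ℓ ^ K) * (N : ℝ) ^ (ε / 4) := by ring
      _ ≤ (N : ℝ) ^ (3 * ε / 4) * (N : ℝ) ^ (ε / 4) := mul_le_mul_of_nonneg_right p3 (by positivity)
      _ = (N : ℝ) ^ ε := by
          rw [← Real.rpow_add hN0]
          congr 1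
          ring
      _ ≤ X := hXN
  have hU : RegU (phq φ q a) (Q + 1) x1 c C := phq_reg hc0 hC hU0 q a hq ha.le
  -- the number of blocks
  set m : ℕ := A' / A with hm
  have hmA : A' - A ≤ m * A := by
    have h3 : A' < (m + 1) * A := by
      have := Nat.div_add_mod A' A
      have h4 := Nat.mod_lt A' (show 0 < A by omega)
      rw [← hm] at this
      nlinarith
    have h5 : (m + 1) * A = m * A + A := by ring
    omega
  have hmr : (m : ℝ) ≤ 4 * ℓ ^ K := by
    have h3 : (m : ℝ) ≤ (A' : ℝ) / A := Nat.cast_div_le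
    refine h3.trans ?_
    rw [div_le_iff₀ hAp]
    rw [div_le_iff₀ (by positivity)] at hAr
    linarith
  have hker : Kf (fun n => φ 0 n) ((Ioc J N).filter (fun n => n % q = a)) t =
      Kf (fun j => phq φ q a 0 j) (Ioc A A') t := by
    unfold Kf
    rw [prog_sum _ J N q a hq ha haJ]
    refine sum_congr rfl fun j _ => ?_
    have e0 : phq φ q a 0 (j : ℝ) = φ 0 ((q * j + a : ℕ) : ℝ) := by
      unfold phq
      rw [pow_zero, one_mul]
      push_cast
      rfl
    simp only [e0]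
  have hsum : ∀ b : ℝ, 0 ≤ b → (∀ s L, A ≤ s → L ≤ A → s + L ≤ A' →
      ‖∑ n ∈ Ioc s (s + L), er (2 * Real.pi * |t|) (phq φ q a 0 n)‖ ≤ b) →
      ‖Kf (fun j => phq φ q a 0 j) (Ioc A A') t‖ ≤ 4 * ℓ ^ K * b := by
    intro b hb0 hb
    rcases Nat.lt_or_ge A' A with h | h
    · rw [Ioc_eq_empty (by omega)]
      unfold Kf
      rw [sum_empty, norm_zero]
      positivity
    · have h3 := blocks (fun n => er (2 * Real.pi * |t|) (phq φ q a 0 n)) A A' b hb0 hb m A (A' - A) le_rfl hmA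
        (by omega)
      rw [show A + (A' - A) = A' by omega] at h3
      rw [Kf_abs]
      exact h3.trans (mul_le_mul_of_nonneg_right hmr hb0)
  rw [hker]
  have hblock : ∀ s L : ℕ, ∑ n ∈ Ioc s (s + L), er (2 * Real.pi * |t|) (phq φ q a 0 n) =
      ∑ i ∈ range L, e (|t| * phq φ q a 0 (((s + 1 : ℕ) : ℝ) + i)) := fun s L =>
    block_eq (phq φ q a) (fun n => phq φ q a 0 n) 0 (fun n _ => rfl) s L (Nat.zero_le _) |t|
  have hKL : ∀ s L : ℕ, 0 < |t| → A ≤ s → L ≤ A → s + L ≤ A' → 2 * C * |t| ≤ s →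
      ‖∑ i ∈ range L, e (|t| * phq φ q a 0 (((s + 1 : ℕ) : ℝ) + i))‖ ≤ 6 * X / (c * |t|) := by
    intro s L htp hs hL hsL hts
    have hsJ : (A : ℝ) ≤ s := by exact_mod_cast hs
    have hLJ : (L : ℝ) ≤ A := by exact_mod_cast hL
    have hs0 : (0 : ℝ) < s := by linarith
    have hsX : (s : ℝ) ≤ X := by
      have : (s : ℝ) ≤ A' := by exact_mod_cast (by omega : s ≤ A')
      linarith
    have hs1 : (1 : ℝ) ≤ s := by
      have : (1 : ℝ) ≤ A := by exact_mod_cast hA1
      linarith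
    have h5 := SL_le hU hc hC |t| htp s ((s + 1 : ℕ) : ℝ) L (by exact_mod_cast hs1)
      (by linarith) (by push_cast; linarith) (by push_cast; linarith) [] (by simp) (by simp) (by
        simp only [List.length_nil, zero_add, pow_one, List.prod_nil, Nat.cast_one, mul_one]
        have e1 : 2 * (|t| * (C / (s : ℝ))) = (2 * C * |t|) / s := by ring
        rw [e1, div_le_one hs0]
        exact hts)
    have e2 : SL (phq φ q a) |t| ((s + 1 : ℕ) : ℝ) L [] =
        ∑ i ∈ range L, e (|t| * phq φ q a 0 (((s + 1 : ℕ) : ℝ) + i)) := by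
      unfold SL
      simp only [List.sum_nil, Nat.sub_zero]
      rfl
    rw [← e2]
    refine h5.trans ?_
    simp only [List.length_nil, zero_add, pow_one, List.prod_nil, Nat.cast_one, mul_one]
    rw [div_le_div_iff₀ (by positivity) (by positivity)]
    calc 2 * (3 * (s : ℝ)) * (c * |t|) ≤ 2 * (3 * X) * (c * |t|) := by gcongr
      _ = 6 * X * (|t| * c) := by ring
  have hpos2 : 0 ≤ (4 * C1 + 48 / c + 2) * ℓ ^ K * X * (N : ℝ) ^ (-η) := by positivity
  have ht0 := abs_nonneg t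
  by_cases hts : |t| ≤ (N : ℝ) ^ (ε / 4)
  · rw [if_pos hts]
    refine le_trans ?_ (le_add_of_nonneg_right hpos2)
    rcases lt_or_ge |t| 1 with h3 | h3
    · refine (Kf_card _ _ _).trans ?_
      rw [Nat.card_Ioc, le_div_iff₀ (by positivity)]
      have h4 : ((A' - A : ℕ) : ℝ) ≤ X := by
        have : ((A' - A : ℕ) : ℝ) ≤ A' := by exact_mod_cast Nat.sub_le A' A
        linarith
      have h5 : ((A' - A : ℕ) : ℝ) * (1 + |t|) ≤ X * 2 :=
        mul_le_mul h4 (by linarith) (by linarith) hXp.le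
      have h6 : X * 2 ≤ (4 * C1 + 48 / c + 2) * ℓ ^ K * X := by
        have : (2 : ℝ) ≤ (4 * C1 + 48 / c + 2) * ℓ ^ K := by
          have h7 : (0 : ℝ) ≤ 4 * C1 + 48 / c := by positivity
          nlinarith
        nlinarith
      linarith
    · have htp : 0 < |t| := by linarith
      refine (hsum (12 * X / (c * (1 + |t|))) (by positivity) fun s L hs hL hsL => ?_).trans ?_
      · rw [hblock]
        refine (hKL s L htp hs hL hsL ?_).trans ?_
        · have : (A : ℝ) ≤ s := by exact_mod_cast hs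
          calc 2 * C * |t| ≤ 2 * C * (N : ℝ) ^ (ε / 4) := mul_le_mul_of_nonneg_left hts (by positivity)
            _ ≤ s := hAC.trans this
        · rw [div_le_div_iff₀ (by positivity) (by positivity)]
          have h6 : 1 + |t| ≤ 2 * |t| := by linarith
          calc 6 * X * (c * (1 + |t|)) ≤ 6 * X * (c * (2 * |t|)) := by gcongr
            _ = 12 * X * (c * |t|) := by ring
      · have e3 : 4 * ℓ ^ K * (12 * X / (c * (1 + |t|))) = (48 / c) * ℓ ^ K * X / (1 + |t|) := by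
          field_simp
          ring
        rw [e3]
        refine div_le_div_of_nonneg_right ?_ (by positivity)
        have : 0 ≤ (4 * C1 + 2) * (ℓ ^ K * X) := by positivity
        nlinarith
  · rw [if_neg hts, zero_add]
    rw [not_le] at hts
    have hNε : 0 < (N : ℝ) ^ (ε / 4) := by positivity
    have htp : 0 < |t| := by linarith
    have hη4 : (N : ℝ) ^ (-(ε / 4)) ≤ (N : ℝ) ^ (-η) :=
      Real.rpow_le_rpow_of_exponent_le hN1 (neg_le_neg (min_le_left _ _))
    have hη5 : (N : ℝ) ^ (-(ε / 2 * η1)) ≤ (N : ℝ) ^ (-η) :=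
      Real.rpow_le_rpow_of_exponent_le hN1 (neg_le_neg (min_le_right _ _))
    refine (hsum ((C1 + 6 / c) * X * (N : ℝ) ^ (-η)) (by positivity) fun s L hs hL hsL => ?_).trans ?_
    · rw [hblock]
      have hsA : (A : ℝ) ≤ s := by exact_mod_cast hs
      have hs0 : (0 : ℝ) < s := by linarith
      have hs1 : (1 : ℝ) ≤ s := by
        have : (1 : ℝ) ≤ A := by exact_mod_cast hA1
        linarith
      have hsX : (s : ℝ) ≤ X := by
        have : (s : ℝ) ≤ A' := by exact_mod_cast (by omega : s ≤ A')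
        linarith
      have hsN : (N : ℝ) ^ (ε / 2) ≤ s := hAN.trans hsA
      have hss : (s : ℝ) ^ (1 / 2 : ℝ) * (s : ℝ) ^ (1 / 2 : ℝ) = s := by
        rw [← Real.rpow_add hs0]
        norm_num
      rcases le_or_gt |t| ((s : ℝ) ^ (1 / 2 : ℝ)) with h4 | h4
      · refine (hKL s L htp hs hL hsL ?_).trans ?_
        · have h5 : 2 * C ≤ (s : ℝ) ^ (1 / 2 : ℝ) := by
            rw [pow_zero, mul_one] at p4
            refine p4.trans ?_
            calc (N : ℝ) ^ (ε / 4) = ((N : ℝ) ^ (ε / 2)) ^ (1 / 2 : ℝ) := by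
                  rw [← Real.rpow_mul hN0.le]
                  congr 1
                  ring
              _ ≤ (s : ℝ) ^ (1 / 2 : ℝ) := Real.rpow_le_rpow (by positivity) hsN (by norm_num)
          calc 2 * C * |t| ≤ (s : ℝ) ^ (1 / 2 : ℝ) * (s : ℝ) ^ (1 / 2 : ℝ) :=
                mul_le_mul h5 h4 ht0 (by positivity)
            _ = s := hss
        · calc 6 * X / (c * |t|) ≤ 6 * X / (c * (N : ℝ) ^ (ε / 4)) := by gcongr
            _ = 6 / c * X * (N : ℝ) ^ (-(ε / 4)) := by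
                rw [Real.rpow_neg hN0.le]
                field_simp
            _ ≤ 6 / c * X * (N : ℝ) ^ (-η) := mul_le_mul_of_nonneg_left hη4 (by positivity)
            _ ≤ _ := by
                have : 0 ≤ C1 * X * (N : ℝ) ^ (-η) := by positivity
                nlinarith
      · have hLA : (L : ℝ) ≤ A := by exact_mod_cast hL
        have h5 := hexp (phq φ q a) hU s L ((s + 1 : ℕ) : ℝ) |t| (by exact_mod_cast hs1) (by push_cast; linarith)
          (by omega) (by push_cast; linarith) h4.le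
          (by
            refine ht.trans ?_
            calc (N : ℝ) ^ Q' = (N : ℝ) ^ (Q' : ℝ) := (Real.rpow_natCast _ _).symm
              _ ≤ (N : ℝ) ^ (ε / 2 * Q) := Real.rpow_le_rpow_of_exponent_le hN1 hQr
              _ = ((N : ℝ) ^ (ε / 2)) ^ Q := by rw [Real.rpow_mul hN0.le, Real.rpow_natCast]
              _ ≤ (s : ℝ) ^ Q := pow_le_pow_left₀ (by positivity) hsN Q)
        refine h5.trans ?_
        have h6 : (s : ℝ) ^ (1 - η1) ≤ X * (N : ℝ) ^ (-(ε / 2 * η1)) := by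
          rw [Real.rpow_sub hs0, Real.rpow_one, div_eq_mul_inv]
          refine mul_le_mul hsX ?_ (by positivity) hXp.le
          rw [Real.rpow_neg hN0.le, Real.rpow_mul hN0.le]
          exact inv_anti₀ (by positivity) (Real.rpow_le_rpow (by positivity) hsN hη0.le)
        calc C1 * (s : ℝ) ^ (1 - η1) ≤ C1 * (X * (N : ℝ) ^ (-(ε / 2 * η1))) :=
              mul_le_mul_of_nonneg_left h6 hC1.le
          _ ≤ C1 * (X * (N : ℝ) ^ (-η)) := by gcongr
          _ ≤ _ := by
              have : 0 ≤ 6 / c * (X * (N : ℝ) ^ (-η)) := by positivity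
              nlinarith
    · have : 0 ≤ (24 / c + 2) * (ℓ ^ K * X * (N : ℝ) ^ (-η)) := by positivity
      have e4 : 4 * ℓ ^ K * ((C1 + 6 / c) * X * (N : ℝ) ^ (-η)) =
          (4 * C1 + 24 / c) * (ℓ ^ K * X * (N : ℝ) ^ (-η)) := by ring
      rw [e4]
      have e5 : (4 * C1 + 48 / c + 2) * ℓ ^ K * X * (N : ℝ) ^ (-η) =
          (4 * C1 + 24 / c) * (ℓ ^ K * X * (N : ℝ) ^ (-η)) + (24 / c + 2) * (ℓ ^ K * X * (N : ℝ) ^ (-η)) := by ring
      rw [e5]
      linarith

end Pool.Agent.Q138.GS
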