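import Pool.Agent.Q138.GS.ModB
import Pool.Agent.Q138.GS.Un2

set_option autoImplicit false

/-!
# The mean square over the dilation in progressions, uniformly in the modulus and the weights
-/

namespace Pool.Agent.Q138.GS

open Finset MeasureTheory Filter FourierTransform
open scoped ENNReal
open Pool.Agent.Y957.VK
open Pool.Agent.H376R2.MR (er)
open Pool.Agent.Y957.AD (er_norm er_add)

/-- the mean square over the dilations is small in progressions -/
def UQ (f : ℕ → ℂ) (P : ℕ → ℝ) (β : ℝ) : Prop :=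
  ∀ (b ε : ℝ) (K : ℕ), 0 < ε → ∃ C : ℝ, 0 ≤ C ∧ ∀ N : ℕ, 2 ≤ N → ∀ q a : ℕ, 1 ≤ q → (q : ℝ) ≤ (N : ℝ) ^ (1 - ε) →
    a < q → ∀ d : ℕ → ℂ, (∀ n, ‖d n‖ ≤ 1) →
    ∫⁻ u in Set.Icc (0 : ℝ) 1, ‖∑ n ∈ (Icc 1 N).filter (fun n => n % q = a),
        d n * f ⌊Real.exp (b + u) * P n + β⌋₊‖ₑ ^ 2 ≤
      ENNReal.ofReal (C * ((N : ℝ) / q) ^ 2 / (Real.log N) ^ K)

theorem card_prog (M q a : ℕ) (hq : 1 ≤ q) : (((Icc 1 M).filter (fun n => n % q = a)).card : ℝ) ≤ (M : ℝ) / q + 1 := by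
  have h1 : ((Icc 1 M).filter (fun n => n % q = a)).card ≤ (range (M / q + 1)).card := by
    refine card_le_card_of_injOn (fun n => n / q) (fun n hn => ?_) ?_
    · have h2 := mem_filter.1 hn
      have h3 := (mem_Icc.1 h2.1).2
      simp only [coe_range, Set.mem_Iio]
      exact Nat.lt_succ_of_le (Nat.div_le_div_right h3)
    · intro x hx y hy hxy
      have h2 := (mem_filter.1 hx).2
      have h3 := (mem_filter.1 hy).2
      have h4 := Nat.div_add_mod x q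
      have h5 := Nat.div_add_mod y q
      simp only at hxy
      rw [h2] at h4
      rw [h3, ← hxy] at h5
      omega
  rw [card_range] at h1
  have h2 : (((Icc 1 M).filter (fun n => n % q = a)).card : ℝ) ≤ ((M / q + 1 : ℕ) : ℝ) := by exact_mod_cast h1
  have h3 : ((M / q : ℕ) : ℝ) ≤ (M : ℝ) / q := Nat.cast_div_le
  push_cast at h2
  linarith

/-- large `N` -/
theorem unq_large (f : ℕ → ℂ) (hf : ∀ n : ℕ, ‖f n‖ ≤ Real.log (n + 3)) (hN : Neg f) {φ : ℕ → ℝ → ℝ}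
    (hφ : Reg φ) (P : ℕ → ℝ) (n0 : ℕ) (hP : ∀ n : ℕ, n0 ≤ n → P n = Real.exp (φ 0 n)) (β b ε : ℝ) (K : ℕ)
    (hε : 0 < ε) (hε1 : ε ≤ 1) :
    ∃ C : ℝ, 0 ≤ C ∧ ∀ᶠ N : ℕ in atTop, ∀ q a : ℕ, 1 ≤ q → (q : ℝ) ≤ (N : ℝ) ^ (1 - ε) → a < q →
      ∀ d : ℕ → ℂ, (∀ n, ‖d n‖ ≤ 1) →
      ∫⁻ u in Set.Icc (0 : ℝ) 1, ‖∑ n ∈ (Icc 1 N).filter (fun n => n % q = a),
          d n * f ⌊Real.exp (b + u) * P n + β⌋₊‖ₑ ^ 2 ≤
        ENNReal.ofReal (C * ((N : ℝ) / q) ^ 2 / (Real.log N) ^ K) := by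
  have hG : Gr P := hφ.gr P n0 hP
  obtain ⟨A', Cb, hCb, hbd⟩ := hG.bd
  obtain ⟨C', hC'1, hC'⟩ := val_le f hf P 1 A' Cb hbd b β
  obtain ⟨n1, hmono⟩ := hG.mono
  set K1 : ℕ := K + 1 with hK1
  obtain ⟨ε0, A, q0, Dg, hε0, hDg, hgeo⟩ := geo2 hG b β K1
  set K6 : ℕ := K + K1 + 3 with hK6
  obtain ⟨D, hD0, hD⟩ := four_bound2 f hf hN hG b β K1 K6
  set k : ℕ := 2 * A + 1 with hk
  obtain ⟨η, hη, C0, hC0, hkern⟩ := kernq hφ K1 (k + 1) hε
  set CF : ℝ := Real.log (Real.exp (b + 2) + 3) + A + 1 with hCF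
  set CL : ℝ := |2 + b| + |b| + A + 2 with hCL
  have hCF0 : 0 ≤ CF := by
    have : 0 ≤ Real.log (Real.exp (b + 2) + 3) := Real.log_nonneg (by linarith [Real.exp_pos (b + 2)])
    positivity
  set X1 : ℝ := 4 * C0 * D ^ 2 + C0 * CL + Real.exp (b + 2) ^ 2 / 2 with hX1
  refine ⟨2 * CF ^ 2 * X1 + 2 * (6 * C') ^ 2, by positivity, ?_⟩
  filter_upwards [hD, hgeo, hkern, pw 1 (K1 + 3 + K) hη, pw 1 (K + 2) one_pos, cut_size K1,
    (cut_atTop K1).eventually_ge_atTop (max n0 n1), eventually_ge_atTop 3, pw 4 K1 hε] with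
    N hF hg hker h1 h2 hcut hJn hN3 p4 q a hq hqN ha d hd
  obtain ⟨hl, g1, g2, g3, g4, g5, gA, g6, g7⟩ := hg
  obtain ⟨-, hJ1, hJ2, hJ3, hJ4⟩ := hcut
  set ℓ := Real.log N with hℓ
  set M1 := lo2 P b β K1 N with hM1
  set M2 := hi2 P b β N with hM2
  set J := ⌊(N : ℝ) / ℓ ^ K1⌋₊ with hJ
  set B := Bt (nrm f M1 M2) b β M1 M2 with hB
  set S := (Ioc J N).filter (fun n => n % q = a) with hS
  have hN0 : (0 : ℝ) < N := by exact_mod_cast (by omega : 0 < N)
  have hN1r : (1 : ℝ) ≤ N := by exact_mod_cast (by omega : 1 ≤ N)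
  have hN3r : (3 : ℝ) ≤ N := by exact_mod_cast hN3
  have hℓ0 : 0 < ℓ := by linarith
  have hq0 : (0 : ℝ) < q := by exact_mod_cast hq
  set X : ℝ := (N : ℝ) / q with hX
  have hXp : 0 < X := by positivity
  have hXN : (N : ℝ) ^ ε ≤ X := by
    rw [hX, le_div_iff₀ hq0]
    calc (N : ℝ) ^ ε * q ≤ (N : ℝ) ^ ε * (N : ℝ) ^ (1 - ε) := mul_le_mul_of_nonneg_left hqN (by positivity)
      _ = N := by
          rw [← Real.rpow_add hN0]
          norm_num
  have hlK1 : 1 ≤ ℓ ^ K1 := one_le_pow₀ hl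
  have hX4 : 4 ≤ X / ℓ ^ K1 := by
    rw [le_div_iff₀ (by positivity)]
    exact p4.trans hXN
  have hJX : X / ℓ ^ K1 / 2 ≤ (J : ℝ) / q := by
    rw [hX, div_div, div_div, div_le_div_iff₀ (by positivity) hq0]
    nlinarith
  have haJ : a ≤ J := by
    have h3 : (1 : ℝ) ≤ (J : ℝ) / q := by linarith
    rw [le_div_iff₀ hq0, one_mul] at h3
    have h4 : (a : ℝ) ≤ q := by exact_mod_cast ha.le
    have h5 : (a : ℝ) ≤ J := h4.trans h3
    exact_mod_cast h5
  have hcardS : (S.card : ℝ) ≤ X := by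
    have h3 : S.card ≤ (Ioc ((J - a) / q) ((N - a) / q)).card := by
      rw [hS, prog_image J N q a hq ha haJ]
      exact card_image_le
    rw [Nat.card_Ioc] at h3
    have h4 : (S.card : ℝ) ≤ (((N - a) / q : ℕ) : ℝ) := by exact_mod_cast h3.trans (Nat.sub_le _ _)
    refine h4.trans (Nat.cast_div_le.trans ?_)
    rw [hX]
    refine div_le_div_of_nonneg_right ?_ hq0.le
    exact_mod_cast Nat.sub_le N a
  have hYp : 0 ≤ (N : ℝ) ^ ε0 := by positivity
  have hM1r : 1 ≤ (M1 : ℝ) := by linarith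
  have hM1n : 1 ≤ M1 := by exact_mod_cast hM1r
  have hM12 : (M1 : ℝ) ≤ M2 := by exact_mod_cast g7
  have hβM : β < M1 := by
    have := Real.exp_pos b
    linarith
  have hJn0 : n0 ≤ J := (le_max_left _ _).trans hJn
  have hJn1 : n1 ≤ J := (le_max_right _ _).trans hJn
  set F : ℝ := Real.log ((M2 : ℝ) + 3) with hFdef
  have hNA : (1 : ℝ) ≤ (N : ℝ) ^ A := one_le_pow₀ hN1r
  have hF0 : 0 ≤ F := Real.log_nonneg (by linarith)
  have hFle : F ≤ CF * ℓ := by
    have h3 : (M2 : ℝ) + 3 ≤ (Real.exp (b + 2) + 3) * (N : ℝ) ^ A := by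
      have h4 : Real.exp (b + 2) * P N ≤ Real.exp (b + 2) * (N : ℝ) ^ A :=
        mul_le_mul_of_nonneg_left gA (Real.exp_pos _).le
      nlinarith
    have h4 := Real.log_le_log (by linarith) h3
    rw [Real.log_mul (by positivity) (by positivity), Real.log_pow, ← hℓ] at h4
    have h5 : 0 ≤ Real.log (Real.exp (b + 2) + 3) := Real.log_nonneg (by linarith [Real.exp_pos (b + 2)])
    rw [hFdef, hCF]
    nlinarith
  set L : ℝ := jp b β (M2 + 1) with hL
  have hjp0 : 0 ≤ jp b β M1 := by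
    unfold jp
    have : b ≤ Real.log ((M1 : ℝ) - β) := by
      rw [Real.le_log_iff_exp_le (by linarith)]
      exact g2
    linarith
  have hL0 : 0 ≤ L := hjp0.trans (jp_mono hβM (by omega))
  have hCL0 : 0 ≤ CL := by positivity
  have hL1 : L ≤ CL * ℓ := by
    rw [hL]
    unfold jp
    have h3 : Real.log (((M2 + 1 : ℕ) : ℝ) - β) ≤ Real.log (Real.exp (b + 2) * (N : ℝ) ^ A) := by
      apply Real.log_le_log
      · push_cast
        linarith
      · push_cast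
        exact g5.trans (mul_le_mul_of_nonneg_left gA (Real.exp_pos _).le)
    rw [Real.log_mul (Real.exp_pos _).ne' (by positivity), Real.log_exp, Real.log_pow, ← hℓ] at h3
    have h4 := le_abs_self (2 + b)
    have h5 := neg_abs_le b
    have h6 : (0 : ℝ) ≤ A := Nat.cast_nonneg A
    have h7 := abs_nonneg (2 + b)
    have h8 := abs_nonneg b
    have h9 : (|2 + b| + |b| + 2) * 1 ≤ (|2 + b| + |b| + 2) * ℓ := mul_le_mul_of_nonneg_left hl (by positivity)
    rw [hCL]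
    nlinarith
  set dl : ℝ := D / ℓ ^ K6 with hdl
  set s : ℝ := (N : ℝ) ^ (ε / 4) with hs
  have hs1 : 1 ≤ s := Real.one_le_rpow hN1r (by positivity)
  have hsN : s ≤ N := by
    calc s ≤ (N : ℝ) ^ (1 : ℝ) := Real.rpow_le_rpow_of_exponent_le hN1r (by linarith)
      _ = N := Real.rpow_one _
  have hlR : Real.log (1 + s) ≤ 2 * ℓ := by
    have h3 : 1 + s ≤ (N : ℝ) ^ 2 := by nlinarith
    have h4 := Real.log_le_log (by linarith) h3
    rw [Real.log_pow] at h4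
    exact_mod_cast h4
  have hTk : (1 : ℝ) ≤ (N : ℝ) ^ k := one_le_pow₀ hN1r
  have hcore := core2 d S (fun n => φ 0 n) B (Bt_meas _ b β M1 M2) (Bt_le _ (nrm_le f hf M1 M2) b β M1 M2)
    (L := L) (V := 2 * M2) (T := (N : ℝ) ^ k) (δ := dl) (R := s) (E := C0 * ℓ ^ K1 * X)
    (F := C0 * ℓ ^ K1 * X * (N : ℝ) ^ (-η)) hL0
    (fun y hy => Bt_supp _ hM1n hβM hjp0 le_rfl y hy)
    (fun t ht _ => Bt_mod _ (nrm_le f hf M1 M2) hM1n hβM t ht) hTk (fun ξ _ => hF ξ) (by linarith) (by positivity)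
    (by positivity) (fun t ht => hker q a hq hqN ha t (by
      refine ht.trans ?_
      rw [pow_succ, mul_comm]
      exact mul_le_mul_of_nonneg_left (by linarith) (by positivity)))
  -- the terms
  have hd2 : ∑ n ∈ S, ‖d n‖ ^ 2 ≤ X := by
    calc ∑ n ∈ S, ‖d n‖ ^ 2 ≤ ∑ n ∈ S, (1 : ℝ) :=
          sum_le_sum fun n _ => pow_le_one₀ (norm_nonneg _) (hd n)
      _ = S.card := by simp
      _ ≤ X := hcardS
  have hd1 : ∑ n ∈ S, ‖d n‖ ≤ X := by
    calc ∑ n ∈ S, ‖d n‖ ≤ ∑ n ∈ S, (1 : ℝ) := sum_le_sum fun n _ => hd n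
      _ = S.card := by simp
      _ ≤ X := hcardS
  have hd10 : 0 ≤ ∑ n ∈ S, ‖d n‖ := sum_nonneg fun _ _ => norm_nonneg _
  have hlK : 1 ≤ ℓ ^ K := one_le_pow₀ hl
  have t1 : ℓ ^ 2 * (X * (C0 * ℓ ^ K1 * X * dl ^ 2 * (2 * Real.log (1 + s)))) ≤
      (4 * C0 * D ^ 2) * (X ^ 2 / ℓ ^ K) := by
    have h3 : ℓ ^ 2 * (X * (C0 * ℓ ^ K1 * X * dl ^ 2 * (2 * Real.log (1 + s)))) ≤
        ℓ ^ 2 * (X * (C0 * ℓ ^ K1 * X * dl ^ 2 * (2 * (2 * ℓ)))) := by gcongr
    refine h3.trans ?_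
    have h4 : ℓ ^ 2 * (X * (C0 * ℓ ^ K1 * X * dl ^ 2 * (2 * (2 * ℓ)))) =
        (4 * C0 * D ^ 2) * (X ^ 2 * (ℓ ^ (K1 + 3) / (ℓ ^ K6) ^ 2)) := by
      rw [hdl, div_pow, pow_add]
      ring
    rw [h4]
    refine mul_le_mul_of_nonneg_left ?_ (by positivity)
    rw [div_eq_mul_inv (X ^ 2)]
    refine mul_le_mul_of_nonneg_left ?_ (by positivity)
    rw [div_le_iff₀ (by positivity), inv_mul_eq_div, le_div_iff₀ (by positivity), ← pow_add, ← pow_mul]
    refine pow_le_pow_right₀ hl ?_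
    omega
  have t2 : ℓ ^ 2 * (X * (C0 * ℓ ^ K1 * X * (N : ℝ) ^ (-η) * L)) ≤ (C0 * CL) * (X ^ 2 / ℓ ^ K) := by
    have h3 : ℓ ^ 2 * (X * (C0 * ℓ ^ K1 * X * (N : ℝ) ^ (-η) * L)) ≤
        ℓ ^ 2 * (X * (C0 * ℓ ^ K1 * X * (N : ℝ) ^ (-η) * (CL * ℓ))) := by gcongr
    refine h3.trans ?_
    have h5 : ℓ ^ 2 * (X * (C0 * ℓ ^ K1 * X * (N : ℝ) ^ (-η) * (CL * ℓ))) =
        (C0 * CL) * (X ^ 2 * (ℓ ^ (K1 + 3) / (N : ℝ) ^ η)) := by
      rw [Real.rpow_neg hN0.le, pow_add]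
      ring
    rw [h5]
    refine mul_le_mul_of_nonneg_left ?_ (by positivity)
    rw [div_eq_mul_inv (X ^ 2)]
    refine mul_le_mul_of_nonneg_left ?_ (by positivity)
    rw [div_le_iff₀ (by positivity), inv_mul_eq_div, le_div_iff₀ (by positivity), ← pow_add]
    rwa [one_mul] at h1
  have t3 : ℓ ^ 2 * (X ^ 2 * (2 * (M2 : ℝ)) ^ 2 / 8 / (N : ℝ) ^ k) ≤
      (Real.exp (b + 2) ^ 2 / 2) * (X ^ 2 / ℓ ^ K) := by
    have h3 : (M2 : ℝ) ≤ Real.exp (b + 2) * (N : ℝ) ^ A :=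
      g4.trans (mul_le_mul_of_nonneg_left gA (Real.exp_pos _).le)
    rw [one_mul, Real.rpow_one] at h2
    have hNk : (N : ℝ) ^ k = (N : ℝ) ^ A * (N : ℝ) ^ A * N := by
      rw [hk, pow_succ, two_mul, pow_add]
    calc ℓ ^ 2 * (X ^ 2 * (2 * (M2 : ℝ)) ^ 2 / 8 / (N : ℝ) ^ k)
        ≤ ℓ ^ 2 * (X ^ 2 * (2 * (Real.exp (b + 2) * (N : ℝ) ^ A)) ^ 2 / 8 / (N : ℝ) ^ k) := by gcongr
      _ = (Real.exp (b + 2) ^ 2 / 2) * (X ^ 2 * (ℓ ^ 2 / N)) := by
          rw [hNk]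
          field_simp
          ring
      _ ≤ (Real.exp (b + 2) ^ 2 / 2) * (X ^ 2 * (ℓ ^ K)⁻¹) := by
          refine mul_le_mul_of_nonneg_left ?_ (by positivity)
          refine mul_le_mul_of_nonneg_left ?_ (by positivity)
          rw [div_le_iff₀ hN0, inv_mul_eq_div, le_div_iff₀ (by positivity), ← pow_add, add_comm 2 K]
          exact h2
      _ = _ := by
          rw [div_eq_mul_inv (X ^ 2)]
  have hGf : ENNReal.ofReal (F ^ 2) * ∫⁻ u, ‖Gf d B (fun n => φ 0 n) S u‖ₑ ^ 2 ≤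
      ENNReal.ofReal (CF ^ 2 * (X1 * (X ^ 2 / ℓ ^ K))) := by
    refine (mul_le_mul' le_rfl hcore).trans ?_
    rw [← ENNReal.ofReal_mul (by positivity)]
    apply ENNReal.ofReal_le_ofReal
    have hFsq : F ^ 2 ≤ CF ^ 2 * ℓ ^ 2 := by
      rw [← mul_pow]
      exact pow_le_pow_left₀ hF0 hFle 2
    have hlR0 : 0 ≤ Real.log (1 + s) := Real.log_nonneg (by linarith)
    set Z1 : ℝ := C0 * ℓ ^ K1 * X * dl ^ 2 * (2 * Real.log (1 + s)) with hZ1
    set Z2 : ℝ := C0 * ℓ ^ K1 * X * (N : ℝ) ^ (-η) * L with hZ2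
    have hZ10 : 0 ≤ Z1 := by positivity
    have hZ20 : 0 ≤ Z2 := by positivity
    have h3 : (∑ n ∈ S, ‖d n‖ ^ 2) * (Z1 + Z2) + (∑ n ∈ S, ‖d n‖) ^ 2 * (2 * (M2 : ℝ)) ^ 2 / 8 / (N : ℝ) ^ k ≤
        X * (Z1 + Z2) + X ^ 2 * (2 * (M2 : ℝ)) ^ 2 / 8 / (N : ℝ) ^ k := by
      gcongr
    calc F ^ 2 * ((∑ n ∈ S, ‖d n‖ ^ 2) * (Z1 + Z2) +
          (∑ n ∈ S, ‖d n‖) ^ 2 * (2 * (M2 : ℝ)) ^ 2 / 8 / (N : ℝ) ^ k)
        ≤ (CF ^ 2 * ℓ ^ 2) * (X * (Z1 + Z2) + X ^ 2 * (2 * (M2 : ℝ)) ^ 2 / 8 / (N : ℝ) ^ k) := by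
          refine mul_le_mul hFsq h3 (by positivity) (by positivity)
      _ = CF ^ 2 * (ℓ ^ 2 * (X * Z1) + ℓ ^ 2 * (X * Z2) +
            ℓ ^ 2 * (X ^ 2 * (2 * (M2 : ℝ)) ^ 2 / 8 / (N : ℝ) ^ k)) := by ring
      _ ≤ CF ^ 2 * ((4 * C0 * D ^ 2) * (X ^ 2 / ℓ ^ K) + (C0 * CL) * (X ^ 2 / ℓ ^ K) +
            (Real.exp (b + 2) ^ 2 / 2) * (X ^ 2 / ℓ ^ K)) := by
          refine mul_le_mul_of_nonneg_left ?_ (by positivity)
          linarith
      _ = _ := by
          rw [hX1]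
          ring
  -- pointwise
  have hptw : ∀ u ∈ Set.Icc (0 : ℝ) 1,
      ‖∑ n ∈ (Icc 1 N).filter (fun n => n % q = a), d n * f ⌊Real.exp (b + u) * P n + β⌋₊‖ₑ ^ 2 ≤
      2 * (ENNReal.ofReal (F ^ 2) * ‖Gf d B (fun n => φ 0 n) S u‖ₑ ^ 2) +
        ENNReal.ofReal (2 * (6 * C') ^ 2 * (X ^ 2 / ℓ ^ K)) := by
    intro u hu
    have e1 : (Icc 1 N).filter (fun n => n % q = a) = (Icc 1 J).filter (fun n => n % q = a) ∪ S := by
      ext n
      simp only [mem_union, mem_filter, mem_Icc, hS, mem_Ioc]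
      omega
    have hdis : Disjoint ((Icc 1 J).filter (fun n => n % q = a)) S := by
      rw [Finset.disjoint_left]
      intro n h3 h4
      have h5 := (mem_filter.1 h3).1
      rw [hS] at h4
      have h6 := (mem_filter.1 h4).1
      rw [mem_Icc] at h5
      rw [mem_Ioc] at h6
      omega
    have e2 : ∑ n ∈ S, d n * f ⌊Real.exp (b + u) * P n + β⌋₊ = (F : ℂ) * Gf d B (fun n => φ 0 n) S u := by
      unfold Gf
      rw [mul_sum]
      refine sum_congr rfl fun n hn => ?_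
      rw [hS] at hn
      have hn := (mem_filter.1 hn).1
      rw [mem_Ioc] at hn
      have h3 : Real.exp (b + (u + φ 0 n)) = Real.exp (b + u) * P n := by
        rw [hP n (by omega), ← Real.exp_add]
        congr 1
        ring
      obtain ⟨hPJ0, hPJn⟩ := hmono J n hJn1 hn.1.le
      obtain ⟨hPn0, hPnN⟩ := hmono n N (by omega) hn.2
      have h4 : B (u + φ 0 n) = nrm f M1 M2 ⌊Real.exp (b + u) * P n + β⌋₊ := by
        rw [hB]
        unfold Bt
        rw [h3, if_pos]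
        rw [mem_Icc]
        constructor
        · rw [hM1]
          unfold lo2
          apply Nat.floor_le_floor
          have h5 : Real.exp b ≤ Real.exp (b + u) := Real.exp_le_exp.2 (by linarith [hu.1])
          have := mul_le_mul h5 hPJn hPJ0.le (by positivity)
          linarith
        · rw [hM2]
          unfold hi2
          apply Nat.floor_le_floor
          have h5 : Real.exp (b + u) ≤ Real.exp (b + 1) := Real.exp_le_exp.2 (by linarith [hu.2])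
          have := mul_le_mul h5 hPnN hPn0.le (by positivity)
          linarith
      have h6 : ⌊Real.exp (b + u) * P n + β⌋₊ ∈ Icc M1 M2 := by
        rw [mem_Icc]
        constructor
        · rw [hM1]
          unfold lo2
          apply Nat.floor_le_floor
          have h5 : Real.exp b ≤ Real.exp (b + u) := Real.exp_le_exp.2 (by linarith [hu.1])
          have := mul_le_mul h5 hPJn hPJ0.le (by positivity)
          linarith
        · rw [hM2]
          unfold hi2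
          apply Nat.floor_le_floor
          have h5 : Real.exp (b + u) ≤ Real.exp (b + 1) := Real.exp_le_exp.2 (by linarith [hu.2])
          have := mul_le_mul h5 hPnN hPn0.le (by positivity)
          linarith
      have h7 : (F : ℂ) ≠ 0 := by
        have h8 : 1 ≤ F := by
          rw [hFdef, Real.le_log_iff_exp_le (by positivity)]
          have := Real.exp_one_lt_d9
          linarith
        exact_mod_cast (by linarith : F ≠ 0)
      rw [h4]
      unfold nrm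
      rw [if_pos h6, ← hFdef]
      field_simp
    have e3 : ‖∑ n ∈ (Icc 1 J).filter (fun n => n % q = a), d n * f ⌊Real.exp (b + u) * P n + β⌋₊‖ ≤
        6 * C' * (X / ℓ ^ K) := by
      refine (norm_sum_le _ _).trans ?_
      have h3 : ∀ n ∈ (Icc 1 J).filter (fun n => n % q = a),
          ‖d n * f ⌊Real.exp (b + u) * P n + β⌋₊‖ ≤ C' * (3 * ℓ) := by
        intro n hn
        have hn := (mem_filter.1 hn).1
        rw [mem_Icc] at hn
        rw [norm_mul]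
        have h4 := hC' u hu n n hn.1 hn.1 (by omega)
        have h5 : Real.log ((n : ℝ) + 3) ≤ 3 * ℓ := by
          have h6 : (n : ℝ) ≤ N := by exact_mod_cast hn.2.trans hJ4
          have h7 : (n : ℝ) + 3 ≤ (N : ℝ) ^ 3 := by nlinarith [sq_nonneg ((N : ℝ) - 1), mul_pos hN0 hN0]
          have h8 := Real.log_le_log (by positivity) h7
          rw [Real.log_pow] at h8
          exact_mod_cast h8
        calc ‖d n‖ * ‖f ⌊Real.exp (b + u) * P n + β⌋₊‖ ≤ 1 * (C' * Real.log (n + 3)) :=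
              mul_le_mul (hd n) h4 (norm_nonneg _) zero_le_one
          _ ≤ C' * (3 * ℓ) := by
              rw [one_mul]
              exact mul_le_mul_of_nonneg_left h5 (by linarith)
      refine (sum_le_sum h3).trans ?_
      rw [sum_const, nsmul_eq_mul]
      have h4 : (((Icc 1 J).filter (fun n => n % q = a)).card : ℝ) ≤ 2 * (X / ℓ ^ K1) := by
        refine (card_prog J q a hq).trans ?_
        have h5 : (J : ℝ) / q ≤ X / ℓ ^ K1 := by
          calc (J : ℝ) / q ≤ ((N : ℝ) / ℓ ^ K1) / q := div_le_div_of_nonneg_right hJ3 hq0.le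
            _ = _ := by
                rw [hX]
                ring
        linarith
      calc (((Icc 1 J).filter (fun n => n % q = a)).card : ℝ) * (C' * (3 * ℓ)) ≤ 2 * (X / ℓ ^ K1) * (C' * (3 * ℓ)) :=
            mul_le_mul_of_nonneg_right h4 (by positivity)
        _ = _ := by
            rw [hK1, pow_succ]
            field_simp
            ring
    rw [e1, sum_union hdis, e2, sq_enorm, sq_enorm]
    have h3 : ‖∑ n ∈ (Icc 1 J).filter (fun n => n % q = a), d n * f ⌊Real.exp (b + u) * P n + β⌋₊ +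
          (F : ℂ) * Gf d B (fun n => φ 0 n) S u‖ ^ 2 ≤
        2 * (F ^ 2 * ‖Gf d B (fun n => φ 0 n) S u‖ ^ 2) + 2 * (6 * C') ^ 2 * (X ^ 2 / ℓ ^ K) := by
      set x := ‖∑ n ∈ (Icc 1 J).filter (fun n => n % q = a), d n * f ⌊Real.exp (b + u) * P n + β⌋₊‖ with hx
      set g := ‖Gf d B (fun n => φ 0 n) S u‖ with hg
      have h4 : ‖∑ n ∈ (Icc 1 J).filter (fun n => n % q = a), d n * f ⌊Real.exp (b + u) * P n + β⌋₊ +
          (F : ℂ) * Gf d B (fun n => φ 0 n) S u‖ ≤ x + F * g := by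
        refine (norm_add_le _ _).trans ?_
        rw [norm_mul, Complex.norm_real, Real.norm_eq_abs, abs_of_nonneg hF0]
      have h5 : x ^ 2 ≤ (6 * C') ^ 2 * (X ^ 2 / ℓ ^ K) := by
        calc x ^ 2 ≤ (6 * C' * (X / ℓ ^ K)) ^ 2 := pow_le_pow_left₀ (norm_nonneg _) e3 2
          _ = (6 * C') ^ 2 * (X ^ 2 / (ℓ ^ K * ℓ ^ K)) := by
              field_simp
          _ ≤ _ := by
              refine mul_le_mul_of_nonneg_left ?_ (by positivity)
              refine div_le_div_of_nonneg_left (by positivity) (by positivity) ?_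
              nlinarith
      have hg0 : 0 ≤ g := norm_nonneg _
      have hx0 : 0 ≤ x := norm_nonneg _
      calc _ ≤ (x + F * g) ^ 2 := pow_le_pow_left₀ (norm_nonneg _) h4 2
        _ ≤ 2 * (F ^ 2 * g ^ 2) + 2 * x ^ 2 := by nlinarith [sq_nonneg (x - F * g)]
        _ ≤ _ := by linarith
    refine (ENNReal.ofReal_le_ofReal h3).trans ?_
    rw [ENNReal.ofReal_add (by positivity) (by positivity), ENNReal.ofReal_mul (show (0 : ℝ) ≤ 2 by norm_num),
      ENNReal.ofReal_mul (by positivity), ENNReal.ofReal_ofNat]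
  calc ∫⁻ u in Set.Icc (0 : ℝ) 1, ‖∑ n ∈ (Icc 1 N).filter (fun n => n % q = a),
          d n * f ⌊Real.exp (b + u) * P n + β⌋₊‖ₑ ^ 2
      ≤ ∫⁻ u in Set.Icc (0 : ℝ) 1, (2 * (ENNReal.ofReal (F ^ 2) * ‖Gf d B (fun n => φ 0 n) S u‖ₑ ^ 2) +
        ENNReal.ofReal (2 * (6 * C') ^ 2 * (X ^ 2 / ℓ ^ K))) := setLIntegral_mono' measurableSet_Icc hptw
    _ = (∫⁻ u in Set.Icc (0 : ℝ) 1, 2 * (ENNReal.ofReal (F ^ 2) * ‖Gf d B (fun n => φ 0 n) S u‖ₑ ^ 2)) +
        ENNReal.ofReal (2 * (6 * C') ^ 2 * (X ^ 2 / ℓ ^ K)) := by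
        rw [lintegral_add_right _ measurable_const, setLIntegral_const, Real.volume_Icc]
        simp
    _ ≤ 2 * ENNReal.ofReal (CF ^ 2 * (X1 * (X ^ 2 / ℓ ^ K))) +
        ENNReal.ofReal (2 * (6 * C') ^ 2 * (X ^ 2 / ℓ ^ K)) := by
        refine add_le_add ?_ le_rfl
        rw [lintegral_const_mul' _ _ (by simp), lintegral_const_mul' _ _ ENNReal.ofReal_ne_top]
        refine mul_le_mul' le_rfl (le_trans ?_ hGf)
        exact mul_le_mul' le_rfl (setLIntegral_le_lintegral _ _)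
    _ = _ := by
        have hX10 : 0 ≤ X1 := by rw [hX1]; positivity
        rw [← ENNReal.ofReal_ofNat 2, ← ENNReal.ofReal_mul (by norm_num),
          ← ENNReal.ofReal_add (by positivity) (by positivity)]
        congr 1
        ring

/-- **the mean square over the dilation in progressions** -/
theorem unq (f : ℕ → ℂ) (hf : ∀ n : ℕ, ‖f n‖ ≤ Real.log (n + 3)) (hN : Neg f) {φ : ℕ → ℝ → ℝ}
    (hφ : Reg φ) (P : ℕ → ℝ) (n0 : ℕ) (hP : ∀ n : ℕ, n0 ≤ n → P n = Real.exp (φ 0 n)) (β : ℝ) : UQ f P β := by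
  have key : ∀ (b ε : ℝ) (K : ℕ), 0 < ε → ε ≤ 1 → ∃ C : ℝ, 0 ≤ C ∧ ∀ N : ℕ, 2 ≤ N → ∀ q a : ℕ, 1 ≤ q →
      (q : ℝ) ≤ (N : ℝ) ^ (1 - ε) → a < q → ∀ d : ℕ → ℂ, (∀ n, ‖d n‖ ≤ 1) →
      ∫⁻ u in Set.Icc (0 : ℝ) 1, ‖∑ n ∈ (Icc 1 N).filter (fun n => n % q = a),
          d n * f ⌊Real.exp (b + u) * P n + β⌋₊‖ₑ ^ 2 ≤
        ENNReal.ofReal (C * ((N : ℝ) / q) ^ 2 / (Real.log N) ^ K) := by
    intro b ε K hε hε1
    obtain ⟨C, hC0, hC⟩ := unq_large f hf hN hφ P n0 hP β b ε K hε hε1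
    have hG : Gr P := hφ.gr P n0 hP
    obtain ⟨A', Cb, hCb, hbd⟩ := hG.bd
    obtain ⟨C', hC'1, hC'⟩ := val_le f hf P 1 A' Cb hbd b β
    rw [eventually_atTop] at hC
    obtain ⟨N0, hN0⟩ := hC
    set X : ℝ := C' * Real.log ((N0 : ℝ) + 3) with hX
    have hX0 : 0 ≤ X := by
      have := lg3 N0
      positivity
    refine ⟨C + (2 * X) ^ 2 * |Real.log (N0 : ℝ)| ^ K, by positivity, fun N hN2 q a hq hqN ha d hd => ?_⟩
    have hNp : (0 : ℝ) < N := by exact_mod_cast (by omega : 0 < N)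
    have hN1 : (1 : ℝ) ≤ N := by exact_mod_cast (by omega : 1 ≤ N)
    have hl : 0 < Real.log N := Real.log_pos (by exact_mod_cast hN2)
    have hq0 : (0 : ℝ) < q := by exact_mod_cast hq
    have hNq : 1 ≤ (N : ℝ) / q := by
      rw [le_div_iff₀ hq0, one_mul]
      refine hqN.trans ?_
      calc (N : ℝ) ^ (1 - ε) ≤ (N : ℝ) ^ (1 : ℝ) := Real.rpow_le_rpow_of_exponent_le hN1 (by linarith)
        _ = N := Real.rpow_one _
    rcases le_or_gt N0 N with h | h
    · refine (hN0 N h q a hq hqN ha d hd).trans (ENNReal.ofReal_le_ofReal ?_)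
      refine div_le_div_of_nonneg_right ?_ (by positivity)
      have : 0 ≤ (2 * X) ^ 2 * |Real.log (N0 : ℝ)| ^ K * ((N : ℝ) / q) ^ 2 := by positivity
      linarith
    · have hpt : ∀ u ∈ Set.Icc (0 : ℝ) 1, ‖∑ n ∈ (Icc 1 N).filter (fun n => n % q = a),
          d n * f ⌊Real.exp (b + u) * P n + β⌋₊‖ ≤ 2 * ((N : ℝ) / q) * X := by
        intro u hu
        refine (norm_sum_le _ _).trans ?_
        have h3 : ∀ n ∈ (Icc 1 N).filter (fun n => n % q = a), ‖d n * f ⌊Real.exp (b + u) * P n + β⌋₊‖ ≤ X := by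
          intro n hn
          have hn := (mem_filter.1 hn).1
          rw [mem_Icc] at hn
          rw [norm_mul]
          have h4 := hC' u hu n n hn.1 hn.1 (by omega)
          have h5 : Real.log ((n : ℝ) + 3) ≤ Real.log ((N0 : ℝ) + 3) := by
            have h6 : (n : ℝ) ≤ N0 := by exact_mod_cast hn.2.trans h.le
            exact Real.log_le_log (by positivity) (by linarith)
          calc ‖d n‖ * ‖f ⌊Real.exp (b + u) * P n + β⌋₊‖ ≤ 1 * (C' * Real.log (n + 3)) :=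
                mul_le_mul (hd n) h4 (norm_nonneg _) zero_le_one
            _ ≤ X := by
                rw [one_mul]
                exact mul_le_mul_of_nonneg_left h5 (by linarith)
        refine (sum_le_sum h3).trans ?_
        rw [sum_const, nsmul_eq_mul]
        refine mul_le_mul_of_nonneg_right ?_ hX0
        have := card_prog N q a hq
        linarith
      calc ∫⁻ u in Set.Icc (0 : ℝ) 1, ‖∑ n ∈ (Icc 1 N).filter (fun n => n % q = a),
            d n * f ⌊Real.exp (b + u) * P n + β⌋₊‖ₑ ^ 2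
          ≤ ∫⁻ _ in Set.Icc (0 : ℝ) 1, ENNReal.ofReal ((2 * ((N : ℝ) / q) * X) ^ 2) :=
            setLIntegral_mono' measurableSet_Icc fun u hu => enorm_sq_le (hpt u hu)
        _ = ENNReal.ofReal ((2 * ((N : ℝ) / q) * X) ^ 2) := by
            rw [setLIntegral_const, Real.volume_Icc]
            simp
        _ ≤ _ := by
            apply ENNReal.ofReal_le_ofReal
            rw [le_div_iff₀ (by positivity)]
            have h2 : Real.log N ≤ |Real.log (N0 : ℝ)| :=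
              (Real.log_le_log hNp (by exact_mod_cast h.le)).trans (le_abs_self _)
            have h3 : (Real.log N) ^ K ≤ |Real.log (N0 : ℝ)| ^ K := pow_le_pow_left₀ hl.le h2 K
            have h4 : 0 ≤ C * ((N : ℝ) / q) ^ 2 := by positivity
            calc (2 * ((N : ℝ) / q) * X) ^ 2 * (Real.log N) ^ K ≤
                  (2 * ((N : ℝ) / q) * X) ^ 2 * |Real.log (N0 : ℝ)| ^ K :=
                  mul_le_mul_of_nonneg_left h3 (by positivity)
              _ = (2 * X) ^ 2 * |Real.log (N0 : ℝ)| ^ K * ((N : ℝ) / q) ^ 2 := by ring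
              _ ≤ _ := by nlinarith
  intro b ε K hε
  rcases le_or_gt ε 1 with h | h
  · exact key b ε K hε h
  · obtain ⟨C, hC0, hC⟩ := key b 1 K one_pos le_rfl
    refine ⟨C, hC0, fun N hN q a hq hqN ha d hd => hC N hN q a hq (hqN.trans ?_) ha d hd⟩
    have hN1 : (1 : ℝ) ≤ N := by exact_mod_cast (by omega : 1 ≤ N)
    exact Real.rpow_le_rpow_of_exponent_le hN1 (by linarith)

end Pool.Agent.Q138.GS
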