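import Pool.Agent.Q138.GS.Uni

set_option autoImplicit false

/-!
# Tuples with shifts, uniformly in the shifts
-/

namespace Pool.Agent.Q138.GS

open Finset Filter Topology MeasureTheory
open scoped ENNReal
open Pool.Agent.Y957.VK

theorem v01_univ : v01 Set.univ = 1 := by
  simp [v01]

theorem pi_univ (k : ℕ) : (Measure.pi fun _ : Fin k => v01) Set.univ = 1 := by
  rw [Measure.pi_univ]
  simp

/-- the mean square over the cube: the coordinate `j` is the generic dilation -/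
theorem var_j (k : ℕ) (j : Fin (k + 1)) (G : (Fin (k + 1) → ℝ) → ℕ → ℂ)
    (hGm : ∀ n, Measurable fun ω => G ω n) (hGj : ∀ ω t n, G (Function.update ω j t) n = G ω n)
    (N h : ℕ) (Γ : ℝ) (hΓ : 0 < Γ)
    (hG : ∀ ω, (∀ i, ω i ∈ Set.Icc (0 : ℝ) 1) → ∀ n ∈ Icc 1 N, ‖G ω n‖ ≤ Γ)
    (f : ℕ → ℂ) (P : ℕ → ℝ) (β b V : ℝ)
    (hV : ∀ d : ℕ → ℂ, (∀ n, ‖d n‖ ≤ 1) →
      ∫⁻ u in Set.Icc (0 : ℝ) 1, ‖∑ m ∈ Icc 1 (N + h), d m * f ⌊Real.exp (b + u) * P m + β⌋₊‖ₑ ^ 2 ≤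
        ENNReal.ofReal V) :
    ∫⁻ ω, ‖∑ n ∈ Icc 1 N, G ω n * f ⌊Real.exp (b + ω j) * P (n + h) + β⌋₊‖ₑ ^ 2
      ∂(Measure.pi fun _ : Fin (k + 1) => v01) ≤ ENNReal.ofReal (Γ ^ 2 * V) := by
  classical
  set e := MeasurableEquiv.piFinSuccAbove (fun _ : Fin (k + 1) => ℝ) j with he
  have hI1 : ∀ (t : ℝ) (ν : Fin k → ℝ), e.symm (t, ν) j = t := fun t ν =>
    congrArg Prod.fst (e.apply_symm_apply (t, ν))
  have hI2 : ∀ (t : ℝ) (ν : Fin k → ℝ) (i : Fin k), e.symm (t, ν) (j.succAbove i) = ν i := fun t ν i =>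
    congrFun (congrArg Prod.snd (e.apply_symm_apply (t, ν))) i
  have hupd : ∀ (t : ℝ) (ν : Fin k → ℝ), e.symm (t, ν) = Function.update (e.symm (0, ν)) j t := by
    intro t ν
    funext i
    rcases eq_or_ne i j with rfl | hi
    · rw [hI1, Function.update_self]
    · rw [Function.update_of_ne hi]
      obtain ⟨i', rfl⟩ := Fin.exists_succAbove_eq hi
      rw [hI2, hI2]
  have hcube : ∀ ν : Fin k → ℝ, (∀ i, ν i ∈ Set.Icc (0 : ℝ) 1) → ∀ i, e.symm (0, ν) i ∈ Set.Icc (0 : ℝ) 1 := by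
    intro ν hν i
    rcases eq_or_ne i j with rfl | hi
    · rw [hI1]
      simp
    · obtain ⟨i', rfl⟩ := Fin.exists_succAbove_eq hi
      rw [hI2]
      exact hν i'
  set Hf : (Fin (k + 1) → ℝ) → ℝ≥0∞ := fun ω =>
    ‖∑ n ∈ Icc 1 N, G ω n * f ⌊Real.exp (b + ω j) * P (n + h) + β⌋₊‖ₑ ^ 2 with hHf
  have hwj : Measurable fun ω : Fin (k + 1) → ℝ => ω j := measurable_pi_apply j
  have hHm : Measurable Hf := by
    refine Measurable.pow_const (Measurable.enorm (Finset.measurable_fun_sum _ fun n _ => ?_)) 2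
    refine (hGm n).mul (fl_meas f ?_)
    exact (((hwj.const_add b).exp).mul_const _).add_const β
  have mp := measurePreserving_piFinSuccAbove (fun _ : Fin (k + 1) => v01) j
  have h1 : ∫⁻ x, Hf (e.symm x) ∂(v01.prod (Measure.pi fun _ : Fin k => v01)) =
      ∫⁻ ω, Hf ω ∂(Measure.pi fun _ : Fin (k + 1) => v01) := mp.symm.lintegral_comp hHm
  have h0 := lintegral_prod_symm (μ := v01) (ν := Measure.pi fun _ : Fin k => v01) (fun x => Hf (e.symm x))
    (hHm.comp e.symm.measurable).aemeasurable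
  rw [← h1, h0]
  have h2 : ∀ᵐ ν ∂(Measure.pi fun _ : Fin k => v01),
      ∫⁻ t, Hf (e.symm (t, ν)) ∂v01 ≤ ENNReal.ofReal (Γ ^ 2 * V) := by
    filter_upwards [cube_ae k] with ν hν
    set d : ℕ → ℂ := fun m => if h < m ∧ m ≤ N + h then G (e.symm (0, ν)) (m - h) / (Γ : ℂ) else 0 with hd
    have hd1 : ∀ m, ‖d m‖ ≤ 1 := by
      intro m
      rw [hd]
      simp only
      split_ifs with hm
      · rw [norm_div, Complex.norm_real, Real.norm_eq_abs, abs_of_pos hΓ, div_le_one hΓ]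
        exact hG _ (hcube ν hν) _ (mem_Icc.2 ⟨by omega, by omega⟩)
      · simp
    have h3 : ∀ t : ℝ, Hf (e.symm (t, ν)) = ENNReal.ofReal (Γ ^ 2) *
        ‖∑ m ∈ Icc 1 (N + h), d m * f ⌊Real.exp (b + t) * P m + β⌋₊‖ₑ ^ 2 := by
      intro t
      have e1 : ∑ n ∈ Icc 1 N, G (e.symm (t, ν)) n * f ⌊Real.exp (b + e.symm (t, ν) j) * P (n + h) + β⌋₊ =
          (Γ : ℂ) * ∑ m ∈ Icc 1 (N + h), d m * f ⌊Real.exp (b + t) * P m + β⌋₊ := by
        have e2 : ∑ m ∈ Icc 1 (N + h), d m * f ⌊Real.exp (b + t) * P m + β⌋₊ =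
            ∑ n ∈ Icc 1 N, d (n + h) * f ⌊Real.exp (b + t) * P (n + h) + β⌋₊ := by
          symm
          refine sum_bij_ne_zero (fun n _ _ => n + h) (fun n hn _ => ?_) (fun n1 _ _ n2 _ _ heq => by omega)
            (fun m hm hne => ?_) (fun n _ _ => rfl)
          · rw [mem_Icc] at hn ⊢
            omega
          · have hm2 : h < m ∧ m ≤ N + h := by
              by_contra hcon
              apply hne
              rw [hd]
              simp only
              rw [if_neg hcon, zero_mul]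
            refine ⟨m - h, mem_Icc.2 ⟨by omega, by omega⟩, ?_, by omega⟩
            have e3 : m - h + h = m := by omega
            rw [e3]
            exact hne
        rw [e2, mul_sum]
        refine sum_congr rfl fun n hn => ?_
        have hn2 := mem_Icc.1 hn
        rw [hd]
        simp only
        rw [if_pos ⟨by omega, by omega⟩, hI1, Nat.add_sub_cancel, hupd t ν, hGj]
        have hΓc : (Γ : ℂ) ≠ 0 := by exact_mod_cast hΓ.ne'
        field_simp
      rw [hHf]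
      simp only
      rw [e1, enorm_mul, mul_pow]
      congr 1
      rw [sq_enorm, Complex.norm_real, Real.norm_eq_abs, abs_of_pos hΓ]
    simp only [h3]
    rw [lintegral_const_mul']
    · refine (mul_le_mul_right (hV d hd1) _).trans (le_of_eq ?_)
      rw [← ENNReal.ofReal_mul (by positivity)]
    · exact ENNReal.ofReal_ne_top
  refine (lintegral_mono_ae h2).trans ?_
  rw [lintegral_const, pi_univ, mul_one]

/-- the range of the shifts -/
noncomputable def LL (B N : ℕ) : ℕ := ⌊(Real.log N) ^ B⌋₊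

/-- the admissible shifts of the weight and of the factors -/
noncomputable def Hs (k B N : ℕ) : Finset (ℕ × (Fin k → ℕ)) :=
  range (LL B N + 1) ×ˢ Fintype.piFinset fun _ => range (LL B N + 1)

theorem LL_mono (B : ℕ) {N M : ℕ} (h : N ≤ M) : LL B N ≤ LL B M := by
  unfold LL
  refine Nat.floor_le_floor ?_
  refine pow_le_pow_left₀ (Real.log_natCast_nonneg N) ?_ B
  rcases Nat.eq_zero_or_pos N with rfl | hN
  · simpa using Real.log_natCast_nonneg M
  · exact Real.log_le_log (by exact_mod_cast hN) (by exact_mod_cast h)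

theorem Hs_mono (k B : ℕ) (N M : ℕ) (h : N ≤ M) : Hs k B N ⊆ Hs k B M := by
  intro x hx
  unfold Hs at hx ⊢
  rw [mem_product, Fintype.mem_piFinset] at hx ⊢
  have := LL_mono B h
  refine ⟨mem_range.2 (by have := mem_range.1 hx.1; omega), fun i => mem_range.2 ?_⟩
  have := mem_range.1 (hx.2 i)
  omega

theorem mem_Hs {k B N : ℕ} {x : ℕ × (Fin k → ℕ)} : x ∈ Hs k B N ↔ x.1 ≤ LL B N ∧ ∀ i, x.2 i ≤ LL B N := by
  unfold Hs
  rw [mem_product, Fintype.mem_piFinset]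
  simp only [mem_range, Nat.lt_succ_iff]

theorem Hs_card (k B : ℕ) : ∃ C2 : ℝ, ∀ N : ℕ, 2 ≤ N →
    ((Hs k B N).card : ℝ) ≤ C2 * (Real.log N) ^ (B * (k + 1)) := by
  refine ⟨(1 + 1 / (Real.log 2) ^ B) ^ (k + 1), fun N hN => ?_⟩
  have hl2 : 0 < Real.log 2 := Real.log_pos (by norm_num)
  have hl : Real.log 2 ≤ Real.log N := Real.log_le_log (by norm_num) (by exact_mod_cast hN)
  have h1 : ((Hs k B N).card : ℝ) = ((LL B N : ℝ) + 1) ^ (k + 1) := by
    unfold Hs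
    rw [card_product, Fintype.card_piFinset]
    simp only [card_range, prod_const, card_univ, Fintype.card_fin]
    push_cast
    ring
  have h2 : (LL B N : ℝ) ≤ (Real.log N) ^ B := Nat.floor_le (by positivity)
  have h3 : (1 : ℝ) ≤ 1 / (Real.log 2) ^ B * (Real.log N) ^ B := by
    rw [one_div_mul_eq_div, one_le_div (by positivity)]
    exact pow_le_pow_left₀ hl2.le hl B
  rw [h1, pow_mul, ← mul_pow]
  refine pow_le_pow_left₀ (by positivity) ?_ _
  nlinarith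

theorem LL_le (B : ℕ) : ∃ C3 : ℝ, 1 ≤ C3 ∧ ∀ N n h : ℕ, n ≤ N + 1 → h ≤ LL B N →
    ((n + h : ℕ) : ℝ) ≤ C3 * (N + 1) ∧ Real.log (((n + h : ℕ) : ℝ) + 3) ≤ C3 * Real.log (N + 3) := by
  have h1 := log_pow_small B one_pos
  obtain ⟨N0, hN0⟩ := eventually_atTop.1 h1
  set X : ℝ := ∑ N ∈ range (N0 + 1), Real.log (N : ℝ) ^ B with hX
  have hX0 : 0 ≤ X := sum_nonneg fun N _ => by
    have := Real.log_natCast_nonneg N
    positivity
  have hb : ∀ N : ℕ, Real.log (N : ℝ) ^ B ≤ (X + 1) * (N + 1) := by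
    intro N
    have hNn : (0 : ℝ) ≤ N := Nat.cast_nonneg N
    rcases lt_or_ge N N0 with h | h
    · have : Real.log (N : ℝ) ^ B ≤ X := single_le_sum (f := fun N : ℕ => Real.log (N : ℝ) ^ B) (fun i _ => by
        have := Real.log_natCast_nonneg i
        positivity) (mem_range.2 (by omega))
      nlinarith
    · have := hN0 N h
      nlinarith
  have hlX : 0 ≤ Real.log (X + 3) := Real.log_nonneg (by linarith)
  have hC3 : X + 3 ≤ X + 3 + Real.log (X + 3) := by linarith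
  refine ⟨X + 3 + Real.log (X + 3), by linarith, fun N n h hn hh => ?_⟩
  have hNn : (0 : ℝ) ≤ N := Nat.cast_nonneg N
  have h2 : (h : ℝ) ≤ Real.log (N : ℝ) ^ B := by
    calc (h : ℝ) ≤ (LL B N : ℝ) := by exact_mod_cast hh
      _ ≤ _ := Nat.floor_le (by
        have := Real.log_natCast_nonneg N
        positivity)
  have h3 : (n : ℝ) ≤ N + 1 := by exact_mod_cast hn
  have h4 : ((n + h : ℕ) : ℝ) ≤ (X + 2) * (N + 1) := by
    push_cast
    have := hb N
    nlinarith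
  constructor
  · refine h4.trans ?_
    refine mul_le_mul_of_nonneg_right (by linarith) (by linarith)
  · have h5 : ((n + h : ℕ) : ℝ) + 3 ≤ (X + 3) * (N + 3) := by nlinarith
    have h6 := Real.log_le_log (by positivity) h5
    rw [Real.log_mul (by linarith) (by linarith)] at h6
    have h7 := lg3 N
    nlinarith

/-- the terms -/
noncomputable def aT (k : ℕ) (F : Fin (k + 1) → ℕ → ℂ) (c0 : Fin (k + 1) → ℂ) (P : Fin (k + 1) → ℕ → ℝ)
    (β : Fin (k + 1) → ℝ) (g : ℕ → ℂ) (h : ℕ × (Fin (k + 1) → ℕ)) (α : Fin (k + 1) → ℝ) (n : ℕ) : ℂ :=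
  g (n + h.1) * (∏ i, F i ⌊α i * P i (n + h.2 i) + β i⌋₊ - ∏ i, c0 i)

theorem sq_sum_le' {ι : Type*} (s : Finset ι) (z : ι → ℂ) :
    ‖∑ i ∈ s, z i‖ₑ ^ 2 ≤ (s.card : ℝ≥0∞) * ∑ i ∈ s, ‖z i‖ₑ ^ 2 := by
  simp only [sq_enorm]
  rw [← ENNReal.ofReal_sum_of_nonneg fun i _ => by positivity, ← ENNReal.ofReal_natCast,
    ← ENNReal.ofReal_mul (Nat.cast_nonneg _)]
  refine ENNReal.ofReal_le_ofReal ?_
  calc ‖∑ i ∈ s, z i‖ ^ 2 ≤ (∑ i ∈ s, ‖z i‖) ^ 2 := pow_le_pow_left₀ (norm_nonneg _) (norm_sum_le _ _) 2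
    _ ≤ (s.card : ℝ) * ∑ i ∈ s, ‖z i‖ ^ 2 := sq_sum_le_card_mul_sum_sq

theorem alg1 (C l : ℝ) (m : ℕ) : (C * (3 * l) ^ m) ^ 2 = C ^ 2 * 9 ^ m * (l ^ m) ^ 2 := by
  have e9 : ((3 : ℝ) ^ m) ^ 2 = 9 ^ m := by
    rw [← pow_mul, mul_comm, pow_mul]
    norm_num
  rw [mul_pow, mul_pow, mul_pow, e9]
  ring

/-- **uniformity in the shifts** -/
theorem uni_sav (k : ℕ) (F f : Fin (k + 1) → ℕ → ℂ) (c0 : Fin (k + 1) → ℂ)
    (hFf : ∀ i n, F i n = c0 i + f i n) (hF : ∀ i (n : ℕ), ‖F i n‖ ≤ Real.log (n + 3))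
    (P : Fin (k + 1) → ℕ → ℝ) (A' : Fin (k + 1) → ℕ)
    (C1 : Fin (k + 1) → ℝ) (hP : ∀ i, ∀ n : ℕ, 1 ≤ n → |P i n| ≤ C1 i * (n : ℝ) ^ (A' i))
    (β : Fin (k + 1) → ℝ) (hU : ∀ i, UN (f i) (P i) (β i)) (g : ℕ → ℂ) (C0 : ℝ) (Bg : ℕ)
    (hg : ∀ n : ℕ, 1 ≤ n → ‖g n‖ ≤ C0 * (Real.log (n + 3)) ^ Bg) :
    ∀ᵐ α ∂(pm (k + 1)), ∀ B K : ℕ, ∀ᶠ N : ℕ in atTop, ∀ h ∈ Hs (k + 1) B N,
      ‖∑ n ∈ Icc 1 N, aT k F c0 P β g h α n‖ ≤ N / (Real.log N) ^ K := by
  classical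
  rw [ae_all_iff]
  intro B
  refine to_alpha (k + 1) _ fun b => ?_
  -- constants
  obtain ⟨C3, hC31, hC3⟩ := LL_le B
  set Y : Fin (k + 1) → ℝ := fun i => Real.exp (b i + 1) with hY
  choose C' hC'1 hC' using fun i => val_le2 (F i) (hF i) (P i) 1 (A' i) (C1 i) (Y i) (hP i) (β i)
  set Lf : ℕ → ℝ := fun N => Real.log ((N : ℝ) + 3) with hLf
  have hL1 : ∀ N, 1 ≤ Lf N := fun N => lg3 N
  -- the bound for the values
  have hval : ∀ (ω : Fin (k + 1) → ℝ), (∀ i, ω i ∈ Set.Icc (0 : ℝ) 1) → ∀ N n h : ℕ, 1 ≤ n → n ≤ N + 1 →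
      h ≤ LL B N → ∀ i, ‖F i ⌊Real.exp (b i + ω i) * P i (n + h) + β i⌋₊‖ ≤ C' i * (C3 * Lf N) := by
    intro ω hω N n h hn hnN hh i
    have h1 := hC' i (Real.exp (b i + ω i)) (by
      rw [abs_of_pos (Real.exp_pos _)]
      exact Real.exp_le_exp.2 (by linarith [(hω i).2])) (n + h) (n + h) (by omega) (by omega) (by omega)
    refine h1.trans ?_
    have h2 := (hC3 N n h hnN hh).2
    exact mul_le_mul_of_nonneg_left h2 (by linarith [hC'1 i])
  have hgv : ∀ N n h : ℕ, 1 ≤ n → n ≤ N + 1 → h ≤ LL B N → ‖g (n + h)‖ ≤ |C0| * (C3 * Lf N) ^ Bg := by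
    intro N n h hn hnN hh
    have h1 := hg (n + h) (by omega)
    have h2 := (hC3 N n h hnN hh).2
    have h3 : 0 ≤ Real.log (((n + h : ℕ) : ℝ) + 3) := by
      have := lg3 (n + h)
      linarith
    calc ‖g (n + h)‖ ≤ C0 * (Real.log (((n + h : ℕ) : ℝ) + 3)) ^ Bg := h1
      _ ≤ |C0| * (Real.log (((n + h : ℕ) : ℝ) + 3)) ^ Bg :=
          mul_le_mul_of_nonneg_right (le_abs_self _) (by positivity)
      _ ≤ |C0| * (C3 * Lf N) ^ Bg := by gcongr
  have hprod : ∀ (ω : Fin (k + 1) → ℝ), (∀ i, ω i ∈ Set.Icc (0 : ℝ) 1) → ∀ N n : ℕ, ∀ h : Fin (k + 1) → ℕ,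
      1 ≤ n → n ≤ N + 1 → (∀ i, h i ≤ LL B N) → ∀ (p : Fin (k + 1) → Prop) [DecidablePred p],
      ‖∏ i with p i, F i ⌊Real.exp (b i + ω i) * P i (n + h i) + β i⌋₊‖ ≤
        (∏ i, C' i) * (C3 * Lf N) ^ (k + 1) := by
    intro ω hω N n h hn hnN hh p _
    have h3 := hL1 N
    rw [norm_prod]
    calc ∏ i with p i, ‖F i ⌊Real.exp (b i + ω i) * P i (n + h i) + β i⌋₊‖
        ≤ ∏ i with p i, (C' i * (C3 * Lf N)) :=
          Finset.prod_le_prod (fun _ _ => norm_nonneg _) fun i _ => hval ω hω N n (h i) hn hnN (hh i) i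
      _ ≤ ∏ i, (C' i * (C3 * Lf N)) := by
          exact prod_filter_le p _ fun i => by
            have := hC'1 i
            nlinarith [mul_le_mul hC31 h3 (by norm_num) (by linarith)]
      _ = _ := by
          rw [Finset.prod_mul_distrib]
          simp
  have hCp : 0 ≤ ∏ i, C' i := prod_nonneg fun i _ => by linarith [hC'1 i]
  obtain ⟨C2, hC2⟩ := Hs_card (k + 1) B
  set aa : ℕ × (Fin (k + 1) → ℕ) → (Fin (k + 1) → ℝ) → ℕ → ℂ := fun h ω n =>
    aT k F c0 P β g h (fun i => Real.exp (b i + ω i)) n with haa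
  have ham : ∀ h n, Measurable fun ω => aa h ω n := by
    intro h n
    rw [haa]
    unfold aT
    refine Measurable.const_mul (Measurable.sub_const ?_ _) _
    refine Finset.measurable_fun_prod _ fun i _ => ?_
    refine fl_meas (F i) ?_
    exact ((((measurable_pi_apply i).const_add _).exp).mul_const _).add_const _
  -- the decomposition
  set Gj : Fin (k + 1) → ℕ × (Fin (k + 1) → ℕ) → (Fin (k + 1) → ℝ) → ℕ → ℂ := fun j h ω n =>
    g (n + h.1) * (∏ i with i < j, F i ⌊Real.exp (b i + ω i) * P i (n + h.2 i) + β i⌋₊) *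
      ∏ i with j < i, c0 i with hGj
  have hdec : ∀ h ω n, aa h ω n = ∑ j, Gj j h ω n * f j ⌊Real.exp (b j + ω j) * P j (n + h.2 j) + β j⌋₊ := by
    intro h ω n
    rw [haa]
    simp only [aT, hGj]
    have e1 : ∏ i, F i ⌊Real.exp (b i + ω i) * P i (n + h.2 i) + β i⌋₊ =
        ∏ i, (c0 i + f i ⌊Real.exp (b i + ω i) * P i (n + h.2 i) + β i⌋₊) :=
      Finset.prod_congr rfl fun i _ => hFf i _
    rw [e1, Finset.prod_add_ordered, add_sub_cancel_left, Finset.mul_sum]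
    refine sum_congr rfl fun j _ => ?_
    have e2 : ∏ i with i < j, F i ⌊Real.exp (b i + ω i) * P i (n + h.2 i) + β i⌋₊ =
        ∏ i with i < j, (c0 i + f i ⌊Real.exp (b i + ω i) * P i (n + h.2 i) + β i⌋₊) :=
      Finset.prod_congr rfl fun i _ => hFf i _
    rw [e2]
    ring
  have hGm : ∀ j h n, Measurable fun ω => Gj j h ω n := by
    intro j h n
    rw [hGj]
    refine Measurable.mul_const (Measurable.const_mul ?_ _) _
    refine Finset.measurable_fun_prod _ fun i _ => ?_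
    refine fl_meas (F i) ?_
    exact ((((measurable_pi_apply i).const_add _).exp).mul_const _).add_const _
  have hGupd : ∀ j h ω t n, Gj j h (Function.update ω j t) n = Gj j h ω n := by
    intro j h ω t n
    rw [hGj]
    simp only
    congr 2
    refine Finset.prod_congr rfl fun i hi => ?_
    rw [Function.update_of_ne (mem_filter.1 hi).2.ne]
  set Wc : ℝ := 1 + ∑ j : Fin (k + 1), ‖∏ i with j < i, c0 i‖ with hWc
  have hWc1 : ∀ j : Fin (k + 1), ‖∏ i with j < i, c0 i‖ ≤ Wc := by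
    intro j
    have : ‖∏ i with j < i, c0 i‖ ≤ ∑ j : Fin (k + 1), ‖∏ i with j < i, c0 i‖ :=
      single_le_sum (f := fun j : Fin (k + 1) => ‖∏ i with j < i, c0 i‖) (fun _ _ => norm_nonneg _) (mem_univ j)
    linarith
  have hWc0 : 0 < Wc := by
    have : 0 ≤ ∑ j : Fin (k + 1), ‖∏ i with j < i, c0 i‖ := sum_nonneg fun _ _ => norm_nonneg _
    linarith
  set C5 : ℝ := (|C0| + 1) * C3 ^ Bg * ((∏ i, C' i) + 1) * C3 ^ (k + 1) * Wc with hC5
  have hC5p : 0 < C5 := by positivity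
  have hGb : ∀ j, ∀ N : ℕ, ∀ h ∈ Hs (k + 1) B N, ∀ ω, (∀ i, ω i ∈ Set.Icc (0 : ℝ) 1) → ∀ n ∈ Icc 1 N,
      ‖Gj j h ω n‖ ≤ C5 * (Lf N) ^ (Bg + (k + 1)) := by
    intro j N h hh ω hω n hn
    obtain ⟨hh1, hh2⟩ := mem_Hs.1 hh
    obtain ⟨hn1, hn2⟩ := mem_Icc.1 hn
    have h3 := hL1 N
    rw [hGj]
    simp only
    rw [norm_mul, norm_mul]
    calc _ ≤ |C0| * (C3 * Lf N) ^ Bg * ((∏ i, C' i) * (C3 * Lf N) ^ (k + 1)) * Wc := by
          refine mul_le_mul (mul_le_mul (hgv N n h.1 hn1 (by omega) hh1)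
            (hprod ω hω N n h.2 hn1 (by omega) hh2 _) (norm_nonneg _) (by positivity)) (hWc1 j)
            (norm_nonneg _) (by positivity)
      _ ≤ (|C0| + 1) * (C3 * Lf N) ^ Bg * (((∏ i, C' i) + 1) * (C3 * Lf N) ^ (k + 1)) * Wc := by
          gcongr
          · linarith
          · linarith
      _ = _ := by
          rw [hC5, mul_pow, mul_pow, pow_add]
          ring
  have hmain := bcF (Measure.pi fun _ : Fin (k + 1) => v01) (Hs (k + 1) B) (Hs_mono (k + 1) B) C2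
    (B * (k + 1 + 1)) hC2 aa ham (|C0| * C3 ^ Bg * ((∏ i, C' i) * C3 ^ (k + 1) + ‖∏ i, c0 i‖))
    (Bg + (k + 1)) ?_ ?_
  · filter_upwards [hmain] with ω hω K
    exact hω K
  · filter_upwards [cube_ae (k + 1)] with ω hω N h hh
    obtain ⟨hh1, hh2⟩ := mem_Hs.1 hh
    have h3 := hL1 N
    have h4 := hprod ω hω N (N + 1) h.2 (by omega) le_rfl hh2 (fun _ => True)
    simp only [filter_true] at h4
    have h5 := hgv N (N + 1) h.1 (by omega) le_rfl hh1
    rw [haa]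
    simp only [aT]
    rw [norm_mul]
    have h6 : (1 : ℝ) ≤ (Lf N) ^ (k + 1) := one_le_pow₀ h3
    calc _ ≤ (|C0| * (C3 * Lf N) ^ Bg) * ((∏ i, C' i) * (C3 * Lf N) ^ (k + 1) + ‖∏ i, c0 i‖) := by
          refine mul_le_mul h5 ((norm_sub_le _ _).trans (add_le_add_left h4 _)) (norm_nonneg _) (by positivity)
      _ ≤ (|C0| * (C3 * Lf N) ^ Bg) * ((∏ i, C' i) * (C3 * Lf N) ^ (k + 1) + ‖∏ i, c0 i‖ * (Lf N) ^ (k + 1)) := by
          refine mul_le_mul_of_nonneg_left (add_le_add_right ?_ _) (by positivity)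
          exact le_mul_of_one_le_right (norm_nonneg _) h6
      _ = |C0| * C3 ^ Bg * ((∏ i, C' i) * C3 ^ (k + 1) + ‖∏ i, c0 i‖) * (Real.log (N + 3)) ^ (Bg + (k + 1)) := by
          rw [mul_pow, mul_pow, pow_add]
          ring
  · intro K
    set K' : ℕ := K + 2 * (Bg + (k + 1)) with hK'
    choose CU hCU0 hCU using fun i => hU i (b i) K'
    refine ⟨((k : ℝ) + 1) * ∑ j, (C5 ^ 2 * 9 ^ (Bg + (k + 1)) * (CU j * (2 * C3) ^ 2)), by
      have : 0 ≤ ∑ j, (C5 ^ 2 * 9 ^ (Bg + (k + 1)) * (CU j * (2 * C3) ^ 2)) := sum_nonneg fun j _ => by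
        have := hCU0 j
        positivity
      positivity, fun N hN h hh => ?_⟩
    obtain ⟨hh1, hh2⟩ := mem_Hs.1 hh
    have hN2 : (2 : ℝ) ≤ N := by exact_mod_cast hN
    have hlN : 0 < Real.log N := Real.log_pos (by linarith)
    have hLN : Lf N ≤ 3 * Real.log N := by
      rw [hLf]
      simp only
      have h1 : (N : ℝ) + 3 ≤ (N : ℝ) ^ 3 := by nlinarith [mul_le_mul hN2 hN2 (by norm_num) (by linarith)]
      have h2 := Real.log_le_log (by linarith) h1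
      rw [Real.log_pow] at h2
      exact_mod_cast h2
    have h3 := hL1 N
    have hterm : ∀ j : Fin (k + 1), ∫⁻ ω, ‖∑ n ∈ Icc 1 N, Gj j h ω n *
        f j ⌊Real.exp (b j + ω j) * P j (n + h.2 j) + β j⌋₊‖ₑ ^ 2 ∂(Measure.pi fun _ : Fin (k + 1) => v01) ≤
        ENNReal.ofReal (C5 ^ 2 * 9 ^ (Bg + (k + 1)) * (CU j * (2 * C3) ^ 2) * ((N : ℝ) ^ 2 / (Real.log N) ^ K)) := by
      intro j
      refine (var_j k j (Gj j h) (hGm j h) (hGupd j h) N (h.2 j) (C5 * (Lf N) ^ (Bg + (k + 1))) (by positivity)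
        (hGb j N h hh) (f j) (P j) (β j) (b j) (CU j * (2 * C3 * N) ^ 2 / (Real.log N) ^ K') ?_).trans ?_
      · intro d hd
        refine (hCU j (N + h.2 j) (by omega) d hd).trans ?_
        refine ENNReal.ofReal_le_ofReal ?_
        have h5 : ((N + h.2 j : ℕ) : ℝ) ≤ 2 * C3 * N := by
          have h6 := (hC3 N N (h.2 j) (by omega) (hh2 j)).1
          nlinarith
        have h7 : Real.log N ≤ Real.log ((N + h.2 j : ℕ) : ℝ) :=
          Real.log_le_log (by linarith) (by push_cast; linarith [(Nat.cast_nonneg (h.2 j) : (0 : ℝ) ≤ (h.2 j : ℝ))])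
        have h8 := hCU0 j
        gcongr
      · refine ENNReal.ofReal_le_ofReal ?_
        have h8 := hCU0 j
        calc (C5 * (Lf N) ^ (Bg + (k + 1))) ^ 2 * (CU j * (2 * C3 * N) ^ 2 / (Real.log N) ^ K')
            ≤ (C5 * (3 * Real.log N) ^ (Bg + (k + 1))) ^ 2 * (CU j * (2 * C3 * N) ^ 2 / (Real.log N) ^ K') := by
              gcongr
          _ = _ := by
              have e10 : (Real.log N) ^ K' = (Real.log N) ^ K * ((Real.log N) ^ (Bg + (k + 1))) ^ 2 := by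
                rw [hK', pow_add, ← pow_mul, mul_comm 2 (Bg + (k + 1))]
              have e11 : (C5 * (3 * Real.log N) ^ (Bg + (k + 1))) ^ 2 =
                  C5 ^ 2 * 9 ^ (Bg + (k + 1)) * ((Real.log N) ^ (Bg + (k + 1))) ^ 2 := alg1 _ _ _
              rw [e10, e11]
              field_simp
    have hsum : ∀ ω, ‖∑ n ∈ Icc 1 N, aa h ω n‖ₑ ^ 2 ≤ ((k : ℝ≥0∞) + 1) * ∑ j, ‖∑ n ∈ Icc 1 N, Gj j h ω n *
        f j ⌊Real.exp (b j + ω j) * P j (n + h.2 j) + β j⌋₊‖ₑ ^ 2 := by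
      intro ω
      have e1 : ∑ n ∈ Icc 1 N, aa h ω n = ∑ j, ∑ n ∈ Icc 1 N, Gj j h ω n *
          f j ⌊Real.exp (b j + ω j) * P j (n + h.2 j) + β j⌋₊ := by
        rw [sum_comm]
        exact sum_congr rfl fun n _ => hdec h ω n
      rw [e1]
      refine (sq_sum_le' univ _).trans (le_of_eq ?_)
      rw [card_univ, Fintype.card_fin]
      push_cast
      rfl
    have hmj : ∀ j : Fin (k + 1), Measurable fun ω => ‖∑ n ∈ Icc 1 N, Gj j h ω n *
        f j ⌊Real.exp (b j + ω j) * P j (n + h.2 j) + β j⌋₊‖ₑ ^ 2 := by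
      intro j
      refine Measurable.pow_const (Measurable.enorm (Finset.measurable_fun_sum _ fun n _ => ?_)) 2
      refine (hGm j h n).mul (fl_meas (f j) ?_)
      exact ((((measurable_pi_apply j).const_add _).exp).mul_const _).add_const _
    refine (lintegral_mono hsum).trans ?_
    rw [lintegral_const_mul _ (Finset.measurable_fun_sum _ fun j _ => hmj j), lintegral_finsetSum _ fun j _ => hmj j]
    refine (mul_le_mul_right (Finset.sum_le_sum fun j _ => hterm j) _).trans (le_of_eq ?_)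
    rw [← ENNReal.ofReal_sum_of_nonneg (fun j _ => by
      have := hCU0 j
      positivity)]
    have e2 : ((k : ℝ≥0∞) + 1) = ENNReal.ofReal ((k : ℝ) + 1) := by
      rw [ENNReal.ofReal_add (Nat.cast_nonneg k) zero_le_one, ENNReal.ofReal_natCast, ENNReal.ofReal_one]
    rw [e2, ← ENNReal.ofReal_mul (by positivity), ← Finset.sum_mul]
    congr 1
    ring

end Pool.Agent.Q138.GS
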