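import Pool.Agent.Q138.GS.ModC
import Pool.Agent.Q138.GS.UniT

set_option autoImplicit false

/-!
# Large moduli: from the mean square to almost every dilation
-/

namespace Pool.Agent.Q138.GS

open Finset Filter Topology MeasureTheory
open scoped ENNReal
open Pool.Agent.Y957.VK

theorem Sm.uq {c : ℝ} {P : ℕ → ℝ} (h : Sm c P) (f : ℕ → ℂ) (hf : ∀ n : ℕ, ‖f n‖ ≤ Real.log (n + 3))
    (hN : Neg f) (β : ℝ) : UQ f P β := by
  obtain ⟨hc, φ, hφ, n0, hP⟩ := h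
  exact unq f hf hN (hφ.reg hc) P n0 hP β

/-- the mean square over the cube, sums over an arbitrary set -/
theorem var_T (k : ℕ) (j : Fin (k + 1)) (G : (Fin (k + 1) → ℝ) → ℕ → ℂ)
    (hGm : ∀ n, Measurable fun ω => G ω n) (hGj : ∀ ω t n, G (Function.update ω j t) n = G ω n)
    (T : Finset ℕ) (Γ : ℝ) (hΓ : 0 < Γ)
    (hG : ∀ ω, (∀ i, ω i ∈ Set.Icc (0 : ℝ) 1) → ∀ n ∈ T, ‖G ω n‖ ≤ Γ)
    (f : ℕ → ℂ) (P : ℕ → ℝ) (β b V : ℝ)
    (hV : ∀ d : ℕ → ℂ, (∀ n, ‖d n‖ ≤ 1) →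
      ∫⁻ u in Set.Icc (0 : ℝ) 1, ‖∑ m ∈ T, d m * f ⌊Real.exp (b + u) * P m + β⌋₊‖ₑ ^ 2 ≤
        ENNReal.ofReal V) :
    ∫⁻ ω, ‖∑ n ∈ T, G ω n * f ⌊Real.exp (b + ω j) * P n + β⌋₊‖ₑ ^ 2
      ∂(Measure.pi fun _ : Fin (k + 1) => v01) ≤ ENNReal.ofReal (Γ ^ 2 * V) := by
  classical
  set e := MeasurableEquiv.piFinSuccAbove (fun _ : Fin (k + 1) => ℝ) j with he
  have hI1 : ∀ (t : ℝ) (ν : Fin k → ℝ), e.symm (t, ν) j = t := fun t ν =>
    congrArg Prod.fst (e.apply_symm_apply (t, ν))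
  have hI2 : ∀ (t : ℝ) (ν : Fin k → ℝ) (i : Fin k), e.symm (t, ν) (j.succAbove i) = ν i := fun t ν i =>
    congrFun (congrArg Prod.snd (e.apply_symm_apply (t, ν))) i
  have hupd : ∀ (t : ℝ) (ν : Fin k → ℝ), e.symm (t, ν) = Function.update (e.symm (0, ν)) j t := by
    intro t ν
    funext i
    rcases eq_or_ne i j with rfl | hi
    · rw [hI1, Function.update_self]
    · rw [Function.update_of_ne hi]
      obtain ⟨i', rfl⟩ := Fin.exists_succAbove_eq hi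
      rw [hI2, hI2]
  have hcube : ∀ ν : Fin k → ℝ, (∀ i, ν i ∈ Set.Icc (0 : ℝ) 1) → ∀ i, e.symm (0, ν) i ∈ Set.Icc (0 : ℝ) 1 := by
    intro ν hν i
    rcases eq_or_ne i j with rfl | hi
    · rw [hI1]
      simp
    · obtain ⟨i', rfl⟩ := Fin.exists_succAbove_eq hi
      rw [hI2]
      exact hν i'
  set Hf : (Fin (k + 1) → ℝ) → ℝ≥0∞ := fun ω =>
    ‖∑ n ∈ T, G ω n * f ⌊Real.exp (b + ω j) * P n + β⌋₊‖ₑ ^ 2 with hHf
  have hwj : Measurable fun ω : Fin (k + 1) → ℝ => ω j := measurable_pi_apply j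
  have hHm : Measurable Hf := by
    refine Measurable.pow_const (Measurable.enorm (Finset.measurable_fun_sum _ fun n _ => ?_)) 2
    refine (hGm n).mul (fl_meas f ?_)
    exact (((hwj.const_add b).exp).mul_const _).add_const β
  have mp := measurePreserving_piFinSuccAbove (fun _ : Fin (k + 1) => v01) j
  have h1 : ∫⁻ x, Hf (e.symm x) ∂(v01.prod (Measure.pi fun _ : Fin k => v01)) =
      ∫⁻ ω, Hf ω ∂(Measure.pi fun _ : Fin (k + 1) => v01) := mp.symm.lintegral_comp hHm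
  have h0 := lintegral_prod_symm (μ := v01) (ν := Measure.pi fun _ : Fin k => v01) (fun x => Hf (e.symm x))
    (hHm.comp e.symm.measurable).aemeasurable
  rw [← h1, h0]
  have h2 : ∀ᵐ ν ∂(Measure.pi fun _ : Fin k => v01),
      ∫⁻ t, Hf (e.symm (t, ν)) ∂v01 ≤ ENNReal.ofReal (Γ ^ 2 * V) := by
    filter_upwards [cube_ae k] with ν hν
    set d : ℕ → ℂ := fun m => if m ∈ T then G (e.symm (0, ν)) m / (Γ : ℂ) else 0 with hd
    have hd1 : ∀ m, ‖d m‖ ≤ 1 := by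
      intro m
      rw [hd]
      simp only
      split_ifs with hm
      · rw [norm_div, Complex.norm_real, Real.norm_eq_abs, abs_of_pos hΓ, div_le_one hΓ]
        exact hG _ (hcube ν hν) _ hm
      · simp
    have h3 : ∀ t : ℝ, Hf (e.symm (t, ν)) = ENNReal.ofReal (Γ ^ 2) *
        ‖∑ m ∈ T, d m * f ⌊Real.exp (b + t) * P m + β⌋₊‖ₑ ^ 2 := by
      intro t
      have e1 : ∑ n ∈ T, G (e.symm (t, ν)) n * f ⌊Real.exp (b + e.symm (t, ν) j) * P n + β⌋₊ =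
          (Γ : ℂ) * ∑ m ∈ T, d m * f ⌊Real.exp (b + t) * P m + β⌋₊ := by
        rw [mul_sum]
        refine sum_congr rfl fun n hn => ?_
        rw [hd]
        simp only
        rw [if_pos hn, hI1, hupd t ν, hGj]
        have hΓc : (Γ : ℂ) ≠ 0 := by exact_mod_cast hΓ.ne'
        field_simp
      rw [hHf]
      simp only
      rw [e1, enorm_mul, mul_pow]
      congr 1
      rw [sq_enorm, Complex.norm_real, Real.norm_eq_abs, abs_of_pos hΓ]
    simp only [h3]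
    rw [lintegral_const_mul']
    · refine (mul_le_mul_right (hV d hd1) _).trans (le_of_eq ?_)
      rw [← ENNReal.ofReal_mul (by positivity)]
    · exact ENNReal.ofReal_ne_top
  refine (lintegral_mono_ae h2).trans ?_
  rw [lintegral_const, pi_univ, mul_one]

/-- the deterministic lemma -/
theorem detG (G : ℕ → ℝ) (hG0 : ∀ N, 0 ≤ G N) (C0 : ℝ) (hC0 : 0 ≤ C0) (B' : ℕ) {ε : ℝ} (hε : 0 < ε)
    (hstep : ∀ N j : ℕ, 2 ≤ N → j ≤ N →
      G N ≤ 2 * G (N + j) + C0 * (Real.log N) ^ B' * ((j : ℝ) ^ 2 + (N : ℝ) ^ (2 - ε)))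
    (hK : ∀ K : ℕ, Summable fun N : ℕ => Real.log N ^ K / (N : ℝ) ^ 3 * G N) (k : ℕ) :
    ∀ᶠ N : ℕ in atTop, G N ≤ (N : ℝ) ^ 2 / (Real.log N) ^ k := by
  have hlogt : Tendsto (fun N : ℕ => Real.log (N : ℝ)) atTop atTop :=
    Real.tendsto_log_atTop.comp tendsto_natCast_atTop_atTop
  set m : ℕ := k + B' + 1 with hm
  set K0 : ℕ := m + k + 1 with hK0
  have hsum := hK K0
  have e1 : ∀ᶠ N : ℕ in atTop, ∑' M : ℕ, (Real.log ((M + N : ℕ) : ℝ) ^ K0 /
      ((M + N : ℕ) : ℝ) ^ 3 * G (M + N)) < 1 :=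
    (tendsto_sum_nat_add fun N : ℕ => Real.log N ^ K0 / (N : ℝ) ^ 3 * G N).eventually_lt_const one_pos
  have e3 : ∀ᶠ N : ℕ in atTop, max 3 (max (256 : ℝ) (4 * C0)) ≤ Real.log (N : ℝ) := hlogt.eventually_ge_atTop _
  filter_upwards [e1, e3, eventually_ge_atTop 5, pw 1 m one_pos, pw (4 * C0) (B' + k) hε] with N h1 h3 h4 p1 p2
  by_contra hcon
  push Not at hcon
  set l := Real.log (N : ℝ) with hl
  have hl3 : 3 ≤ l := (le_max_left _ _).trans h3
  have hl256 : 256 ≤ l := (le_max_left _ _).trans ((le_max_right _ _).trans h3)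
  have hlC : 4 * C0 ≤ l := (le_max_right _ _).trans ((le_max_right _ _).trans h3)
  have hN5 : (5 : ℝ) ≤ N := by exact_mod_cast h4
  have hN0 : (0 : ℝ) < N := by linarith
  have hl0 : 0 < l := by linarith
  set Y : ℝ := (N : ℝ) ^ 2 / l ^ k with hY
  have hYp : 0 < Y := by positivity
  set H : ℕ := ⌊(N : ℝ) / l ^ m⌋₊ with hH
  rw [one_mul, Real.rpow_one] at p1
  have hNl : 1 ≤ (N : ℝ) / l ^ m := by
    rw [le_div_iff₀ (by positivity), one_mul]
    exact p1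
  have hH1 : (H : ℝ) ≤ (N : ℝ) / l ^ m := Nat.floor_le (by positivity)
  have hH2 : (N : ℝ) / l ^ m / 2 ≤ H := by
    have h5 : (N : ℝ) / l ^ m < H + 1 := Nat.lt_floor_add_one _
    have h6 : (1 : ℝ) ≤ H := by
      have : 1 ≤ H := Nat.le_floor (by simpa using hNl)
      exact_mod_cast this
    linarith
  have hlm : 1 ≤ l ^ m := one_le_pow₀ (by linarith)
  have hHN : H ≤ N := by
    have h5 : (H : ℝ) ≤ N := hH1.trans (div_le_self hN0.le hlm)
    exact_mod_cast h5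
  have hterm : ∀ j ∈ range H, l ^ K0 / (8 * (N : ℝ) ^ 3) * (Y / 4) ≤
      Real.log ((j + N : ℕ) : ℝ) ^ K0 / ((j + N : ℕ) : ℝ) ^ 3 * G (j + N) := by
    intro j hj
    have hjH : (j : ℝ) ≤ H := by exact_mod_cast (mem_range.1 hj).le
    have hjN : j ≤ N := (mem_range.1 hj).le.trans hHN
    have h5 : Y / 4 ≤ G (j + N) := by
      have h6 := hstep N j (by omega) hjN
      rw [add_comm N j] at h6
      have h7 : C0 * l ^ B' * (j : ℝ) ^ 2 ≤ Y / 4 := by
        have h8 : (j : ℝ) ^ 2 ≤ ((N : ℝ) / l ^ m) ^ 2 := pow_le_pow_left₀ (Nat.cast_nonneg j) (hjH.trans hH1) 2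
        have h9 : l ^ (B' + k + 1) ≤ (l ^ m) ^ 2 := by
          rw [← pow_mul]
          exact pow_le_pow_right₀ (by linarith) (by omega)
        calc C0 * l ^ B' * (j : ℝ) ^ 2 ≤ C0 * l ^ B' * ((N : ℝ) / l ^ m) ^ 2 :=
              mul_le_mul_of_nonneg_left h8 (by positivity)
          _ = C0 * l ^ B' * (N : ℝ) ^ 2 / (l ^ m) ^ 2 := by
              rw [div_pow]
              ring
          _ ≤ C0 * l ^ B' * (N : ℝ) ^ 2 / l ^ (B' + k + 1) := by gcongr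
          _ = C0 / l * Y := by
              rw [hY, pow_add, pow_add, pow_one]
              field_simp
          _ ≤ 1 / 4 * Y := by
              refine mul_le_mul_of_nonneg_right ?_ hYp.le
              rw [div_le_div_iff₀ hl0 (by norm_num)]
              linarith
          _ = Y / 4 := by ring
      have h8 : C0 * l ^ B' * (N : ℝ) ^ (2 - ε) ≤ Y / 4 := by
        rw [hY, div_div, le_div_iff₀ (by positivity)]
        calc C0 * l ^ B' * (N : ℝ) ^ (2 - ε) * (l ^ k * 4) = (4 * C0 * l ^ (B' + k)) * (N : ℝ) ^ (2 - ε) := by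
              rw [pow_add]
              ring
          _ ≤ (N : ℝ) ^ ε * (N : ℝ) ^ (2 - ε) := mul_le_mul_of_nonneg_right p2 (by positivity)
          _ = (N : ℝ) ^ 2 := by
              rw [← Real.rpow_add hN0, ← Real.rpow_natCast]
              congr 1
              push_cast
              ring
      rw [mul_add] at h6
      linarith
    have h6 : l ≤ Real.log ((j + N : ℕ) : ℝ) := by
      rw [hl]
      refine Real.log_le_log (by linarith) ?_
      push_cast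
      have : (0 : ℝ) ≤ j := Nat.cast_nonneg j
      linarith
    have h7 : ((j + N : ℕ) : ℝ) ≤ 2 * N := by
      have : (j : ℝ) ≤ N := by exact_mod_cast hjN
      push_cast
      linarith
    have h8 : (0 : ℝ) < ((j + N : ℕ) : ℝ) := by
      push_cast
      have : (0 : ℝ) ≤ j := Nat.cast_nonneg j
      linarith
    refine mul_le_mul ?_ h5 (by positivity) (by positivity)
    refine div_le_div₀ (by positivity) (pow_le_pow_left₀ hl0.le h6 _) (by positivity) ?_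
    calc ((j + N : ℕ) : ℝ) ^ 3 ≤ (2 * (N : ℝ)) ^ 3 := pow_le_pow_left₀ h8.le h7 3
      _ = 8 * (N : ℝ) ^ 3 := by ring
  have h5 : ∑ j ∈ range H, l ^ K0 / (8 * (N : ℝ) ^ 3) * (Y / 4) ≤
      ∑' M : ℕ, (Real.log ((M + N : ℕ) : ℝ) ^ K0 / ((M + N : ℕ) : ℝ) ^ 3 * G (M + N)) := by
    refine (Finset.sum_le_sum hterm).trans ?_
    refine ((summable_nat_add_iff N).2 hsum).sum_le_tsum (range H) (fun M _ => ?_)
    have h9 : 0 ≤ Real.log ((M + N : ℕ) : ℝ) := Real.log_natCast_nonneg _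
    have h10 := hG0 (M + N)
    positivity
  rw [sum_const, card_range, nsmul_eq_mul] at h5
  have h6 : l / 64 ≤ (H : ℝ) * (l ^ K0 / (8 * (N : ℝ) ^ 3) * (Y / 4)) := by
    have e0 : l ^ K0 = l ^ m * l ^ k * l := by rw [hK0, pow_add, pow_add, pow_one]
    clear_value m
    calc l / 64 = (N : ℝ) / l ^ m / 2 * (l ^ K0 / (8 * (N : ℝ) ^ 3) * (Y / 4)) := by
          rw [hY, e0]
          field_simp
          norm_num
      _ ≤ _ := mul_le_mul_of_nonneg_right hH2 (by positivity)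
  linarith

/-- the weighted sum of squares over moduli and residues -/
noncomputable def GQ (w : ℕ → ℕ → ℝ) (ε : ℝ) (S : ℕ → ℕ → ℕ → ℂ) (N : ℕ) : ℝ :=
  ∑ q ∈ Icc 1 ⌊(N : ℝ) ^ (1 - ε)⌋₊, ∑ a ∈ range q, w q a * ‖S q a N‖ ^ 2

/-- summability for almost every parameter -/
theorem bcQ {Ω : Type*} [MeasurableSpace Ω] (μ : Measure Ω) [IsFiniteMeasure μ] (S : Ω → ℕ → ℕ → ℕ → ℂ)
    (hSm : ∀ q a N, Measurable fun ω => S ω q a N) (w : ℕ → ℕ → ℝ) (hw0 : ∀ q a, 0 ≤ w q a) (Cw : ℝ) (Bw : ℕ)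
    (hw : ∀ Q : ℕ, ∑ q ∈ Icc 1 Q, ∑ a ∈ range q, w q a / (q : ℝ) ^ 2 ≤ Cw * (Real.log (Q + 3)) ^ Bw) (ε : ℝ)
    (hvar : ∀ K : ℕ, ∃ C : ℝ, 0 ≤ C ∧ ∀ N : ℕ, 2 ≤ N → ∀ q a : ℕ, 1 ≤ q → (q : ℝ) ≤ (N : ℝ) ^ (1 - ε) → a < q →
      ∫⁻ ω, ‖S ω q a N‖ₑ ^ 2 ∂μ ≤ ENNReal.ofReal (C * ((N : ℝ) / q) ^ 2 / (Real.log N) ^ K)) (hε : 0 ≤ ε) :
    ∀ᵐ ω ∂μ, ∀ K : ℕ, Summable fun N : ℕ => Real.log N ^ K / (N : ℝ) ^ 3 * GQ w ε (S ω) N := by
  rw [ae_all_iff]
  intro K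
  obtain ⟨C, hC, hC2⟩ := hvar (K + Bw + 2)
  have hCw : 0 ≤ Cw := by
    have h1 := hw 0
    simp only [Nat.cast_zero, zero_add] at h1
    have h2 : Icc 1 0 = (∅ : Finset ℕ) := by simp
    rw [h2, sum_empty] at h1
    have h3 : 0 < (Real.log 3) ^ Bw := pow_pos (Real.log_pos (by norm_num)) _
    by_contra hcon
    push Not at hcon
    nlinarith
  set F : ℕ → Ω → ℝ≥0∞ := fun N ω =>
    ENNReal.ofReal (Real.log ((N + 2 : ℕ) : ℝ) ^ K / ((N + 2 : ℕ) : ℝ) ^ 3) *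
      ∑ q ∈ Icc 1 ⌊((N + 2 : ℕ) : ℝ) ^ (1 - ε)⌋₊, ∑ a ∈ range q, ENNReal.ofReal (w q a) * ‖S ω q a (N + 2)‖ₑ ^ 2
    with hF
  have hm0 : ∀ N q a, Measurable fun ω => ENNReal.ofReal (w q a) * ‖S ω q a (N + 2)‖ₑ ^ 2 := fun N q a =>
    Measurable.const_mul (Measurable.pow_const (Measurable.enorm (hSm q a (N + 2))) 2) _
  have hFm : ∀ N, Measurable (F N) := by
    intro N
    rw [hF]
    exact Measurable.const_mul (Finset.measurable_fun_sum _ fun q _ =>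
      Finset.measurable_fun_sum _ fun a _ => hm0 N q a) _
  have hFi : ∀ N, ∫⁻ ω, F N ω ∂μ ≤
      ENNReal.ofReal (Cw * 3 ^ Bw * C / (((N + 2 : ℕ) : ℝ) * Real.log ((N + 2 : ℕ) : ℝ) ^ 2)) := by
    intro N
    have hN2 : (2 : ℝ) ≤ ((N + 2 : ℕ) : ℝ) := by
      push_cast
      have : (0 : ℝ) ≤ N := Nat.cast_nonneg N
      linarith
    have hl0 : 0 < Real.log ((N + 2 : ℕ) : ℝ) := Real.log_pos (by linarith)
    rw [hF]
    simp only
    rw [lintegral_const_mul _ (Finset.measurable_fun_sum _ fun q _ => Finset.measurable_fun_sum _ fun a _ => hm0 N q a)]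
    rw [lintegral_finsetSum _ fun q _ => Finset.measurable_fun_sum _ fun a _ => hm0 N q a]
    set M : ℕ := N + 2 with hM
    have h2 : ∑ q ∈ Icc 1 ⌊(M : ℝ) ^ (1 - ε)⌋₊, ∫⁻ ω, ∑ a ∈ range q, ENNReal.ofReal (w q a) * ‖S ω q a M‖ₑ ^ 2 ∂μ ≤
        ENNReal.ofReal (Cw * 3 ^ Bw * (Real.log (M : ℝ)) ^ Bw *
          (C * (M : ℝ) ^ 2 / (Real.log (M : ℝ)) ^ (K + Bw + 2))) := by
      have h3 : ∀ q ∈ Icc 1 ⌊(M : ℝ) ^ (1 - ε)⌋₊,
          ∫⁻ ω, ∑ a ∈ range q, ENNReal.ofReal (w q a) * ‖S ω q a M‖ₑ ^ 2 ∂μ ≤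
          ENNReal.ofReal (∑ a ∈ range q, w q a / (q : ℝ) ^ 2 * (C * (M : ℝ) ^ 2 / (Real.log (M : ℝ)) ^ (K + Bw + 2))) := by
        intro q hq
        obtain ⟨hq1, hq2⟩ := mem_Icc.1 hq
        have hq0 : (0 : ℝ) < q := by exact_mod_cast hq1
        have hqM : (q : ℝ) ≤ (M : ℝ) ^ (1 - ε) := by
          calc (q : ℝ) ≤ (⌊(M : ℝ) ^ (1 - ε)⌋₊ : ℝ) := by exact_mod_cast hq2
            _ ≤ _ := Nat.floor_le (by positivity)
        rw [lintegral_finsetSum _ fun a _ => hm0 N q a,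
          ENNReal.ofReal_sum_of_nonneg fun a _ => by
            have := hw0 q a
            positivity]
        refine sum_le_sum fun a ha => ?_
        have hmm : Measurable fun ω => ‖S ω q a M‖ₑ ^ 2 := Measurable.pow_const (Measurable.enorm (hSm q a M)) 2
        rw [lintegral_const_mul _ hmm]
        refine (mul_le_mul_right (hC2 M (by omega) q a hq1 hqM (mem_range.1 ha)) _).trans (le_of_eq ?_)
        rw [← ENNReal.ofReal_mul (hw0 q a)]
        congr 1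
        rw [div_pow]
        ring
      refine (sum_le_sum h3).trans ?_
      rw [← ENNReal.ofReal_sum_of_nonneg (fun q _ => sum_nonneg fun a _ => by
        have := hw0 q a
        positivity)]
      refine ENNReal.ofReal_le_ofReal ?_
      simp only [← Finset.sum_mul]
      refine mul_le_mul_of_nonneg_right ?_ (by positivity)
      refine (hw _).trans ?_
      rw [mul_assoc, ← mul_pow]
      refine mul_le_mul_of_nonneg_left ?_ hCw
      refine pow_le_pow_left₀ (Real.log_nonneg (by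
        have : (0 : ℝ) ≤ (⌊(M : ℝ) ^ (1 - ε)⌋₊ : ℝ) := Nat.cast_nonneg _
        linarith)) ?_ _
      have h4 : (⌊(M : ℝ) ^ (1 - ε)⌋₊ : ℝ) ≤ M := by
        calc (⌊(M : ℝ) ^ (1 - ε)⌋₊ : ℝ) ≤ (M : ℝ) ^ (1 - ε) := Nat.floor_le (by positivity)
          _ ≤ (M : ℝ) ^ (1 : ℝ) := Real.rpow_le_rpow_of_exponent_le (by linarith) (by linarith)
          _ = M := Real.rpow_one _
      have h5 : (⌊(M : ℝ) ^ (1 - ε)⌋₊ : ℝ) + 3 ≤ (M : ℝ) ^ 3 := by
        have h6 : (2 : ℝ) * 2 ≤ (M : ℝ) * M := mul_le_mul hN2 hN2 (by norm_num) (by linarith)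
        nlinarith
      have h6 := Real.log_le_log (by positivity) h5
      rw [Real.log_pow] at h6
      exact_mod_cast h6
    refine (mul_le_mul_right h2 _).trans ?_
    rw [← ENNReal.ofReal_mul (by positivity)]
    refine ENNReal.ofReal_le_ofReal (le_of_eq ?_)
    rw [pow_add, pow_add]
    field_simp
  have hfin : ∫⁻ ω, ∑' N, F N ω ∂μ ≠ ⊤ := by
    rw [lintegral_tsum fun N => (hFm N).aemeasurable]
    refine ne_of_lt (lt_of_le_of_lt (ENNReal.tsum_le_tsum hFi) ?_)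
    exact (Pool.Agent.Y901.VK.bc_summable (Cw * 3 ^ Bw * C)).tsum_ofReal_lt_top
  have hae := ae_lt_top (Measurable.tsum hFm) hfin
  filter_upwards [hae] with ω hω
  rw [← summable_nat_add_iff 2]
  refine (ENNReal.summable_toReal hω.ne).congr fun N => ?_
  have hl0 : 0 ≤ Real.log ((N + 2 : ℕ) : ℝ) := Real.log_natCast_nonneg _
  rw [hF]
  simp only
  rw [ENNReal.toReal_mul, ENNReal.toReal_ofReal (by positivity)]
  congr 1
  unfold GQ
  rw [ENNReal.toReal_sum (fun q _ => ENNReal.sum_ne_top.2 fun a _ =>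
    ENNReal.mul_ne_top ENNReal.ofReal_ne_top (ENNReal.pow_ne_top enorm_ne_top))]
  refine sum_congr rfl fun q _ => ?_
  rw [ENNReal.toReal_sum (fun a _ => ENNReal.mul_ne_top ENNReal.ofReal_ne_top (ENNReal.pow_ne_top enorm_ne_top))]
  refine sum_congr rfl fun a _ => ?_
  rw [ENNReal.toReal_mul, ENNReal.toReal_ofReal (hw0 q a), ENNReal.toReal_pow, toReal_enorm]

end Pool.Agent.Q138.GS
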