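import Pool.Agent.Q138.GS.ModD

set_option autoImplicit false

/-!
# Large moduli for almost every tuple of dilations
-/

namespace Pool.Agent.Q138.GS

open Finset Filter Topology MeasureTheory
open scoped ENNReal
open Pool.Agent.Y957.VK

/-- the terms -/
noncomputable def tq (k : ℕ) (F : Fin (k + 1) → ℕ → ℂ) (c0 : Fin (k + 1) → ℂ) (P : Fin (k + 1) → ℕ → ℝ)
    (β : Fin (k + 1) → ℝ) (g : ℕ → ℂ) (α : Fin (k + 1) → ℝ) (n : ℕ) : ℂ :=
  g n * (∏ i, F i ⌊α i * P i n + β i⌋₊ - ∏ i, c0 i)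

/-- the sums in progressions -/
noncomputable def Sq (t : ℕ → ℂ) (q a N : ℕ) : ℂ := ∑ n ∈ (Icc 1 N).filter (fun n => n % q = a), t n

theorem card_prog2 (N j q a : ℕ) (hq : 1 ≤ q) :
    (((Ioc N (N + j)).filter (fun n => n % q = a)).card : ℝ) ≤ (j : ℝ) / q + 1 := by
  have h1 : ((Ioc N (N + j)).filter (fun n => n % q = a)).card ≤ (range (j / q + 1)).card := by
    refine card_le_card_of_injOn (fun n => (n - N - 1) / q) (fun n hn => ?_) ?_
    · have h2 := mem_filter.1 hn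
      have h3 := mem_Ioc.1 h2.1
      simp only [coe_range, Set.mem_Iio]
      exact Nat.lt_succ_of_le (Nat.div_le_div_right (by omega))
    · intro x hx y hy hxy
      have hx1 := mem_filter.1 hx
      have hy1 := mem_filter.1 hy
      have hx2 := mem_Ioc.1 hx1.1
      have hy2 := mem_Ioc.1 hy1.1
      have h6 : x ≡ y [MOD q] := by
        unfold Nat.ModEq
        rw [hx1.2, hy1.2]
      refine Nat.ModEq.eq_of_abs_lt h6 ?_
      have h4 := Nat.div_add_mod (x - N - 1) q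
      have h5 := Nat.div_add_mod (y - N - 1) q
      have h7 := Nat.mod_lt (x - N - 1) (show 0 < q by omega)
      have h8 := Nat.mod_lt (y - N - 1) (show 0 < q by omega)
      simp only at hxy
      rw [← hxy] at h5
      rw [abs_lt]
      omega
  rw [card_range] at h1
  have h2 : (((Ioc N (N + j)).filter (fun n => n % q = a)).card : ℝ) ≤ ((j / q + 1 : ℕ) : ℝ) := by exact_mod_cast h1
  have h3 : ((j / q : ℕ) : ℝ) ≤ (j : ℝ) / q := Nat.cast_div_le
  push_cast at h2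
  linarith

theorem GQ_nonneg (w : ℕ → ℕ → ℝ) (hw0 : ∀ q a, 0 ≤ w q a) (ε : ℝ) (S : ℕ → ℕ → ℕ → ℂ) (N : ℕ) : 0 ≤ GQ w ε S N := by
  unfold GQ
  refine sum_nonneg fun q _ => sum_nonneg fun a _ => ?_
  have := hw0 q a
  positivity

/-- the step -/
theorem GQ_step (w : ℕ → ℕ → ℝ) (hw0 : ∀ q a, 0 ≤ w q a) (Cw : ℝ) (hCw : 0 ≤ Cw) (Bw : ℕ)
    (hw : ∀ Q : ℕ, ∑ q ∈ Icc 1 Q, ∑ a ∈ range q, w q a / (q : ℝ) ^ 2 ≤ Cw * (Real.log (Q + 3)) ^ Bw) {ε : ℝ}
    (hε : 0 < ε) (hε1 : ε ≤ 1) (t : ℕ → ℂ) (C5 : ℝ) (hC5 : 0 ≤ C5) (B5 : ℕ)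
    (ht : ∀ n : ℕ, 1 ≤ n → ‖t n‖ ≤ C5 * (Real.log (n + 3)) ^ B5) (N j : ℕ) (hN : 2 ≤ N) (hj : j ≤ N) :
    GQ w ε (Sq t) N ≤ 2 * GQ w ε (Sq t) (N + j) +
      (4 * (C5 * 3 ^ B5) ^ 2 * (Cw * 3 ^ Bw)) * (Real.log N) ^ (2 * B5 + Bw) * ((j : ℝ) ^ 2 + (N : ℝ) ^ (2 - ε)) := by
  have hN2 : (2 : ℝ) ≤ N := by exact_mod_cast hN
  have hN0 : (0 : ℝ) < N := by linarith
  have hN1 : (1 : ℝ) ≤ N := by linarith
  have hl0 : 0 < Real.log N := Real.log_pos (by linarith)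
  have h8 : (2 : ℝ) * 2 ≤ (N : ℝ) * N := mul_le_mul hN2 hN2 (by norm_num) hN0.le
  have hl3 : ∀ x : ℝ, 0 ≤ x → x ≤ 2 * N → Real.log (x + 3) ≤ 3 * Real.log N := by
    intro x hx0 hx
    have h1 : x + 3 ≤ (N : ℝ) ^ 3 := by nlinarith
    have h2 := Real.log_le_log (by linarith) h1
    rw [Real.log_pow] at h2
    exact_mod_cast h2
  set D : ℝ := C5 * 3 ^ B5 * (Real.log N) ^ B5 with hD
  have hD0 : 0 ≤ D := by positivity
  have htN : ∀ n : ℕ, 1 ≤ n → n ≤ N + j → ‖t n‖ ≤ D := by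
    intro n hn hnN
    refine (ht n hn).trans ?_
    have h1 : (n : ℝ) ≤ 2 * N := by
      have : n ≤ 2 * N := by omega
      exact_mod_cast this
    have h2 := hl3 n (Nat.cast_nonneg n) h1
    have h3 : 0 ≤ Real.log ((n : ℝ) + 3) := by
      have := lg3 n
      linarith
    calc C5 * (Real.log (n + 3)) ^ B5 ≤ C5 * (3 * Real.log N) ^ B5 := by gcongr
      _ = D := by
          rw [hD, mul_pow]
          ring
  set Q : ℕ := ⌊(N : ℝ) ^ (1 - ε)⌋₊ with hQ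
  have hQ1 : (Q : ℝ) ≤ (N : ℝ) ^ (1 - ε) := Nat.floor_le (by positivity)
  have hQQ : Q ≤ ⌊((N + j : ℕ) : ℝ) ^ (1 - ε)⌋₊ := by
    refine Nat.floor_le_floor ?_
    refine Real.rpow_le_rpow hN0.le ?_ (by linarith)
    push_cast
    have : (0 : ℝ) ≤ j := Nat.cast_nonneg j
    linarith
  have hQN : (Q : ℝ) ≤ N := by
    calc (Q : ℝ) ≤ (N : ℝ) ^ (1 - ε) := hQ1
      _ ≤ (N : ℝ) ^ (1 : ℝ) := Real.rpow_le_rpow_of_exponent_le hN1 (by linarith)
      _ = N := Real.rpow_one _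
  have hQ2 : (Q : ℝ) ^ 2 ≤ (N : ℝ) ^ (2 - ε) := by
    calc (Q : ℝ) ^ 2 ≤ ((N : ℝ) ^ (1 - ε)) ^ 2 := pow_le_pow_left₀ (Nat.cast_nonneg Q) hQ1 2
      _ = (N : ℝ) ^ ((1 - ε) * 2) := by
          rw [Real.rpow_mul hN0.le]
          norm_cast
      _ ≤ _ := Real.rpow_le_rpow_of_exponent_le hN1 (by linarith)
  have hterm : ∀ q ∈ Icc 1 Q, ∀ a ∈ range q, w q a * ‖Sq t q a N‖ ^ 2 ≤
      2 * (w q a * ‖Sq t q a (N + j)‖ ^ 2) + 4 * D ^ 2 * ((j : ℝ) ^ 2 + (Q : ℝ) ^ 2) * (w q a / (q : ℝ) ^ 2) := by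
    intro q hq a ha
    obtain ⟨hq1, hq2⟩ := mem_Icc.1 hq
    have hq0 : (0 : ℝ) < q := by exact_mod_cast hq1
    have hqQ : (q : ℝ) ≤ Q := by exact_mod_cast hq2
    have hw1 := hw0 q a
    have hdiff : Sq t q a (N + j) - Sq t q a N = ∑ n ∈ (Ioc N (N + j)).filter (fun n => n % q = a), t n := by
      unfold Sq
      have e1 : (Icc 1 (N + j)).filter (fun n => n % q = a) =
          (Icc 1 N).filter (fun n => n % q = a) ∪ (Ioc N (N + j)).filter (fun n => n % q = a) := by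
        ext n
        simp only [mem_union, mem_filter, mem_Icc, mem_Ioc]
        omega
      rw [e1, sum_union]
      · ring
      · rw [Finset.disjoint_left]
        intro n h3 h4
        have h5 := mem_Icc.1 (mem_filter.1 h3).1
        have h6 := mem_Ioc.1 (mem_filter.1 h4).1
        omega
    have hd2 : ‖Sq t q a (N + j) - Sq t q a N‖ ≤ ((j : ℝ) / q + 1) * D := by
      rw [hdiff]
      refine (norm_sum_le _ _).trans ?_
      have h3 : ∀ n ∈ (Ioc N (N + j)).filter (fun n => n % q = a), ‖t n‖ ≤ D := by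
        intro n hn
        have h4 := mem_Ioc.1 (mem_filter.1 hn).1
        exact htN n (by omega) h4.2
      refine (sum_le_sum h3).trans ?_
      rw [sum_const, nsmul_eq_mul]
      exact mul_le_mul_of_nonneg_right (card_prog2 N j q a hq1) hD0
    have h1 : ‖Sq t q a N‖ ≤ ‖Sq t q a (N + j)‖ + ((j : ℝ) / q + 1) * D := by
      have h2 := norm_sub_le (Sq t q a (N + j)) (Sq t q a (N + j) - Sq t q a N)
      rw [sub_sub_cancel] at h2
      linarith
    have h2 : ‖Sq t q a N‖ ^ 2 ≤ 2 * ‖Sq t q a (N + j)‖ ^ 2 + 2 * (((j : ℝ) / q + 1) * D) ^ 2 := by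
      have h3 := pow_le_pow_left₀ (norm_nonneg _) h1 2
      nlinarith [sq_nonneg (‖Sq t q a (N + j)‖ - ((j : ℝ) / q + 1) * D)]
    have h3 : ((j : ℝ) / q + 1) ^ 2 ≤ 2 * ((j : ℝ) ^ 2 + (Q : ℝ) ^ 2) / (q : ℝ) ^ 2 := by
      rw [le_div_iff₀ (by positivity)]
      have e1 : ((j : ℝ) / q + 1) ^ 2 * (q : ℝ) ^ 2 = (j + q) ^ 2 := by
        field_simp
      rw [e1]
      have h4 : (q : ℝ) ^ 2 ≤ (Q : ℝ) ^ 2 := pow_le_pow_left₀ hq0.le hqQ 2
      nlinarith [sq_nonneg ((j : ℝ) - q)]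
    calc w q a * ‖Sq t q a N‖ ^ 2
        ≤ w q a * (2 * ‖Sq t q a (N + j)‖ ^ 2 + 2 * (((j : ℝ) / q + 1) * D) ^ 2) := mul_le_mul_of_nonneg_left h2 hw1
      _ = 2 * (w q a * ‖Sq t q a (N + j)‖ ^ 2) + 2 * D ^ 2 * w q a * ((j : ℝ) / q + 1) ^ 2 := by ring
      _ ≤ 2 * (w q a * ‖Sq t q a (N + j)‖ ^ 2) + 2 * D ^ 2 * w q a * (2 * ((j : ℝ) ^ 2 + (Q : ℝ) ^ 2) / (q : ℝ) ^ 2) := by
          gcongr
      _ = _ := by ring
  have hsum := sum_le_sum fun q hq => sum_le_sum fun a ha => hterm q hq a ha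
  simp only [sum_add_distrib, ← mul_sum] at hsum
  have hG1 : GQ w ε (Sq t) N = ∑ q ∈ Icc 1 Q, ∑ a ∈ range q, w q a * ‖Sq t q a N‖ ^ 2 := rfl
  have hG2 : ∑ q ∈ Icc 1 Q, ∑ a ∈ range q, w q a * ‖Sq t q a (N + j)‖ ^ 2 ≤ GQ w ε (Sq t) (N + j) := by
    unfold GQ
    refine sum_le_sum_of_subset_of_nonneg (Icc_subset_Icc le_rfl hQQ) fun q _ _ => sum_nonneg fun a _ => ?_
    have := hw0 q a
    positivity
  rw [hG1]
  refine hsum.trans ?_
  have hW : ∑ q ∈ Icc 1 Q, ∑ a ∈ range q, w q a / (q : ℝ) ^ 2 ≤ Cw * 3 ^ Bw * (Real.log N) ^ Bw := by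
    refine (hw Q).trans ?_
    have h2 := hl3 Q (Nat.cast_nonneg Q) (by linarith)
    have h3 : 0 ≤ Real.log ((Q : ℝ) + 3) := by
      have := lg3 Q
      linarith
    calc Cw * (Real.log (Q + 3)) ^ Bw ≤ Cw * (3 * Real.log N) ^ Bw := by gcongr
      _ = _ := by
          rw [mul_pow]
          ring
  have hWW : 4 * D ^ 2 * ((j : ℝ) ^ 2 + (Q : ℝ) ^ 2) * ∑ q ∈ Icc 1 Q, ∑ a ∈ range q, w q a / (q : ℝ) ^ 2 ≤
      4 * D ^ 2 * ((j : ℝ) ^ 2 + (N : ℝ) ^ (2 - ε)) * (Cw * 3 ^ Bw * (Real.log N) ^ Bw) := by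
    have h1 : 0 ≤ ∑ q ∈ Icc 1 Q, ∑ a ∈ range q, w q a / (q : ℝ) ^ 2 := sum_nonneg fun q _ => sum_nonneg fun a _ => by
      have := hw0 q a
      positivity
    gcongr
  have e2 : 4 * D ^ 2 * ((j : ℝ) ^ 2 + (N : ℝ) ^ (2 - ε)) * (Cw * 3 ^ Bw * (Real.log N) ^ Bw) =
      (4 * (C5 * 3 ^ B5) ^ 2 * (Cw * 3 ^ Bw)) * (Real.log N) ^ (2 * B5 + Bw) * ((j : ℝ) ^ 2 + (N : ℝ) ^ (2 - ε)) := by
    rw [hD, pow_add, pow_mul']
    ring
  rw [e2] at hWW
  linarith

/-- **large moduli** -/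
theorem uq_sav (k : ℕ) (F f : Fin (k + 1) → ℕ → ℂ) (c0 : Fin (k + 1) → ℂ)
    (hFf : ∀ i n, F i n = c0 i + f i n) (hF : ∀ i (n : ℕ), ‖F i n‖ ≤ Real.log (n + 3))
    (P : Fin (k + 1) → ℕ → ℝ) (A' : Fin (k + 1) → ℕ)
    (C1 : Fin (k + 1) → ℝ) (hP : ∀ i, ∀ n : ℕ, 1 ≤ n → |P i n| ≤ C1 i * (n : ℝ) ^ (A' i))
    (β : Fin (k + 1) → ℝ) (hU : ∀ i, UQ (f i) (P i) (β i)) (g : ℕ → ℂ) (C0 : ℝ) (Bg : ℕ)
    (hg : ∀ n : ℕ, 1 ≤ n → ‖g n‖ ≤ C0 * (Real.log (n + 3)) ^ Bg)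
    (w : ℕ → ℕ → ℝ) (hw0 : ∀ q a, 0 ≤ w q a) (Cw : ℝ) (Bw : ℕ)
    (hw : ∀ Q : ℕ, ∑ q ∈ Icc 1 Q, ∑ a ∈ range q, w q a / (q : ℝ) ^ 2 ≤ Cw * (Real.log (Q + 3)) ^ Bw) :
    ∀ᵐ α ∂(pm (k + 1)), ∀ ε : ℝ, 0 < ε → ∀ K : ℕ, ∀ᶠ N : ℕ in atTop,
      GQ w ε (Sq (tq k F c0 P β g α)) N ≤ (N : ℝ) ^ 2 / (Real.log N) ^ K := by
  classical
  have hCw : 0 ≤ Cw := by
    have h1 := hw 0
    simp only [Nat.cast_zero, zero_add] at h1
    have h2 : Icc 1 0 = (∅ : Finset ℕ) := by simp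
    rw [h2, sum_empty] at h1
    have h3 : 0 < (Real.log 3) ^ Bw := pow_pos (Real.log_pos (by norm_num)) _
    by_contra hcon
    push Not at hcon
    nlinarith
  refine to_alpha (k + 1) _ fun b => ?_
  -- reduction to a sequence of exponents
  suffices hmain : ∀ᵐ ω ∂(Measure.pi fun _ : Fin (k + 1) => v01), ∀ m : ℕ, ∀ K : ℕ, ∀ᶠ N : ℕ in atTop,
      GQ w (1 / ((m : ℝ) + 1)) (Sq (tq k F c0 P β g fun i => Real.exp (b i + ω i))) N ≤
        (N : ℝ) ^ 2 / (Real.log N) ^ K by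
    filter_upwards [hmain] with ω hω ε hε K
    obtain ⟨m, hm⟩ := exists_nat_one_div_lt hε
    filter_upwards [hω m K, eventually_ge_atTop 1] with N hN hN1
    refine le_trans ?_ hN
    unfold GQ
    refine sum_le_sum_of_subset_of_nonneg (Icc_subset_Icc le_rfl (Nat.floor_le_floor ?_))
      fun q _ _ => sum_nonneg fun a _ => ?_
    · have : (1 : ℝ) ≤ N := by exact_mod_cast hN1
      exact Real.rpow_le_rpow_of_exponent_le this (by linarith)
    · have := hw0 q a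
      positivity
  rw [ae_all_iff]
  intro m
  set ε : ℝ := 1 / ((m : ℝ) + 1) with hεd
  have hε : 0 < ε := by positivity
  have hε1 : ε ≤ 1 := by
    rw [hεd, div_le_one (by positivity)]
    have : (0 : ℝ) ≤ m := Nat.cast_nonneg m
    linarith
  -- constants
  set Y : Fin (k + 1) → ℝ := fun i => Real.exp (b i + 1) with hY
  choose C' hC'1 hC' using fun i => val_le2 (F i) (hF i) (P i) 1 (A' i) (C1 i) (Y i) (hP i) (β i)
  have hval : ∀ (ω : Fin (k + 1) → ℝ), (∀ i, ω i ∈ Set.Icc (0 : ℝ) 1) → ∀ n : ℕ, 1 ≤ n →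
      ∀ i, ‖F i ⌊Real.exp (b i + ω i) * P i n + β i⌋₊‖ ≤ C' i * Real.log (n + 3) := by
    intro ω hω n hn i
    exact hC' i (Real.exp (b i + ω i)) (by
      rw [abs_of_pos (Real.exp_pos _)]
      exact Real.exp_le_exp.2 (by linarith [(hω i).2])) n n hn hn (by omega)
  have hprod : ∀ (ω : Fin (k + 1) → ℝ), (∀ i, ω i ∈ Set.Icc (0 : ℝ) 1) → ∀ n : ℕ, 1 ≤ n →
      ∀ (p : Fin (k + 1) → Prop) [DecidablePred p],
      ‖∏ i with p i, F i ⌊Real.exp (b i + ω i) * P i n + β i⌋₊‖ ≤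
        (∏ i, C' i) * (Real.log (n + 3)) ^ (k + 1) := by
    intro ω hω n hn p _
    have h3 := lg3 n
    rw [norm_prod]
    calc ∏ i with p i, ‖F i ⌊Real.exp (b i + ω i) * P i n + β i⌋₊‖
        ≤ ∏ i with p i, (C' i * Real.log (n + 3)) :=
          Finset.prod_le_prod (fun _ _ => norm_nonneg _) fun i _ => hval ω hω n hn i
      _ ≤ ∏ i, (C' i * Real.log (n + 3)) := by
          exact prod_filter_le p _ fun i => by
            have := hC'1 i
            nlinarith [mul_le_mul this h3 (by norm_num) (by linarith)]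
      _ = _ := by
          rw [Finset.prod_mul_distrib]
          simp
  have hCp : 0 ≤ ∏ i, C' i := prod_nonneg fun i _ => by linarith [hC'1 i]
  set Wc : ℝ := 1 + ∑ j : Fin (k + 1), ‖∏ i with j < i, c0 i‖ with hWc
  have hWc1 : ∀ j : Fin (k + 1), ‖∏ i with j < i, c0 i‖ ≤ Wc := by
    intro j
    have : ‖∏ i with j < i, c0 i‖ ≤ ∑ j : Fin (k + 1), ‖∏ i with j < i, c0 i‖ :=
      single_le_sum (f := fun j : Fin (k + 1) => ‖∏ i with j < i, c0 i‖) (fun _ _ => norm_nonneg _) (mem_univ j)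
    linarith
  have hWc0 : 0 < Wc := by
    have : 0 ≤ ∑ j : Fin (k + 1), ‖∏ i with j < i, c0 i‖ := sum_nonneg fun _ _ => norm_nonneg _
    linarith
  set C6 : ℝ := (|C0| + 1) * ((∏ i, C' i) + 1) * Wc with hC6
  have hC6p : 0 < C6 := by positivity
  -- the size of the terms
  set C5 : ℝ := |C0| * ((∏ i, C' i) + ‖∏ i, c0 i‖) with hC5
  have hC5p : 0 ≤ C5 := by positivity
  have hsize : ∀ ω : Fin (k + 1) → ℝ, (∀ i, ω i ∈ Set.Icc (0 : ℝ) 1) → ∀ n : ℕ, 1 ≤ n →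
      ‖tq k F c0 P β g (fun i => Real.exp (b i + ω i)) n‖ ≤ C5 * (Real.log (n + 3)) ^ (Bg + (k + 1)) := by
    intro ω hω n hn
    have h3 := lg3 n
    have h4 := hprod ω hω n hn (fun _ => True)
    simp only [filter_true] at h4
    have h5 := hg n hn
    have h6 : (1 : ℝ) ≤ (Real.log (n + 3)) ^ (k + 1) := one_le_pow₀ h3
    unfold tq
    rw [norm_mul]
    calc _ ≤ (|C0| * (Real.log (n + 3)) ^ Bg) * ((∏ i, C' i) * (Real.log (n + 3)) ^ (k + 1) + ‖∏ i, c0 i‖) := by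
          refine mul_le_mul (h5.trans ?_) ((norm_sub_le _ _).trans (add_le_add_left h4 _)) (norm_nonneg _)
            (by positivity)
          exact mul_le_mul_of_nonneg_right (le_abs_self _) (by positivity)
      _ ≤ (|C0| * (Real.log (n + 3)) ^ Bg) * ((∏ i, C' i) * (Real.log (n + 3)) ^ (k + 1) +
            ‖∏ i, c0 i‖ * (Real.log (n + 3)) ^ (k + 1)) := by
          refine mul_le_mul_of_nonneg_left (add_le_add_right ?_ _) (by positivity)
          exact le_mul_of_one_le_right (norm_nonneg _) h6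
      _ = _ := by
          rw [hC5, pow_add]
          ring
  set aa : (Fin (k + 1) → ℝ) → ℕ → ℂ := fun ω n => tq k F c0 P β g (fun i => Real.exp (b i + ω i)) n with haa
  have ham : ∀ n, Measurable fun ω => aa ω n := by
    intro n
    rw [haa]
    unfold tq
    refine Measurable.const_mul (Measurable.sub_const ?_ _) _
    refine Finset.measurable_fun_prod _ fun i _ => ?_
    refine fl_meas (F i) ?_
    exact ((((measurable_pi_apply i).const_add _).exp).mul_const _).add_const _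
  -- the decomposition
  set Gj : Fin (k + 1) → (Fin (k + 1) → ℝ) → ℕ → ℂ := fun j ω n =>
    g n * (∏ i with i < j, F i ⌊Real.exp (b i + ω i) * P i n + β i⌋₊) *
      ∏ i with j < i, c0 i with hGj
  have hdec : ∀ ω n, aa ω n = ∑ j, Gj j ω n * f j ⌊Real.exp (b j + ω j) * P j n + β j⌋₊ := by
    intro ω n
    rw [haa]
    simp only [tq, hGj]
    have e1 : ∏ i, F i ⌊Real.exp (b i + ω i) * P i n + β i⌋₊ =
        ∏ i, (c0 i + f i ⌊Real.exp (b i + ω i) * P i n + β i⌋₊) :=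
      Finset.prod_congr rfl fun i _ => hFf i _
    rw [e1, Finset.prod_add_ordered, add_sub_cancel_left, Finset.mul_sum]
    refine sum_congr rfl fun j _ => ?_
    have e2 : ∏ i with i < j, F i ⌊Real.exp (b i + ω i) * P i n + β i⌋₊ =
        ∏ i with i < j, (c0 i + f i ⌊Real.exp (b i + ω i) * P i n + β i⌋₊) :=
      Finset.prod_congr rfl fun i _ => hFf i _
    rw [e2]
    ring
  have hGm : ∀ j n, Measurable fun ω => Gj j ω n := by
    intro j n
    rw [hGj]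
    refine Measurable.mul_const (Measurable.const_mul ?_ _) _
    refine Finset.measurable_fun_prod _ fun i _ => ?_
    refine fl_meas (F i) ?_
    exact ((((measurable_pi_apply i).const_add _).exp).mul_const _).add_const _
  have hGupd : ∀ j ω t n, Gj j (Function.update ω j t) n = Gj j ω n := by
    intro j ω t n
    rw [hGj]
    simp only
    congr 2
    refine Finset.prod_congr rfl fun i hi => ?_
    rw [Function.update_of_ne (mem_filter.1 hi).2.ne]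
  have hGb : ∀ j, ∀ N : ℕ, ∀ ω, (∀ i, ω i ∈ Set.Icc (0 : ℝ) 1) → ∀ n ∈ Icc 1 N,
      ‖Gj j ω n‖ ≤ C6 * (Real.log (N + 3)) ^ (Bg + (k + 1)) := by
    intro j N ω hω n hn
    obtain ⟨hn1, hn2⟩ := mem_Icc.1 hn
    have h3 := lg3 n
    have h4 : Real.log ((n : ℝ) + 3) ≤ Real.log ((N : ℝ) + 3) := by
      have : (n : ℝ) ≤ N := by exact_mod_cast hn2
      exact Real.log_le_log (by positivity) (by linarith)
    have h5 := hg n hn1
    rw [hGj]
    simp only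
    rw [norm_mul, norm_mul]
    calc _ ≤ |C0| * (Real.log (n + 3)) ^ Bg * ((∏ i, C' i) * (Real.log (n + 3)) ^ (k + 1)) * Wc := by
          refine mul_le_mul (mul_le_mul (h5.trans ?_) (hprod ω hω n hn1 _) (norm_nonneg _) (by positivity))
            (hWc1 j) (norm_nonneg _) (by positivity)
          exact mul_le_mul_of_nonneg_right (le_abs_self _) (by positivity)
      _ ≤ (|C0| + 1) * (Real.log (n + 3)) ^ Bg * (((∏ i, C' i) + 1) * (Real.log (n + 3)) ^ (k + 1)) * Wc := by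
          gcongr
          · linarith
          · linarith
      _ = C6 * (Real.log (n + 3)) ^ (Bg + (k + 1)) := by
          rw [hC6, pow_add]
          ring
      _ ≤ _ := by gcongr
  have hSm : ∀ q a N, Measurable fun ω => Sq (aa ω) q a N := by
    intro q a N
    unfold Sq
    exact Finset.measurable_fun_sum _ fun n _ => ham n
  have hbc := bcQ (Measure.pi fun _ : Fin (k + 1) => v01) (fun ω => Sq (aa ω)) hSm w hw0 Cw Bw hw ε ?_ hε.le
  · filter_upwards [hbc, cube_ae (k + 1)] with ω hω hcube K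
    refine detG (fun N => GQ w ε (Sq (aa ω)) N) (fun N => GQ_nonneg w hw0 ε _ N)
      (4 * (C5 * 3 ^ (Bg + (k + 1))) ^ 2 * (Cw * 3 ^ Bw)) (by positivity) (2 * (Bg + (k + 1)) + Bw) hε
      (fun N j hN hj => ?_) hω K
    exact GQ_step w hw0 Cw hCw Bw hw hε hε1 (aa ω) C5 hC5p (Bg + (k + 1)) (hsize ω hcube) N j hN hj
  · intro K
    set K' : ℕ := K + 2 * (Bg + (k + 1)) with hK'
    choose CU hCU0 hCU using fun i => hU i (b i) ε K' hε
    refine ⟨((k : ℝ) + 1) * ∑ j, (C6 ^ 2 * 9 ^ (Bg + (k + 1)) * CU j), by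
      have : 0 ≤ ∑ j, (C6 ^ 2 * 9 ^ (Bg + (k + 1)) * CU j) := sum_nonneg fun j _ => by
        have := hCU0 j
        positivity
      positivity, fun N hN q a hq hqN ha => ?_⟩
    have hN2 : (2 : ℝ) ≤ N := by exact_mod_cast hN
    have hlN : 0 < Real.log N := Real.log_pos (by linarith)
    have hLN : Real.log ((N : ℝ) + 3) ≤ 3 * Real.log N := by
      have h1 : (N : ℝ) + 3 ≤ (N : ℝ) ^ 3 := by nlinarith [mul_le_mul hN2 hN2 (by norm_num) (by linarith)]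
      have h2 := Real.log_le_log (by linarith) h1
      rw [Real.log_pow] at h2
      exact_mod_cast h2
    have h3 := lg3 N
    have hterm : ∀ j : Fin (k + 1), ∫⁻ ω, ‖∑ n ∈ (Icc 1 N).filter (fun n => n % q = a), Gj j ω n *
        f j ⌊Real.exp (b j + ω j) * P j n + β j⌋₊‖ₑ ^ 2 ∂(Measure.pi fun _ : Fin (k + 1) => v01) ≤
        ENNReal.ofReal (C6 ^ 2 * 9 ^ (Bg + (k + 1)) * CU j * (((N : ℝ) / q) ^ 2 / (Real.log N) ^ K)) := by
      intro j
      refine (var_T k j (Gj j) (hGm j) (hGupd j) ((Icc 1 N).filter (fun n => n % q = a))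
        (C6 * (Real.log (N + 3)) ^ (Bg + (k + 1))) (by positivity)
        (fun ω hω n hn => hGb j N ω hω n (mem_filter.1 hn).1) (f j) (P j) (β j) (b j)
        (CU j * ((N : ℝ) / q) ^ 2 / (Real.log N) ^ K') (fun d hd => hCU j N hN q a hq hqN ha d hd)).trans ?_
      refine ENNReal.ofReal_le_ofReal ?_
      have h8 := hCU0 j
      calc (C6 * (Real.log (N + 3)) ^ (Bg + (k + 1))) ^ 2 * (CU j * ((N : ℝ) / q) ^ 2 / (Real.log N) ^ K')
          ≤ (C6 * (3 * Real.log N) ^ (Bg + (k + 1))) ^ 2 * (CU j * ((N : ℝ) / q) ^ 2 / (Real.log N) ^ K') := by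
            gcongr
        _ = _ := by
            have e10 : (Real.log N) ^ K' = (Real.log N) ^ K * ((Real.log N) ^ (Bg + (k + 1))) ^ 2 := by
              rw [hK', pow_add, ← pow_mul, mul_comm 2 (Bg + (k + 1))]
            have e11 : (C6 * (3 * Real.log N) ^ (Bg + (k + 1))) ^ 2 =
                C6 ^ 2 * 9 ^ (Bg + (k + 1)) * ((Real.log N) ^ (Bg + (k + 1))) ^ 2 := alg1 _ _ _
            rw [e10, e11]
            field_simp
    have hsum : ∀ ω, ‖Sq (aa ω) q a N‖ₑ ^ 2 ≤ ((k : ℝ≥0∞) + 1) * ∑ j, ‖∑ n ∈ (Icc 1 N).filter (fun n => n % q = a),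
        Gj j ω n * f j ⌊Real.exp (b j + ω j) * P j n + β j⌋₊‖ₑ ^ 2 := by
      intro ω
      have e1 : Sq (aa ω) q a N = ∑ j, ∑ n ∈ (Icc 1 N).filter (fun n => n % q = a), Gj j ω n *
          f j ⌊Real.exp (b j + ω j) * P j n + β j⌋₊ := by
        unfold Sq
        rw [sum_comm]
        exact sum_congr rfl fun n _ => hdec ω n
      rw [e1]
      refine (sq_sum_le' univ _).trans (le_of_eq ?_)
      rw [card_univ, Fintype.card_fin]
      push_cast
      rfl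
    have hmj : ∀ j : Fin (k + 1), Measurable fun ω => ‖∑ n ∈ (Icc 1 N).filter (fun n => n % q = a), Gj j ω n *
        f j ⌊Real.exp (b j + ω j) * P j n + β j⌋₊‖ₑ ^ 2 := by
      intro j
      refine Measurable.pow_const (Measurable.enorm (Finset.measurable_fun_sum _ fun n _ => ?_)) 2
      refine (hGm j n).mul (fl_meas (f j) ?_)
      exact ((((measurable_pi_apply j).const_add _).exp).mul_const _).add_const _
    refine (lintegral_mono hsum).trans ?_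
    rw [lintegral_const_mul _ (Finset.measurable_fun_sum _ fun j _ => hmj j), lintegral_finsetSum _ fun j _ => hmj j]
    refine (mul_le_mul_right (Finset.sum_le_sum fun j _ => hterm j) _).trans (le_of_eq ?_)
    rw [← ENNReal.ofReal_sum_of_nonneg (fun j _ => by
      have := hCU0 j
      positivity)]
    have e2 : ((k : ℝ≥0∞) + 1) = ENNReal.ofReal ((k : ℝ) + 1) := by
      rw [ENNReal.ofReal_add (Nat.cast_nonneg k) zero_le_one, ENNReal.ofReal_natCast, ENNReal.ofReal_one]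
    rw [e2, ← ENNReal.ofReal_mul (by positivity), ← Finset.sum_mul]
    congr 1
    ring

end Pool.Agent.Q138.GS
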