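import Pool.Agent.Q138.GS.UniC

set_option autoImplicit false

/-!
# Counting prime tuples uniformly in the shifts: the asymptotic formula
-/

namespace Pool.Agent.Q138.GS

open Finset Filter Topology MeasureTheory
open scoped Classical
open Pool.Agent.Y957.VK

/-- `log p` at the primes, real valued -/
noncomputable def tr (n : ℕ) : ℝ := if n.Prime then Real.log n else 0

theorem tr_nonneg (n : ℕ) : 0 ≤ tr n := by
  unfold tr
  split_ifs
  · exact Real.log_natCast_nonneg n
  · exact le_rfl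

theorem tr_le (n : ℕ) : tr n ≤ lg3' n := by
  unfold tr lg3'
  split_ifs
  · exact log_le3 n
  · linarith [lg3 n]

theorem tr_eq (n : ℕ) : ((tr n : ℝ) : ℂ) = th n := by
  unfold tr th
  split_ifs <;> simp

/-- the weight -/
noncomputable def ww (κ n : ℕ) : ℝ := tr n / (lg3' n) ^ κ

theorem ww_nonneg (κ n : ℕ) : 0 ≤ ww κ n := by
  have := tr_nonneg n
  have := lg3'_pos n
  unfold ww
  positivity

theorem ww_le (κ : ℕ) (hκ : 1 ≤ κ) (n : ℕ) : ww κ n ≤ 1 := by
  have h1 := tr_le n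
  have h2 := lg3'_ge n
  have h3 : 0 < (lg3' n) ^ κ := by positivity
  unfold ww
  rw [div_le_one h3]
  refine h1.trans ?_
  calc lg3' n = (lg3' n) ^ 1 := (pow_one _).symm
    _ ≤ _ := pow_le_pow_right₀ h2 hκ

/-- the main term -/
theorem ww_sum (κ : ℕ) : ∃ C : ℝ, 0 ≤ C ∧ ∀ᶠ N : ℕ in atTop,
    |∑ n ∈ Icc 1 N, ww κ n - N / (Real.log N) ^ κ| ≤ C * N / (Real.log N) ^ (κ + 1) := by
  obtain ⟨C1, h1, h1'⟩ := main_w κ
  obtain ⟨C2, h2, h2'⟩ := pnt_w κ (κ + 1)
  refine ⟨C1 + C2, by positivity, ?_⟩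
  filter_upwards [h1', eventually_ge_atTop 2] with N hN hN2
  have h3 := h2' N hN2
  have e : ∑ n ∈ Icc 1 N, ww κ n - N / (Real.log N) ^ κ =
      ∑ n ∈ Icc 1 N, ((if n.Prime then Real.log n else 0) - 1) / (lg3' n) ^ κ +
        (∑ n ∈ Icc 1 N, 1 / (lg3' n) ^ κ - N / (Real.log N) ^ κ) := by
    have : ∑ n ∈ Icc 1 N, ww κ n = ∑ n ∈ Icc 1 N, ((if n.Prime then Real.log n else 0) - 1) / (lg3' n) ^ κ +
        ∑ n ∈ Icc 1 N, 1 / (lg3' n) ^ κ := by
      rw [← sum_add_distrib]
      refine sum_congr rfl fun n _ => ?_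
      unfold ww tr
      ring
    rw [this]
    ring
  rw [e]
  refine (abs_add_le _ _).trans ((add_le_add h3 hN).trans (le_of_eq ?_))
  ring

/-- shifted sums of a function between zero and one -/
theorem shift_sum (w : ℕ → ℝ) (h0 : ∀ n, 0 ≤ w n) (h1 : ∀ n, w n ≤ 1) (N h : ℕ) :
    |∑ n ∈ Icc 1 N, w (n + h) - ∑ n ∈ Icc 1 N, w n| ≤ h := by
  have e : ∑ n ∈ Icc 1 N, w (n + h) + ∑ n ∈ Icc 1 h, w n = ∑ n ∈ Icc 1 N, w n + ∑ n ∈ Icc 1 h, w (n + N) := by
    induction h with
    | zero => simp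
    | succ h ih =>
      have e1 : ∑ n ∈ Icc 1 N, w (n + (h + 1)) = ∑ n ∈ Icc 1 N, w (n + h) - w (1 + h) + w (N + h + 1) := by
        clear ih
        induction N with
        | zero => simp [add_comm]
        | succ N ih2 =>
          rw [Finset.sum_Icc_succ_top (by omega), Finset.sum_Icc_succ_top (by omega), ih2]
          have e3 : N + 1 + (h + 1) = N + 1 + h + 1 := by ring
          have e4 : N + 1 + h = N + h + 1 := by ring
          rw [e3, e4]
          ring
      rw [Finset.sum_Icc_succ_top (by omega), Finset.sum_Icc_succ_top (by omega), e1]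
      have e2 : 1 + h = h + 1 := by ring
      have e3 : h + 1 + N = N + h + 1 := by ring
      rw [e2, e3]
      linarith
  have h2 : ∑ n ∈ Icc 1 h, w n ≤ h := by
    calc ∑ n ∈ Icc 1 h, w n ≤ ∑ n ∈ Icc 1 h, (1 : ℝ) := sum_le_sum fun n _ => h1 n
      _ = h := by simp
  have h3 : ∑ n ∈ Icc 1 h, w (n + N) ≤ h := by
    calc ∑ n ∈ Icc 1 h, w (n + N) ≤ ∑ n ∈ Icc 1 h, (1 : ℝ) := sum_le_sum fun n _ => h1 _
      _ = h := by simp
  have h4 : 0 ≤ ∑ n ∈ Icc 1 h, w n := sum_nonneg fun n _ => h0 n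
  have h5 : 0 ≤ ∑ n ∈ Icc 1 h, w (n + N) := sum_nonneg fun n _ => h0 _
  rw [abs_le]
  constructor <;> linarith

/-- the count with natural shifts -/
noncomputable def Tn (k : ℕ) (α β : Fin (k + 1) → ℝ) (h : ℕ × (Fin (k + 1) → ℕ)) (N : ℕ) : ℝ :=
  ct (fun n => (n + h.1).Prime ∧ ∀ i, (⌊α i * ((n + h.2 i : ℕ) : ℝ) + β i⌋₊).Prime) N

/-- the weighted sum -/
noncomputable def Wn (k : ℕ) (α β : Fin (k + 1) → ℝ) (h : ℕ × (Fin (k + 1) → ℕ)) (N : ℕ) : ℝ :=
  ∑ n ∈ Icc 1 N, ww (k + 2) (n + h.1) * ∏ i, tr ⌊α i * ((n + h.2 i : ℕ) : ℝ) + β i⌋₊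

theorem LL_small (B : ℕ) : ∀ᶠ N : ℕ in atTop, (LL B N : ℝ) ≤ Real.sqrt N / 2 := by
  filter_upwards [log_pow_small (2 * B) (show (0 : ℝ) < 1 / 4 by norm_num)] with N h1
  have h2 : (LL B N : ℝ) ≤ (Real.log N) ^ B := Nat.floor_le (by
    have := Real.log_natCast_nonneg N
    positivity)
  refine h2.trans ?_
  rw [le_div_iff₀ two_pos]
  refine Real.le_sqrt_of_sq_le ?_
  rw [mul_pow, ← pow_mul, mul_comm B 2]
  linarith

/-- from the weighted sums to the count, uniformly -/
theorem count_core (k B : ℕ) (α β : Fin (k + 1) → ℝ) (hα : ∀ i, 0 < α i) : ∃ C : ℝ, 0 ≤ C ∧ ∀ᶠ N : ℕ in atTop,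
    ∀ h ∈ Hs (k + 1) B N, |Wn k α β h N - Tn k α β h N| ≤ N / (Real.log N) ^ (k + 3) + C / Real.log N * Tn k α β h N := by
  choose Cv hCv0 nv hv using fun i => val_log (α i) (β i) (hα i)
  set M : ℝ := 2 + ∑ i, Cv i with hM
  have hMi : ∀ i, Cv i + 2 ≤ M := by
    intro i
    have : Cv i ≤ ∑ i, Cv i := single_le_sum (f := Cv) (fun i _ => hCv0 i) (mem_univ i)
    linarith
  have hM2 : 2 ≤ M := by
    have : 0 ≤ ∑ i, Cv i := sum_nonneg fun i _ => hCv0 i
    linarith
  set nm : ℕ := ∑ i, nv i with hnm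
  have hnmi : ∀ i, nv i ≤ nm := fun i => single_le_sum (f := nv) (fun i _ => Nat.zero_le _) (mem_univ i)
  set Y : ℝ := ∑ i, (2 * α i + |β i|) + 3 with hY
  have hYi : ∀ i, 2 * α i + |β i| + 3 ≤ Y := by
    intro i
    have : 2 * α i + |β i| ≤ ∑ i, (2 * α i + |β i|) := single_le_sum (f := fun i => 2 * α i + |β i|)
      (fun i _ => by
        have := hα i
        positivity) (mem_univ i)
    linarith
  have hlogt : Tendsto (fun N : ℕ => Real.log (N : ℝ)) atTop atTop :=
    Real.tendsto_log_atTop.comp tendsto_natCast_atTop_atTop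
  refine ⟨3 ^ (k + 2) * (2 * M), by positivity, ?_⟩
  filter_upwards [LL_small B, eventually_ge_atTop ((nm + 10) ^ 2), hlogt.eventually_ge_atTop (4 * M + 4),
    tendsto_natCast_atTop_atTop.eventually_ge_atTop Y,
    log_pow_small (2 * ((k + 1) + (k + 3) + 2)) (show (0 : ℝ) < 1 / (2 ^ (k + 2)) ^ 2 by positivity)] with
    N hLL hN1 hN2 hN3 hN4 h hh
  obtain ⟨hh1, hh2⟩ := mem_Hs.1 hh
  set ℓ := Real.log N with hℓ
  have hNp : (100 : ℝ) ≤ N := by
    have : 100 ≤ N := by nlinarith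
    exact_mod_cast this
  have hN0 : (0 : ℝ) < N := by linarith
  have hℓ4 : 4 ≤ ℓ := by linarith
  have hℓp : 0 < ℓ := by linarith
  have hsq : (0 : ℝ) ≤ Real.sqrt N := Real.sqrt_nonneg _
  have hsqn : ((nm : ℝ) + 10) ≤ Real.sqrt N := by
    refine Real.le_sqrt_of_sq_le ?_
    exact_mod_cast hN1
  have hsqN : Real.sqrt N ≤ N := by
    rw [Real.sqrt_le_left (by linarith)]
    nlinarith
  -- notation for the terms
  set m : Fin (k + 1) → ℕ → ℕ := fun i n => ⌊α i * ((n + h.2 i : ℕ) : ℝ) + β i⌋₊ with hm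
  set t : ℕ → ℝ := fun n => ww (k + 2) (n + h.1) * ∏ i, tr (m i n) with ht
  set Tp : ℕ → Prop := fun n => (n + h.1).Prime ∧ ∀ i, (m i n).Prime with hTp
  have hW : Wn k α β h N = ∑ n ∈ Icc 1 N, t n := rfl
  have hT : Tn k α β h N = ∑ n ∈ Icc 1 N, if Tp n then (1 : ℝ) else 0 := by
    unfold Tn ct
    rw [card_filter, Nat.cast_sum]
    refine sum_congr rfl fun n _ => ?_
    rw [Nat.cast_ite, Nat.cast_one, Nat.cast_zero]
    by_cases hx : Tp n
    · rw [if_pos hx]
      exact (if_pos hx).symm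
    · rw [if_neg hx]
      exact (if_neg hx).symm
  -- general bound
  have hgen : ∀ n ∈ Icc 1 N, |t n - if Tp n then (1 : ℝ) else 0| ≤ 2 ^ (k + 2) * ℓ ^ (k + 1) := by
    intro n hn
    obtain ⟨hn1, hn2⟩ := mem_Icc.1 hn
    have hnr : (n : ℝ) ≤ N := by exact_mod_cast hn2
    have hv1 : ∀ i, tr (m i n) ≤ 2 * ℓ := by
      intro i
      refine (tr_le _).trans ?_
      unfold lg3'
      have h1 : ((m i n : ℕ) : ℝ) + 3 ≤ (N : ℝ) ^ 2 := by
        have h2 : ((m i n : ℕ) : ℝ) ≤ α i * (2 * N) + |β i| := by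
          have h3 : α i * ((n + h.2 i : ℕ) : ℝ) + β i ≤ α i * (2 * N) + |β i| := by
            have h4 : ((n + h.2 i : ℕ) : ℝ) ≤ 2 * N := by
              have h5 : ((h.2 i : ℕ) : ℝ) ≤ LL B N := by exact_mod_cast hh2 i
              push_cast
              linarith
            have h6 := mul_le_mul_of_nonneg_left h4 (hα i).le
            have h7 := le_abs_self (β i)
            linarith
          rcases le_or_gt 0 (α i * ((n + h.2 i : ℕ) : ℝ) + β i) with h4 | h4
          · exact (Nat.floor_le h4).trans h3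
          · rw [hm]
            simp only
            rw [Nat.floor_of_nonpos h4.le]
            have := hα i
            push_cast
            positivity
        have h3 := hYi i
        have h4 := hα i
        have h5 := abs_nonneg (β i)
        nlinarith
      have h2 := Real.log_le_log (by positivity) h1
      rw [Real.log_pow] at h2
      exact_mod_cast h2
    have hprod : ∏ i, tr (m i n) ≤ (2 * ℓ) ^ (k + 1) := by
      calc ∏ i, tr (m i n) ≤ ∏ _i : Fin (k + 1), (2 * ℓ) :=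
            prod_le_prod (fun i _ => tr_nonneg _) fun i _ => hv1 i
        _ = _ := by simp
    have hprod0 : 0 ≤ ∏ i, tr (m i n) := prod_nonneg fun i _ => tr_nonneg _
    have h1 : 0 ≤ t n := mul_nonneg (ww_nonneg _ _) hprod0
    have h2 : t n ≤ (2 * ℓ) ^ (k + 1) := by
      calc t n ≤ 1 * (2 * ℓ) ^ (k + 1) := mul_le_mul (ww_le _ (by omega) _) hprod hprod0 (by norm_num)
        _ = _ := one_mul _
    have h3 : (1 : ℝ) ≤ (2 * ℓ) ^ (k + 1) := one_le_pow₀ (by linarith)
    have h4 : (2 * ℓ) ^ (k + 1) ≤ 2 ^ (k + 2) * ℓ ^ (k + 1) := by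
      rw [mul_pow, pow_succ 2 (k + 1)]
      have : 0 ≤ (2 : ℝ) ^ (k + 1) * ℓ ^ (k + 1) := by positivity
      linarith
    rw [abs_le]
    split_ifs <;> constructor <;> linarith
  -- near one
  have hnear : ∀ n ∈ Icc 1 N, Real.sqrt N < n → |t n - if Tp n then (1 : ℝ) else 0| ≤
      3 ^ (k + 2) * (2 * M) / ℓ * if Tp n then (1 : ℝ) else 0 := by
    intro n hn hsn
    obtain ⟨hn1, hn2⟩ := mem_Icc.1 hn
    have hnr : (1 : ℝ) ≤ n := by exact_mod_cast hn1
    by_cases hTn : Tp n
    · rw [if_pos hTn, mul_one]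
      set L := lg3' (n + h.1) with hL
      have hh1r : ((h.1 : ℕ) : ℝ) ≤ n / 2 := by
        have : ((h.1 : ℕ) : ℝ) ≤ LL B N := by exact_mod_cast hh1
        linarith
      have hlogn : ℓ / 2 ≤ Real.log n := by
        have h9 := Real.log_le_log (by positivity) hsn.le
        rwa [Real.log_sqrt hN0.le] at h9
      have hL1 : Real.log n ≤ L := by
        rw [hL]
        unfold lg3'
        refine Real.log_le_log (by linarith) ?_
        push_cast
        have : (0 : ℝ) ≤ h.1 := Nat.cast_nonneg _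
        linarith
      have hL2 : L ≤ Real.log n + 2 := by
        rw [hL]
        unfold lg3'
        have h1 : (((n + h.1 : ℕ) : ℝ) + 3) ≤ n * 5 := by
          push_cast
          linarith
        have h2 := Real.log_le_log (by positivity) h1
        rw [Real.log_mul (by linarith) (by norm_num)] at h2
        have h3 : Real.log 5 ≤ 2 := by
          rw [Real.log_le_iff_le_exp (by norm_num)]
          have h4 := Real.exp_one_gt_d9
          have h5 : Real.exp 2 = Real.exp 1 * Real.exp 1 := by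
            rw [← Real.exp_add]
            norm_num
          rw [h5]
          nlinarith
        linarith
      have hLp : 0 < L := by linarith
      set δ : ℝ := 2 * M / ℓ with hδ
      have hδ0 : 0 ≤ δ := by positivity
      have hδ1 : δ ≤ 1 := by
        rw [hδ, div_le_one hℓp]
        linarith
      have hratio : ∀ x : ℝ, |x - Real.log n| ≤ M - 2 → |x / L - 1| ≤ δ := by
        intro x hx
        rw [div_sub_one hLp.ne', abs_div, abs_of_pos hLp, hδ, div_le_div_iff₀ hLp hℓp]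
        have h1 : |x - L| ≤ M := by
          have h2 : |x - L| ≤ |x - Real.log n| + |Real.log n - L| := abs_sub_le _ _ _
          have h3 : |Real.log n - L| ≤ 2 := by
            rw [abs_le]
            constructor <;> linarith
          linarith
        calc |x - L| * ℓ ≤ M * ℓ := mul_le_mul_of_nonneg_right h1 hℓp.le
          _ ≤ M * (2 * L) := mul_le_mul_of_nonneg_left (by linarith) (by linarith)
          _ = _ := by ring
      have hqi : ∀ i, |Real.log (m i n : ℕ) / L - 1| ≤ δ := by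
        intro i
        refine hratio _ ?_
        have h1 := hv i n (by
          have h2 : (nm : ℝ) ≤ n := by linarith
          have h3 : nm ≤ n := by exact_mod_cast h2
          exact (hnmi i).trans h3) (h.2 i : ℝ) (by
            rw [abs_of_nonneg (Nat.cast_nonneg _)]
            have : ((h.2 i : ℕ) : ℝ) ≤ LL B N := by exact_mod_cast hh2 i
            linarith)
        have h2 := hMi i
        have e : m i n = ⌊α i * ((n : ℝ) + (h.2 i : ℝ)) + β i⌋₊ := by
          rw [hm]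
          simp only
          push_cast
          rfl
        rw [e]
        linarith
      have hq0 : |Real.log ((n + h.1 : ℕ) : ℝ) / L - 1| ≤ δ := by
        have h3 : Real.log ((n + h.1 : ℕ) : ℝ) ≤ L := log_le3 _
        have h4 : Real.log n ≤ Real.log ((n + h.1 : ℕ) : ℝ) :=
          Real.log_le_log (by linarith) (by push_cast; linarith [(Nat.cast_nonneg h.1 : (0 : ℝ) ≤ (h.1 : ℝ))])
        rw [div_sub_one hLp.ne', abs_div, abs_of_pos hLp, hδ, div_le_div_iff₀ hLp hℓp]
        have h1 : |Real.log ((n + h.1 : ℕ) : ℝ) - L| ≤ M := by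
          rw [abs_le]
          constructor <;> linarith
        calc |Real.log ((n + h.1 : ℕ) : ℝ) - L| * ℓ ≤ M * ℓ := mul_le_mul_of_nonneg_right h1 hℓp.le
          _ ≤ M * (2 * L) := mul_le_mul_of_nonneg_left (by linarith) (by linarith)
          _ = _ := by ring
      have hpn := prod_near univ (fun i => Real.log (m i n : ℕ) / L) δ hδ0 hδ1 fun i _ => hqi i
      rw [card_univ, Fintype.card_fin] at hpn
      have ht2 : t n = (Real.log ((n + h.1 : ℕ) : ℝ) / L) * ∏ i, (Real.log (m i n : ℕ) / L) := by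
        rw [ht]
        simp only [ww]
        have e1 : tr (n + h.1) = Real.log ((n + h.1 : ℕ) : ℝ) := by
          unfold tr
          rw [if_pos hTn.1]
        have e2 : ∏ i, tr (m i n) = ∏ i, Real.log (m i n : ℕ) := prod_congr rfl fun i _ => by
          unfold tr
          rw [if_pos (hTn.2 i)]
        rw [e1, e2, prod_div_distrib, prod_const, card_univ, Fintype.card_fin]
        rw [pow_succ (lg3' (n + h.1)) (k + 1)]
        rw [← hL]
        field_simp
      rw [ht2]
      set q0 := Real.log ((n + h.1 : ℕ) : ℝ) / L with hq0d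
      set Pi := ∏ i, (Real.log (m i n : ℕ) / L) with hPi
      have e : q0 * Pi - 1 = q0 * (Pi - 1) + (q0 - 1) := by ring
      rw [e]
      refine (abs_add_le _ _).trans ?_
      rw [abs_mul]
      have h3 : |q0| ≤ 2 := by
        have := abs_sub_abs_le_abs_sub q0 1
        rw [abs_one] at this
        linarith
      have h4 : |q0| * |Pi - 1| ≤ 2 * (3 ^ (k + 1) * δ) := mul_le_mul h3 hpn (abs_nonneg _) (by norm_num)
      have h5 : (1 : ℝ) ≤ 3 ^ (k + 1) := one_le_pow₀ (by norm_num)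
      have h6 : 3 ^ (k + 2) * (2 * M) / ℓ = 3 ^ (k + 2) * δ := by
        rw [hδ]
        ring
      rw [h6, pow_succ 3 (k + 1)]
      nlinarith
    · have h1 : t n = 0 := by
        rw [ht]
        simp only
        by_cases hp : (n + h.1).Prime
        · have h2 : ¬ ∀ i, (m i n).Prime := fun h3 => hTn ⟨hp, h3⟩
          rw [not_forall] at h2
          obtain ⟨i, hi⟩ := h2
          have h3 : ∏ i, tr (m i n) = 0 := prod_eq_zero (mem_univ i) (by
            unfold tr
            rw [if_neg hi])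
          rw [h3, mul_zero]
        · unfold ww tr
          rw [if_neg hp]
          simp
      rw [h1, if_neg hTn]
      simp
  -- summation
  have hC : 0 ≤ 3 ^ (k + 2) * (2 * M) / ℓ := by positivity
  have hall : ∀ n ∈ Icc 1 N, |t n - if Tp n then (1 : ℝ) else 0| ≤
      (if (n : ℝ) ≤ Real.sqrt N then 2 ^ (k + 2) * ℓ ^ (k + 1) else 0) +
        3 ^ (k + 2) * (2 * M) / ℓ * if Tp n then (1 : ℝ) else 0 := by
    intro n hn
    have h2 : 0 ≤ 3 ^ (k + 2) * (2 * M) / ℓ * if Tp n then (1 : ℝ) else 0 := by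
      refine mul_nonneg hC ?_
      split_ifs <;> norm_num
    by_cases hs : (n : ℝ) ≤ Real.sqrt N
    · rw [if_pos hs]
      linarith [hgen n hn]
    · rw [if_neg hs, zero_add]
      exact hnear n hn (not_le.1 hs)
  have hsum := sum_le_sum hall
  rw [sum_add_distrib, ← mul_sum] at hsum
  have h5 : ∑ n ∈ Icc 1 N, (if (n : ℝ) ≤ Real.sqrt N then 2 ^ (k + 2) * ℓ ^ (k + 1) else 0) ≤
      Real.sqrt N * (2 ^ (k + 2) * ℓ ^ (k + 1)) := by
    rw [← sum_filter, sum_const, nsmul_eq_mul]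
    refine mul_le_mul_of_nonneg_right ?_ (by positivity)
    have h6 : ((Icc 1 N).filter (fun n : ℕ => (n : ℝ) ≤ Real.sqrt N)).card ≤ ⌊Real.sqrt N⌋₊ := by
      have h7 : (Icc 1 N).filter (fun n : ℕ => (n : ℝ) ≤ Real.sqrt N) ⊆ Icc 1 ⌊Real.sqrt N⌋₊ := by
        intro n hn
        obtain ⟨h8, h9⟩ := mem_filter.1 hn
        exact mem_Icc.2 ⟨(mem_Icc.1 h8).1, Nat.le_floor h9⟩
      simpa using card_le_card h7
    calc (((Icc 1 N).filter (fun n : ℕ => (n : ℝ) ≤ Real.sqrt N)).card : ℝ) ≤ ⌊Real.sqrt N⌋₊ := by exact_mod_cast h6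
      _ ≤ _ := Nat.floor_le (Real.sqrt_nonneg _)
  have h6 : Real.sqrt N * (2 ^ (k + 2) * ℓ ^ (k + 1)) ≤ N / ℓ ^ (k + 3) := by
    rw [le_div_iff₀ (by positivity)]
    have h7 : 2 ^ (k + 2) * ℓ ^ ((k + 1) + (k + 3)) ≤ Real.sqrt N := by
      rw [Real.le_sqrt (by positivity) hN0.le, mul_pow]
      have h8 : (ℓ ^ ((k + 1) + (k + 3))) ^ 2 ≤ ℓ ^ (2 * ((k + 1) + (k + 3) + 2)) := by
        rw [← pow_mul]
        exact pow_le_pow_right₀ (by linarith) (by omega)
      have h9 : (0 : ℝ) < (2 ^ (k + 2)) ^ 2 := by positivity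
      rw [one_div, inv_mul_eq_div, le_div_iff₀ h9] at hN4
      calc ((2 : ℝ) ^ (k + 2)) ^ 2 * (ℓ ^ ((k + 1) + (k + 3))) ^ 2
          ≤ (2 ^ (k + 2)) ^ 2 * ℓ ^ (2 * ((k + 1) + (k + 3) + 2)) := mul_le_mul_of_nonneg_left h8 h9.le
        _ ≤ N := by linarith
    calc Real.sqrt N * (2 ^ (k + 2) * ℓ ^ (k + 1)) * ℓ ^ (k + 3)
        = Real.sqrt N * (2 ^ (k + 2) * ℓ ^ ((k + 1) + (k + 3))) := by
          rw [pow_add]
          ring
      _ ≤ Real.sqrt N * Real.sqrt N := mul_le_mul_of_nonneg_left h7 hsq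
      _ = N := Real.mul_self_sqrt hN0.le
  rw [hW, hT, ← sum_sub_distrib]
  refine (abs_sum_le_sum_abs _ _).trans (hsum.trans ?_)
  linarith

end Pool.Agent.Q138.GS
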