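import Pool.Agent.Q138.GS.ModE
import Pool.Agent.Q138.GS.UniD

set_option autoImplicit false

/-!
# Large moduli: summation by parts and counting
-/

namespace Pool.Agent.Q138.GS

open Finset Filter Topology MeasureTheory
open scoped Classical
open Pool.Agent.Y957.VK

theorem prog_succ (t : ℕ → ℂ) (q a N : ℕ) :
    Sq t q a (N + 1) = Sq t q a N + if (N + 1) % q = a then t (N + 1) else 0 := by
  unfold Sq
  rw [sum_filter, sum_filter, Finset.sum_Icc_succ_top (by omega)]

/-- summation by parts -/
theorem abelP (t : ℕ → ℂ) (h : ℕ → ℝ) (q a N : ℕ) (hN : 1 ≤ N) :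
    Sq (fun n => (h n : ℂ) * t n) q a N =
      ∑ M ∈ Ico 1 N, ((h M - h (M + 1) : ℝ) : ℂ) * Sq t q a M + (h N : ℂ) * Sq t q a N := by
  induction N, hN using Nat.le_induction with
  | base =>
    unfold Sq
    rw [Ico_self, sum_empty, zero_add, mul_sum]
    refine sum_congr rfl fun n hn => ?_
    have : n = 1 := by
      have := mem_Icc.1 (mem_filter.1 hn).1
      omega
    rw [this]
  | succ N hN ih =>
    rw [prog_succ, ih, Finset.sum_Ico_succ_top hN, prog_succ t]
    split_ifs
    · push_cast
      ring
    · push_cast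
      ring

/-- the difference between a progression and all integers, from the partial sums -/
theorem diff_le (t : ℕ → ℂ) (h : ℕ → ℝ) (hmono : ∀ n, 1 ≤ n → h (n + 1) ≤ h n) (h0 : ∀ n, 0 ≤ h n) (q a N : ℕ)
    (hN : 1 ≤ N) :
    ‖Sq (fun n => (h n : ℂ) * t n) q a N - Sq (fun n => (h n : ℂ) * t n) 1 0 N / q‖ ≤
      ∑ M ∈ Ico 1 N, (h M - h (M + 1)) * ‖Sq t q a M - Sq t 1 0 M / q‖ + h N * ‖Sq t q a N - Sq t 1 0 N / q‖ := by
  have e : Sq (fun n => (h n : ℂ) * t n) q a N - Sq (fun n => (h n : ℂ) * t n) 1 0 N / q =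
      ∑ M ∈ Ico 1 N, ((h M - h (M + 1) : ℝ) : ℂ) * (Sq t q a M - Sq t 1 0 M / q) +
        (h N : ℂ) * (Sq t q a N - Sq t 1 0 N / q) := by
    rw [abelP t h q a N hN, abelP t h 1 0 N hN]
    simp only [mul_sub, sum_sub_distrib, add_div, sum_div]
    have : ∀ M, ((h M - h (M + 1) : ℝ) : ℂ) * Sq t 1 0 M / q = ((h M - h (M + 1) : ℝ) : ℂ) * (Sq t 1 0 M / q) :=
      fun M => mul_div_assoc _ _ _
    simp only [this]
    ring
  rw [e]
  refine (norm_add_le _ _).trans (add_le_add ((norm_sum_le _ _).trans (sum_le_sum fun M hM => ?_)) ?_)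
  · rw [norm_mul, Complex.norm_real, Real.norm_eq_abs,
      abs_of_nonneg (by linarith [hmono M (mem_Ico.1 hM).1])]
  · rw [norm_mul, Complex.norm_real, Real.norm_eq_abs, abs_of_nonneg (h0 N)]

/-- the number of elements of a progression -/
theorem card_near (M q a : ℕ) (hq : 1 ≤ q) (ha : a < q) :
    |(((Icc 1 M).filter (fun n => n % q = a)).card : ℝ) - (M : ℝ) / q| ≤ 1 := by
  have hq0 : (0 : ℝ) < q := by exact_mod_cast hq
  have key : ∀ M : ℕ, ((range M).filter (fun n => n % q = a)).card = M / q + if a < M % q then 1 else 0 := by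
    intro M
    have h1 := Nat.count_modEq_card M (show 0 < q by omega) a
    rw [Nat.count_eq_card_filter_range] at h1
    rw [Nat.mod_eq_of_lt ha] at h1
    rw [← h1]
    congr 1
    ext n
    simp only [mem_filter, mem_range]
    unfold Nat.ModEq
    rw [Nat.mod_eq_of_lt ha]
  have h1 : ((Icc 1 M).filter (fun n => n % q = a)).card + (if a = 0 then 1 else 0) =
      (M + 1) / q + if a < (M + 1) % q then 1 else 0 := by
    rw [← key (M + 1)]
    have e1 : (range (M + 1)).filter (fun n => n % q = a) =
        (Icc 1 M).filter (fun n => n % q = a) ∪ (if a = 0 then {0} else ∅) := by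
      ext n
      split_ifs with h0
      · simp only [mem_filter, mem_range, mem_union, mem_Icc, mem_singleton]
        constructor
        · rintro ⟨h2, h3⟩
          rcases Nat.eq_zero_or_pos n with h4 | h4
          · exact Or.inr h4
          · exact Or.inl ⟨⟨h4, by omega⟩, h3⟩
        · rintro (⟨h2, h3⟩ | h2)
          · exact ⟨by omega, h3⟩
          · rw [h2]
            exact ⟨by omega, by rw [h0]; exact Nat.zero_mod q⟩
      · simp only [mem_filter, mem_range, mem_union, mem_Icc, notMem_empty, or_false]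
        constructor
        · rintro ⟨h2, h3⟩
          refine ⟨⟨?_, by omega⟩, h3⟩
          rcases Nat.eq_zero_or_pos n with h4 | h4
          · rw [h4, Nat.zero_mod] at h3
            omega
          · exact h4
        · rintro ⟨h2, h3⟩
          exact ⟨by omega, h3⟩
    rw [e1, card_union_of_disjoint]
    · split_ifs <;> simp
    · rw [Finset.disjoint_left]
      intro n hn hn2
      split_ifs at hn2 with h0
      · rw [mem_singleton] at hn2
        have := mem_Icc.1 (mem_filter.1 hn).1
        omega
      · exact absurd hn2 (notMem_empty n)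
  have h2 := Nat.div_add_mod (M + 1) q
  have h3 := Nat.mod_lt (M + 1) (show 0 < q by omega)
  set c := ((Icc 1 M).filter (fun n => n % q = a)).card with hc
  set D := (M + 1) / q with hD
  set r := (M + 1) % q with hr
  have h2r : (q : ℝ) * D + r = M + 1 := by exact_mod_cast h2
  have hM : (M : ℝ) / q = D + (r - 1) / q := by
    field_simp
    linarith
  rw [hM]
  have hrq : ((r : ℝ) - 1) / q ≤ 1 := by
    rw [div_le_one hq0]
    have : (r : ℝ) < q := by exact_mod_cast h3
    linarith
  have hrq0 : -1 / (q : ℝ) ≤ ((r : ℝ) - 1) / q := by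
    refine div_le_div_of_nonneg_right ?_ hq0.le
    have : (0 : ℝ) ≤ r := Nat.cast_nonneg r
    linarith
  have hq1 : -1 ≤ -1 / (q : ℝ) := by
    rw [le_div_iff₀ hq0]
    have : (1 : ℝ) ≤ q := by exact_mod_cast hq
    linarith
  rw [abs_le]
  by_cases ha0 : a = 0
  · by_cases har : a < r
    · rw [if_pos ha0, if_pos har] at h1
      have h4 : (c : ℝ) = D := by exact_mod_cast (by omega : c = D)
      constructor <;> linarith
    · rw [if_pos ha0, if_neg har] at h1
      have hr0 : r = 0 := by omega
      have h4 : (c : ℝ) + 1 = D := by exact_mod_cast (by omega : c + 1 = D)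
      rw [hr0]
      have h5 : ((0 : ℕ) : ℝ) - 1 = -1 := by norm_num
      rw [h5]
      have h6 : -1 / (q : ℝ) ≤ 0 := by
        rw [div_le_iff₀ hq0]
        linarith
      constructor <;> linarith
  · by_cases har : a < r
    · rw [if_neg ha0, if_pos har] at h1
      have h4 : (c : ℝ) = D + 1 := by exact_mod_cast (by omega : c = D + 1)
      have h5 : 0 ≤ ((r : ℝ) - 1) / q := by
        have : (1 : ℝ) ≤ r := by exact_mod_cast (by omega : 1 ≤ r)
        refine div_nonneg (by linarith) hq0.le
      constructor <;> linarith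
    · rw [if_neg ha0, if_neg har] at h1
      have h4 : (c : ℝ) = D := by exact_mod_cast (by omega : c = D)
      constructor <;> linarith

end Pool.Agent.Q138.GS
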