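import Pool.Agent.Q138.GS.ModF

set_option autoImplicit false

/-!
# Large moduli: sums of absolute values
-/

namespace Pool.Agent.Q138.GS

open Finset Filter Topology MeasureTheory
open scoped Classical
open Pool.Agent.Y957.VK

/-- the weight of a family of residues -/
noncomputable def wA (A : ℕ → Finset ℕ) (q a : ℕ) : ℝ := if a = 0 ∨ a ∈ A q then (q : ℝ) else 0

theorem wA_nonneg (A : ℕ → Finset ℕ) (q a : ℕ) : 0 ≤ wA A q a := by
  unfold wA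
  split_ifs
  · exact Nat.cast_nonneg q
  · exact le_rfl

theorem harm1 (Q : ℕ) : ∑ q ∈ Icc 1 Q, 1 / (q : ℝ) ≤ 1 + Real.log (Q + 3) := by
  have h1 := Pool.Agent.H469R2.NK.harm_le (Q + 1)
  have e : Ico 1 (Q + 1) = Icc 1 Q := by
    ext n
    simp only [mem_Ico, mem_Icc]
    omega
  rw [e] at h1
  refine h1.trans ?_
  have : Real.log ((Q + 1 : ℕ) : ℝ) ≤ Real.log ((Q : ℝ) + 3) := by
    refine Real.log_le_log (by positivity) ?_
    push_cast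
    linarith
  linarith

theorem wA_sum (A : ℕ → Finset ℕ) (CA : ℝ) (hCA : 0 ≤ CA) (BA : ℕ)
    (hAc : ∀ q, ((A q).card : ℝ) ≤ CA * (Real.log (q + 3)) ^ BA) (Q : ℕ) :
    ∑ q ∈ Icc 1 Q, ∑ a ∈ range q, wA A q a / (q : ℝ) ^ 2 ≤ (2 * (CA + 1)) * (Real.log (Q + 3)) ^ (BA + 1) := by
  have hL := lg3 Q
  have h1 : ∀ q ∈ Icc 1 Q, ∑ a ∈ range q, wA A q a / (q : ℝ) ^ 2 ≤
      ((CA + 1) * (Real.log (Q + 3)) ^ BA) * (1 / (q : ℝ)) := by
    intro q hq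
    obtain ⟨hq1, hq2⟩ := mem_Icc.1 hq
    have hq0 : (0 : ℝ) < q := by exact_mod_cast hq1
    have hqQ : (q : ℝ) ≤ Q := by exact_mod_cast hq2
    have h2 : ∀ a ∈ range q, wA A q a / (q : ℝ) ^ 2 = if a = 0 ∨ a ∈ A q then 1 / (q : ℝ) else 0 := by
      intro a _
      unfold wA
      split_ifs
      · field_simp
      · simp
    rw [sum_congr rfl h2, ← sum_filter, sum_const, nsmul_eq_mul]
    refine mul_le_mul_of_nonneg_right ?_ (by positivity)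
    have h3 : ((range q).filter (fun a => a = 0 ∨ a ∈ A q)).card ≤ (A q).card + 1 := by
      refine (card_le_card (t := insert 0 (A q)) ?_).trans (card_insert_le _ _)
      intro a ha
      rw [mem_insert]
      exact (mem_filter.1 ha).2
    have h4 : (((range q).filter (fun a => a = 0 ∨ a ∈ A q)).card : ℝ) ≤ (A q).card + 1 := by exact_mod_cast h3
    have h5 : Real.log ((q : ℝ) + 3) ≤ Real.log ((Q : ℝ) + 3) := Real.log_le_log (by positivity) (by linarith)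
    have h6 := lg3 q
    have h7 : (Real.log ((q : ℝ) + 3)) ^ BA ≤ (Real.log (Q + 3)) ^ BA := pow_le_pow_left₀ (by linarith) h5 _
    have h8 : (1 : ℝ) ≤ (Real.log (Q + 3)) ^ BA := one_le_pow₀ hL
    have h9 := hAc q
    nlinarith
  refine (sum_le_sum h1).trans ?_
  rw [← mul_sum]
  have h2 := harm1 Q
  have h3 : 0 ≤ (CA + 1) * (Real.log (Q + 3)) ^ BA := by positivity
  calc ((CA + 1) * (Real.log (Q + 3)) ^ BA) * ∑ q ∈ Icc 1 Q, 1 / (q : ℝ)
      ≤ ((CA + 1) * (Real.log (Q + 3)) ^ BA) * (2 * Real.log (Q + 3)) :=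
        mul_le_mul_of_nonneg_left (by linarith) h3
    _ = _ := by
        rw [pow_succ]
        ring

/-- the sums of absolute values -/
theorem T_bound (u : ℕ → ℂ) (D : ℝ) (hD : 0 ≤ D) (B5 : ℕ) (hu : ∀ n : ℕ, 1 ≤ n → ‖u n‖ ≤ D * (Real.log (n + 3)) ^ B5)
    (A : ℕ → Finset ℕ) (hA : ∀ q, A q ⊆ range q) (CA : ℝ) (hCA : 0 ≤ CA) (BA : ℕ)
    (hAc : ∀ q, ((A q).card : ℝ) ≤ CA * (Real.log (q + 3)) ^ BA)
    (hG : ∀ ε : ℝ, 0 < ε → ∀ K : ℕ, ∀ᶠ N : ℕ in atTop, GQ (wA A) ε (Sq u) N ≤ (N : ℝ) ^ 2 / (Real.log N) ^ K)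
    {ε : ℝ} (hε : 0 < ε) (hε1 : ε ≤ 1) (K : ℕ) :
    ∀ᶠ N : ℕ in atTop, ∀ M : ℕ, 1 ≤ M → M ≤ N → ∑ q ∈ Icc 1 ⌊(N : ℝ) ^ (1 - ε)⌋₊, ∑ a ∈ A q,
      (‖Sq u q a M‖ + ‖Sq u 1 0 M‖ / q + 1) ≤ N / (Real.log N) ^ K := by
  set K3 : ℕ := K + BA + 2 with hK3
  set K2 : ℕ := K3 + K + BA + 2 with hK2
  have hε2 : 0 < ε / 2 := by positivity
  obtain ⟨M0, hM0⟩ := eventually_atTop.1 (hG (ε / 2) hε2 K2)
  set E : ℝ := CA * 3 ^ BA with hE
  have hE0 : 0 ≤ E := by positivity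
  set Cf : ℝ := (E + 2 ^ K2) + (E + E * 2 ^ K2) + 3 with hCf
  have hCf0 : 0 < Cf := by positivity
  have hlogt : Tendsto (fun N : ℕ => Real.log (N : ℝ)) atTop atTop :=
    Real.tendsto_log_atTop.comp tendsto_natCast_atTop_atTop
  have hMt : Tendsto (fun N : ℕ => (N : ℝ) ^ (1 - ε / 2)) atTop atTop :=
    (tendsto_rpow_atTop (by linarith : 0 < 1 - ε / 2)).comp tendsto_natCast_atTop_atTop
  filter_upwards [hlogt.eventually_ge_atTop (max 1 (2 * Cf)), hMt.eventually_ge_atTop (M0 : ℝ),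
    pw E (BA + K + 1) hε, pw (8 * D * 3 ^ B5 * (E + 1)) (B5 + BA + 1 + K + 1) hε2, eventually_ge_atTop 3] with
    N hl hMN p1 p2 hN3 M hM1 hMN'
  have hl1 : 1 ≤ Real.log N := (le_max_left _ _).trans hl
  have hlC : 2 * Cf ≤ Real.log N := (le_max_right _ _).trans hl
  set ℓ := Real.log N with hℓ
  have hℓ0 : 0 < ℓ := by linarith
  have hN3r : (3 : ℝ) ≤ N := by exact_mod_cast hN3
  have hN0 : (0 : ℝ) < N := by linarith
  have hN1 : (1 : ℝ) ≤ N := by linarith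
  have hMr : (1 : ℝ) ≤ M := by exact_mod_cast hM1
  have hMNr : (M : ℝ) ≤ N := by exact_mod_cast hMN'
  set Q : ℕ := ⌊(N : ℝ) ^ (1 - ε)⌋₊ with hQ
  have hQ1 : (Q : ℝ) ≤ (N : ℝ) ^ (1 - ε) := Nat.floor_le (by positivity)
  have hQN : (Q : ℝ) ≤ N := by
    calc (Q : ℝ) ≤ (N : ℝ) ^ (1 - ε) := hQ1
      _ ≤ (N : ℝ) ^ (1 : ℝ) := Real.rpow_le_rpow_of_exponent_le hN1 (by linarith)
      _ = N := Real.rpow_one _
  have hl3 : ∀ x : ℝ, 0 ≤ x → x ≤ N → Real.log (x + 3) ≤ 3 * ℓ := by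
    intro x hx0 hx
    have h1 : x + 3 ≤ (N : ℝ) ^ 3 := by
      have h8 : (3 : ℝ) * 3 ≤ (N : ℝ) * N := mul_le_mul hN3r hN3r (by norm_num) hN0.le
      nlinarith
    have h2 := Real.log_le_log (by linarith) h1
    rw [Real.log_pow] at h2
    exact_mod_cast h2
  have hcard : ∀ q ∈ Icc 1 Q, ((A q).card : ℝ) ≤ E * ℓ ^ BA := by
    intro q hq
    have hqQ : (q : ℝ) ≤ Q := by exact_mod_cast (mem_Icc.1 hq).2
    refine (hAc q).trans ?_
    have h1 := hl3 q (Nat.cast_nonneg q) (hqQ.trans hQN)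
    have h2 := lg3 q
    calc CA * (Real.log (q + 3)) ^ BA ≤ CA * (3 * ℓ) ^ BA := by gcongr
      _ = _ := by
          rw [hE, mul_pow]
          ring
  -- the harmonic sum
  set W : ℝ := ∑ q ∈ Icc 1 Q, ∑ a ∈ A q, 1 / (q : ℝ) with hW
  have hW0 : 0 ≤ W := sum_nonneg fun q _ => sum_nonneg fun a _ => by positivity
  have hWle : W ≤ 2 * (2 * (E * ℓ ^ (BA + 1))) := by
    have h1 : W ≤ ∑ q ∈ Icc 1 Q, E * ℓ ^ BA * (1 / (q : ℝ)) := by
      refine sum_le_sum fun q hq => ?_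
      rw [sum_const, nsmul_eq_mul]
      exact mul_le_mul_of_nonneg_right (hcard q hq) (by positivity)
    rw [← mul_sum] at h1
    have h2 := harm1 Q
    have h3 := hl3 Q (Nat.cast_nonneg Q) hQN
    have h4 : ∑ q ∈ Icc 1 Q, 1 / (q : ℝ) ≤ 4 * ℓ := by linarith
    calc W ≤ E * ℓ ^ BA * ∑ q ∈ Icc 1 Q, 1 / (q : ℝ) := h1
      _ ≤ E * ℓ ^ BA * (4 * ℓ) := mul_le_mul_of_nonneg_left h4 (by positivity)
      _ = _ := by
          rw [pow_succ]
          ring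
  -- the number of pairs
  have hpairs : ∑ q ∈ Icc 1 Q, ∑ a ∈ A q, (1 : ℝ) ≤ N / ℓ ^ (K + 1) := by
    have h1 : ∑ q ∈ Icc 1 Q, ∑ a ∈ A q, (1 : ℝ) ≤ ∑ q ∈ Icc 1 Q, E * ℓ ^ BA := by
      refine sum_le_sum fun q hq => ?_
      rw [sum_const, nsmul_eq_mul, mul_one]
      exact hcard q hq
    refine h1.trans ?_
    rw [sum_const, nsmul_eq_mul, Nat.card_Icc, Nat.add_sub_cancel, le_div_iff₀ (by positivity)]
    calc (Q : ℝ) * (E * ℓ ^ BA) * ℓ ^ (K + 1) = Q * (E * ℓ ^ (BA + K + 1)) := by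
          rw [add_assoc BA, pow_add ℓ BA]
          ring
      _ ≤ (N : ℝ) ^ (1 - ε) * (N : ℝ) ^ ε := mul_le_mul hQ1 p1 (by positivity) (by positivity)
      _ = N := by
          rw [← Real.rpow_add hN0]
          norm_num
  -- splitting
  have hsplit : ∑ q ∈ Icc 1 Q, ∑ a ∈ A q, (‖Sq u q a M‖ + ‖Sq u 1 0 M‖ / q + 1) =
      ∑ q ∈ Icc 1 Q, ∑ a ∈ A q, ‖Sq u q a M‖ + W * ‖Sq u 1 0 M‖ + ∑ q ∈ Icc 1 Q, ∑ a ∈ A q, (1 : ℝ) := by
    simp only [sum_add_distrib]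
    congr 2
    rw [hW, sum_mul]
    refine sum_congr rfl fun q _ => ?_
    rw [sum_mul]
    refine sum_congr rfl fun a _ => ?_
    ring
  rw [hsplit]
  have hfinal : 2 * (N * (Cf / ℓ ^ (K + 1))) ≤ N / ℓ ^ K := by
    have e1 : 2 * (N * (Cf / ℓ ^ (K + 1))) = N / ℓ ^ K * (2 * Cf / ℓ) := by
      rw [pow_succ]
      field_simp
    rw [e1]
    refine mul_le_of_le_one_right (by positivity) ?_
    rw [div_le_one hℓ0]
    exact hlC
  rcases lt_or_ge (M : ℝ) ((N : ℝ) ^ (1 - ε / 2)) with hsm | hla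
  · -- small M
    set DL : ℝ := D * 3 ^ B5 * ℓ ^ B5 with hDL
    have hDL0 : 0 ≤ DL := by positivity
    have hS : ∀ q a : ℕ, 1 ≤ q → ‖Sq u q a M‖ ≤ ((M : ℝ) / q + 1) * DL := by
      intro q a hq
      unfold Sq
      refine (norm_sum_le _ _).trans ?_
      have h3 : ∀ n ∈ (Icc 1 M).filter (fun n => n % q = a), ‖u n‖ ≤ DL := by
        intro n hn
        have hn := mem_Icc.1 (mem_filter.1 hn).1
        have hnN : (n : ℝ) ≤ N := by
          have : (n : ℝ) ≤ M := by exact_mod_cast hn.2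
          linarith
        refine (hu n hn.1).trans ?_
        have h1 := hl3 n (Nat.cast_nonneg n) hnN
        have h2 := lg3 n
        calc D * (Real.log (n + 3)) ^ B5 ≤ D * (3 * ℓ) ^ B5 := by gcongr
          _ = DL := by
              rw [hDL, mul_pow]
              ring
      refine (sum_le_sum h3).trans ?_
      rw [sum_const, nsmul_eq_mul]
      exact mul_le_mul_of_nonneg_right (card_prog M q a hq) hDL0
    have h1 : ∑ q ∈ Icc 1 Q, ∑ a ∈ A q, ‖Sq u q a M‖ ≤ (M * W + ∑ q ∈ Icc 1 Q, ∑ a ∈ A q, (1 : ℝ)) * DL := by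
      rw [hW, mul_sum, ← sum_add_distrib, sum_mul]
      refine sum_le_sum fun q hq => ?_
      rw [mul_sum, ← sum_add_distrib, sum_mul]
      refine sum_le_sum fun a _ => ?_
      refine (hS q a (mem_Icc.1 hq).1).trans (le_of_eq ?_)
      ring
    have h2 : ‖Sq u 1 0 M‖ ≤ 2 * M * DL := by
      refine (hS 1 0 le_rfl).trans ?_
      refine mul_le_mul_of_nonneg_right ?_ hDL0
      rw [Nat.cast_one, div_one]
      linarith
    have hP2 : ∑ q ∈ Icc 1 Q, ∑ a ∈ A q, (1 : ℝ) ≤ (N : ℝ) ^ (1 - ε / 2) * (E * ℓ ^ BA) := by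
      have h1 : ∑ q ∈ Icc 1 Q, ∑ a ∈ A q, (1 : ℝ) ≤ ∑ q ∈ Icc 1 Q, E * ℓ ^ BA := by
        refine sum_le_sum fun q hq => ?_
        rw [sum_const, nsmul_eq_mul, mul_one]
        exact hcard q hq
      refine h1.trans ?_
      rw [sum_const, nsmul_eq_mul, Nat.card_Icc, Nat.add_sub_cancel]
      refine mul_le_mul_of_nonneg_right (hQ1.trans ?_) (by positivity)
      exact Real.rpow_le_rpow_of_exponent_le hN1 (by linarith)
    set Z : ℝ := (N : ℝ) ^ (1 - ε / 2) with hZ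
    have hZ0 : 0 < Z := by positivity
    have hlB : ℓ ^ BA ≤ ℓ ^ (BA + 1) := pow_le_pow_right₀ hl1 (by omega)
    have h3 : ∑ q ∈ Icc 1 Q, ∑ a ∈ A q, ‖Sq u q a M‖ + W * ‖Sq u 1 0 M‖ ≤
        Z * (13 * (E * ℓ ^ (BA + 1)) * DL) := by
      have hMZ : (M : ℝ) ≤ Z := hsm.le
      have g1 : (M : ℝ) * W ≤ Z * (4 * (E * ℓ ^ (BA + 1))) :=
        mul_le_mul hMZ (by linarith) hW0 hZ0.le
      have g2 : ∑ q ∈ Icc 1 Q, ∑ a ∈ A q, (1 : ℝ) ≤ Z * (E * ℓ ^ (BA + 1)) :=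
        hP2.trans (mul_le_mul_of_nonneg_left (mul_le_mul_of_nonneg_left hlB hE0) hZ0.le)
      have g3 : W * ‖Sq u 1 0 M‖ ≤ 2 * (Z * (4 * (E * ℓ ^ (BA + 1)))) * DL := by
        calc W * ‖Sq u 1 0 M‖ ≤ W * (2 * M * DL) := mul_le_mul_of_nonneg_left h2 hW0
          _ = 2 * (M * W) * DL := by ring
          _ ≤ _ := by gcongr
      have g4 : (M * W + ∑ q ∈ Icc 1 Q, ∑ a ∈ A q, (1 : ℝ)) * DL ≤ (Z * (5 * (E * ℓ ^ (BA + 1)))) * DL :=
        mul_le_mul_of_nonneg_right (by linarith) hDL0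
      linarith
    have h4 : Z * (13 * (E * ℓ ^ (BA + 1)) * DL) ≤ 2 * (N / ℓ ^ (K + 1)) := by
      rw [← mul_div_assoc, le_div_iff₀ (by positivity)]
      have g1 : 13 * (E * ℓ ^ (BA + 1)) * DL * ℓ ^ (K + 1) ≤ 2 * (8 * D * 3 ^ B5 * (E + 1) * ℓ ^ (B5 + BA + 1 + K + 1)) := by
        have e1 : 13 * (E * ℓ ^ (BA + 1)) * DL * ℓ ^ (K + 1) = 13 * (D * 3 ^ B5 * E * ℓ ^ (B5 + BA + 1 + K + 1)) := by
          rw [hDL]
          ring
        rw [e1]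
        have g2 : 0 ≤ D * 3 ^ B5 * ℓ ^ (B5 + BA + 1 + K + 1) := by positivity
        nlinarith [mul_nonneg g2 hE0]
      calc Z * (13 * (E * ℓ ^ (BA + 1)) * DL) * ℓ ^ (K + 1) = Z * (13 * (E * ℓ ^ (BA + 1)) * DL * ℓ ^ (K + 1)) := by ring
        _ ≤ Z * (2 * (8 * D * 3 ^ B5 * (E + 1) * ℓ ^ (B5 + BA + 1 + K + 1))) := mul_le_mul_of_nonneg_left g1 hZ0.le
        _ ≤ Z * (2 * (N : ℝ) ^ (ε / 2)) := by gcongr
        _ = 2 * N := by
            have : Z * (N : ℝ) ^ (ε / 2) = N := by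
              rw [hZ, ← Real.rpow_add hN0]
              norm_num
            calc Z * (2 * (N : ℝ) ^ (ε / 2)) = 2 * (Z * (N : ℝ) ^ (ε / 2)) := by ring
              _ = 2 * N := by rw [this]
    have h5 : N * (3 / ℓ ^ (K + 1)) ≤ N * (Cf / ℓ ^ (K + 1)) := by
      have : (3 : ℝ) ≤ Cf := by
        rw [hCf]
        have : (0 : ℝ) ≤ (E + 2 ^ K2) + (E + E * 2 ^ K2) := by positivity
        linarith
      gcongr
    have h6 : N * (3 / ℓ ^ (K + 1)) = 3 * (N / ℓ ^ (K + 1)) := by ring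
    have h7 : 0 ≤ N * (Cf / ℓ ^ (K + 1)) := by positivity
    linarith
  · -- large M
    have hM0' : M0 ≤ M := by
      have : (M0 : ℝ) ≤ M := hMN.trans hla
      exact_mod_cast this
    have hGM := hM0 M hM0'
    have hlogM : ℓ / 2 ≤ Real.log M := by
      have h1 := Real.log_le_log (by positivity) hla
      rw [Real.log_rpow hN0] at h1
      nlinarith
    have hGM2 : GQ (wA A) (ε / 2) (Sq u) M ≤ (N : ℝ) ^ 2 * 2 ^ K2 / ℓ ^ K2 := by
      refine hGM.trans ?_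
      have h1 : (ℓ / 2) ^ K2 ≤ (Real.log M) ^ K2 := pow_le_pow_left₀ (by positivity) hlogM _
      calc (M : ℝ) ^ 2 / (Real.log M) ^ K2 ≤ (N : ℝ) ^ 2 / (ℓ / 2) ^ K2 := by gcongr
        _ = _ := by
            rw [div_pow]
            field_simp
    have hQM : Q ≤ ⌊(M : ℝ) ^ (1 - ε / 2)⌋₊ := by
      refine Nat.floor_le_floor ?_
      calc (N : ℝ) ^ (1 - ε) ≤ (N : ℝ) ^ ((1 - ε / 2) * (1 - ε / 2)) :=
            Real.rpow_le_rpow_of_exponent_le hN1 (by nlinarith [sq_nonneg ε])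
        _ = ((N : ℝ) ^ (1 - ε / 2)) ^ (1 - ε / 2) := Real.rpow_mul hN0.le _ _
        _ ≤ _ := Real.rpow_le_rpow (by positivity) hla (by linarith)
    set lam : ℝ := N / ℓ ^ K3 with hlam
    have hlam0 : 0 < lam := by positivity
    have hpt : ∀ (x q : ℝ), 0 < q → 0 ≤ x → x ≤ lam / 2 * (1 / q) + 1 / (2 * lam) * (q * x ^ 2) := by
      intro x q hq hx
      have h1 : 0 ≤ (lam - q * x) ^ 2 := sq_nonneg _
      have h2 : lam / 2 * (1 / q) + 1 / (2 * lam) * (q * x ^ 2) - x = (lam - q * x) ^ 2 / (2 * lam * q) := by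
        field_simp
        ring
      have h3 : 0 ≤ (lam - q * x) ^ 2 / (2 * lam * q) := by positivity
      linarith
    have hGle : ∑ q ∈ Icc 1 Q, ∑ a ∈ A q, ((q : ℝ) * ‖Sq u q a M‖ ^ 2) ≤ GQ (wA A) (ε / 2) (Sq u) M := by
      unfold GQ
      refine le_trans ?_ (sum_le_sum_of_subset_of_nonneg (Icc_subset_Icc le_rfl hQM)
        fun q _ _ => sum_nonneg fun a _ => by
          have := wA_nonneg A q a
          positivity)
      refine sum_le_sum fun q _ => ?_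
      refine le_trans (le_of_eq ?_) (sum_le_sum_of_subset_of_nonneg (hA q) fun a _ _ => by
        have := wA_nonneg A q a
        positivity)
      refine sum_congr rfl fun a ha => ?_
      unfold wA
      rw [if_pos (Or.inr ha)]
    have hG0 : 0 ≤ GQ (wA A) (ε / 2) (Sq u) M := GQ_nonneg _ (wA_nonneg A) _ _ _
    have h1 : ∑ q ∈ Icc 1 Q, ∑ a ∈ A q, ‖Sq u q a M‖ ≤ lam / 2 * W +
        1 / (2 * lam) * GQ (wA A) (ε / 2) (Sq u) M := by
      calc ∑ q ∈ Icc 1 Q, ∑ a ∈ A q, ‖Sq u q a M‖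
          ≤ ∑ q ∈ Icc 1 Q, ∑ a ∈ A q, (lam / 2 * (1 / (q : ℝ)) + 1 / (2 * lam) * ((q : ℝ) * ‖Sq u q a M‖ ^ 2)) := by
            refine sum_le_sum fun q hq => sum_le_sum fun a _ => ?_
            have hq0 : (0 : ℝ) < q := by exact_mod_cast (mem_Icc.1 hq).1
            exact hpt _ _ hq0 (norm_nonneg _)
        _ = lam / 2 * W + 1 / (2 * lam) * ∑ q ∈ Icc 1 Q, ∑ a ∈ A q, ((q : ℝ) * ‖Sq u q a M‖ ^ 2) := by
            simp only [sum_add_distrib, ← mul_sum]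
            rw [hW]
        _ ≤ _ := by gcongr
    have h10 : ‖Sq u 1 0 M‖ ≤ lam / 2 + 1 / (2 * lam) * GQ (wA A) (ε / 2) (Sq u) M := by
      have g1 := hpt ‖Sq u 1 0 M‖ 1 one_pos (norm_nonneg _)
      have g2 : ‖Sq u 1 0 M‖ ^ 2 ≤ GQ (wA A) (ε / 2) (Sq u) M := by
        have hM1' : 1 ≤ ⌊(M : ℝ) ^ (1 - ε / 2)⌋₊ := by
          refine Nat.le_floor ?_
          rw [Nat.cast_one]
          exact Real.one_le_rpow hMr (by linarith)
        unfold GQ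
        have g3 : ∑ a ∈ range 1, wA A 1 a * ‖Sq u 1 a M‖ ^ 2 = ‖Sq u 1 0 M‖ ^ 2 := by
          rw [sum_range_one]
          unfold wA
          rw [if_pos (Or.inl rfl)]
          simp
        rw [← g3]
        exact single_le_sum (f := fun q => ∑ a ∈ range q, wA A q a * ‖Sq u q a M‖ ^ 2)
          (fun q _ => sum_nonneg fun a _ => by
            have := wA_nonneg A q a
            positivity) (mem_Icc.2 ⟨le_rfl, hM1'⟩)
      have g4 : 1 / (2 * lam) * (1 * ‖Sq u 1 0 M‖ ^ 2) ≤ 1 / (2 * lam) * GQ (wA A) (ε / 2) (Sq u) M := by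
        rw [one_mul]
        exact mul_le_mul_of_nonneg_left g2 (by positivity)
      linarith
    -- sizes
    have hGl : 1 / (2 * lam) * GQ (wA A) (ε / 2) (Sq u) M ≤ N * (2 ^ K2 / ℓ ^ (K + BA + 2)) / 2 := by
      calc 1 / (2 * lam) * GQ (wA A) (ε / 2) (Sq u) M ≤ 1 / (2 * lam) * ((N : ℝ) ^ 2 * 2 ^ K2 / ℓ ^ K2) :=
            mul_le_mul_of_nonneg_left hGM2 (by positivity)
        _ = _ := by
            have e0 : ℓ ^ K2 = ℓ ^ K3 * ℓ ^ (K + BA + 2) := by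
              rw [hK2, ← pow_add]
              congr 1
              ring
            rw [hlam, e0]
            field_simp
    have hWl : lam / 2 * W ≤ 2 * (N * (E / ℓ ^ (K + 1))) := by
      calc lam / 2 * W ≤ lam / 2 * (2 * (2 * (E * ℓ ^ (BA + 1)))) := mul_le_mul_of_nonneg_left hWle (by positivity)
        _ = 2 * (N * (E / ℓ ^ (K + 1))) := by
            have e0 : ℓ ^ K3 = ℓ ^ (BA + 1) * ℓ ^ (K + 1) := by
              rw [hK3, ← pow_add]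
              congr 1
              ring
            rw [hlam, e0]
            field_simp
    have hb1 : (1 : ℝ) ≤ ℓ ^ (BA + 1) := one_le_pow₀ hl1
    have hGl2 : 1 / (2 * lam) * GQ (wA A) (ε / 2) (Sq u) M ≤ N * (2 ^ K2 / ℓ ^ (K + 1)) / 2 := by
      refine hGl.trans ?_
      have : ℓ ^ (K + 1) ≤ ℓ ^ (K + BA + 2) := pow_le_pow_right₀ hl1 (by omega)
      gcongr
    have hWG : W * (1 / (2 * lam) * GQ (wA A) (ε / 2) (Sq u) M) ≤ 2 * (N * (E * 2 ^ K2 / ℓ ^ (K + 1))) := by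
      calc W * (1 / (2 * lam) * GQ (wA A) (ε / 2) (Sq u) M)
          ≤ (2 * (2 * (E * ℓ ^ (BA + 1)))) * (N * (2 ^ K2 / ℓ ^ (K + BA + 2)) / 2) := by gcongr
        _ = _ := by
            have e0 : ℓ ^ (K + BA + 2) = ℓ ^ (BA + 1) * ℓ ^ (K + 1) := by
              rw [← pow_add]
              congr 1
              ring
            rw [e0]
            field_simp
    have hW10 : W * ‖Sq u 1 0 M‖ ≤ 2 * (N * (E / ℓ ^ (K + 1))) + 2 * (N * (E * 2 ^ K2 / ℓ ^ (K + 1))) := by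
      calc W * ‖Sq u 1 0 M‖ ≤ W * (lam / 2 + 1 / (2 * lam) * GQ (wA A) (ε / 2) (Sq u) M) :=
            mul_le_mul_of_nonneg_left h10 hW0
        _ = lam / 2 * W + W * (1 / (2 * lam) * GQ (wA A) (ε / 2) (Sq u) M) := by ring
        _ ≤ _ := add_le_add hWl hWG
    have hfin2 : 2 * (N * (E / ℓ ^ (K + 1))) + N * (2 ^ K2 / ℓ ^ (K + 1)) / 2 +
        (2 * (N * (E / ℓ ^ (K + 1))) + 2 * (N * (E * 2 ^ K2 / ℓ ^ (K + 1)))) + N / ℓ ^ (K + 1) ≤
        2 * (N * (Cf / ℓ ^ (K + 1))) := by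
      have e1 : 2 * (N * (Cf / ℓ ^ (K + 1))) - (2 * (N * (E / ℓ ^ (K + 1))) + N * (2 ^ K2 / ℓ ^ (K + 1)) / 2 +
        (2 * (N * (E / ℓ ^ (K + 1))) + 2 * (N * (E * 2 ^ K2 / ℓ ^ (K + 1)))) + N / ℓ ^ (K + 1)) =
        N / ℓ ^ (K + 1) * (2 * Cf - (4 * E + 2 ^ K2 / 2 + 2 * (E * 2 ^ K2) + 1)) := by ring
      have e2 : 0 ≤ 2 * Cf - (4 * E + 2 ^ K2 / 2 + 2 * (E * 2 ^ K2) + 1) := by
        rw [hCf]
        have : (0 : ℝ) ≤ 2 ^ K2 := by positivity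
        linarith
      have e3 : 0 ≤ N / ℓ ^ (K + 1) * (2 * Cf - (4 * E + 2 ^ K2 / 2 + 2 * (E * 2 ^ K2) + 1)) := by positivity
      linarith
    linarith

end Pool.Agent.Q138.GS
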