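import Pool.Agent.Q138.GS.Tau
import Pool.Agent.TH705.DL.Core
import Pool.Agent.Y957.VK.E1

set_option autoImplicit false

/-!
# High moments of Dirichlet polynomials
-/

namespace Pool.Agent.Q138.GS

open Finset MeasureTheory
open Pool.Agent.TH705.DL
open Pool.Agent.Y957.VK (Dn)
open Pool.Agent.H376R2.MR (er)

/-- the tuples -/
def Tp (k N : ℕ) : Finset (Fin k → ℕ) := Fintype.piFinset fun _ : Fin k => Icc 1 N

/-- coefficients of the power -/
noncomputable def cf (k N : ℕ) (d : ℕ → ℂ) (m : ℕ) : ℂ :=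
  ∑ x ∈ (Tp k N).filter (fun x => ∏ i, x i = m), ∏ i, d (x i)

theorem Tp_pos {k N : ℕ} {x : Fin k → ℕ} (hx : x ∈ Tp k N) (i : Fin k) : 1 ≤ x i ∧ x i ≤ N := by
  unfold Tp at hx
  rw [Fintype.mem_piFinset] at hx
  simpa using hx i

theorem Tp_prod {k N : ℕ} {x : Fin k → ℕ} (hx : x ∈ Tp k N) : ∏ i, x i ∈ Icc 1 (N ^ k) := by
  rw [mem_Icc]
  constructor
  · exact Finset.one_le_prod' fun i _ => (Tp_pos hx i).1
  · calc ∏ i, x i ≤ ∏ _i : Fin k, N := Finset.prod_le_prod' fun i _ => (Tp_pos hx i).2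
      _ = N ^ k := by simp

theorem ph_prod (t : ℝ) {k : ℕ} (x : Fin k → ℕ) (hx : ∀ i, 1 ≤ x i) :
    ph t (∏ i, x i) = ∏ i, ph t (x i) := by
  simp only [ph_eq]
  rw [← Complex.exp_sum]
  congr 1
  push_cast
  rw [Real.log_prod (fun i _ => by have := hx i; positivity)]
  push_cast
  rw [Finset.mul_sum, Finset.sum_mul]

theorem DP_pow (k N : ℕ) (d : ℕ → ℂ) (t : ℝ) : (DP N d t) ^ k = DP (N ^ k) (cf k N d) t := by
  classical
  unfold DP
  rw [Finset.sum_pow']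
  unfold cf
  have h1 : ∀ x ∈ Tp k N, ∏ i, d (x i) * ph t (x i) = (∏ i, d (x i)) * ph t (∏ i, x i) := by
    intro x hx
    rw [Finset.prod_mul_distrib, ph_prod t x fun i => (Tp_pos hx i).1]
  have h2 : ∑ x ∈ Fintype.piFinset (fun _ : Fin k => Icc 1 N), ∏ i, d (x i) * ph t (x i) =
      ∑ x ∈ Tp k N, (∏ i, d (x i)) * ph t (∏ i, x i) := sum_congr rfl h1
  rw [h2, ← Finset.sum_fiberwise_of_maps_to (s := Tp k N) (t := Icc 1 (N ^ k)) (g := fun x => ∏ i, x i)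
    (fun x hx => Tp_prod hx)]
  refine sum_congr rfl fun m _ => ?_
  rw [Finset.sum_mul]
  refine sum_congr rfl fun x hx => ?_
  rw [(mem_filter.1 hx).2]

/-- the number of representations -/
def rp (k N m : ℕ) : ℕ := ((Tp k N).filter (fun x => ∏ i, x i = m)).card

theorem cf_le (k N : ℕ) (d : ℕ → ℂ) (hd : ∀ n, ‖d n‖ ≤ 1) (m : ℕ) : ‖cf k N d m‖ ≤ rp k N m := by
  unfold cf rp
  refine (norm_sum_le _ _).trans ?_
  rw [← nsmul_one, ← Finset.sum_const]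
  refine sum_le_sum fun x _ => ?_
  rw [norm_prod]
  exact Finset.prod_le_one (fun _ _ => norm_nonneg _) fun i _ => hd _

theorem rp_le (k N m : ℕ) (hm : m ≠ 0) : rp k N m ≤ m.divisors.card ^ k := by
  classical
  unfold rp
  have h1 : (Tp k N).filter (fun x => ∏ i, x i = m) ⊆ Fintype.piFinset fun _ : Fin k => m.divisors := by
    intro x hx
    rw [mem_filter] at hx
    rw [Fintype.mem_piFinset]
    intro i
    rw [Nat.mem_divisors]
    refine ⟨?_, hm⟩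
    rw [← hx.2]
    exact Finset.dvd_prod_of_mem _ (Finset.mem_univ i)
  refine (card_le_card h1).trans ?_
  rw [Fintype.card_piFinset]
  simp

theorem tau_prod {k : ℕ} (x : Fin k → ℕ) : ((∏ i, x i).divisors.card : ℝ) ≤ ∏ i, ((x i).divisors.card : ℝ) := by
  classical
  have : ∀ s : Finset (Fin k), ((∏ i ∈ s, x i).divisors.card : ℝ) ≤ ∏ i ∈ s, ((x i).divisors.card : ℝ) := by
    intro s
    induction s using Finset.induction_on with
    | empty => simp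
    | insert a s ha ih =>
      rw [prod_insert ha, prod_insert ha]
      exact (tau_mul _ _).trans (mul_le_mul_of_nonneg_left ih (by positivity))
  exact this _

theorem cf_sq (k N : ℕ) (d : ℕ → ℂ) (hd : ∀ n, ‖d n‖ ≤ 1) :
    ∑ m ∈ Icc 1 (N ^ k), ‖cf k N d m‖ ^ 2 ≤ (∑ n ∈ Icc 1 N, (n.divisors.card : ℝ) ^ k) ^ k := by
  classical
  calc ∑ m ∈ Icc 1 (N ^ k), ‖cf k N d m‖ ^ 2
      ≤ ∑ m ∈ Icc 1 (N ^ k), ∑ x ∈ (Tp k N).filter (fun x => ∏ i, x i = m),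
        ((∏ i, x i).divisors.card : ℝ) ^ k := by
        refine sum_le_sum fun m hm => ?_
        have hm0 : m ≠ 0 := by have := (mem_Icc.1 hm).1; omega
        have h1 := cf_le k N d hd m
        have h2 : (rp k N m : ℝ) ≤ (m.divisors.card : ℝ) ^ k := by exact_mod_cast rp_le k N m hm0
        have h3 : ∑ x ∈ (Tp k N).filter (fun x => ∏ i, x i = m), ((∏ i, x i).divisors.card : ℝ) ^ k =
            rp k N m * (m.divisors.card : ℝ) ^ k := by
          unfold rp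
          rw [← nsmul_eq_mul, ← sum_const]
          refine sum_congr rfl fun x hx => ?_
          rw [(mem_filter.1 hx).2]
        rw [h3]
        calc ‖cf k N d m‖ ^ 2 ≤ (rp k N m : ℝ) ^ 2 := pow_le_pow_left₀ (norm_nonneg _) h1 2
          _ = rp k N m * rp k N m := sq _
          _ ≤ _ := mul_le_mul_of_nonneg_left h2 (by positivity)
    _ = ∑ x ∈ Tp k N, ((∏ i, x i).divisors.card : ℝ) ^ k :=
        Finset.sum_fiberwise_of_maps_to (fun x hx => Tp_prod hx) _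
    _ ≤ ∑ x ∈ Tp k N, ∏ i, ((x i).divisors.card : ℝ) ^ k := by
        refine sum_le_sum fun x _ => ?_
        rw [Finset.prod_pow]
        exact pow_le_pow_left₀ (by positivity) (tau_prod x) k
    _ = _ := by
        unfold Tp
        rw [Finset.sum_pow']

theorem Dn_eq (d : ℕ → ℂ) (c : ℝ) (N : ℕ) (ξ : ℝ) : Dn d c N ξ = DP N d (c * ξ) := by
  unfold Dn DP
  refine sum_congr rfl fun n _ => ?_
  rw [ph_eq, er]
  congr 3
  push_cast
  ring

theorem DP_cont (N : ℕ) (a : ℕ → ℂ) : Continuous (fun t : ℝ => DP N a t) := by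
  unfold DP
  exact continuous_finsetSum _ fun n _ => continuous_const.mul (ph_cont n)

theorem mom_real (k N : ℕ) (hN : 1 ≤ N) (d : ℕ → ℂ) (hd : ∀ n, ‖d n‖ ≤ 1) (T : ℝ) (hT : 0 ≤ T) (κ : ℕ)
    (hκ : ∑ n ∈ Icc 1 N, (n.divisors.card : ℝ) ^ k ≤ N * (1 + Real.log N) ^ κ) :
    ∫ t in (-T)..T, ‖DP N d t‖ ^ (2 * k) ≤
      (2 * T + 4 * (N : ℝ) ^ k * (1 + k * Real.log N)) * ((N : ℝ) * (1 + Real.log N) ^ κ) ^ k := by
  have h1 : ∀ t, ‖DP N d t‖ ^ (2 * k) = ‖DP (N ^ k) (cf k N d) t‖ ^ 2 := by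
    intro t
    rw [← DP_pow, norm_pow, ← pow_mul, mul_comm]
  simp only [h1]
  have h2 := TH705.DL.mean_value (N ^ k) (Nat.one_le_pow _ _ hN) (cf k N d) (-T) T (by linarith)
  refine h2.trans ?_
  have h3 : ∑ m ∈ Icc 1 (N ^ k), ‖cf k N d m‖ ^ 2 ≤ ((N : ℝ) * (1 + Real.log N) ^ κ) ^ k :=
    (cf_sq k N d hd).trans (pow_le_pow_left₀ (sum_nonneg fun _ _ => by positivity) hκ k)
  have h4 : 0 ≤ Real.log N := Real.log_natCast_nonneg N
  have e1 : (T - -T + 4 * ((N ^ k : ℕ) : ℝ) * (1 + Real.log ((N ^ k : ℕ) : ℝ))) =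
      2 * T + 4 * (N : ℝ) ^ k * (1 + k * Real.log N) := by
    push_cast
    rw [Real.log_pow]
    ring
  rw [e1]
  exact mul_le_mul_of_nonneg_left h3 (by positivity)

/-- the moments of the polynomial `∑ d n n^{ic 2π ξ}` on `|ξ| ≤ N^k` -/
theorem moment (k : ℕ) (c : ℝ) (hc : 0 < c) : ∃ (κ : ℕ) (C : ℝ), 0 ≤ C ∧ ∀ (N : ℕ), 1 ≤ N → ∀ d : ℕ → ℂ,
    (∀ n, ‖d n‖ ≤ 1) → ∫⁻ ξ in Set.Icc (-(N : ℝ) ^ k) ((N : ℝ) ^ k), ‖Dn d c N (2 * Real.pi * ξ)‖ₑ ^ (2 * k) ≤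
      ENNReal.ofReal (C * (N : ℝ) ^ (2 * k) * (1 + Real.log N) ^ κ) := by
  obtain ⟨κ, hκ⟩ := tau_S k
  set a : ℝ := 2 * Real.pi * c with ha
  have ha0 : 0 < a := by positivity
  refine ⟨κ * k + 1, (2 * a + 4 * (1 + k)) / a, by positivity, fun N hN d hd => ?_⟩
  have hN1 : (1 : ℝ) ≤ N := by exact_mod_cast hN
  have hl : 0 ≤ Real.log N := Real.log_natCast_nonneg N
  have hP : (1 : ℝ) ≤ (N : ℝ) ^ k := one_le_pow₀ hN1
  have h1 : ∀ ξ : ℝ, Dn d c N (2 * Real.pi * ξ) = DP N d (a * ξ) := by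
    intro ξ
    rw [Dn_eq]
    congr 1
    rw [ha]
    ring
  have hcont : Continuous fun ξ : ℝ => ‖DP N d (a * ξ)‖ ^ (2 * k) :=
    ((DP_cont N d).comp (continuous_const.mul continuous_id)).norm.pow _
  have h2 : ∫⁻ ξ in Set.Icc (-(N : ℝ) ^ k) ((N : ℝ) ^ k), ‖Dn d c N (2 * Real.pi * ξ)‖ₑ ^ (2 * k) =
      ENNReal.ofReal (∫ ξ in Set.Icc (-(N : ℝ) ^ k) ((N : ℝ) ^ k), ‖DP N d (a * ξ)‖ ^ (2 * k)) := by
    rw [ofReal_integral_eq_lintegral_ofReal]
    · refine lintegral_congr fun ξ => ?_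
      rw [h1, ENNReal.ofReal_pow (norm_nonneg _), ofReal_norm]
    · exact hcont.continuousOn.integrableOn_compact isCompact_Icc
    · exact Filter.Eventually.of_forall fun ξ => by positivity
  rw [h2]
  apply ENNReal.ofReal_le_ofReal
  rw [integral_Icc_eq_integral_Ioc, ← intervalIntegral.integral_of_le (by linarith)]
  have h3 : ∫ ξ in (-(N : ℝ) ^ k)..((N : ℝ) ^ k), ‖DP N d (a * ξ)‖ ^ (2 * k) =
      a⁻¹ * ∫ t in (-(a * (N : ℝ) ^ k))..(a * (N : ℝ) ^ k), ‖DP N d t‖ ^ (2 * k) := by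
    have := intervalIntegral.integral_comp_mul_left (a := -(N : ℝ) ^ k) (b := (N : ℝ) ^ k)
      (fun t => ‖DP N d t‖ ^ (2 * k)) ha0.ne'
    rw [this, smul_eq_mul]
    congr 2
    ring
  rw [h3]
  have h4 := mom_real k N hN d hd (a * (N : ℝ) ^ k) (by positivity) κ (hκ N)
  have h5 : (2 * (a * (N : ℝ) ^ k) + 4 * (N : ℝ) ^ k * (1 + k * Real.log N)) ≤
      (2 * a + 4 * (1 + k)) * (N : ℝ) ^ k * (1 + Real.log N) := by
    have e1 : (2 * (a * (N : ℝ) ^ k) + 4 * (N : ℝ) ^ k * (1 + k * Real.log N)) =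
      (2 * a + 4 * (1 + k * Real.log N)) * (N : ℝ) ^ k := by ring
    have e2 : (2 * a + 4 * (1 + k)) * (N : ℝ) ^ k * (1 + Real.log N) =
      ((2 * a + 4 * (1 + k)) * (1 + Real.log N)) * (N : ℝ) ^ k := by ring
    rw [e1, e2]
    refine mul_le_mul_of_nonneg_right ?_ (by positivity)
    have : 0 ≤ (k : ℝ) := Nat.cast_nonneg k
    nlinarith [mul_nonneg ha0.le hl]
  calc a⁻¹ * ∫ t in (-(a * (N : ℝ) ^ k))..(a * (N : ℝ) ^ k), ‖DP N d t‖ ^ (2 * k)
      ≤ a⁻¹ * (((2 * a + 4 * (1 + k)) * (N : ℝ) ^ k * (1 + Real.log N)) *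
        ((N : ℝ) * (1 + Real.log N) ^ κ) ^ k) := by
        refine mul_le_mul_of_nonneg_left (h4.trans ?_) (by positivity)
        exact mul_le_mul_of_nonneg_right h5 (by positivity)
    _ = _ := by
        rw [mul_pow, ← pow_mul, pow_succ, two_mul k, pow_add]
        field_simp

end Pool.Agent.Q138.GS
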