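import Pool.Agent.Q138.GS.AE2

set_option autoImplicit false

/-!
# Several factors
-/

namespace Pool.Agent.Q138.GS

open Finset MeasureTheory Filter Topology
open scoped ENNReal
open Pool.Agent.Y957.VK

/-- the values are of logarithmic size -/
theorem val_le2 (f : ℕ → ℂ) (hf : ∀ n : ℕ, ‖f n‖ ≤ Real.log (n + 3)) (P : ℕ → ℝ) (A A' : ℕ) (C Y : ℝ)
    (hP : ∀ n : ℕ, 1 ≤ n → |P n| ≤ C * (n : ℝ) ^ A') (β : ℝ) : ∃ C' : ℝ, 1 ≤ C' ∧ ∀ α : ℝ, |α| ≤ Y →
      ∀ n m : ℕ, 1 ≤ n → 1 ≤ m → m ≤ A * n → ‖f ⌊α * P m + β⌋₊‖ ≤ C' * Real.log (n + 3) := by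
  set D : ℝ := |Y| * |C| * (A : ℝ) ^ A' + |β| with hD
  have hD0 : 0 ≤ D := by positivity
  have hlD : 0 ≤ Real.log (D + 3) := Real.log_nonneg (by linarith)
  refine ⟨Real.log (D + 3) + A' + 1, val_le_aux hlD A', fun α hα n m hn hm hmn => ?_⟩
  refine (hf _).trans ?_
  have hn1 : (1 : ℝ) ≤ n := by exact_mod_cast hn
  have hmr : (m : ℝ) ≤ A * n := by exact_mod_cast hmn
  have hnA : (1 : ℝ) ≤ (n : ℝ) ^ A' := one_le_pow₀ hn1
  have h1 : α * P m + β ≤ D * (n : ℝ) ^ A' := by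
    have e1 : |P m| ≤ |C| * ((A : ℝ) * n) ^ A' := by
      calc |P m| ≤ C * (m : ℝ) ^ A' := hP m hm
        _ ≤ |C| * (m : ℝ) ^ A' := mul_le_mul_of_nonneg_right (le_abs_self _) (by positivity)
        _ ≤ |C| * ((A : ℝ) * n) ^ A' := by gcongr
    have e3 : α * P m ≤ |Y| * (|C| * ((A : ℝ) * n) ^ A') := by
      calc α * P m ≤ |α * P m| := le_abs_self _
        _ = |α| * |P m| := abs_mul _ _
        _ ≤ |Y| * (|C| * ((A : ℝ) * n) ^ A') :=
          mul_le_mul (hα.trans (le_abs_self Y)) e1 (abs_nonneg _) (abs_nonneg _)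
    have e4 : β ≤ |β| * (n : ℝ) ^ A' := (le_abs_self β).trans (by nlinarith [abs_nonneg β])
    calc α * P m + β ≤ |Y| * (|C| * ((A : ℝ) * n) ^ A') + |β| * (n : ℝ) ^ A' := add_le_add e3 e4
      _ = D * (n : ℝ) ^ A' := by
          rw [hD, mul_pow]
          ring
  have h2 : ((⌊α * P m + β⌋₊ : ℕ) : ℝ) ≤ D * (n : ℝ) ^ A' := by
    rcases le_or_gt 0 (α * P m + β) with h | h
    · exact (Nat.floor_le h).trans h1
    · rw [Nat.floor_of_nonpos h.le]
      simp only [Nat.cast_zero]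
      positivity
  have h3 : ((⌊α * P m + β⌋₊ : ℕ) : ℝ) + 3 ≤ (D + 3) * ((n : ℝ) + 3) ^ A' := by
    have e1 : (n : ℝ) ^ A' ≤ ((n : ℝ) + 3) ^ A' := pow_le_pow_left₀ (by linarith) (by linarith) A'
    nlinarith
  have h4 : Real.log (((⌊α * P m + β⌋₊ : ℕ) : ℝ) + 3) ≤
      Real.log (D + 3) + A' * Real.log ((n : ℝ) + 3) := by
    have := Real.log_le_log (by positivity) h3
    rwa [Real.log_mul (by linarith) (by positivity), Real.log_pow] at this
  refine h4.trans ?_
  have h5 := lg3 n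
  nlinarith

theorem prod_filter_le {ι : Type*} [Fintype ι] (p : ι → Prop) [DecidablePred p] (x : ι → ℝ)
    (hx : ∀ i, 1 ≤ x i) : ∏ i with p i, x i ≤ ∏ i, x i := by
  rw [← Finset.prod_filter_mul_prod_filter_not Finset.univ p]
  have h1 : (1 : ℝ) ≤ ∏ i with ¬ p i, x i := by
    calc (1 : ℝ) = ∏ i : ι with ¬ p i, (1 : ℝ) := by simp
      _ ≤ _ := Finset.prod_le_prod (fun _ _ => zero_le_one) fun i _ => hx i
  have h2 : 0 ≤ ∏ i with p i, x i := Finset.prod_nonneg fun i _ => by linarith [hx i]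
  exact le_mul_of_one_le_right h2 h1

/-- **several factors**: the product of the values minus the product of the means -/
theorem prod_sav (k : ℕ) (F f : Fin (k + 1) → ℕ → ℂ) (c0 : Fin (k + 1) → ℂ)
    (hFf : ∀ i n, F i n = c0 i + f i n) (hF : ∀ i (n : ℕ), ‖F i n‖ ≤ Real.log (n + 3))
    (hf : ∀ i (n : ℕ), ‖f i n‖ ≤ Real.log (n + 3)) (P : Fin (k + 1) → ℕ → ℝ) (A' : Fin (k + 1) → ℕ)
    (C1 : Fin (k + 1) → ℝ) (hP : ∀ i, ∀ n : ℕ, 1 ≤ n → |P i n| ≤ C1 i * (n : ℝ) ^ (A' i))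
    (β : Fin (k + 1) → ℝ) (hU : ∀ i, UN (f i) (P i) (β i)) (g : ℕ → ℂ) (C0 : ℝ) (B : ℕ)
    (hg : ∀ n : ℕ, 1 ≤ n → ‖g n‖ ≤ C0 * (Real.log (n + 3)) ^ B) :
    ∀ᵐ α ∂((volume : Measure (Fin (k + 1) → ℝ)).restrict {α | ∀ i, 0 < α i}),
      Sav fun n => g n * (∏ i, F i ⌊α i * P i n + β i⌋₊ - ∏ i, c0 i) := by
  classical
  have hj : ∀ j : Fin (k + 1), ∀ᵐ α ∂((volume : Measure (Fin (k + 1) → ℝ)).restrict {α | ∀ i, 0 < α i}),
      Sav fun n => (g n * (∏ i with i < j, F i ⌊α i * P i n + β i⌋₊) * ∏ i with j < i, c0 i) *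
        f j ⌊α j * P j n + β j⌋₊ := by
    intro j
    refine ae_alpha k j (fun α n => g n * (∏ i with i < j, F i ⌊α i * P i n + β i⌋₊) * ∏ i with j < i, c0 i)
      ?_ ?_ (fun _ n => n) (fun n => measurable_const) (fun _ _ _ => rfl) ?_ (f j) (hf j) (P j) (A' j) (C1 j)
      (hP j) (β j) (hU j)
    · intro n
      refine Measurable.mul_const (Measurable.const_mul ?_ _) _
      refine Finset.measurable_fun_prod _ fun i _ => ?_
      exact fl_meas (F i) (((measurable_pi_apply i).mul_const _).add_const _)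
    · intro α t n
      congr 2
      refine Finset.prod_congr rfl fun i hi => ?_
      rw [Function.update_of_ne (mem_filter.1 hi).2.ne]
    · intro x y hx
      choose C' hC'1 hC' using fun i => val_le2 (F i) (hF i) (P i) 1 (A' i) (C1 i) (|y i|) (hP i) (β i)
      refine ⟨|C0| * (∏ i, C' i) * ‖∏ i with j < i, c0 i‖, B + (k + 1), 1, le_rfl, fun α hα =>
        ⟨fun n hn => ?_, fun n hn => ⟨hn, by omega⟩, fun N i => ?_⟩⟩
      · have h3 := lg3 n
        have hval : ∀ i, ‖F i ⌊α i * P i n + β i⌋₊‖ ≤ C' i * Real.log (n + 3) := by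
          intro i
          refine hC' i (α i) ?_ n n hn hn (by omega)
          have h1 := hα i
          have h2 := hx i
          rw [abs_of_pos (by linarith [h1.1])]
          exact h1.2.trans (le_abs_self _)
        have h1 : ‖∏ i with i < j, F i ⌊α i * P i n + β i⌋₊‖ ≤ (∏ i, C' i) * (Real.log (n + 3)) ^ (k + 1) := by
          rw [norm_prod]
          calc ∏ i with i < j, ‖F i ⌊α i * P i n + β i⌋₊‖
              ≤ ∏ i with i < j, (C' i * Real.log (n + 3)) :=
                Finset.prod_le_prod (fun _ _ => norm_nonneg _) fun i _ => hval i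
            _ ≤ ∏ i, (C' i * Real.log (n + 3)) := by
                exact prod_filter_le (fun i => i < j) _ fun i => by
                  have := hC'1 i
                  nlinarith
            _ = _ := by
                rw [Finset.prod_mul_distrib]
                simp
        rw [norm_mul, norm_mul]
        have h2 := hg n hn
        have h4 : ‖g n‖ ≤ |C0| * (Real.log (n + 3)) ^ B :=
          h2.trans (mul_le_mul_of_nonneg_right (le_abs_self _) (by positivity))
        calc ‖g n‖ * ‖∏ i with i < j, F i ⌊α i * P i n + β i⌋₊‖ * ‖∏ i with j < i, c0 i‖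
            ≤ (|C0| * (Real.log (n + 3)) ^ B) * ((∏ i, C' i) * (Real.log (n + 3)) ^ (k + 1)) *
              ‖∏ i with j < i, c0 i‖ := by gcongr
          _ = _ := by
              rw [pow_add]
              ring
      · refine le_trans (card_le_card (t := {i}) ?_) (by simp)
        intro n hn
        rw [mem_filter] at hn
        simpa using hn.2
  rw [← ae_all_iff] at hj
  filter_upwards [hj] with α hα
  refine (Sav.sum Finset.univ _ fun j _ => hα j).congr fun n _ => ?_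
  have e1 : ∏ i, F i ⌊α i * P i n + β i⌋₊ = ∏ i, (c0 i + f i ⌊α i * P i n + β i⌋₊) :=
    Finset.prod_congr rfl fun i _ => hFf i _
  rw [e1, Finset.prod_add_ordered, add_sub_cancel_left, Finset.mul_sum]
  refine sum_congr rfl fun j _ => ?_
  have e2 : ∏ i with i < j, F i ⌊α i * P i n + β i⌋₊ = ∏ i with i < j, (c0 i + f i ⌊α i * P i n + β i⌋₊) :=
    Finset.prod_congr rfl fun i _ => hFf i _
  rw [e2]
  ring

end Pool.Agent.Q138.GS
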