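import Pool.Agent.Q138.GS.Un2
import Mathlib.Analysis.Complex.Polynomial.Basic

set_option autoImplicit false

/-!
# Smoothly varying functions; polynomials and powers
-/

namespace Pool.Agent.Q138.GS

open Finset Filter Topology

/-- `exp (φ 0)` is smoothly varying of index `c`; `φ r` is the `r`-th derivative of `φ 0` near infinity -/
def Smv (c : ℝ) (φ : ℕ → ℝ → ℝ) : Prop := ∀ r : ℕ,
  (∀ᶠ x : ℝ in atTop, HasDerivAt (φ r) (φ (r + 1) x) x) ∧
    Tendsto (fun x : ℝ => x ^ (r + 1) * φ (r + 1) x) atTop (𝓝 (c * ((-1) ^ r * (r.factorial : ℝ))))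

theorem Smv.add {c c' : ℝ} {φ ψ : ℕ → ℝ → ℝ} (h1 : Smv c φ) (h2 : Smv c' ψ) :
    Smv (c + c') fun r x => φ r x + ψ r x := by
  intro r
  refine ⟨?_, ?_⟩
  · filter_upwards [(h1 r).1, (h2 r).1] with x a b
    exact a.add b
  · have := (h1 r).2.add (h2 r).2
    rw [← add_mul] at this
    refine this.congr fun x => ?_
    ring

theorem Smv.smul {c : ℝ} {φ : ℕ → ℝ → ℝ} (θ : ℝ) (h : Smv c φ) : Smv (θ * c) fun r x => θ * φ r x := by
  intro r
  refine ⟨?_, ?_⟩
  · filter_upwards [(h r).1] with x a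
    exact a.const_mul θ
  · have := (h r).2.const_mul θ
    rw [← mul_assoc] at this
    refine this.congr fun x => ?_
    ring

theorem Smv.reg {c : ℝ} (hc : 0 < c) {φ : ℕ → ℝ → ℝ} (h : Smv c φ) : Reg φ := by
  intro r
  have h1 : Tendsto (fun x : ℝ => x ^ (r + 1) * ((-1) ^ r * φ (r + 1) x)) atTop
      (𝓝 (c * (r.factorial : ℝ))) := by
    have := (h r).2.const_mul ((-1 : ℝ) ^ r)
    have e : (-1 : ℝ) ^ r * (c * ((-1) ^ r * (r.factorial : ℝ))) = c * (r.factorial : ℝ) := by
      have : (-1 : ℝ) ^ r * (-1) ^ r = 1 := by rw [← mul_pow]; norm_num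
      linear_combination (c * (r.factorial : ℝ)) * this
    rw [e] at this
    refine this.congr fun x => ?_
    ring
  have hp : 0 < c * (r.factorial : ℝ) := by
    have := Nat.factorial_pos r
    positivity
  have h2 := h1.eventually (Ioo_mem_nhds (show c * (r.factorial : ℝ) / 2 < c * (r.factorial : ℝ) by linarith)
    (show c * (r.factorial : ℝ) < 2 * (c * (r.factorial : ℝ)) by linarith))
  obtain ⟨x0, hx0⟩ := eventually_atTop.1 ((h r).1.and (h2.and (eventually_ge_atTop (1 : ℝ))))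
  refine ⟨max x0 1, c * (r.factorial : ℝ) / 2, 2 * (c * (r.factorial : ℝ)), by positivity, by positivity,
    fun x hx => ?_⟩
  obtain ⟨a1, a2, a3⟩ := hx0 x ((le_max_left _ _).trans hx)
  have hxp : 0 < x ^ (r + 1) := by positivity
  refine ⟨a1, ?_, ?_⟩
  · rw [div_le_iff₀ hxp, mul_comm _ (x ^ (r + 1))]
    exact a2.1.le
  · rw [le_div_iff₀ hxp, mul_comm _ (x ^ (r + 1))]
    exact a2.2.le

/-- the logarithm -/
noncomputable def lgs (r : ℕ) (x : ℝ) : ℝ :=
  if r = 0 then Real.log x else (-1) ^ (r - 1) * ((r - 1).factorial : ℝ) / x ^ r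

theorem lgs_succ (r : ℕ) (x : ℝ) : lgs (r + 1) x = (-1) ^ r * (r.factorial : ℝ) / x ^ (r + 1) := by
  simp [lgs]

theorem smv_log : Smv 1 lgs := by
  intro r
  refine ⟨?_, ?_⟩
  · filter_upwards [eventually_gt_atTop (0 : ℝ)] with x hx
    rw [lgs_succ]
    rcases Nat.eq_zero_or_pos r with rfl | hr
    · have h1 := Real.hasDerivAt_log hx.ne'
      have e0 : lgs 0 = Real.log := by
        funext y
        simp [lgs]
      rw [e0]
      have e1 : (-1 : ℝ) ^ 0 * (Nat.factorial 0 : ℝ) / x ^ (0 + 1) = x⁻¹ := by simp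
      rw [e1]
      exact h1
    · obtain ⟨s, rfl⟩ := Nat.exists_eq_add_of_le' hr
      have e : lgs (s + 1) = fun x => (-1) ^ s * (s.factorial : ℝ) * (x ^ (s + 1))⁻¹ := by
        funext y
        rw [lgs_succ, div_eq_mul_inv]
      rw [e]
      have h1 := ((hasDerivAt_pow (s + 1) x).fun_inv (pow_ne_zero _ hx.ne')).const_mul ((-1) ^ s * (s.factorial : ℝ))
      have e1 : (-1 : ℝ) ^ (s + 1) * ((s + 1).factorial : ℝ) / x ^ (s + 1 + 1) =
          (-1) ^ s * (s.factorial : ℝ) * (-(((s + 1 : ℕ) : ℝ) * x ^ (s + 1 - 1)) / (x ^ (s + 1)) ^ 2) := by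
        rw [Nat.factorial_succ]
        push_cast
        field_simp
        ring
      rw [e1]
      exact h1
  · refine tendsto_const_nhds.congr' ?_
    filter_upwards [eventually_gt_atTop (0 : ℝ)] with x hx
    rw [lgs_succ]
    field_simp

/-- the logarithm of a polynomial and its derivatives -/
noncomputable def pol (P : Polynomial ℝ) (r : ℕ) (x : ℝ) : ℝ :=
  if r = 0 then Real.log (P.eval x) else
    ((((P.map (algebraMap ℝ ℂ)).roots.map fun ρ : ℂ =>
      (-1 : ℂ) ^ (r - 1) * ((r - 1).factorial : ℂ) / ((x : ℂ) - ρ) ^ r).sum).re)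

theorem pol_succ (P : Polynomial ℝ) (r : ℕ) (x : ℝ) : pol P (r + 1) x =
    ((((P.map (algebraMap ℝ ℂ)).roots.map fun ρ : ℂ =>
      (-1 : ℂ) ^ r * (r.factorial : ℂ) / ((x : ℂ) - ρ) ^ (r + 1)).sum).re) := by
  simp [pol]

theorem ms_tendsto {α : Type*} {l : Filter α} (s : Multiset ℂ) (f : ℂ → α → ℂ) (a : ℂ → ℂ)
    (h : ∀ ρ ∈ s, Tendsto (f ρ) l (𝓝 (a ρ))) :
    Tendsto (fun x => (s.map fun ρ => f ρ x).sum) l (𝓝 (s.map a).sum) := by
  induction s using Multiset.induction_on with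
  | empty => simpa using tendsto_const_nhds
  | cons b t ih =>
    simp only [Multiset.map_cons, Multiset.sum_cons]
    exact (h b (Multiset.mem_cons_self b t)).add (ih fun ρ hρ => h ρ (Multiset.mem_cons_of_mem hρ))

theorem ms_deriv (s : Multiset ℂ) (f : ℂ → ℂ → ℂ) (f' : ℂ → ℂ) (z : ℂ)
    (h : ∀ ρ ∈ s, HasDerivAt (f ρ) (f' ρ) z) :
    HasDerivAt (fun x => (s.map fun ρ => f ρ x).sum) ((s.map f').sum) z := by
  induction s using Multiset.induction_on with
  | empty => simpa using hasDerivAt_const z (0 : ℂ)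
  | cons b t ih =>
    simp only [Multiset.map_cons, Multiset.sum_cons]
    exact (h b (Multiset.mem_cons_self b t)).add (ih fun ρ hρ => h ρ (Multiset.mem_cons_of_mem hρ))

theorem ms_away (s : Multiset ℂ) : ∃ x0 : ℝ, 0 < x0 ∧ ∀ ρ ∈ s, ∀ x : ℝ, x0 ≤ x → (x : ℂ) - ρ ≠ 0 := by
  induction s using Multiset.induction_on with
  | empty => exact ⟨1, one_pos, by simp⟩
  | cons b t ih =>
    obtain ⟨x0, h0, h⟩ := ih
    refine ⟨max x0 (‖b‖ + 1), by positivity, fun ρ hρ x hx hz => ?_⟩
    rcases Multiset.mem_cons.1 hρ with rfl | h1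
    · have h2 : ‖(x : ℂ)‖ = ‖ρ‖ := by rw [sub_eq_zero.1 hz]
      rw [Complex.norm_real, Real.norm_eq_abs] at h2
      have h3 := (le_max_right _ _).trans hx
      have h4 := le_abs_self x
      linarith
    · exact h ρ h1 x ((le_max_left _ _).trans hx) hz

theorem ev_map (P : Polynomial ℝ) (x : ℝ) :
    (P.map (algebraMap ℝ ℂ)).eval (x : ℂ) = ((P.eval x : ℝ) : ℂ) := by
  rw [Polynomial.eval_map]
  exact Polynomial.eval₂_at_apply (algebraMap ℝ ℂ) x

theorem smv_pol {P : Polynomial ℝ} (hd : 1 ≤ P.natDegree) (hl : 0 < P.leadingCoeff) :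
    Smv P.natDegree (pol P) := by
  classical
  have hP0 : P ≠ 0 := by
    rintro rfl
    simp at hl
  set Q := P.map (algebraMap ℝ ℂ) with hQ
  have hcard : Multiset.card Q.roots = P.natDegree := by
    exact IsAlgClosed.card_roots_map_eq_natDegree_from_simpleRing (algebraMap ℝ ℂ) P
  have hQ0 : Q ≠ 0 := (Polynomial.map_ne_zero_iff (algebraMap ℝ ℂ).injective).2 hP0
  obtain ⟨x0, hx0, haway⟩ := ms_away Q.roots
  have hev : ∀ x : ℝ, Q.eval (x : ℂ) = ((P.eval x : ℝ) : ℂ) := ev_map P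
  intro r
  refine ⟨?_, ?_⟩
  · filter_upwards [eventually_ge_atTop x0] with x hx
    rcases Nat.eq_zero_or_pos r with rfl | hr
    · have e0 : pol P 0 = fun y => Real.log (P.eval y) := by
        funext y
        simp [pol]
      have hne : Q.eval (x : ℂ) ≠ 0 := by
        intro h0
        have h1 : (x : ℂ) ∈ Q.roots := (Polynomial.mem_roots hQ0).2 h0
        exact haway _ h1 x hx (sub_self _)
      have hne' : P.eval x ≠ 0 := by
        intro h0
        rw [hev, h0] at hne
        simp at hne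
      rw [e0]
      have h1 := (P.hasDerivAt x).log hne'
      have h2 := (IsAlgClosed.splits Q).eval_derivative_div_eval_of_ne_zero hne
      have h3 : Q.derivative.eval (x : ℂ) = ((P.derivative.eval x : ℝ) : ℂ) := by
        rw [hQ, Polynomial.derivative_map]
        exact ev_map P.derivative x
      have h4 : pol P (0 + 1) x = P.derivative.eval x / P.eval x := by
        rw [pol_succ]
        have e : (fun ρ : ℂ => (-1 : ℂ) ^ 0 * (Nat.factorial 0 : ℂ) / ((x : ℂ) - ρ) ^ (0 + 1)) =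
            fun ρ => 1 / ((x : ℂ) - ρ) := by
          funext ρ
          simp
        rw [e, ← h2, h3, hev, ← Complex.ofReal_div, Complex.ofReal_re]
      rw [h4]
      exact h1
    · obtain ⟨s, rfl⟩ := Nat.exists_eq_add_of_le' hr
      have e : pol P (s + 1) = fun y : ℝ => ((Q.roots.map fun ρ : ℂ =>
          (-1 : ℂ) ^ s * (s.factorial : ℂ) * (((y : ℂ) - ρ) ^ (s + 1))⁻¹).sum).re := by
        funext y
        rw [pol_succ]
        simp only [div_eq_mul_inv]
        rfl
      have h1 := ms_deriv Q.roots (fun ρ z => (-1 : ℂ) ^ s * (s.factorial : ℂ) * ((z - ρ) ^ (s + 1))⁻¹)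
        (fun ρ => (-1 : ℂ) ^ (s + 1) * ((s + 1).factorial : ℂ) / ((x : ℂ) - ρ) ^ (s + 1 + 1)) (x : ℂ) (by
          intro ρ hρ
          have hne := haway ρ hρ x hx
          have h2 := ((((hasDerivAt_id (x : ℂ)).sub_const ρ).fun_pow (s + 1)).fun_inv
            (pow_ne_zero _ hne)).const_mul ((-1 : ℂ) ^ s * (s.factorial : ℂ))
          have e1 : (-1 : ℂ) ^ (s + 1) * ((s + 1).factorial : ℂ) / ((x : ℂ) - ρ) ^ (s + 1 + 1) =
              (-1) ^ s * (s.factorial : ℂ) *
                (-(((s + 1 : ℕ) : ℂ) * (id (x : ℂ) - ρ) ^ (s + 1 - 1) * 1) / ((id (x : ℂ) - ρ) ^ (s + 1)) ^ 2) := by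
            rw [Nat.factorial_succ]
            push_cast
            simp only [id]
            field_simp
            ring
          rw [e1]
          exact h2)
      rw [e, pol_succ]
      exact h1.real_of_complex
  · have h1 : ∀ ρ : ℂ, Tendsto (fun x : ℝ => (x : ℂ) ^ (r + 1) *
        ((-1 : ℂ) ^ r * (r.factorial : ℂ) / ((x : ℂ) - ρ) ^ (r + 1))) atTop
        (𝓝 ((-1 : ℂ) ^ r * (r.factorial : ℂ))) := by
      intro ρ
      have h2 : Tendsto (fun x : ℝ => (1 : ℂ) - ρ * (((x⁻¹ : ℝ)) : ℂ)) atTop (𝓝 1) := by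
        have := ((Complex.continuous_ofReal.tendsto 0).comp tendsto_inv_atTop_zero).const_mul ρ
        simpa using this.const_sub (1 : ℂ)
      have h3 := ((h2.pow (r + 1)).inv₀ (by simp)).const_mul ((-1 : ℂ) ^ r * (r.factorial : ℂ))
      simp only [one_pow, inv_one, mul_one] at h3
      refine h3.congr' ?_
      filter_upwards [eventually_gt_atTop (0 : ℝ)] with x hx
      have hx' : (x : ℂ) ≠ 0 := by exact_mod_cast hx.ne'
      have e : (1 : ℂ) - ρ * (((x⁻¹ : ℝ)) : ℂ) = ((x : ℂ) - ρ) / x := by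
        push_cast
        field_simp
      rw [e, div_pow, inv_div]
      ring
    have h2 := ms_tendsto Q.roots (fun ρ (x : ℝ) => (x : ℂ) ^ (r + 1) *
        ((-1 : ℂ) ^ r * (r.factorial : ℂ) / ((x : ℂ) - ρ) ^ (r + 1))) (fun _ => (-1 : ℂ) ^ r * (r.factorial : ℂ))
        (fun ρ _ => h1 ρ)
    have h3 := (Complex.continuous_re.tendsto _).comp h2
    rw [Multiset.map_const', Multiset.sum_replicate, hcard] at h3
    have e1 : (P.natDegree • ((-1 : ℂ) ^ r * (r.factorial : ℂ))).re =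
        (P.natDegree : ℝ) * ((-1) ^ r * (r.factorial : ℝ)) := by
      have : P.natDegree • ((-1 : ℂ) ^ r * (r.factorial : ℂ)) =
          (((P.natDegree : ℝ) * ((-1) ^ r * (r.factorial : ℝ)) : ℝ) : ℂ) := by
        rw [nsmul_eq_mul]
        push_cast
        ring
      rw [this, Complex.ofReal_re]
    rw [e1] at h3
    refine h3.congr fun x => ?_
    rw [pol_succ]
    simp only [Function.comp_apply]
    rw [Multiset.sum_map_mul_left, ← Complex.ofReal_pow, Complex.re_ofReal_mul]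

end Pool.Agent.Q138.GS
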