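import Pool.Agent.Q138.GS.Smv
import Pool.Agent.Q138.GS.Prd
import Pool.Agent.Y555.VK.Lw
import Pool.Agent.Y751.VK.Lam
import Pool.Agent.Y957.VK.Fin1
import Pool.Agent.Y957.VK.NegLam
import Mathlib.NumberTheory.Chebyshev

set_option autoImplicit false

/-!
# The standard functions: primes, Moebius, Liouville; uniform bounds for their dilates
-/

namespace Pool.Agent.Q138.GS

open Finset Filter Topology
open Pool.Agent.Y957.VK
open Pool.Agent.H376R2.MR (er)
open Pool.Agent.Y957.AD (er_norm er_add)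

theorem lw_all : S_LW := Pool.Agent.Y555.VK.lw (Pool.Agent.Y751.VK.lam Pool.Agent.Y957.VK.inv_all)

/-- `log p` at the primes -/
noncomputable def th (n : ℕ) : ℂ := if n.Prime then ((Real.log n : ℝ) : ℂ) else 0

/-- the same minus one -/
noncomputable def thw (n : ℕ) : ℂ := -1 + th n

theorem log_le3 (n : ℕ) : Real.log n ≤ Real.log (n + 3) := by
  rcases Nat.eq_zero_or_pos n with rfl | hn
  · simp only [Nat.cast_zero, Real.log_zero, zero_add]
    exact Real.log_nonneg (by norm_num)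
  · exact Real.log_le_log (by exact_mod_cast hn) (by linarith)

theorem th_le (n : ℕ) : ‖th n‖ ≤ Real.log (n + 3) := by
  unfold th
  split_ifs with h
  · rw [Complex.norm_real, Real.norm_eq_abs, abs_of_nonneg (Real.log_natCast_nonneg n)]
    exact log_le3 n
  · rw [norm_zero]
    linarith [lg3 n]

theorem thw_le (n : ℕ) : ‖thw n‖ ≤ Real.log (n + 3) := by
  have h3 := lg3 n
  have e : thw n = (((-1 + (if n.Prime then Real.log n else 0)) : ℝ) : ℂ) := by
    unfold thw th
    split_ifs <;> push_cast <;> ring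
  rw [e, Complex.norm_real, Real.norm_eq_abs, abs_le]
  have h4 := log_le3 n
  have h5 := Real.log_natCast_nonneg n
  split_ifs <;> constructor <;> linarith

theorem one_le3 (n : ℕ) : (1 : ℝ) ≤ Real.log (n + 3) := lg3 n

/-- a function with small mean is negligible -/
theorem neg_of_sum (g : ℕ → ℂ) (C0 : ℝ) (h : ∀ N : ℕ, 2 ≤ N →
    ∑ n ∈ Icc 1 N, ‖g n‖ ≤ C0 * (Real.sqrt N * Real.log N)) : Neg g := by
  intro A K
  have hC : ∃ C1 : ℝ, ∀ N : ℕ, 2 ≤ N → Real.sqrt N * Real.log N ≤ C1 * (N / (Real.log N) ^ K) := by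
    have h1 := pw 1 (K + 1) (show (0 : ℝ) < 1 / 2 by norm_num)
    obtain ⟨N0, hN0⟩ := eventually_atTop.1 h1
    have hS : 0 ≤ ∑ i ∈ range (N0 + 1), Real.sqrt i * Real.log i / (i / (Real.log i) ^ K) :=
      sum_nonneg fun i _ => by
        have := Real.log_natCast_nonneg i
        positivity
    refine ⟨1 + ∑ i ∈ range (N0 + 1), Real.sqrt i * Real.log i / (i / (Real.log i) ^ K), fun N hN => ?_⟩
    have hlog : 0 < Real.log N := Real.log_pos (by exact_mod_cast (by omega : 1 < N))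
    have hNp : (0 : ℝ) < N := by exact_mod_cast (by omega : 0 < N)
    have hden : 0 < (N : ℝ) / (Real.log N) ^ K := by positivity
    rcases lt_or_ge N N0 with hlt | hge
    · have h2 : Real.sqrt N * Real.log N / (N / (Real.log N) ^ K) ≤
          ∑ i ∈ range (N0 + 1), Real.sqrt i * Real.log i / (i / (Real.log i) ^ K) :=
        single_le_sum (f := fun i : ℕ => Real.sqrt i * Real.log i / (i / (Real.log i) ^ K)) (fun i _ => by
          have := Real.log_natCast_nonneg i
          positivity) (mem_range.2 (by omega))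
      rw [div_le_iff₀ hden] at h2
      nlinarith
    · have h2 := hN0 N hge
      rw [one_mul, ← Real.sqrt_eq_rpow] at h2
      have h3 : Real.sqrt N * Real.log N ≤ N / (Real.log N) ^ K := by
        rw [le_div_iff₀ (by positivity)]
        calc Real.sqrt N * Real.log N * (Real.log N) ^ K = Real.sqrt N * (Real.log N) ^ (K + 1) := by ring
          _ ≤ Real.sqrt N * Real.sqrt N := mul_le_mul_of_nonneg_left h2 (Real.sqrt_nonneg _)
          _ = N := Real.mul_self_sqrt hNp.le
      nlinarith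
  obtain ⟨C1, hC1⟩ := hC
  refine ⟨|C0| * C1, fun N τ hN _ => ?_⟩
  have hlog : 0 < Real.log N := Real.log_pos (by exact_mod_cast (by omega : 1 < N))
  have hsq : 0 ≤ Real.sqrt N * Real.log N := by positivity
  calc ‖∑ n ∈ Icc 1 N, g n * er τ (Real.log n)‖ ≤ ∑ n ∈ Icc 1 N, ‖g n * er τ (Real.log n)‖ := norm_sum_le _ _
    _ = ∑ n ∈ Icc 1 N, ‖g n‖ := by
        refine sum_congr rfl fun n _ => ?_
        rw [norm_mul, er_norm, mul_one]
    _ ≤ C0 * (Real.sqrt N * Real.log N) := h N hN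
    _ ≤ |C0| * (Real.sqrt N * Real.log N) := mul_le_mul_of_nonneg_right (le_abs_self _) hsq
    _ ≤ |C0| * (C1 * (N / (Real.log N) ^ K)) := mul_le_mul_of_nonneg_left (hC1 N hN) (abs_nonneg _)
    _ = |C0| * C1 * N / (Real.log N) ^ K := by ring

theorem neg_add {g h : ℕ → ℂ} (hg : Neg g) (hh : Neg h) : Neg fun n => g n + h n := by
  intro A K
  obtain ⟨C1, h1⟩ := hg A K
  obtain ⟨C2, h2⟩ := hh A K
  refine ⟨C1 + C2, fun N τ hN hτ => ?_⟩
  have e : ∑ n ∈ Icc 1 N, (g n + h n) * er τ (Real.log n) =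
      ∑ n ∈ Icc 1 N, g n * er τ (Real.log n) + ∑ n ∈ Icc 1 N, h n * er τ (Real.log n) := by
    rw [← sum_add_distrib]
    exact sum_congr rfl fun n _ => by ring
  rw [e]
  refine (norm_add_le _ _).trans ((add_le_add (h1 N τ hN hτ) (h2 N τ hN hτ)).trans (le_of_eq ?_))
  ring

theorem neg_thw : Neg thw := by
  have h1 : Neg fun n => thw n - lamw n := by
    refine neg_of_sum _ 2 fun N hN => ?_
    have hN1 : (1 : ℝ) ≤ N := by exact_mod_cast (by omega : 1 ≤ N)
    have h2 := Chebyshev.psi_sub_theta_le hN1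
    rw [Chebyshev.psi_sub_theta_eq_sum_not_prime, Nat.floor_natCast] at h2
    have e1 : ∑ n ∈ Icc 1 N, ‖thw n - lamw n‖ =
        ∑ n ∈ Ioc 0 N with ¬ n.Prime, ArithmeticFunction.vonMangoldt n := by
      rw [sum_filter]
      have e2 : Icc 1 N = Ioc 0 N := by
        ext n
        simp only [mem_Icc, mem_Ioc]
        omega
      rw [e2]
      refine sum_congr rfl fun n _ => ?_
      unfold thw th lamw
      by_cases hp : n.Prime
      · rw [if_pos hp, if_neg (not_not.2 hp), ArithmeticFunction.vonMangoldt_apply_prime hp]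
        have : (-1 : ℂ) + ((Real.log n : ℝ) : ℂ) - (((Real.log n : ℝ) : ℂ) - 1) = 0 := by ring
        rw [this, norm_zero]
      · rw [if_neg hp, if_pos hp]
        have : (-1 : ℂ) + 0 - (((ArithmeticFunction.vonMangoldt n : ℝ) : ℂ) - 1) =
            -((ArithmeticFunction.vonMangoldt n : ℝ) : ℂ) := by ring
        rw [this, norm_neg, Complex.norm_real, Real.norm_eq_abs,
          abs_of_nonneg ArithmeticFunction.vonMangoldt_nonneg]
    rw [e1]
    linarith
  have h2 := neg_add h1 lw_all.2.2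
  have e : (fun n => thw n - lamw n + lamw n) = thw := by
    funext n
    ring
  rwa [e] at h2

/-- the Moebius function -/
noncomputable def mu (n : ℕ) : ℂ := ((ArithmeticFunction.moebius n : ℤ) : ℂ)

theorem neg_mu' : Neg mu := neg_mu

theorem mu_le (n : ℕ) : ‖mu n‖ ≤ Real.log (n + 3) := by
  refine le_trans ?_ (one_le3 n)
  unfold mu
  rw [Complex.norm_intCast]
  exact_mod_cast ArithmeticFunction.abs_moebius_le_one

theorem liou_le (n : ℕ) : ‖liou n‖ ≤ Real.log (n + 3) := by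
  rw [liou_norm]
  exact one_le3 n

/-! ### sequences -/

/-- good sequences: `P n = exp (φ n)` for large `n`, with `exp φ` smoothly varying of index `c > 0` -/
def Sm (c : ℝ) (P : ℕ → ℝ) : Prop := 0 < c ∧ ∃ φ : ℕ → ℝ → ℝ, Smv c φ ∧ ∃ n0 : ℕ, ∀ n : ℕ, n0 ≤ n →
  P n = Real.exp (φ 0 n)

theorem Sm.bd {c : ℝ} {P : ℕ → ℝ} (h : Sm c P) :
    ∃ (A : ℕ) (C : ℝ), 0 ≤ C ∧ ∀ n : ℕ, 1 ≤ n → |P n| ≤ C * (n : ℝ) ^ A := by
  obtain ⟨hc, φ, hφ, n0, hP⟩ := h
  exact ((hφ.reg hc).gr P n0 hP).bd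

theorem Sm.un {c : ℝ} {P : ℕ → ℝ} (h : Sm c P) (f : ℕ → ℂ) (hf : ∀ n : ℕ, ‖f n‖ ≤ Real.log (n + 3))
    (hN : Neg f) (β : ℝ) : UN f P β := by
  obtain ⟨hc, φ, hφ, n0, hP⟩ := h
  exact un2 f hf hN (hφ.reg hc) P n0 hP β

theorem sm_pol {P : Polynomial ℝ} (hd : 1 ≤ P.natDegree) (hl : 0 < P.leadingCoeff) :
    Sm P.natDegree fun n => P.eval (n : ℝ) := by
  refine ⟨by exact_mod_cast hd, pol P, smv_pol hd hl, ?_⟩
  have h1 : Tendsto (fun x : ℝ => P.eval x) atTop atTop :=
    P.tendsto_atTop_of_leadingCoeff_nonneg (Polynomial.natDegree_pos_iff_degree_pos.1 (by omega)) hl.le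
  obtain ⟨n0, hn0⟩ := eventually_atTop.1 ((h1.comp tendsto_natCast_atTop_atTop).eventually_gt_atTop 0)
  refine ⟨n0, fun n hn => ?_⟩
  have h2 := hn0 n hn
  simp only [Function.comp_apply] at h2
  simp only [pol, if_true]
  rw [Real.exp_log h2]

theorem sm_rpow {c : ℝ} (hc : 0 < c) : Sm c fun n => (n : ℝ) ^ c := by
  refine ⟨hc, fun r x => c * lgs r x, ?_, 1, fun n hn => ?_⟩
  · have := smv_log.smul c
    rwa [mul_one] at this
  · have hnp : (0 : ℝ) < n := by exact_mod_cast hn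
    simp only [lgs, if_true]
    rw [Real.rpow_def_of_pos hnp, mul_comm]

end Pool.Agent.Q138.GS
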