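import Pool.Agent.Q138.GS.Kd
import Pool.Agent.Q138.GS.Abel

set_option autoImplicit false

/-!
# The Fourier transform of the window of a negligible sequence is small, general growth
-/

namespace Pool.Agent.Q138.GS

open Finset MeasureTheory Filter FourierTransform
open scoped ENNReal
open Pool.Agent.Y957.VK
open Pool.Agent.H376R2.MR (er)
open Pool.Agent.Y957.AD (er_norm er_add)

theorem Bt_int2 (f : ℕ → ℂ) {b β : ℝ} {M1 M2 : ℕ} (h1 : 1 ≤ M1) (hβ : β < M1) :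
    Integrable (Bt f b β M1 M2) := by
  have : Bt f b β M1 M2 = fun y => ∑ m ∈ Icc M1 M2, f m * ind b β m y := by
    funext y
    exact Bt_sum f h1 hβ y
  rw [this]
  exact integrable_finsetSum _ fun m _ => (ind_int b β m).const_mul _

theorem sum_tail2 (g : ℕ → ℂ) {M1 m : ℕ} (h1 : 1 ≤ M1) (hm : M1 ≤ m) :
    ∑ j ∈ Icc M1 m, g j = ∑ j ∈ Icc 1 m, g j - ∑ j ∈ Icc 1 (M1 - 1), g j := by
  have e : Icc 1 m = Icc 1 (M1 - 1) ∪ Icc M1 m := by
    ext j
    simp only [mem_union, mem_Icc]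
    omega
  rw [e, sum_union]
  · ring
  · rw [Finset.disjoint_left]
    intro j h2 h3
    rw [mem_Icc] at h2 h3
    omega

/-- the normalised sequence -/
noncomputable def nrm (f : ℕ → ℂ) (M1 M2 : ℕ) (m : ℕ) : ℂ :=
  if m ∈ Icc M1 M2 then f m / (Real.log ((M2 : ℝ) + 3) : ℂ) else 0

theorem nrm_le (f : ℕ → ℂ) (hf : ∀ n : ℕ, ‖f n‖ ≤ Real.log (n + 3)) (M1 M2 m : ℕ) : ‖nrm f M1 M2 m‖ ≤ 1 := by
  unfold nrm
  split_ifs with h
  · rw [mem_Icc] at h
    have h3 : 1 ≤ Real.log ((M2 : ℝ) + 3) := by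
      rw [Real.le_log_iff_exp_le (by positivity)]
      have h1 := Real.exp_one_lt_d9
      have h2 : (0 : ℝ) ≤ M2 := Nat.cast_nonneg M2
      linarith
    rw [norm_div, Complex.norm_real, Real.norm_eq_abs, abs_of_pos (by linarith), div_le_one (by linarith)]
    refine (hf m).trans ?_
    have hm : (m : ℝ) ≤ M2 := by exact_mod_cast h.2
    exact Real.log_le_log (by positivity) (by linarith)
  · simp

theorem Bt_nrm (f : ℕ → ℂ) (b β : ℝ) (M1 M2 : ℕ) (y : ℝ) :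
    Bt f b β M1 M2 y = (Real.log ((M2 : ℝ) + 3) : ℂ) * Bt (nrm f M1 M2) b β M1 M2 y := by
  have h3 : 1 ≤ Real.log ((M2 : ℝ) + 3) := by
    rw [Real.le_log_iff_exp_le (by positivity)]
    have h1 := Real.exp_one_lt_d9
    have h2 : (0 : ℝ) ≤ M2 := Nat.cast_nonneg M2
    linarith
  have h4 : (Real.log ((M2 : ℝ) + 3) : ℂ) ≠ 0 := by exact_mod_cast (by linarith : Real.log ((M2 : ℝ) + 3) ≠ 0)
  unfold Bt nrm
  split_ifs with h
  · field_simp
  · simp

theorem four_bound2 (f : ℕ → ℂ) (hf : ∀ n : ℕ, ‖f n‖ ≤ Real.log (n + 3)) (hN : Neg f) {P : ℕ → ℝ} (hP : Gr P)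
    (b β : ℝ) (K K6 : ℕ) : ∃ D : ℝ, 0 ≤ D ∧ ∀ᶠ N : ℕ in atTop, ∀ ξ : ℝ,
      ‖𝓕 (Bt (nrm f (lo2 P b β K N) (hi2 P b β N)) b β (lo2 P b β K N) (hi2 P b β N)) ξ‖ ≤
        D / (Real.log N) ^ K6 := by
  obtain ⟨ε, A, q, D1, hε, hD1, hgeo⟩ := geo2 hP b β K
  set K5 : ℕ := K6 + (q + (q + K6)) with hK5
  set A2 : ℕ := ⌈((A : ℝ) + 1) / ε⌉₊ with hA2
  have hA2' : (A : ℝ) + 1 ≤ ε * A2 := by
    have := Nat.le_ceil (((A : ℝ) + 1) / ε)
    rw [div_le_iff₀ hε] at this
    linarith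
  obtain ⟨C5, hC5⟩ := hN A2 K5
  set C : ℝ := max C5 0 with hC
  have hC0 : 0 ≤ C := le_max_right _ _
  have hC1 : C5 ≤ C := le_max_left _ _
  set D2 : ℝ := 10 + 32 * Real.pi * (1 + |β|) * D1 with hD2
  have hD20 : 0 < D2 := by positivity
  have hD11 : 0 < D1 := hD1
  refine ⟨2 * C * D1 * (10 + 16 * (1 + |β|) * (2 * Real.pi * D1)) / ε ^ K5 + 1, by positivity, ?_⟩
  filter_upwards [hgeo, pw 2 0 hε, pw (2 * Real.pi * Real.exp (b + 2)) K6 one_pos, eventually_ge_atTop 1]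
    with N hg h2 h3 hN1
  obtain ⟨hl, g1, g2, g3, g4, g5, gA, g6, g7⟩ := hg
  set ℓ := Real.log N with hℓ
  set M1 := lo2 P b β K N with hM1
  set M2 := hi2 P b β N with hM2
  set Y : ℝ := (N : ℝ) ^ ε with hY
  rw [pow_zero, mul_one] at h2
  rw [Real.rpow_one] at h3
  have hN0 : (0 : ℝ) < N := by exact_mod_cast hN1
  have hN1r : (1 : ℝ) ≤ N := by exact_mod_cast hN1
  have hY0 : 0 < Y := by linarith
  have hβ0 := abs_nonneg β
  have hM1r : 3 ≤ (M1 : ℝ) := by linarith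
  have hM1n : 3 ≤ M1 := by exact_mod_cast hM1r
  have hM12 : (M1 : ℝ) ≤ M2 := by exact_mod_cast g7
  have hM10 : 0 < (M1 : ℝ) := by linarith
  have hM20 : 0 < (M2 : ℝ) := by linarith
  have hβM : β < M1 := by
    have := Real.exp_pos b
    linarith
  have hlK6 : 1 ≤ ℓ ^ K6 := one_le_pow₀ hl
  have hlq : 1 ≤ ℓ ^ q := one_le_pow₀ hl
  have hℓ0 : 0 < ℓ := by linarith
  have hlM : 1 ≤ Real.log ((M2 : ℝ) + 3) := by
    rw [Real.le_log_iff_exp_le (by positivity)]
    have h1 := Real.exp_one_lt_d9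
    linarith
  intro ξ
  rcases le_or_gt |ξ| (M2 * ℓ ^ K6) with hξ | hξ
  · -- small frequencies
    have hτ : |2 * Real.pi * ξ| ≤ 2 * Real.pi * (M2 * ℓ ^ K6) := by
      rw [abs_mul, abs_of_pos (show (0:ℝ) < 2 * Real.pi by positivity)]
      exact mul_le_mul_of_nonneg_left hξ (by positivity)
    have hτ2 : |2 * Real.pi * ξ| ≤ Y ^ A2 := by
      calc |2 * Real.pi * ξ| ≤ 2 * Real.pi * (M2 * ℓ ^ K6) := hτ
        _ ≤ 2 * Real.pi * ((Real.exp (b + 2) * (N : ℝ) ^ A) * ℓ ^ K6) := by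
            have h5 : (M2 : ℝ) ≤ Real.exp (b + 2) * (N : ℝ) ^ A :=
              g4.trans (mul_le_mul_of_nonneg_left gA (by positivity))
            have := mul_le_mul_of_nonneg_right h5 (by positivity : 0 ≤ ℓ ^ K6)
            exact mul_le_mul_of_nonneg_left this (by positivity)
        _ = (2 * Real.pi * Real.exp (b + 2) * ℓ ^ K6) * (N : ℝ) ^ A := by ring
        _ ≤ N * (N : ℝ) ^ A := mul_le_mul_of_nonneg_right h3 (by positivity)
        _ = (N : ℝ) ^ ((A : ℝ) + 1) := by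
            rw [Real.rpow_add hN0, Real.rpow_natCast, Real.rpow_one, mul_comm]
        _ ≤ (N : ℝ) ^ (ε * A2) := Real.rpow_le_rpow_of_exponent_le hN1r hA2'
        _ = Y ^ A2 := by rw [Real.rpow_mul hN0.le, Real.rpow_natCast]
    have hlogY : ε * ℓ = Real.log Y := by rw [hY, Real.log_rpow hN0]
    -- partial sums
    have hA : ∀ m : ℕ, Y ≤ m → m ≤ M2 →
        ‖∑ j ∈ Icc 1 m, f j * er (-(2 * Real.pi * ξ)) (Real.log j)‖ ≤ C * M2 / (ε * ℓ) ^ K5 := by
      intro m hm hm2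
      have hm0 : (0 : ℝ) < m := by linarith
      have h4m : 2 ≤ m := by
        have : (2 : ℝ) ≤ m := by linarith
        exact_mod_cast this
      have h5 := hC5 m (-(2 * Real.pi * ξ)) h4m (by
        rw [abs_neg]
        exact hτ2.trans (pow_le_pow_left₀ hY0.le hm A2))
      refine h5.trans ?_
      have h6 : ε * ℓ ≤ Real.log m := by
        rw [hlogY]
        exact Real.log_le_log (by positivity) hm
      have h7 : (ε * ℓ) ^ K5 ≤ (Real.log m) ^ K5 := pow_le_pow_left₀ (by positivity) h6 K5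
      have hm2r : (m : ℝ) ≤ M2 := by exact_mod_cast hm2
      have h8 : 0 < (ε * ℓ) ^ K5 := by positivity
      calc C5 * m / (Real.log m) ^ K5 ≤ C * M2 / (Real.log m) ^ K5 := by
            refine div_le_div_of_nonneg_right ?_ (by positivity)
            exact mul_le_mul hC1 hm2r hm0.le hC0
        _ ≤ C * M2 / (ε * ℓ) ^ K5 := div_le_div_of_nonneg_left (by positivity) h8 h7
    have hW : ∀ m, M1 ≤ m → m ≤ M2 →
        ‖∑ j ∈ Icc M1 m, nrm f M1 M2 j * er (-(2 * Real.pi * ξ)) (Real.log j)‖ ≤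
          2 * (C * M2 / (ε * ℓ) ^ K5) := by
      intro m hm1 hm2
      have e1 : ∑ j ∈ Icc M1 m, nrm f M1 M2 j * er (-(2 * Real.pi * ξ)) (Real.log j) =
          (1 / (Real.log ((M2 : ℝ) + 3) : ℂ)) *
            ∑ j ∈ Icc M1 m, f j * er (-(2 * Real.pi * ξ)) (Real.log j) := by
        rw [mul_sum]
        refine sum_congr rfl fun j hj => ?_
        rw [mem_Icc] at hj
        unfold nrm
        rw [if_pos (mem_Icc.2 ⟨hj.1, hj.2.trans hm2⟩)]
        ring
      rw [e1, norm_mul, norm_div, norm_one, Complex.norm_real, Real.norm_eq_abs, abs_of_pos (by linarith)]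
      have h9 : 1 / Real.log ((M2 : ℝ) + 3) ≤ 1 := by
        rw [div_le_one (by linarith)]
        exact hlM
      refine (mul_le_of_le_one_left (norm_nonneg _) h9).trans ?_
      rw [sum_tail2 _ (by omega) hm1]
      refine (norm_sub_le _ _).trans ?_
      have hm1r : (M1 : ℝ) ≤ m := by exact_mod_cast hm1
      have h5 := hA m (by linarith) hm2
      have h6 := hA (M1 - 1) (by
        rw [Nat.cast_sub (by omega)]
        push_cast
        linarith) (by omega)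
      linarith
    refine (four_small _ g7 g1 ξ _ hW).trans ?_
    -- bookkeeping
    have hr : (M2 : ℝ) / M1 ≤ D1 * ℓ ^ q := by
      rw [div_le_iff₀ hM10]
      exact g6
    have hr0 : 0 ≤ (M2 : ℝ) / M1 := by positivity
    have hx : |2 * Real.pi * ξ| / M1 ≤ 2 * Real.pi * (D1 * ℓ ^ q) * ℓ ^ K6 := by
      calc |2 * Real.pi * ξ| / M1 ≤ (2 * Real.pi * (M2 * ℓ ^ K6)) / M1 :=
            div_le_div_of_nonneg_right hτ hM10.le
        _ = 2 * Real.pi * ((M2 : ℝ) / M1) * ℓ ^ K6 := by ring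
        _ ≤ _ := by gcongr
    have e1 : 2 * (C * M2 / (ε * ℓ) ^ K5) *
        (2 / M1 + (8 * (1 + |β|) * |2 * Real.pi * ξ| / M1 + 4) * (2 / M1)) =
        2 * C / (ε * ℓ) ^ K5 * ((M2 : ℝ) / M1) *
          (10 + 16 * (1 + |β|) * (|2 * Real.pi * ξ| / M1)) := by
      ring
    rw [e1]
    have h10 : 10 + 16 * (1 + |β|) * (|2 * Real.pi * ξ| / M1) ≤
        (10 + 16 * (1 + |β|) * (2 * Real.pi * D1)) * (ℓ ^ q * ℓ ^ K6) := by
      have h11 : 1 ≤ ℓ ^ q * ℓ ^ K6 := by nlinarith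
      calc _ ≤ 10 * (ℓ ^ q * ℓ ^ K6) +
            16 * (1 + |β|) * (2 * Real.pi * (D1 * ℓ ^ q) * ℓ ^ K6) := by
            gcongr
            linarith
        _ = _ := by ring
    calc 2 * C / (ε * ℓ) ^ K5 * ((M2 : ℝ) / M1) *
          (10 + 16 * (1 + |β|) * (|2 * Real.pi * ξ| / M1))
        ≤ 2 * C / (ε * ℓ) ^ K5 * (D1 * ℓ ^ q) *
          ((10 + 16 * (1 + |β|) * (2 * Real.pi * D1)) * (ℓ ^ q * ℓ ^ K6)) := by
          gcongr
      _ = 2 * C * D1 * (10 + 16 * (1 + |β|) * (2 * Real.pi * D1)) / ε ^ K5 / ℓ ^ K6 := by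
          rw [mul_pow, hK5, pow_add ℓ, pow_add ℓ, pow_add ℓ]
          field_simp
      _ ≤ _ := by
          refine div_le_div_of_nonneg_right ?_ (by positivity)
          linarith
  · -- large frequencies
    have h0 : (M2 : ℝ) ≤ M2 * ℓ ^ K6 := by nlinarith
    have h1 : 1 / 2 ≤ |ξ| := by linarith
    have h4 := four_decay (Bt_int2 (nrm f M1 M2) (b := b) (β := β) (M1 := M1) (M2 := M2) (by omega) hβM)
      (V := 2 * M2) (fun s hs _ => Bt_mod _ (nrm_le f hf M1 M2) (by omega) hβM s hs) h1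
    refine h4.trans ?_
    have hξ0 : 0 < |ξ| := by linarith
    calc (2 * (M2 : ℝ)) / (4 * |ξ|) ≤ (2 * (M2 : ℝ)) / (4 * (M2 * ℓ ^ K6)) := by
          refine div_le_div_of_nonneg_left (by positivity) (by positivity) ?_
          linarith
      _ = (1 / 2) / ℓ ^ K6 := by
          field_simp
          norm_num
      _ ≤ _ := by
          refine div_le_div_of_nonneg_right ?_ (by positivity)
          have : 0 ≤ 2 * C * D1 * (10 + 16 * (1 + |β|) * (2 * Real.pi * D1)) / ε ^ K5 := by positivity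
          linarith

end Pool.Agent.Q138.GS
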