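import Mathlib

set_option autoImplicit false

/-!
# Duality: the mean square of `∑ d n ψ n` from a bound for `∫ |∑ ψ n x conj (ψ n y)|`
-/

namespace Pool.Agent.Q138.GS

open Finset MeasureTheory Filter
open scoped ComplexConjugate

theorem bdd_int {X : Type*} [MeasurableSpace X] (ν : Measure X) [IsFiniteMeasure ν] {F : X → ℂ}
    (hF : Measurable F) {C : ℝ} (hC : ∀ x, ‖F x‖ ≤ C) : Integrable F ν :=
  Integrable.of_bound hF.aestronglyMeasurable C (Eventually.of_forall hC)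

theorem bdd_intR {X : Type*} [MeasurableSpace X] (ν : Measure X) [IsFiniteMeasure ν] {F : X → ℝ}
    (hF : Measurable F) {C : ℝ} (hC : ∀ x, ‖F x‖ ≤ C) : Integrable F ν :=
  Integrable.of_bound hF.aestronglyMeasurable C (Eventually.of_forall hC)

/-- the kernel -/
noncomputable def Kr {X : Type*} (S : Finset ℕ) (ψ : ℕ → X → ℂ) (x y : X) : ℂ :=
  ∑ n ∈ S, ψ n x * conj (ψ n y)

theorem ttstar {X : Type*} [MeasurableSpace X] (ν : Measure X) [IsFiniteMeasure ν] (S : Finset ℕ)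
    (ψ : ℕ → X → ℂ) (hψm : ∀ n, Measurable (ψ n)) (hψ : ∀ n x, ‖ψ n x‖ ≤ 1) (d : ℕ → ℂ) (M : ℝ) (hM0 : 0 ≤ M)
    (hM : ∀ᵐ x ∂ν, ∫ y, ‖Kr S ψ x y‖ ∂ν ≤ M) :
    ∫ x, ‖∑ n ∈ S, d n * ψ n x‖ ^ 2 ∂ν ≤ (∑ n ∈ S, ‖d n‖ ^ 2) * M := by
  set D : X → ℂ := fun x => ∑ n ∈ S, d n * ψ n x with hD
  have hDm : Measurable D := Finset.measurable_fun_sum _ fun n _ => (hψm n).const_mul _
  set BD : ℝ := ∑ n ∈ S, ‖d n‖ with hBD
  have hBD0 : 0 ≤ BD := sum_nonneg fun _ _ => norm_nonneg _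
  have hDb : ∀ x, ‖D x‖ ≤ BD := by
    intro x
    refine (norm_sum_le _ _).trans (sum_le_sum fun n _ => ?_)
    rw [norm_mul]
    exact mul_le_of_le_one_right (norm_nonneg _) (hψ n x)
  set SC : ℝ := (S.card : ℝ) with hSC
  have hKb : ∀ x y, ‖Kr S ψ x y‖ ≤ SC := by
    intro x y
    unfold Kr
    refine (norm_sum_le _ _).trans ?_
    calc ∑ n ∈ S, ‖ψ n x * conj (ψ n y)‖ ≤ ∑ n ∈ S, (1 : ℝ) := by
          refine sum_le_sum fun n _ => ?_
          rw [norm_mul, RCLike.norm_conj]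
          exact mul_le_one₀ (hψ n x) (norm_nonneg _) (hψ n y)
      _ = SC := by simp [hSC]
  have hKm : Measurable (Function.uncurry (Kr S ψ)) := by
    unfold Kr Function.uncurry
    refine Finset.measurable_fun_sum _ fun n _ => ?_
    exact ((hψm n).comp measurable_fst).mul
      (Complex.continuous_conj.measurable.comp ((hψm n).comp measurable_snd))
  have hKsym : ∀ x y, ‖Kr S ψ x y‖ = ‖Kr S ψ y x‖ := by
    intro x y
    have : Kr S ψ x y = conj (Kr S ψ y x) := by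
      unfold Kr
      rw [map_sum]
      refine sum_congr rfl fun n _ => ?_
      rw [map_mul, Complex.conj_conj, mul_comm]
    rw [this, RCLike.norm_conj]
  set I : ℝ := ∫ x, ‖D x‖ ^ 2 ∂ν with hI
  have hI0 : 0 ≤ I := integral_nonneg fun x => by positivity
  set h : ℕ → ℂ := fun n => ∫ x, ψ n x * conj (D x) ∂ν with hh
  have hcD : Measurable fun x => conj (D x) := Complex.continuous_conj.measurable.comp hDm
  have hint : ∀ n, Integrable (fun x => ψ n x * conj (D x)) ν := fun n =>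
    bdd_int ν ((hψm n).mul hcD) (C := BD) fun x => by
      rw [norm_mul, RCLike.norm_conj]
      exact (mul_le_of_le_one_left (norm_nonneg _) (hψ n x)).trans (hDb x)
  -- first identity
  have e1 : (I : ℂ) = ∑ n ∈ S, d n * h n := by
    rw [hI, ← integral_complex_ofReal]
    have e2 : ∀ x, ((‖D x‖ ^ 2 : ℝ) : ℂ) = ∑ n ∈ S, d n * (ψ n x * conj (D x)) := by
      intro x
      rw [Complex.ofReal_pow, ← Complex.mul_conj']
      conv_lhs => rw [hD]
      simp only
      rw [sum_mul]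
      refine sum_congr rfl fun n _ => ?_
      ring
    simp only [e2]
    rw [integral_finsetSum _ fun n _ => (hint n).const_mul _]
    refine sum_congr rfl fun n _ => ?_
    rw [integral_const_mul]
  -- Cauchy's inequality
  have e3 : I ^ 2 ≤ (∑ n ∈ S, ‖d n‖ ^ 2) * ∑ n ∈ S, ‖h n‖ ^ 2 := by
    have h1 : I ≤ ∑ n ∈ S, ‖d n‖ * ‖h n‖ := by
      calc I = ‖(I : ℂ)‖ := by rw [Complex.norm_real, Real.norm_eq_abs, abs_of_nonneg hI0]
        _ = ‖∑ n ∈ S, d n * h n‖ := by rw [e1]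
        _ ≤ _ := (norm_sum_le _ _).trans (le_of_eq (sum_congr rfl fun n _ => norm_mul _ _))
    calc I ^ 2 ≤ (∑ n ∈ S, ‖d n‖ * ‖h n‖) ^ 2 := pow_le_pow_left₀ hI0 h1 2
      _ ≤ _ := Finset.sum_mul_sq_le_sq_mul_sq _ _ _
  -- second identity
  have e4 : ((∑ n ∈ S, ‖h n‖ ^ 2 : ℝ) : ℂ) = ∫ x, ∫ y, Kr S ψ x y * (conj (D x) * D y) ∂ν ∂ν := by
    have e5 : ∀ n, ((‖h n‖ ^ 2 : ℝ) : ℂ) = ∫ x, ∫ y, (ψ n x * conj (D x)) * conj (ψ n y * conj (D y)) ∂ν ∂ν := by
      intro n
      rw [Complex.ofReal_pow, ← Complex.mul_conj', hh]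
      simp only
      rw [← integral_conj, ← integral_mul_const]
      refine integral_congr_ae (Eventually.of_forall fun x => ?_)
      simp only
      rw [← integral_const_mul]
    rw [Complex.ofReal_sum]
    simp only [e5]
    rw [← integral_finsetSum]
    · refine integral_congr_ae (Eventually.of_forall fun x => ?_)
      simp only
      rw [← integral_finsetSum]
      · refine integral_congr_ae (Eventually.of_forall fun y => ?_)
        simp only
        unfold Kr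
        rw [sum_mul]
        refine sum_congr rfl fun n _ => ?_
        rw [map_mul, Complex.conj_conj]
        ring
      · intro n _
        refine Integrable.const_mul ?_ _
        refine bdd_int ν (Complex.continuous_conj.measurable.comp ((hψm n).mul hcD)) (C := BD) fun y => ?_
        rw [RCLike.norm_conj, norm_mul, RCLike.norm_conj]
        exact (mul_le_of_le_one_left (norm_nonneg _) (hψ n y)).trans (hDb y)
    · intro n _
      have e6 : (fun x => ∫ y, (ψ n x * conj (D x)) * conj (ψ n y * conj (D y)) ∂ν) =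
          fun x => (ψ n x * conj (D x)) * ∫ y, conj (ψ n y * conj (D y)) ∂ν := by
        funext x
        rw [integral_const_mul]
      rw [e6]
      exact (hint n).mul_const _
  -- the double integral
  set Q : X → X → ℝ := fun x y => ‖Kr S ψ x y‖ * ‖D x‖ ^ 2 with hQ
  have hKn : Measurable fun p : X × X => ‖Kr S ψ p.1 p.2‖ := hKm.norm
  have hKx : ∀ x, Measurable fun y => Kr S ψ x y := fun x => hKm.comp (measurable_const.prodMk measurable_id)
  have hKy : ∀ y, Measurable fun x => Kr S ψ x y := fun y => hKm.comp (measurable_id.prodMk measurable_const)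
  have hJ : ∀ x, Integrable (fun y => ‖Kr S ψ x y‖) ν := fun x =>
    bdd_intR ν (hKx x).norm (C := SC) fun y => by
      rw [norm_norm]
      exact hKb x y
  have hQi : Integrable (fun p : X × X => ‖Kr S ψ p.1 p.2‖ * ‖D p.1‖ ^ 2) (ν.prod ν) :=
    bdd_intR _ (hKn.mul ((hDm.comp measurable_fst).norm.pow_const 2)) (C := SC * BD ^ 2) fun p => by
      rw [Real.norm_eq_abs, abs_of_nonneg (by positivity)]
      exact mul_le_mul (hKb _ _) (pow_le_pow_left₀ (norm_nonneg _) (hDb _) 2) (by positivity)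
        (by simp [hSC])
  have hQi2 : Integrable (fun p : X × X => ‖Kr S ψ p.1 p.2‖ * ‖D p.2‖ ^ 2) (ν.prod ν) :=
    bdd_intR _ (hKn.mul ((hDm.comp measurable_snd).norm.pow_const 2)) (C := SC * BD ^ 2) fun p => by
      rw [Real.norm_eq_abs, abs_of_nonneg (by positivity)]
      exact mul_le_mul (hKb _ _) (pow_le_pow_left₀ (norm_nonneg _) (hDb _) 2) (by positivity)
        (by simp [hSC])
  have hA : ∫ p : X × X, ‖Kr S ψ p.1 p.2‖ * ‖D p.1‖ ^ 2 ∂(ν.prod ν) ≤ M * I := by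
    rw [integral_prod _ hQi]
    simp only
    have e7 : ∀ x, ∫ y, ‖Kr S ψ x y‖ * ‖D x‖ ^ 2 ∂ν = (∫ y, ‖Kr S ψ x y‖ ∂ν) * ‖D x‖ ^ 2 := fun x =>
      integral_mul_const _ _
    simp only [e7]
    rw [hI, ← integral_const_mul]
    refine integral_mono_ae ?_ ?_ ?_
    · have := hQi.integral_prod_left
      simp only [e7] at this
      exact this
    · refine Integrable.const_mul ?_ _
      exact bdd_intR ν (hDm.norm.pow_const 2) (C := BD ^ 2) fun x => by
        rw [Real.norm_eq_abs, abs_of_nonneg (by positivity)]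
        exact pow_le_pow_left₀ (norm_nonneg _) (hDb x) 2
    · filter_upwards [hM] with x hx
      exact mul_le_mul_of_nonneg_right hx (by positivity)
  have hB : ∫ p : X × X, ‖Kr S ψ p.1 p.2‖ * ‖D p.2‖ ^ 2 ∂(ν.prod ν) =
      ∫ p : X × X, ‖Kr S ψ p.1 p.2‖ * ‖D p.1‖ ^ 2 ∂(ν.prod ν) := by
    rw [← integral_prod_swap]
    refine integral_congr_ae (Eventually.of_forall fun p => ?_)
    simp only [Prod.fst_swap, Prod.snd_swap]
    rw [hKsym]
  have e8 : ∑ n ∈ S, ‖h n‖ ^ 2 ≤ M * I := by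
    have h1 : ∑ n ∈ S, ‖h n‖ ^ 2 = ‖((∑ n ∈ S, ‖h n‖ ^ 2 : ℝ) : ℂ)‖ := by
      rw [Complex.norm_real, Real.norm_eq_abs, abs_of_nonneg (sum_nonneg fun _ _ => by positivity)]
    have hPi : Integrable (fun p : X × X => Kr S ψ p.1 p.2 * (conj (D p.1) * D p.2)) (ν.prod ν) :=
      bdd_int _ (hKm.mul ((hcD.comp measurable_fst).mul (hDm.comp measurable_snd))) (C := SC * (BD * BD))
        fun p => by
          rw [norm_mul, norm_mul, RCLike.norm_conj]
          exact mul_le_mul (hKb _ _) (mul_le_mul (hDb _) (hDb _) (norm_nonneg _) hBD0) (by positivity)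
            (by simp [hSC])
    rw [h1, e4]
    have h2 : ∫ x, ∫ y, Kr S ψ x y * (conj (D x) * D y) ∂ν ∂ν =
        ∫ p : X × X, Kr S ψ p.1 p.2 * (conj (D p.1) * D p.2) ∂(ν.prod ν) := (integral_prod _ hPi).symm
    rw [h2]
    calc ‖∫ p : X × X, Kr S ψ p.1 p.2 * (conj (D p.1) * D p.2) ∂(ν.prod ν)‖
        ≤ ∫ p : X × X, ‖Kr S ψ p.1 p.2 * (conj (D p.1) * D p.2)‖ ∂(ν.prod ν) :=
          norm_integral_le_integral_norm _
      _ ≤ ∫ p : X × X, ((1 / 2) * (‖Kr S ψ p.1 p.2‖ * ‖D p.1‖ ^ 2) +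
            (1 / 2) * (‖Kr S ψ p.1 p.2‖ * ‖D p.2‖ ^ 2)) ∂(ν.prod ν) := by
          refine integral_mono hPi.norm ((hQi.const_mul _).add (hQi2.const_mul _)) fun p => ?_
          simp only
          rw [norm_mul, norm_mul, RCLike.norm_conj]
          have hk := norm_nonneg (Kr S ψ p.1 p.2)
          nlinarith [mul_nonneg hk (sq_nonneg (‖D p.1‖ - ‖D p.2‖))]
      _ = (1 / 2) * (∫ p : X × X, ‖Kr S ψ p.1 p.2‖ * ‖D p.1‖ ^ 2 ∂(ν.prod ν)) +
            (1 / 2) * ∫ p : X × X, ‖Kr S ψ p.1 p.2‖ * ‖D p.2‖ ^ 2 ∂(ν.prod ν) := by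
          rw [integral_add (hQi.const_mul _) (hQi2.const_mul _), integral_const_mul, integral_const_mul]
      _ ≤ M * I := by
          rw [hB]
          linarith
  -- conclusion
  have hd0 : 0 ≤ ∑ n ∈ S, ‖d n‖ ^ 2 := sum_nonneg fun _ _ => by positivity
  rcases hI0.eq_or_lt with h0 | h0
  · rw [← h0]
    positivity
  · have h1 : I * I ≤ ((∑ n ∈ S, ‖d n‖ ^ 2) * M) * I := by
      calc I * I = I ^ 2 := (sq I).symm
        _ ≤ (∑ n ∈ S, ‖d n‖ ^ 2) * (M * I) := e3.trans (mul_le_mul_of_nonneg_left e8 hd0)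
        _ = _ := by ring
    exact le_of_mul_le_mul_right h1 h0

end Pool.Agent.Q138.GS
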