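import Pool.Agent.Q138.GS.Cnt

set_option autoImplicit false

/-!
# Tuples of prime values for almost every tuple of dilations
-/

namespace Pool.Agent.Q138.GS

open Finset Filter Topology MeasureTheory
open scoped Classical
open Pool.Agent.Y957.VK

/-- the measure on the tuples of positive real numbers -/
noncomputable def pm (k : ℕ) : Measure (Fin k → ℝ) :=
  (volume : Measure (Fin k → ℝ)).restrict {α | ∀ i, 0 < α i}

theorem pos_meas (k : ℕ) : MeasurableSet {α : Fin k → ℝ | ∀ i, 0 < α i} := by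
  have e : {α : Fin k → ℝ | ∀ i, 0 < α i} = Set.pi Set.univ (fun _ => Set.Ioi (0 : ℝ)) := by
    ext α
    simp
  rw [e]
  exact MeasurableSet.univ_pi fun _ => measurableSet_Ioi

theorem pm_pos (k : ℕ) : ∀ᵐ α ∂(pm k), ∀ i, 0 < α i := ae_restrict_mem (pos_meas k)

theorem th_eq (n : ℕ) : th n = 1 + thw n := by
  unfold thw
  ring

/-- weighted form -/
theorem tup_sav (k : ℕ) (c : Fin (k + 1) → ℝ) (P : Fin (k + 1) → ℕ → ℝ) (hP : ∀ i, Sm (c i) (P i))
    (β : Fin (k + 1) → ℝ) (g : ℕ → ℂ) (C0 : ℝ) (B : ℕ)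
    (hg : ∀ n : ℕ, 1 ≤ n → ‖g n‖ ≤ C0 * (Real.log (n + 3)) ^ B) :
    ∀ᵐ α ∂(pm (k + 1)), Sav fun n => g n * (∏ i, th ⌊α i * P i n + β i⌋₊ - 1) := by
  choose A' C1 hC1 hbd using fun i => (hP i).bd
  have h := prod_sav k (fun _ => th) (fun _ => thw) (fun _ => 1) (fun _ n => th_eq n) (fun _ n => th_le n)
    (fun _ n => thw_le n) P A' C1 hbd β (fun i => (hP i).un thw thw_le neg_thw (β i)) g C0 B hg
  have e : (fun _ : Fin (k + 1) => (1 : ℂ)) = 1 := rfl
  simp only [prod_const_one] at h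
  exact h

/-- from the weighted form to the counting function -/
theorem cnt_of_sav {ι : Type*} [Fintype ι] (m : ι → ℕ → ℕ) (c : ι → ℝ) (hc : ∀ i, 0 < c i)
    (hm : ∀ i, Tendsto (fun n : ℕ => Real.log (m i n : ℕ) / Real.log n) atTop (𝓝 (c i)))
    (S : ℕ → Prop) (B : ℕ) (hS : ∀ᶠ N : ℕ in atTop, (N : ℝ) / (Real.log N) ^ B ≤ ct S N)
    (h : Sav fun n => (if S n then (1 : ℂ) else 0) * (∏ i, th (m i n) - 1)) :
    Tendsto (fun N : ℕ => ct (fun n => S n ∧ ∀ i, (m i n).Prime) N * (Real.log N) ^ (Fintype.card ι) / ct S N)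
      atTop (𝓝 (1 / ∏ i, c i)) := by
  refine cnt_core S _ (fun n => ∏ i, Real.log (m i n : ℕ)) (fun n => prod_nonneg fun i _ =>
    Real.log_natCast_nonneg _) (Fintype.card ι) B (∏ i, c i) (prod_pos fun i _ => hc i) ?_ hS ?_
  · have h1 := tendsto_finsetProd (M := ℝ) univ fun i _ => hm i
    refine h1.congr fun n => ?_
    rw [prod_div_distrib, prod_const, card_univ]
  · refine (h B).congr fun N => ?_
    congr 1
    have e : ∑ n ∈ Icc 1 N, (if S n then (1 : ℂ) else 0) * (∏ i, th (m i n) - 1) =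
        ((∑ n ∈ (Icc 1 N).filter (fun n => S n ∧ ∀ i, (m i n).Prime), ∏ i, Real.log (m i n : ℕ) - ct S N : ℝ) : ℂ) := by
      rw [sum_filter]
      unfold ct
      rw [card_filter]
      push_cast
      rw [← sum_sub_distrib]
      refine sum_congr rfl fun n _ => ?_
      by_cases hs : S n
      · by_cases hp : ∀ i, (m i n).Prime
        · have e3 : ∏ i, th (m i n) = ∏ i, ((Real.log (m i n : ℕ) : ℝ) : ℂ) := by
            refine prod_congr rfl fun i _ => ?_
            unfold th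
            rw [if_pos (hp i)]
          rw [if_pos hs, if_pos ⟨hs, hp⟩, if_pos hs, one_mul, e3]
          push_cast
          rfl
        · have e3 : ∏ i, th (m i n) = 0 := by
            rw [not_forall] at hp
            obtain ⟨i, hi⟩ := hp
            refine prod_eq_zero (mem_univ i) ?_
            unfold th
            rw [if_neg hi]
          rw [if_pos hs, if_neg (fun h => hp h.2), if_pos hs, one_mul, e3]
          simp
      · rw [if_neg hs, if_neg (fun h => hs h.1), if_neg hs]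
        ring
    rw [e, Complex.norm_real, Real.norm_eq_abs]
    convert rfl

/-- **counting form** -/
theorem tup_count (k : ℕ) (c : Fin (k + 1) → ℝ) (P : Fin (k + 1) → ℕ → ℝ) (hP : ∀ i, Sm (c i) (P i))
    (β : Fin (k + 1) → ℝ) (S : ℕ → Prop) (B : ℕ)
    (hS : ∀ᶠ N : ℕ in atTop, (N : ℝ) / (Real.log N) ^ B ≤ ct S N) :
    ∀ᵐ α ∂(pm (k + 1)), Tendsto (fun N : ℕ => ct (fun n => S n ∧ ∀ i, (⌊α i * P i n + β i⌋₊).Prime) N *
      (Real.log N) ^ (k + 1) / ct S N) atTop (𝓝 (1 / ∏ i, c i)) := by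
  have h1 := tup_sav k c P hP β (fun n => if S n then 1 else 0) 1 0 (fun n _ => by
    split_ifs <;> simp)
  filter_upwards [h1, pm_pos (k + 1)] with α hα hpos
  have := cnt_of_sav (fun i n => ⌊α i * P i n + β i⌋₊) c (fun i => (hP i).1) (fun i => (hP i).log (hpos i)) S B hS hα
  rwa [Fintype.card_fin] at this

end Pool.Agent.Q138.GS
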