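import Pool.Agent.Q138.GS.Lio

set_option autoImplicit false

/-!
# Uniformity in families: from the mean square to almost every parameter
-/

namespace Pool.Agent.Q138.GS

open Finset Filter Topology MeasureTheory
open scoped ENNReal
open Pool.Agent.Y957.VK

theorem log_pow_small (κ : ℕ) {ε : ℝ} (hε : 0 < ε) : ∀ᶠ N : ℕ in atTop, Real.log (N : ℝ) ^ κ ≤ ε * (N : ℝ) := by
  have h1 := (Real.isLittleO_pow_log_id_atTop (n := κ)).bound hε
  have h2 := tendsto_natCast_atTop_atTop.eventually h1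
  filter_upwards [h2] with N hN
  rw [id, Real.norm_of_nonneg (Nat.cast_nonneg N)] at hN
  exact (le_abs_self _).trans hN

/-- the deterministic lemma -/
theorem detF {ι : Type*} (Hs : ℕ → Finset ι) (hmono : ∀ N M, N ≤ M → Hs N ⊆ Hs M) (S : ι → ℕ → ℂ) (C0 : ℝ) (B' : ℕ)
    (hS : ∀ N, ∀ h ∈ Hs N, ‖S h (N + 1) - S h N‖ ≤ C0 * (Real.log (N + 3)) ^ B')
    (hK : ∀ K : ℕ, Summable fun N : ℕ => Real.log N ^ K / (N : ℝ) ^ 3 * ∑ h ∈ Hs N, ‖S h N‖ ^ 2) (k : ℕ) :
    ∀ᶠ N : ℕ in atTop, ∀ h ∈ Hs N, ‖S h N‖ ≤ N / (Real.log N) ^ k := by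
  have hlogt : Tendsto (fun N : ℕ => Real.log (N : ℝ)) atTop atTop :=
    Real.tendsto_log_atTop.comp tendsto_natCast_atTop_atTop
  set C1 : ℝ := max C0 1 with hC1
  have hC1p : 1 ≤ C1 := le_max_right _ _
  set K0 : ℕ := 3 * k + B' + 1 with hK0
  have hsum := hK K0
  have e1 : ∀ᶠ N : ℕ in atTop, ∑' M : ℕ, (Real.log ((M + N : ℕ) : ℝ) ^ K0 /
      ((M + N : ℕ) : ℝ) ^ 3 * ∑ h ∈ Hs (M + N), ‖S h (M + N)‖ ^ 2) < 1 :=
    (tendsto_sum_nat_add fun N : ℕ => Real.log N ^ K0 / (N : ℝ) ^ 3 * ∑ h ∈ Hs N, ‖S h N‖ ^ 2).eventually_lt_const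
      one_pos
  set c3 : ℝ := 2 ^ B' * C1 with hc3
  have hc3p : 0 < c3 := by positivity
  have e2 := log_pow_small (k + B') (show (0 : ℝ) < 1 / (4 * c3) by positivity)
  have e3 : ∀ᶠ N : ℕ in atTop, max 3 (256 * c3) ≤ Real.log (N : ℝ) := hlogt.eventually_ge_atTop _
  filter_upwards [e1, e2, e3, eventually_ge_atTop 5] with N h1 h2 h3 h4 h hh
  by_contra hcon
  push Not at hcon
  obtain ⟨l, hl⟩ : ∃ l, l = Real.log (N : ℝ) := ⟨_, rfl⟩
  rw [← hl] at h2 h3 hcon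
  have hl3 : 3 ≤ l := (le_max_left _ _).trans h3
  have hlc : 256 * c3 ≤ l := (le_max_right _ _).trans h3
  have hN5 : (5 : ℝ) ≤ N := by exact_mod_cast h4
  have hN1 : (1 : ℝ) ≤ N := by linarith
  have hl0 : 0 < l := by linarith
  -- the size of a step
  set D : ℝ := c3 * l ^ B' with hD
  have hDp : 0 < D := by positivity
  have hstep : ∀ j : ℕ, j ≤ N → ‖S h (N + j) - S h N‖ ≤ j * D := by
    intro j
    induction j with
    | zero => simp
    | succ j ih =>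
      intro hj
      have h5 := ih (by omega)
      have h6 : ‖S h (N + j + 1) - S h (N + j)‖ ≤ D := by
        refine (hS (N + j) h (hmono _ _ (by omega) hh)).trans ?_
        have h7 : Real.log (((N + j : ℕ) : ℝ) + 3) ≤ 2 * l := by
          have h8 : ((N + j : ℕ) : ℝ) + 3 ≤ (N : ℝ) ^ 2 := by
            have h9 : (j : ℝ) + 1 ≤ N := by exact_mod_cast hj
            push_cast
            nlinarith
          have h10 := Real.log_le_log (by positivity) h8
          rw [Real.log_pow] at h10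
          rw [hl]
          exact_mod_cast h10
        have h11 : 0 ≤ Real.log (((N + j : ℕ) : ℝ) + 3) := by
          have := lg3 (N + j)
          linarith
        calc C0 * (Real.log (((N + j : ℕ) : ℝ) + 3)) ^ B' ≤ C1 * (Real.log (((N + j : ℕ) : ℝ) + 3)) ^ B' :=
              mul_le_mul_of_nonneg_right (le_max_left _ _) (by positivity)
          _ ≤ C1 * (2 * l) ^ B' := by gcongr
          _ = D := by
              rw [hD, hc3, mul_pow]
              ring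
      have h7 : S h (N + (j + 1)) - S h N = (S h (N + j + 1) - S h (N + j)) + (S h (N + j) - S h N) := by
        rw [← add_assoc]
        ring
      rw [h7]
      refine (norm_add_le _ _).trans ?_
      push_cast
      linarith
  obtain ⟨Y, hY⟩ : ∃ Y : ℝ, Y = N / (2 * l ^ k) := ⟨_, rfl⟩
  have hYp : 0 < Y := by
    rw [hY]
    positivity
  have h2Y : 2 * Y = N / l ^ k := by
    rw [hY]
    field_simp
  rw [← h2Y] at hcon
  have hYD1 : 1 ≤ Y / D := by
    rw [le_div_iff₀ hDp, one_mul, hD, hY, le_div_iff₀ (by positivity)]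
    have h5 : l ^ (k + B') * (4 * c3) ≤ N := by
      have := mul_le_mul_of_nonneg_right h2 (show (0 : ℝ) ≤ 4 * c3 by positivity)
      have e : 1 / (4 * c3) * (N : ℝ) * (4 * c3) = N := by field_simp
      rwa [e] at this
    calc c3 * l ^ B' * (2 * l ^ k) = (l ^ (k + B') * (2 * c3)) := by
          rw [pow_add]
          ring
      _ ≤ l ^ (k + B') * (4 * c3) := by
          refine mul_le_mul_of_nonneg_left (by linarith) (by positivity)
      _ ≤ N := h5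
  obtain ⟨H, hH⟩ : ∃ H : ℕ, H = ⌊Y / D⌋₊ := ⟨_, rfl⟩
  have hH1 : (H : ℝ) ≤ Y / D := by
    rw [hH]
    exact Nat.floor_le (by linarith)
  have hH2 : Y / D / 2 ≤ H := by
    have h5 : Y / D < H + 1 := by
      rw [hH]
      exact Nat.lt_floor_add_one _
    have h6 : (1 : ℝ) ≤ H := by
      have : 1 ≤ H := by
        rw [hH]
        exact Nat.le_floor (by simpa using hYD1)
      exact_mod_cast this
    linarith
  have hD1 : 1 ≤ D := by
    rw [hD, hc3]
    have h5 : (1 : ℝ) ≤ 2 ^ B' := one_le_pow₀ (by norm_num)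
    have h6 : (1 : ℝ) ≤ l ^ B' := one_le_pow₀ (by linarith)
    nlinarith [mul_le_mul h5 hC1p (by norm_num) (by positivity)]
  have hHN : H ≤ N := by
    have h5 : (H : ℝ) ≤ N := by
      refine hH1.trans ((div_le_self hYp.le hD1).trans ?_)
      rw [hY]
      refine div_le_self (by linarith) ?_
      have h6 : (1 : ℝ) ≤ l ^ k := one_le_pow₀ (by linarith)
      linarith
    exact_mod_cast h5
  have hterm : ∀ j ∈ Finset.range H, l ^ K0 / (8 * (N : ℝ) ^ 3) * Y ^ 2 ≤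
      Real.log ((j + N : ℕ) : ℝ) ^ K0 / ((j + N : ℕ) : ℝ) ^ 3 * ∑ h ∈ Hs (j + N), ‖S h (j + N)‖ ^ 2 := by
    intro j hj
    have hjH : (j : ℝ) ≤ H := by exact_mod_cast (Finset.mem_range.1 hj).le
    have hjN : j ≤ N := (Finset.mem_range.1 hj).le.trans hHN
    have h5 : Y ≤ ‖S h (j + N)‖ := by
      have h6 := hstep j hjN
      rw [add_comm N j] at h6
      have h7 : ‖S h N‖ ≤ ‖S h (j + N)‖ + ‖S h (j + N) - S h N‖ := by
        have := norm_sub_le (S h (j + N)) (S h (j + N) - S h N)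
        rwa [sub_sub_cancel] at this
      have h8 : (j : ℝ) * D ≤ Y := by
        calc (j : ℝ) * D ≤ Y / D * D := mul_le_mul_of_nonneg_right (hjH.trans hH1) hDp.le
          _ = Y := by field_simp
      linarith
    have h6 : l ≤ Real.log ((j + N : ℕ) : ℝ) := by
      rw [hl]
      refine Real.log_le_log (by linarith) ?_
      push_cast
      have : (0 : ℝ) ≤ j := Nat.cast_nonneg j
      linarith
    have h7 : ((j + N : ℕ) : ℝ) ≤ 2 * N := by
      have : (j : ℝ) ≤ N := by exact_mod_cast hjN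
      push_cast
      linarith
    have h8 : (0 : ℝ) < ((j + N : ℕ) : ℝ) := by
      push_cast
      have : (0 : ℝ) ≤ j := Nat.cast_nonneg j
      linarith
    have h9 : Y ^ 2 ≤ ∑ h ∈ Hs (j + N), ‖S h (j + N)‖ ^ 2 := by
      refine (pow_le_pow_left₀ hYp.le h5 2).trans ?_
      exact Finset.single_le_sum (f := fun h => ‖S h (j + N)‖ ^ 2) (fun _ _ => by positivity)
        (hmono _ _ (by omega) hh)
    refine mul_le_mul ?_ h9 (by positivity) (by positivity)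
    refine div_le_div₀ (by positivity) (pow_le_pow_left₀ hl0.le h6 _) (by positivity) ?_
    calc ((j + N : ℕ) : ℝ) ^ 3 ≤ (2 * (N : ℝ)) ^ 3 := pow_le_pow_left₀ h8.le h7 3
      _ = 8 * (N : ℝ) ^ 3 := by ring
  have h5 : ∑ j ∈ Finset.range H, l ^ K0 / (8 * (N : ℝ) ^ 3) * Y ^ 2 ≤
      ∑' M : ℕ, (Real.log ((M + N : ℕ) : ℝ) ^ K0 / ((M + N : ℕ) : ℝ) ^ 3 * ∑ h ∈ Hs (M + N), ‖S h (M + N)‖ ^ 2) := by
    refine (Finset.sum_le_sum hterm).trans ?_
    refine ((summable_nat_add_iff N).2 hsum).sum_le_tsum (Finset.range H) (fun M _ => ?_)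
    have h9 : 0 ≤ Real.log ((M + N : ℕ) : ℝ) := Real.log_natCast_nonneg _
    positivity
  rw [Finset.sum_const, Finset.card_range, nsmul_eq_mul] at h5
  have h6 : l / (128 * c3) ≤ (H : ℝ) * (l ^ K0 / (8 * (N : ℝ) ^ 3) * Y ^ 2) := by
    calc l / (128 * c3) = Y / D / 2 * (l ^ K0 / (8 * (N : ℝ) ^ 3) * Y ^ 2) := by
          rw [hY, hD, hK0]
          have h7 : l ^ (3 * k + B' + 1) = l * (l ^ k) ^ 3 * l ^ B' := by ring
          rw [h7]
          field_simp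
          norm_num
      _ ≤ _ := mul_le_mul_of_nonneg_right hH2 (by positivity)
  have h7 : 2 ≤ l / (128 * c3) := by
    rw [le_div_iff₀ (by positivity)]
    linarith
  linarith

/-- **from the mean square to almost every parameter, for families** -/
theorem bcF {ι Ω : Type*} [MeasurableSpace Ω] (m : Measure Ω) [IsFiniteMeasure m] (Hs : ℕ → Finset ι)
    (hmono : ∀ N M, N ≤ M → Hs N ⊆ Hs M) (C2 : ℝ) (B2 : ℕ)
    (hcard : ∀ N : ℕ, 2 ≤ N → ((Hs N).card : ℝ) ≤ C2 * (Real.log N) ^ B2)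
    (a : ι → Ω → ℕ → ℂ) (ham : ∀ h n, Measurable fun ω => a h ω n) (C0 : ℝ) (B' : ℕ)
    (hS : ∀ᵐ ω ∂m, ∀ N : ℕ, ∀ h ∈ Hs N, ‖a h ω (N + 1)‖ ≤ C0 * (Real.log (N + 3)) ^ B')
    (hvar : ∀ K : ℕ, ∃ C : ℝ, 0 ≤ C ∧ ∀ N : ℕ, 2 ≤ N → ∀ h ∈ Hs N,
      ∫⁻ ω, ‖∑ n ∈ Icc 1 N, a h ω n‖ₑ ^ 2 ∂m ≤ ENNReal.ofReal (C * (N : ℝ) ^ 2 / (Real.log N) ^ K)) :
    ∀ᵐ ω ∂m, ∀ K : ℕ, ∀ᶠ N : ℕ in atTop, ∀ h ∈ Hs N, ‖∑ n ∈ Icc 1 N, a h ω n‖ ≤ N / (Real.log N) ^ K := by
  have h1 : ∀ᵐ ω ∂m, ∀ K : ℕ, Summable fun N : ℕ =>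
      Real.log N ^ K / (N : ℝ) ^ 3 * ∑ h ∈ Hs N, ‖∑ n ∈ Finset.Icc 1 N, a h ω n‖ ^ 2 := by
    rw [ae_all_iff]
    intro K
    obtain ⟨C, hC, hC2⟩ := hvar (K + B2 + 2)
    obtain ⟨F, hF⟩ : ∃ F : ℕ → Ω → ℝ≥0∞, F = fun N ω =>
      ENNReal.ofReal (Real.log ((N + 2 : ℕ) : ℝ) ^ K / ((N + 2 : ℕ) : ℝ) ^ 3) *
        ∑ h ∈ Hs (N + 2), ‖∑ n ∈ Finset.Icc 1 (N + 2), a h ω n‖ₑ ^ 2 := ⟨_, rfl⟩
    have hm0 : ∀ N h, Measurable fun ω => ‖∑ n ∈ Finset.Icc 1 (N + 2), a h ω n‖ₑ ^ 2 := fun N h =>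
      Measurable.pow_const (Measurable.enorm (Finset.measurable_fun_sum _ fun n _ => ham h n)) 2
    have hFm : ∀ N, Measurable (F N) := by
      intro N
      rw [hF]
      exact Measurable.const_mul (Finset.measurable_fun_sum _ fun h _ => hm0 N h) _
    have hFi : ∀ N, ∫⁻ ω, F N ω ∂m ≤
        ENNReal.ofReal (C2 * C / (((N + 2 : ℕ) : ℝ) * Real.log ((N + 2 : ℕ) : ℝ) ^ 2)) := by
      intro N
      have hN2 : (2 : ℝ) ≤ ((N + 2 : ℕ) : ℝ) := by
        push_cast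
        have : (0 : ℝ) ≤ N := Nat.cast_nonneg N
        linarith
      have hl0 : 0 < Real.log ((N + 2 : ℕ) : ℝ) := Real.log_pos (by linarith)
      rw [hF]
      rw [lintegral_const_mul _ (Finset.measurable_fun_sum _ fun h _ => hm0 N h)]
      rw [lintegral_finsetSum _ fun h _ => hm0 N h]
      have h2 : ∑ h ∈ Hs (N + 2), ∫⁻ ω, ‖∑ n ∈ Finset.Icc 1 (N + 2), a h ω n‖ₑ ^ 2 ∂m ≤
          ENNReal.ofReal (C2 * (Real.log ((N + 2 : ℕ) : ℝ)) ^ B2 *
            (C * ((N + 2 : ℕ) : ℝ) ^ 2 / (Real.log ((N + 2 : ℕ) : ℝ)) ^ (K + B2 + 2))) := by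
        refine (Finset.sum_le_sum fun h hh => hC2 (N + 2) (by omega) h hh).trans ?_
        rw [sum_const, nsmul_eq_mul, ← ENNReal.ofReal_natCast, ← ENNReal.ofReal_mul (Nat.cast_nonneg _)]
        refine ENNReal.ofReal_le_ofReal ?_
        exact mul_le_mul_of_nonneg_right (hcard (N + 2) (by omega)) (by positivity)
      refine (mul_le_mul_right h2 _).trans ?_
      rw [← ENNReal.ofReal_mul (by positivity)]
      refine ENNReal.ofReal_le_ofReal (le_of_eq ?_)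
      rw [pow_add, pow_add]
      field_simp
    have hfin : ∫⁻ ω, ∑' N, F N ω ∂m ≠ ⊤ := by
      rw [lintegral_tsum fun N => (hFm N).aemeasurable]
      refine ne_of_lt (lt_of_le_of_lt (ENNReal.tsum_le_tsum hFi) ?_)
      exact (Pool.Agent.Y901.VK.bc_summable (C2 * C)).tsum_ofReal_lt_top
    have hae := ae_lt_top (Measurable.tsum hFm) hfin
    filter_upwards [hae] with ω hω
    rw [← summable_nat_add_iff 2]
    refine (ENNReal.summable_toReal hω.ne).congr fun N => ?_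
    have hl0 : 0 ≤ Real.log ((N + 2 : ℕ) : ℝ) := Real.log_natCast_nonneg _
    rw [hF]
    simp only
    rw [ENNReal.toReal_mul, ENNReal.toReal_ofReal (by positivity), ENNReal.toReal_sum (fun h _ => by
      exact ENNReal.pow_ne_top enorm_ne_top)]
    simp only [ENNReal.toReal_pow, toReal_enorm]
  filter_upwards [h1, hS] with ω hω hSω K
  refine detF Hs hmono (fun h N => ∑ n ∈ Finset.Icc 1 N, a h ω n) C0 B' (fun N h hh => ?_) hω K
  rw [Finset.sum_Icc_succ_top (by omega), add_sub_cancel_left]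
  exact hSω N h hh

end Pool.Agent.Q138.GS
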