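import Pool.Agent.Q138.GS.UniT
import Pool.Agent.Y748.VK.Wneg

set_option autoImplicit false

/-!
# Counting prime tuples uniformly in the shifts
-/

namespace Pool.Agent.Q138.GS

open Finset Filter Topology MeasureTheory
open scoped Classical
open Pool.Agent.Y957.VK
open Pool.Agent.H376R2.MR (er)

/-- the shifted logarithm -/
noncomputable def lg3' (n : ℕ) : ℝ := Real.log ((n : ℝ) + 3)

theorem lg3'_ge (n : ℕ) : 1 ≤ lg3' n := lg3 n

theorem lg3'_pos (n : ℕ) : 0 < lg3' n := by linarith [lg3'_ge n]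

theorem neg_div (κ : ℕ) : Neg (fun n => thw n / Lg n ^ κ) ∧ ∀ n : ℕ, ‖thw n / Lg n ^ κ‖ ≤ Real.log (n + 3) := by
  induction κ with
  | zero => simpa using ⟨neg_thw, thw_le⟩
  | succ κ ih =>
    have h1 := Pool.Agent.Y748.VK.wneg _ ih.2 ih.1
    have e : (fun n => thw n / Lg n ^ κ / Lg n) = fun n => thw n / Lg n ^ (κ + 1) := by
      funext n
      rw [div_div, pow_succ]
    rw [e] at h1
    refine ⟨h1, fun n => ?_⟩
    have h2 := ih.2 n
    rw [pow_succ, ← div_div, norm_div, norm_Lg]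
    have h3 := lg3 n
    exact (div_le_self (norm_nonneg _) h3).trans h2

/-- the prime number theorem with weights -/
theorem pnt_w (κ K : ℕ) : ∃ C : ℝ, 0 ≤ C ∧ ∀ N : ℕ, 2 ≤ N →
    |∑ n ∈ Icc 1 N, ((if n.Prime then Real.log n else 0) - 1) / (lg3' n) ^ κ| ≤ C * N / (Real.log N) ^ K := by
  obtain ⟨C, hC⟩ := (neg_div κ).1 0 K
  refine ⟨|C|, abs_nonneg _, fun N hN => ?_⟩
  have h1 := hC N 0 hN (by simp)
  have e : ∑ n ∈ Icc 1 N, thw n / Lg n ^ κ * er 0 (Real.log n) =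
      ((∑ n ∈ Icc 1 N, ((if n.Prime then Real.log n else 0) - 1) / (lg3' n) ^ κ : ℝ) : ℂ) := by
    push_cast
    refine sum_congr rfl fun n _ => ?_
    have e1 : er 0 (Real.log n) = 1 := by simp [er]
    rw [e1, mul_one]
    unfold thw th Lg lg3'
    split_ifs <;> push_cast <;> ring
  rw [e, Complex.norm_real, Real.norm_eq_abs] at h1
  refine h1.trans ?_
  have : 0 ≤ Real.log N := Real.log_natCast_nonneg N
  have : C * N ≤ |C| * N := mul_le_mul_of_nonneg_right (le_abs_self C) (Nat.cast_nonneg _)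
  gcongr

theorem log_gap (N : ℕ) : ∑ n ∈ Icc 1 N, (lg3' N - lg3' n) ≤ N := by
  induction N with
  | zero => simp
  | succ N ih =>
    rw [Finset.sum_Icc_succ_top (by omega)]
    have h1 : ∑ n ∈ Icc 1 N, (lg3' (N + 1) - lg3' n) = ∑ n ∈ Icc 1 N, (lg3' N - lg3' n) + N * (lg3' (N + 1) - lg3' N) := by
      have : ∀ n ∈ Icc 1 N, lg3' (N + 1) - lg3' n = (lg3' N - lg3' n) + (lg3' (N + 1) - lg3' N) := fun n _ => by ring
      rw [sum_congr rfl this, sum_add_distrib, sum_const, Nat.card_Icc, nsmul_eq_mul]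
      simp
    have h2 : lg3' (N + 1) - lg3' N ≤ 1 / ((N : ℝ) + 3) := by
      unfold lg3'
      have hN : (0 : ℝ) < (N : ℝ) + 3 := by positivity
      push_cast
      rw [← Real.log_div (by positivity) hN.ne']
      have h3 := Real.log_le_sub_one_of_pos (show (0 : ℝ) < ((N : ℝ) + 1 + 3) / ((N : ℝ) + 3) by positivity)
      refine h3.trans (le_of_eq ?_)
      field_simp
      ring
    have h3 : (N : ℝ) * (lg3' (N + 1) - lg3' N) ≤ 1 := by
      have hN : (0 : ℝ) ≤ N := Nat.cast_nonneg N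
      calc (N : ℝ) * (lg3' (N + 1) - lg3' N) ≤ N * (1 / ((N : ℝ) + 3)) := mul_le_mul_of_nonneg_left h2 hN
        _ ≤ 1 := by
          rw [mul_one_div, div_le_one (by positivity)]
          linarith
    rw [h1]
    push_cast
    linarith

theorem inv_pow_sub (a b : ℝ) (ha : 0 < a) (hab : a ≤ b) (κ : ℕ) :
    1 / a ^ κ - 1 / b ^ κ ≤ κ * (b - a) / a ^ (κ + 1) := by
  have hb : 0 < b := by linarith
  -- Bernoulli: (a/b)^κ ≥ 1 - κ (1 - a/b)
  have h1 := one_add_mul_le_pow (show (-2 : ℝ) ≤ a / b - 1 by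
    have : 0 < a / b := by positivity
    linarith) κ
  have h2 : 1 - κ * (b - a) / a ≤ (a / b) ^ κ := by
    have h3 : 1 + (κ : ℝ) * (a / b - 1) ≤ (a / b) ^ κ := by
      have e : (1 : ℝ) + (a / b - 1) = a / b := by ring
      rwa [e] at h1
    refine le_trans ?_ h3
    have h4 : 1 - a / b ≤ (b - a) / a := by
      rw [one_sub_div hb.ne', div_le_div_iff₀ hb ha]
      nlinarith
    have h5 : (0 : ℝ) ≤ κ := Nat.cast_nonneg κ
    have h6 := mul_le_mul_of_nonneg_left h4 h5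
    have e : (κ : ℝ) * (b - a) / a = κ * ((b - a) / a) := by ring
    rw [e]
    linarith
  have h3 : 1 / a ^ κ - 1 / b ^ κ = (1 - (a / b) ^ κ) / a ^ κ := by
    rw [div_pow]
    field_simp
  rw [h3]
  calc (1 - (a / b) ^ κ) / a ^ κ ≤ (κ * (b - a) / a) / a ^ κ := by
        refine div_le_div_of_nonneg_right (by linarith) (by positivity)
    _ = _ := by
        rw [div_div, pow_succ]
        ring

/-- the main term -/
theorem main_w (κ : ℕ) : ∃ C : ℝ, 0 ≤ C ∧ ∀ᶠ N : ℕ in atTop,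
    |∑ n ∈ Icc 1 N, 1 / (lg3' n) ^ κ - N / (Real.log N) ^ κ| ≤ C * N / (Real.log N) ^ (κ + 1) := by
  refine ⟨κ * 2 ^ (κ + 1) + 1 + 3 * κ, by positivity, ?_⟩
  filter_upwards [log_pow_small (2 * (κ + 1)) one_pos, lg1, eventually_ge_atTop 3] with N h1 h2 hN
  set ℓ := Real.log N with hℓ
  have hNp : (3 : ℝ) ≤ N := by exact_mod_cast hN
  have hℓp : 0 < ℓ := by linarith
  have hLN : ℓ ≤ lg3' N := Real.log_le_log (by linarith) (by linarith)
  have hLN' : lg3' N ≤ ℓ + 3 / N := by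
    unfold lg3'
    have e : (N : ℝ) + 3 = N * (1 + 3 / N) := by field_simp
    rw [e, Real.log_mul (by linarith) (by positivity)]
    have := Real.log_le_sub_one_of_pos (show (0 : ℝ) < 1 + 3 / N by positivity)
    linarith
  have hc : ∑ n ∈ Icc 1 N, 1 / (lg3' N) ^ κ = N / (lg3' N) ^ κ := by
    rw [sum_const, Nat.card_Icc, nsmul_eq_mul]
    simp [div_eq_mul_inv]
  -- upper bound
  have hup : ∑ n ∈ Icc 1 N, 1 / (lg3' n) ^ κ ≤ N / (lg3' N) ^ κ + (Real.sqrt N + κ * 2 ^ (κ + 1) * N / ℓ ^ (κ + 1)) := by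
    have h3 : ∀ n ∈ Icc 1 N, 1 / (lg3' n) ^ κ - 1 / (lg3' N) ^ κ ≤
        (if (n : ℝ) ≤ Real.sqrt N then 1 else 0) + κ * (lg3' N - lg3' n) * (2 / ℓ) ^ (κ + 1) := by
      intro n hn
      obtain ⟨hn1, hn2⟩ := mem_Icc.1 hn
      have h4 : lg3' n ≤ lg3' N := Real.log_le_log (by positivity) (by
        have : (n : ℝ) ≤ N := by exact_mod_cast hn2
        linarith)
      have h5 : 0 ≤ κ * (lg3' N - lg3' n) * (2 / ℓ) ^ (κ + 1) := by
        have : 0 ≤ lg3' N - lg3' n := by linarith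
        positivity
      split_ifs with h6
      · have h7 : 1 / (lg3' n) ^ κ ≤ 1 := by
          rw [div_le_one (by have := lg3'_pos n; positivity)]
          exact one_le_pow₀ (lg3'_ge n)
        have h8 : 0 ≤ 1 / (lg3' N) ^ κ := by
          have := lg3'_pos N
          positivity
        linarith
      · refine (inv_pow_sub _ _ (lg3'_pos n) h4 κ).trans ?_
        rw [zero_add, div_eq_mul_inv]
        refine mul_le_mul_of_nonneg_left ?_ (by
          have : 0 ≤ lg3' N - lg3' n := by linarith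
          positivity)
        have h7 : ℓ / 2 ≤ lg3' n := by
          have h8 : Real.sqrt N ≤ (n : ℝ) + 3 := by
            push Not at h6
            linarith
          have h9 := Real.log_le_log (by positivity) h8
          rw [Real.log_sqrt (by linarith)] at h9
          exact h9
        calc (lg3' n ^ (κ + 1))⁻¹ ≤ ((ℓ / 2) ^ (κ + 1))⁻¹ := by gcongr
          _ = (2 / ℓ) ^ (κ + 1) := by
              rw [← inv_pow, inv_div]
    have h4 := sum_le_sum h3
    rw [sum_sub_distrib, hc, sum_add_distrib] at h4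
    have h5 : ∑ n ∈ Icc 1 N, (if (n : ℝ) ≤ Real.sqrt N then (1 : ℝ) else 0) ≤ Real.sqrt N := by
      rw [← sum_filter, sum_const, nsmul_eq_mul, mul_one]
      have h6 : ((Icc 1 N).filter (fun n : ℕ => (n : ℝ) ≤ Real.sqrt N)).card ≤ ⌊Real.sqrt N⌋₊ := by
        have h7 : (Icc 1 N).filter (fun n : ℕ => (n : ℝ) ≤ Real.sqrt N) ⊆ Icc 1 ⌊Real.sqrt N⌋₊ := by
          intro n hn
          obtain ⟨h8, h9⟩ := mem_filter.1 hn
          exact mem_Icc.2 ⟨(mem_Icc.1 h8).1, Nat.le_floor h9⟩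
        simpa using card_le_card h7
      calc (((Icc 1 N).filter (fun n : ℕ => (n : ℝ) ≤ Real.sqrt N)).card : ℝ) ≤ ⌊Real.sqrt N⌋₊ := by exact_mod_cast h6
        _ ≤ _ := Nat.floor_le (Real.sqrt_nonneg _)
    have h6 : ∑ n ∈ Icc 1 N, κ * (lg3' N - lg3' n) * (2 / ℓ) ^ (κ + 1) ≤ κ * 2 ^ (κ + 1) * N / ℓ ^ (κ + 1) := by
      rw [← sum_mul, ← mul_sum, div_pow]
      have h7 := log_gap N
      calc (κ : ℝ) * (∑ n ∈ Icc 1 N, (lg3' N - lg3' n)) * (2 ^ (κ + 1) / ℓ ^ (κ + 1))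
          ≤ κ * N * (2 ^ (κ + 1) / ℓ ^ (κ + 1)) := by gcongr
        _ = _ := by ring
    linarith
  have hsq : Real.sqrt N ≤ N / ℓ ^ (κ + 1) := by
    rw [le_div_iff₀ (by positivity)]
    have h3 : ℓ ^ (κ + 1) ≤ Real.sqrt N := by
      rw [Real.le_sqrt (by positivity) (by linarith), ← pow_mul, mul_comm (κ + 1) 2]
      linarith
    calc Real.sqrt N * ℓ ^ (κ + 1) ≤ Real.sqrt N * Real.sqrt N := mul_le_mul_of_nonneg_left h3 (Real.sqrt_nonneg _)
      _ = N := Real.mul_self_sqrt (by linarith)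
  -- comparison of the two logarithms
  have hcmp1 : (N : ℝ) / (lg3' N) ^ κ ≤ N / ℓ ^ κ := by gcongr
  have hcmp2 : (N : ℝ) / ℓ ^ κ - N / (lg3' N) ^ κ ≤ 3 * κ * (N / ℓ ^ (κ + 1)) := by
    have h3 := inv_pow_sub ℓ (lg3' N) hℓp hLN κ
    have h4 : (κ : ℝ) * (lg3' N - ℓ) / ℓ ^ (κ + 1) ≤ κ * 3 / ℓ ^ (κ + 1) := by
      have h5 : lg3' N - ℓ ≤ 3 := by
        have : (3 : ℝ) / N ≤ 1 := by
          rw [div_le_one (by linarith)]
          exact hNp
        linarith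
      gcongr
    calc (N : ℝ) / ℓ ^ κ - N / (lg3' N) ^ κ = N * (1 / ℓ ^ κ - 1 / (lg3' N) ^ κ) := by ring
      _ ≤ N * (κ * 3 / ℓ ^ (κ + 1)) := mul_le_mul_of_nonneg_left (h3.trans h4) (by linarith)
      _ = _ := by ring
  have hlow : (N : ℝ) / (lg3' N) ^ κ ≤ ∑ n ∈ Icc 1 N, 1 / (lg3' n) ^ κ := by
    rw [← hc]
    refine sum_le_sum fun n hn => ?_
    have h4 : lg3' n ≤ lg3' N := Real.log_le_log (by positivity) (by
      have : (n : ℝ) ≤ N := by exact_mod_cast (mem_Icc.1 hn).2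
      linarith)
    have := lg3'_pos n
    gcongr
  have hfin : (κ * 2 ^ (κ + 1) + 1 + 3 * κ) * (N : ℝ) / ℓ ^ (κ + 1) =
      κ * 2 ^ (κ + 1) * N / ℓ ^ (κ + 1) + N / ℓ ^ (κ + 1) + 3 * κ * (N / ℓ ^ (κ + 1)) := by ring
  have hp1 : 0 ≤ (κ : ℝ) * 2 ^ (κ + 1) * N / ℓ ^ (κ + 1) := by positivity
  have hp2 : 0 ≤ (N : ℝ) / ℓ ^ (κ + 1) := by positivity
  have hp3 : 0 ≤ 3 * (κ : ℝ) * (N / ℓ ^ (κ + 1)) := by positivity
  rw [hfin, abs_le]
  constructor
  · linarith
  · linarith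

/-- products of numbers close to one -/
theorem prod_near {ι : Type*} (s : Finset ι) (q : ι → ℝ) (δ : ℝ) (hδ0 : 0 ≤ δ) (hδ1 : δ ≤ 1)
    (h : ∀ i ∈ s, |q i - 1| ≤ δ) : |∏ i ∈ s, q i - 1| ≤ 3 ^ s.card * δ := by
  induction s using Finset.induction_on with
  | empty => simpa using hδ0
  | insert a s ha ih =>
    rw [prod_insert ha, card_insert_of_notMem ha]
    have h1 := ih fun i hi => h i (mem_insert_of_mem hi)
    have h2 := h a (mem_insert_self a s)
    have h3 : |q a| ≤ 2 := by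
      have := abs_sub_abs_le_abs_sub (q a) 1
      rw [abs_one] at this
      linarith
    have h2c : (1 : ℝ) ≤ 3 ^ s.card := one_le_pow₀ (by norm_num)
    have e : q a * ∏ i ∈ s, q i - 1 = q a * (∏ i ∈ s, q i - 1) + (q a - 1) := by ring
    rw [e]
    refine (abs_add_le _ _).trans ?_
    rw [abs_mul]
    have h4 : |q a| * |∏ i ∈ s, q i - 1| ≤ 2 * (3 ^ s.card * δ) :=
      mul_le_mul h3 h1 (abs_nonneg _) (by norm_num)
    rw [pow_succ]
    nlinarith

/-- the size of the values, uniformly in the shifts -/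
theorem val_log (α β : ℝ) (hα : 0 < α) : ∃ C : ℝ, 0 ≤ C ∧ ∃ n0 : ℕ, ∀ n : ℕ, n0 ≤ n → ∀ a : ℝ, |a| ≤ n / 2 →
    |Real.log (⌊α * (n + a) + β⌋₊ : ℕ) - Real.log n| ≤ C := by
  refine ⟨|Real.log (α / 4)| + |Real.log (3 * α)|, by positivity, ⌈4 * (|β| + 1) / α⌉₊ + 1, fun n hn a ha => ?_⟩
  have hn1 : 1 ≤ n := by omega
  have hnp : (1 : ℝ) ≤ n := by exact_mod_cast hn1
  have h1 : 4 * (|β| + 1) ≤ α * n := by
    have h2 : 4 * (|β| + 1) / α ≤ n := by
      refine (Nat.le_ceil _).trans ?_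
      exact_mod_cast (by omega : ⌈4 * (|β| + 1) / α⌉₊ ≤ n)
    rw [div_le_iff₀ hα] at h2
    linarith
  rw [abs_le] at ha
  have hb1 := le_abs_self β
  have hb2 := neg_abs_le β
  have ha0 := abs_nonneg β
  have h2 : α * n / 2 ≤ α * (n + a) := by nlinarith [ha.1]
  have h3 : α * (n + a) ≤ 3 / 2 * (α * n) := by nlinarith [ha.2]
  have h4 := Nat.floor_le (show 0 ≤ α * (n + a) + β by nlinarith)
  have h5 := Nat.sub_one_lt_floor (α * (n + a) + β)
  set m := ⌊α * ((n : ℝ) + a) + β⌋₊ with hm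
  have h6 : α / 4 * n ≤ m := by nlinarith
  have h7 : (m : ℝ) ≤ 3 * α * n := by nlinarith
  have h8 := Real.log_le_log (by positivity) h6
  have h9 := Real.log_le_log (lt_of_lt_of_le (by positivity) h6) h7
  rw [Real.log_mul (by positivity) (by positivity)] at h8 h9
  have h10 := neg_abs_le (Real.log (α / 4))
  have h11 := le_abs_self (Real.log (3 * α))
  rw [abs_le]
  constructor <;> nlinarith [abs_nonneg (Real.log (α / 4)), abs_nonneg (Real.log (3 * α))]

end Pool.Agent.Q138.GS
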