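import Pool.Agent.Q138.GS.Core

set_option autoImplicit false

/-!
# The window function of a sequence: total variation and Fourier transform
-/

namespace Pool.Agent.Q138.GS

open Finset MeasureTheory Filter FourierTransform
open scoped ENNReal
open Pool.Agent.H376R2.MR (er)
open Pool.Agent.Y957.AD (er_norm er_add)

/-- the window -/
noncomputable def Bt (f : ℕ → ℂ) (b β : ℝ) (M1 M2 : ℕ) (y : ℝ) : ℂ :=
  if ⌊Real.exp (b + y) + β⌋₊ ∈ Icc M1 M2 then f ⌊Real.exp (b + y) + β⌋₊ else 0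

/-- the jump points -/
noncomputable def jp (b β : ℝ) (m : ℕ) : ℝ := Real.log ((m : ℝ) - β) - b

/-- indicator of the interval between two jump points -/
noncomputable def ind (b β : ℝ) (m : ℕ) (y : ℝ) : ℂ :=
  (Set.Ico (jp b β m) (jp b β (m + 1))).indicator (fun _ => (1 : ℂ)) y

theorem floor_iff {b β : ℝ} {m : ℕ} (hm : 1 ≤ m) (hβ : β < m) (y : ℝ) :
    ⌊Real.exp (b + y) + β⌋₊ = m ↔ y ∈ Set.Ico (jp b β m) (jp b β (m + 1)) := by
  rw [Nat.floor_eq_iff' (by omega), Set.mem_Ico]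
  unfold jp
  have h1 : 0 < (m : ℝ) - β := by linarith
  have h2 : 0 < ((m + 1 : ℕ) : ℝ) - β := by push_cast; linarith
  rw [sub_le_iff_le_add, lt_sub_iff_add_lt, add_comm y b, Real.log_le_iff_le_exp h1, Real.lt_log_iff_exp_lt h2]
  push_cast
  constructor
  · rintro ⟨h3, h4⟩
    exact ⟨by linarith, by linarith⟩
  · rintro ⟨h3, h4⟩
    exact ⟨by linarith, by linarith⟩

theorem Bt_sum (f : ℕ → ℂ) {b β : ℝ} {M1 M2 : ℕ} (h1 : 1 ≤ M1) (hβ : β < M1) (y : ℝ) :
    Bt f b β M1 M2 y = ∑ m ∈ Icc M1 M2, f m * ind b β m y := by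
  classical
  have h3 : ∀ m ∈ Icc M1 M2, f m * ind b β m y = if ⌊Real.exp (b + y) + β⌋₊ = m then f m else 0 := by
    intro m hm
    rw [mem_Icc] at hm
    have hm1 : (M1 : ℝ) ≤ m := by exact_mod_cast hm.1
    have := floor_iff (b := b) (β := β) (m := m) (by omega) (by linarith) y
    unfold ind
    by_cases h : ⌊Real.exp (b + y) + β⌋₊ = m
    · rw [if_pos h, Set.indicator_of_mem (this.1 h), mul_one]
    · rw [if_neg h, Set.indicator_of_notMem (fun h' => h (this.2 h')), mul_zero]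
  rw [sum_congr rfl h3, sum_ite_eq]
  rfl

theorem Bt_meas (f : ℕ → ℂ) (b β : ℝ) (M1 M2 : ℕ) : Measurable (Bt f b β M1 M2) := by
  have h1 : Measurable fun y : ℝ => ⌊Real.exp (b + y) + β⌋₊ :=
    Nat.measurable_floor.comp (by fun_prop)
  have h2 : Measurable fun n : ℕ => if n ∈ Icc M1 M2 then f n else 0 := measurable_from_nat
  exact h2.comp h1

theorem Bt_le (f : ℕ → ℂ) (hf : ∀ n, ‖f n‖ ≤ 1) (b β : ℝ) (M1 M2 : ℕ) (y : ℝ) : ‖Bt f b β M1 M2 y‖ ≤ 1 := by
  unfold Bt
  split_ifs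
  · exact hf _
  · simp

theorem jp_mono {b β : ℝ} {m n : ℕ} (hβ : β < m) (h : m ≤ n) : jp b β m ≤ jp b β n := by
  unfold jp
  have : (m : ℝ) ≤ n := by exact_mod_cast h
  have := Real.log_le_log (by linarith : 0 < (m : ℝ) - β) (by linarith : (m : ℝ) - β ≤ n - β)
  linarith

theorem Bt_supp (f : ℕ → ℂ) {b β : ℝ} {M1 M2 : ℕ} (h1 : 1 ≤ M1) (hβ : β < M1) {L : ℝ}
    (hL0 : 0 ≤ jp b β M1) (hL : jp b β (M2 + 1) ≤ L) (y : ℝ) (hy : y ∉ Set.Icc 0 L) : Bt f b β M1 M2 y = 0 := by
  rw [Bt_sum f h1 hβ]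
  refine sum_eq_zero fun m hm => ?_
  rw [mem_Icc] at hm
  have hm1 : (M1 : ℝ) ≤ m := by exact_mod_cast hm.1
  unfold ind
  rw [Set.indicator_of_notMem, mul_zero]
  rintro ⟨h3, h4⟩
  apply hy
  have h5 := jp_mono (b := b) hβ hm.1
  have h6 : jp b β (m + 1) ≤ jp b β (M2 + 1) := jp_mono (by push_cast; linarith) (by omega)
  exact ⟨by linarith, by linarith⟩

/-- modulus of continuity of an indicator -/
theorem ind_mod (p q s : ℝ) (hs : 0 ≤ s) :
    (∫ y, ‖(Set.Ico p q).indicator (fun _ => (1 : ℂ)) (y + s) - (Set.Ico p q).indicator (fun _ => (1 : ℂ)) y‖) ≤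
      2 * s := by
  have h1 : ∀ y : ℝ, ‖(Set.Ico p q).indicator (fun _ => (1 : ℂ)) (y + s) -
      (Set.Ico p q).indicator (fun _ => (1 : ℂ)) y‖ ≤
      (Set.Ico (p - s) p).indicator (fun _ => (1 : ℝ)) y + (Set.Ico (q - s) q).indicator (fun _ => (1 : ℝ)) y := by
    intro y
    have ha : 0 ≤ (Set.Ico (p - s) p).indicator (fun _ => (1 : ℝ)) y :=
      Set.indicator_nonneg (fun _ _ => zero_le_one) _
    have hb : 0 ≤ (Set.Ico (q - s) q).indicator (fun _ => (1 : ℝ)) y :=
      Set.indicator_nonneg (fun _ _ => zero_le_one) _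
    by_cases h2 : y + s ∈ Set.Ico p q <;> by_cases h3 : y ∈ Set.Ico p q
    · rw [Set.indicator_of_mem h2, Set.indicator_of_mem h3]
      simp only [sub_self, norm_zero]
      linarith
    · rw [Set.indicator_of_mem h2, Set.indicator_of_notMem h3]
      simp only [sub_zero, norm_one]
      have h4 : y ∈ Set.Ico (p - s) p := by
        refine ⟨by linarith [h2.1], ?_⟩
        by_contra h5
        exact h3 ⟨not_lt.1 h5, by linarith [h2.2]⟩
      rw [Set.indicator_of_mem h4]
      linarith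
    · rw [Set.indicator_of_notMem h2, Set.indicator_of_mem h3]
      simp only [zero_sub, norm_neg, norm_one]
      have h4 : y ∈ Set.Ico (q - s) q := by
        refine ⟨?_, h3.2⟩
        by_contra h5
        exact h2 ⟨by linarith [h3.1], by linarith [not_le.1 h5]⟩
      rw [Set.indicator_of_mem h4]
      linarith
    · rw [Set.indicator_of_notMem h2, Set.indicator_of_notMem h3]
      simp only [sub_self, norm_zero]
      linarith
  have hi : ∀ a : ℝ, Integrable ((Set.Ico (a - s) a).indicator (fun _ => (1 : ℝ))) := fun a =>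
    (integrable_indicator_iff measurableSet_Ico).2 (by simp)
  have hv : ∀ a : ℝ, ∫ y, (Set.Ico (a - s) a).indicator (fun _ => (1 : ℝ)) y = s := fun a => by
    rw [integral_indicator measurableSet_Ico]
    simp [hs]
  refine (integral_mono_of_nonneg (Eventually.of_forall fun _ => norm_nonneg _)
    ((hi p).add (hi q)) (Eventually.of_forall h1)).trans ?_
  simp only [Pi.add_apply]
  rw [integral_add (hi p) (hi q), hv, hv]
  linarith

theorem ind_int (b β : ℝ) (m : ℕ) : Integrable (ind b β m) :=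
  (integrable_indicator_iff measurableSet_Ico).2 (by simp)

theorem Bt_mod (f : ℕ → ℂ) (hf : ∀ n, ‖f n‖ ≤ 1) {b β : ℝ} {M1 M2 : ℕ} (h1 : 1 ≤ M1) (hβ : β < M1) (s : ℝ)
    (hs : 0 ≤ s) : (∫ y, ‖Bt f b β M1 M2 (y + s) - Bt f b β M1 M2 y‖) ≤ (2 * M2) * s := by
  have h2 : ∀ y, ‖Bt f b β M1 M2 (y + s) - Bt f b β M1 M2 y‖ ≤
      ∑ m ∈ Icc M1 M2, ‖ind b β m (y + s) - ind b β m y‖ := by
    intro y
    rw [Bt_sum f h1 hβ, Bt_sum f h1 hβ, ← sum_sub_distrib]
    refine (norm_sum_le _ _).trans (sum_le_sum fun m _ => ?_)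
    rw [← mul_sub, norm_mul]
    exact mul_le_of_le_one_left (norm_nonneg _) (hf m)
  have hi : ∀ m ∈ Icc M1 M2, Integrable fun y => ‖ind b β m (y + s) - ind b β m y‖ := fun m _ =>
    (((ind_int b β m).comp_add_right s).sub (ind_int b β m)).norm
  refine (integral_mono_of_nonneg (Eventually.of_forall fun _ => norm_nonneg _)
    (integrable_finsetSum _ hi) (Eventually.of_forall h2)).trans ?_
  rw [integral_finsetSum _ hi]
  calc ∑ m ∈ Icc M1 M2, ∫ y, ‖ind b β m (y + s) - ind b β m y‖ ≤ ∑ m ∈ Icc M1 M2, 2 * s :=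
        sum_le_sum fun m _ => ind_mod _ _ s hs
    _ = (M2 + 1 - M1 : ℕ) * (2 * s) := by simp
    _ ≤ (2 * M2) * s := by
        have : ((M2 + 1 - M1 : ℕ) : ℝ) ≤ M2 := by exact_mod_cast (by omega : M2 + 1 - M1 ≤ M2)
        nlinarith

/-- substitution in one interval -/
theorem sub_int {b β : ℝ} {m : ℕ} (hβ : β < m) (τ : ℝ) :
    ∫ v in (jp b β m)..(jp b β (m + 1)), er τ v =
      ∫ s in (0:ℝ)..1, ((m : ℝ) + s - β)⁻¹ • er τ (Real.log ((m : ℝ) + s - β) - b) := by
  have h := intervalIntegral.integral_deriv_smul_comp (a := 0) (b := 1)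
    (f := fun s : ℝ => Real.log ((m : ℝ) + s - β) - b) (f' := fun s : ℝ => ((m : ℝ) + s - β)⁻¹)
    (g := fun v => er τ v) ?_ ?_ ?_
  · simp only [Function.comp_def] at h
    rw [h]
    unfold jp
    congr 1
    · simp
    · push_cast
      rfl
  · intro s hs
    rw [Set.uIcc_of_le zero_le_one] at hs
    have hpos : 0 < (m : ℝ) + s - β := by linarith [hs.1]
    have h1 : HasDerivAt (fun s : ℝ => (m : ℝ) + s - β) 1 s := by
      simpa using ((hasDerivAt_id s).const_add (m : ℝ)).sub_const β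
    have := (h1.log hpos.ne').sub_const b
    simpa [one_div] using this
  · intro s hs
    rw [Set.uIcc_of_le zero_le_one] at hs
    have hpos : 0 < (m : ℝ) + s - β := by linarith [hs.1]
    refine ContinuousAt.continuousWithinAt ?_
    refine ContinuousAt.inv₀ ?_ hpos.ne'
    fun_prop
  · unfold er
    fun_prop

theorem four_Bt (f : ℕ → ℂ) {b β : ℝ} {M1 M2 : ℕ} (h1 : 1 ≤ M1) (hβ : β < M1) (ξ : ℝ) :
    𝓕 (Bt f b β M1 M2) ξ = ∫ s in (0:ℝ)..1, ∑ m ∈ Icc M1 M2,
      f m * (((m : ℝ) + s - β)⁻¹ • er (-(2 * Real.pi * ξ)) (Real.log ((m : ℝ) + s - β) - b)) := by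
  set τ : ℝ := -(2 * Real.pi * ξ) with hτ
  rw [Real.fourier_real_eq_integral_exp_smul]
  have e1 : ∀ v : ℝ, Complex.exp (((-2 * Real.pi * v * ξ : ℝ) : ℂ) * Complex.I) • Bt f b β M1 M2 v =
      ∑ m ∈ Icc M1 M2, f m * (Set.Ico (jp b β m) (jp b β (m + 1))).indicator (fun v => er τ v) v := by
    intro v
    rw [Bt_sum f h1 hβ, Finset.smul_sum]
    refine sum_congr rfl fun m _ => ?_
    unfold ind
    by_cases h : v ∈ Set.Ico (jp b β m) (jp b β (m + 1))
    · rw [Set.indicator_of_mem h, Set.indicator_of_mem h, mul_one, smul_eq_mul, mul_comm]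
      congr 1
      unfold er
      congr 3
      rw [hτ]
      ring
    · rw [Set.indicator_of_notMem h, Set.indicator_of_notMem h, mul_zero, smul_zero]
  simp only [e1]
  have hint : ∀ m : ℕ, Integrable ((Set.Ico (jp b β m) (jp b β (m + 1))).indicator (fun v => er τ v)) := by
    intro m
    rw [integrable_indicator_iff measurableSet_Ico]
    refine (ContinuousOn.integrableOn_compact (isCompact_Icc (a := jp b β m) (b := jp b β (m + 1))) ?_).mono_set
      Set.Ico_subset_Icc_self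
    unfold er
    fun_prop
  rw [integral_finsetSum _ fun m _ => (hint m).const_mul _]
  rw [intervalIntegral.integral_finsetSum]
  · refine sum_congr rfl fun m hm => ?_
    have hm1 : (M1 : ℝ) ≤ m := by exact_mod_cast (mem_Icc.1 hm).1
    rw [integral_const_mul, intervalIntegral.integral_const_mul, ← sub_int (by linarith) τ,
      integral_indicator measurableSet_Ico, integral_Ico_eq_integral_Ioc,
      ← intervalIntegral.integral_of_le (jp_mono (by linarith) (by omega))]
  · intro m hm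
    have hm1 : (M1 : ℝ) ≤ m := by exact_mod_cast (mem_Icc.1 hm).1
    refine ContinuousOn.intervalIntegrable ?_
    rw [Set.uIcc_of_le zero_le_one]
    intro s hs
    have hpos : 0 < (m : ℝ) + s - β := by linarith [hs.1]
    refine ContinuousAt.continuousWithinAt ?_
    have hA : ContinuousAt (fun s : ℝ => ((m : ℝ) + s - β)⁻¹) s := ContinuousAt.inv₀ (by fun_prop) hpos.ne'
    have h2 : ContinuousAt (fun s : ℝ => Real.log ((m : ℝ) + s - β)) s :=
      ContinuousAt.log (by fun_prop) hpos.ne'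
    have hB : ContinuousAt (fun s : ℝ => er τ (Real.log ((m : ℝ) + s - β) - b)) s := by
      unfold er
      fun_prop
    exact continuousAt_const.mul (hA.smul hB)

end Pool.Agent.Q138.GS
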